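import Pool.Agent.MP_154433_an.p5.U0
import Pool.Agent.MP_154433_an.t3s.Basic
import Pool.Agent.MP_154433_an.t3.Met
import Pool.Agent.MP_154433_an.t3s.Good
import Pool.Agent.MP_154433_an.t3s.Prod
import Pool.Agent.MP_154433_an.t3s.Unif
import Pool.Agent.MP_154433_an.t3s.Net

/-! Twisted averages for one map (packed). -/

section PkUConv

/-! Row UConv: signed sums along a flat sequence against differences of twisted averages. -/

set_option autoImplicit false
set_option linter.unusedVariables false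
set_option warn.classDefReducibility false

open MeasureTheory ProbabilityTheory Filter Topology Function Finset ComplexConjugate
open scoped BigOperators
open Fib27 (BM)
open Pool.Agent.MP_154433_an

noncomputable section

namespace T5u

open T3x T5x

namespace UConv

theorem norm_ee (t : ℝ) : ‖ee t‖ = 1 := Complex.norm_exp_ofReal_mul_I _

theorem cont_ee : Continuous ee := by
  unfold ee
  fun_prop

theorem av_le (ν : Wt) (M : ℕ) {φ : ℤ → ℂ} {K : ℝ} (h : ∀ d, ‖φ d‖ ≤ K) : ‖ν.av M φ‖ ≤ K := by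
  refine (norm_sum_le _ _).trans ((sum_le_sum fun d _ => ?_).trans_eq
    (show ∑ d ∈ ν.sp M, ν.w M d * K = K by rw [← sum_mul, ν.one, one_mul]))
  rw [norm_smul, Real.norm_of_nonneg (ν.nn M d)]
  exact mul_le_mul_of_nonneg_left (h d) (ν.nn M d)

theorem av_wt {a : ℕ → ℝ} (ha : ∀ n, 0 ≤ a n) {M : ℕ} (h : ∑ n ∈ range M, a n ≠ 0) (φ : ℤ → ℂ) :
    (wtOf a ha).av M φ = ∑ d ∈ range M, ((a d / ∑ n ∈ range M, a n : ℝ) : ℂ) * φ d := by
  simp only [Wt.av, wtOf, if_neg h]
  rw [sum_image fun x _ y _ e => Nat.cast_injective e]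
  simp only [Int.toNat_natCast, Complex.real_smul]

theorem est {a : ℕ → ℝ} (ha : ∀ n, 0 ≤ a n) {M : ℕ} (hM : 1 ≤ M) {ε K : ℝ} (e2 : ε ≤ 1 / 2)
    (hA : |∑ n ∈ range M, a n - M| ≤ ε * M) {φ : ℤ → ℂ} (h : ∀ d, ‖φ d‖ ≤ K) :
    ‖(wtOf a ha).av M φ - un.av M φ - (M : ℂ)⁻¹ * ∑ d ∈ range M, ((a d - 1 : ℝ) : ℂ) * φ d‖ ≤
      ε * K := by
  have m0 : (0 : ℝ) < M := by exact_mod_cast hM
  have A0 : 0 < ∑ n ∈ range M, a n := by
    have := (abs_le.1 hA).1
    nlinarith
  have K0 : 0 ≤ K := (norm_nonneg _).trans (h 0)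
  have s1 : ∑ n ∈ range M, (1 : ℝ) = M := by simp
  rw [un, av_wt ha A0.ne', av_wt _ (by rw [s1]; exact m0.ne'), s1, mul_sum, ← sum_sub_distrib,
    ← sum_sub_distrib]
  generalize hS : ∑ n ∈ range M, a n = A at *
  refine (norm_sum_le _ _).trans ((sum_le_sum (g := fun d => a d * (|A⁻¹ - (M : ℝ)⁻¹| * K))
    fun d _ => ?_).trans ?_)
  · rw [show ((a d / A : ℝ) : ℂ) * φ d - ((1 / M : ℝ) : ℂ) * φ d -
        (M : ℂ)⁻¹ * (((a d - 1 : ℝ) : ℂ) * φ d) = ((a d * (A⁻¹ - (M : ℝ)⁻¹) : ℝ) : ℂ) * φ d by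
      push_cast; ring, norm_mul, Complex.norm_real, Real.norm_eq_abs, abs_mul, abs_of_nonneg (ha d),
      mul_assoc]
    exact mul_le_mul_of_nonneg_left (mul_le_mul_of_nonneg_left (h d) (abs_nonneg _)) (ha d)
  · rw [← sum_mul, hS, ← mul_assoc]
    refine mul_le_mul_of_nonneg_right ?_ K0
    rw [← abs_of_pos A0, ← abs_mul, abs_of_pos A0,
      show A * (A⁻¹ - (M : ℝ)⁻¹) = -(A - M) / M by field_simp; ring, abs_div, abs_neg, abs_of_pos m0,
      div_le_iff₀ m0]
    exact hA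

variable {X : Type} [MeasurableSpace X] {μ : Measure X} [IsProbabilityMeasure μ]

theorem near {u v : ℕ → X → ℂ} {K : ℝ} (hu : ∀ M, AEStronglyMeasurable (u M) μ)
    (hv : ∀ M, AEStronglyMeasurable (v M) μ) (hK : ∀ M, ∀ᵐ x ∂μ, ‖u M x‖ ≤ K)
    (h : ∀ ε : ℝ, 0 < ε → ∀ᶠ M in atTop, ∀ᵐ x ∂μ, ‖u M x - v M x‖ ≤ ε) :
    Tendsto (fun M => ∫ x, ‖u M x‖ ∂μ - ∫ x, ‖v M x‖ ∂μ) atTop (𝓝 0) := by
  refine NormedAddGroup.tendsto_nhds_zero.2 fun ε hε => (h (ε / 2) (half_pos hε)).mono fun M e => ?_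
  have i1 : Integrable (u M) μ := Integrable.of_bound (hu M) K (hK M)
  have i2 : Integrable (fun x => u M x - v M x) μ := Integrable.of_bound ((hu M).sub (hv M)) _ e
  have i3 : Integrable (v M) μ := by simpa using i1.sub' i2
  rw [← integral_sub i1.norm i3.norm]
  refine lt_of_le_of_lt ((norm_integral_le_of_norm_le_const (C := ε / 2)
    (e.mono fun x hx => ?_)).trans_eq (by simp)) (half_lt_self hε)
  exact (abs_norm_sub_norm_le _ _).trans hx

theorem l12 {u : ℕ → X → ℂ} {K : ℝ} (hu : ∀ M, AEStronglyMeasurable (u M) μ)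
    (hK : ∀ M, ∀ᵐ x ∂μ, ‖u M x‖ ≤ K) :
    Tendsto (fun M => ∫ x, ‖u M x‖ ∂μ) atTop (𝓝 0) ↔
      Tendsto (fun M => ∫ x, ‖u M x‖ ^ 2 ∂μ) atTop (𝓝 0) := by
  have i1 : ∀ M, Integrable (fun x => ‖u M x‖) μ := fun M =>
    (Integrable.of_bound (hu M) K (hK M)).norm
  have i2 : ∀ M, Integrable (fun x => ‖u M x‖ ^ 2) μ := fun M =>
    Integrable.of_bound ((hu M).norm.pow 2) (K ^ 2) ((hK M).mono fun x hx => by
      rw [norm_pow, norm_norm]; exact pow_le_pow_left₀ (norm_nonneg _) hx 2)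
  refine ⟨fun h => squeeze_zero (fun M => integral_nonneg fun x => sq_nonneg _) (fun M => ?_)
    (by simpa using h.const_mul K), fun h => ?_⟩
  · rw [← integral_const_mul]
    exact integral_mono_ae (i2 M) ((i1 M).const_mul K) ((hK M).mono fun x hx => by
      beta_reduce; rw [sq]; exact mul_le_mul_of_nonneg_right hx (norm_nonneg _))
  · refine NormedAddGroup.tendsto_nhds_zero.2 fun ε hε =>
      (h.eventually (gt_mem_nhds (show 0 < ε / 2 * (ε / 2) by positivity))).mono fun M e => ?_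
    have s0 := half_pos hε
    rw [Real.norm_of_nonneg (integral_nonneg fun x => norm_nonneg _)]
    have a : ∫ x, ‖u M x‖ ∂μ ≤ ∫ x, (ε / 2 + ‖u M x‖ ^ 2 / (ε / 2)) ∂μ :=
      integral_mono (i1 M) ((integrable_const _).add ((i2 M).div_const _)) fun x => by
        beta_reduce
        rw [← sub_le_iff_le_add', le_div_iff₀ s0]
        nlinarith [sq_nonneg (‖u M x‖ - ε / 2), norm_nonneg (u M x)]
    rw [integral_add (integrable_const _) ((i2 M).div_const _)] at a
    simp only [integral_const, probReal_univ, one_smul, integral_div] at a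
    have := (div_lt_iff₀ s0).2 e
    linarith

end UConv

open UConv in
theorem conv : ConvT := by
  intro a ha hF Y g ⟨hg, C, hC⟩
  refine forall_congr' fun b => forall_congr' fun hb => ?_
  have mp : ∀ d : ℤ, MeasurePreserving (Y.Tz d) Y.μ Y.μ := fun d => T3S.Tz_mp Y.mp d
  have bd : ∀ᵐ y ∂Y.μ, ∀ (d : ℤ) (t : ℝ), ‖g (Y.Tz d y) * ee t‖ ≤ C :=
    (ae_all_iff.2 fun d : ℤ => (mp d).quasiMeasurePreserving.ae hC).mono fun y hy d t => by
      rw [norm_mul, norm_ee, mul_one]; exact hy d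
  have ms : ∀ (M : ℕ) (d : ℤ) (c : ℝ),
      AEStronglyMeasurable (fun y => g (Y.Tz d y) * ee (c * b M y)) Y.μ := fun M d c =>
    (hg.comp_measurePreserving (mp d)).mul
      (cont_ee.measurable.comp ((hb M).const_mul c)).aestronglyMeasurable
  have mt : ∀ (ν : Wt) (M : ℕ), AEStronglyMeasurable (fun y => tav ν Y g M (b M y) y) Y.μ :=
    fun ν M => Finset.aestronglyMeasurable_fun_sum _ fun d _ => (ms M d d).const_smul (ν.w M d)
  have hu := fun M => (mt (wtOf a ha) M).sub (mt un M)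
  have hK : ∀ M, ∀ᵐ y ∂Y.μ, ‖tav (wtOf a ha) Y g M (b M y) y - tav un Y g M (b M y) y‖ ≤ C + C :=
    fun M => bd.mono fun y hy => (norm_sub_le _ _).trans
      (add_le_add (av_le _ M fun d => hy d _) (av_le _ M fun d => hy d _))
  have key := near (μ := Y.μ) (v := fun M y => (M : ℂ)⁻¹ * sav a Y g M (b M y) y)
    (u := fun M y => tav (wtOf a ha) Y g M (b M y) y - tav un Y g M (b M y) y) hu
    (fun M => (Finset.aestronglyMeasurable_fun_sum (range M) fun d _ =>
      (ms M (d : ℤ) (d : ℝ)).const_mul ((a d - 1 : ℝ) : ℂ)).const_mul _) hK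
    fun ε hε => by
      have c0 : 0 < |C| + 1 := by positivity
      filter_upwards [hF (min (1 / 2) (ε / (|C| + 1))) (by positivity), eventually_ge_atTop 1] with
        M h1 h2
      have h3 := h1 0
      simp only [mul_zero, show ee 0 = 1 by simp [ee], mul_one] at h3
      rw [← Complex.ofReal_sum, Complex.norm_real, Real.norm_eq_abs, sum_sub_distrib] at h3
      simp only [sum_const, card_range, nsmul_eq_mul, mul_one] at h3
      refine bd.mono fun y hy => ?_
      have h4 := est ha h2 (min_le_left _ _) h3 (K := |C| + 1)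
        (φ := fun d => g (Y.Tz d y) * ee ((d : ℝ) * b M y))
        fun d => (hy d _).trans (by linarith [le_abs_self C])
      simp only [Int.cast_natCast] at h4
      exact h4.trans ((le_div_iff₀ c0).1 (min_le_right _ _))
  rw [← l12 (u := fun M y => tav (wtOf a ha) Y g M (b M y) y - tav un Y g M (b M y) y) hu hK]
  simp only [norm_mul, norm_inv, Complex.norm_natCast, integral_const_mul] at key
  exact ⟨fun h => by simpa using key.add h, fun h => by simpa using h.sub key⟩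

end T5u

end

end PkUConv

section PkUErgL

/-! Ergodic weights on functions. -/

set_option autoImplicit false

open MeasureTheory ProbabilityTheory Filter Topology Function Finset ComplexConjugate
open scoped BigOperators

noncomputable section

namespace T5u

open T3x T3x.MetL

namespace UErgL

lemma l1_le {Ω : Type} [MeasurableSpace Ω] {μ : Measure Ω} [IsProbabilityMeasure μ]
    (v : Lp ℂ 2 μ) : ∫ x, ‖v x‖ ∂μ ≤ ‖v‖ := by
  rw [integral_norm_eq_lintegral_enorm (Lp.aestronglyMeasurable v),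
    ← eLpNorm_one_eq_lintegral_enorm, Lp.norm_def]
  exact ENNReal.toReal_mono (Lp.eLpNorm_ne_top v)
    (eLpNorm_le_eLpNorm_of_exponent_le one_le_two (Lp.aestronglyMeasurable v))

end UErgL

theorem ergL : ErgLR := by
  intro b ν hν Z F hF h0
  obtain ⟨C, hC⟩ := hF.2
  have hf : MemLp F 2 Z.μ := MemLp.of_bound hF.1 C hC
  have h := erg0 b hν Z 1 (hf.toLp F) fun g g2 gi => by
    simp_rw [b.t.one] at gi
    rw [← orth b Z hf g2 gi]
    refine integral_congr_ae ?_
    filter_upwards [hf.coeFn_toLp, h0] with x h1 h2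
    rw [h1, h2, Pi.zero_apply, sub_zero]
  refine squeeze_zero (fun M => integral_nonneg fun _ => norm_nonneg _) (fun M => ?_)
    (tendsto_zero_iff_norm_tendsto_zero.1 h)
  refine le_of_eq_of_le (integral_congr_ae ?_) (UErgL.l1_le _)
  filter_upwards [sum_coe b Z (ν.sp M) (fun d => ((ν.w M d : ℝ) : ℂ)) (fun d => 1 * d) hf]
    with x hx
  rw [hx]
  simp only [Wt.av, Complex.real_smul, one_mul]

end T5u

end

end PkUErgL

section PkUGood

/-! Row UGood: twisted averages vanish on the structured factor. -/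

set_option autoImplicit false
set_option linter.unusedVariables false
set_option warn.classDefReducibility false

open MeasureTheory ProbabilityTheory Filter Topology Function Finset ComplexConjugate
open scoped BigOperators
open Fib27 (BM)
open Pool.Agent.MP_154433_an

noncomputable section

namespace T5u

open T3x T5x

namespace UGood

open T3S.GoodR

/-- a property that is linear and closed in the mean passes from an algebra to the generated
sigma-algebra -/
theorem slotA {X : Type} [m0 : MeasurableSpace X] {μ : Measure X} [IsProbabilityMeasure μ]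
    (P : (X → ℂ) → Prop)
    (hadd : ∀ g g', MB g → MB g' → P g → P g' → P fun x => g x + g' x)
    (hmul : ∀ (c : ℂ) g, P g → P fun x => c * g x)
    (hapx : ∀ g, MB g → (∀ ε : ℝ, 0 < ε → ∃ g', MB g' ∧ P g' ∧ ∫ x, ‖g x - g' x‖ ∂μ ≤ ε) → P g)
    (S : Set (X → ℝ)) (h1 : (1 : X → ℝ) ∈ S)
    (hm : ∀ φ ∈ S, ∀ φ' ∈ S, φ * φ' ∈ S) (hS : ∀ φ ∈ S, Measurable φ ∧ ∃ C : ℝ, ∀ x, |φ x| ≤ C)
    (hV : ∀ φ ∈ S, P fun x => (φ x : ℂ)) {g : X → ℂ} (hg : MB g)
    (hB : AEStronglyMeasurable[⨆ φ ∈ S, MeasurableSpace.comap φ inferInstance] g μ) : P g := by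
  have hsp : ∀ φ ∈ Submodule.span ℝ S, P fun x => (φ x : ℂ) := by
    intro φ hφ
    induction hφ using Submodule.span_induction with
    | mem x h => exact hV x h
    | zero =>
      have := hmul 0 _ (hV 1 h1)
      simpa using this
    | add f g hf hg ihf ihg =>
      have := hadd _ _ (MB.ofReal (SG.Dens.span_bdd hS hf))
        (MB.ofReal (SG.Dens.span_bdd hS hg)) ihf ihg
      simpa using this
    | smul c f hf ihf =>
      have := hmul (c : ℂ) _ ihf
      simpa using this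
  have hre : ∀ ψ : X → ℝ, (Measurable ψ ∧ ∃ C : ℝ, ∀ x, |ψ x| ≤ C) →
      AEStronglyMeasurable[⨆ φ ∈ S, MeasurableSpace.comap φ inferInstance] ψ μ →
      P fun x => (ψ x : ℂ) := by
    intro ψ hψ hψB
    refine hapx _ (MB.ofReal hψ) fun ε hε => ?_
    obtain ⟨C, hC⟩ := hψ.2
    obtain ⟨φ, hφ, hlt⟩ := SG.Dens.partB h1 hm hS μ ψ ⟨hψB, C, Eventually.of_forall hC⟩ ε hε
    refine ⟨fun x => (φ x : ℂ), MB.ofReal (SG.Dens.span_bdd hS hφ), hsp φ hφ, ?_⟩
    refine le_of_eq_of_le (integral_congr_ae (Eventually.of_forall fun x => ?_)) hlt.le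
    show ‖(ψ x : ℂ) - (φ x : ℂ)‖ = |ψ x - φ x|
    rw [← Complex.ofReal_sub, Complex.norm_real, Real.norm_eq_abs]
  obtain ⟨C, h0, hC⟩ := hg.2
  have b1 : Measurable (fun x => (g x).re) ∧ ∃ C : ℝ, ∀ x, |(g x).re| ≤ C :=
    ⟨Complex.measurable_re.comp hg.1, C, fun x => (Complex.abs_re_le_norm _).trans (hC x)⟩
  have b2 : Measurable (fun x => (g x).im) ∧ ∃ C : ℝ, ∀ x, |(g x).im| ≤ C :=
    ⟨Complex.measurable_im.comp hg.1, C, fun x => (Complex.abs_im_le_norm _).trans (hC x)⟩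
  have v1 := hre _ b1 (Complex.continuous_re.comp_aestronglyMeasurable hB)
  have v2 := hre _ b2 (Complex.continuous_im.comp_aestronglyMeasurable hB)
  have v3 := hadd _ _ (MB.ofReal b1) ((MB.const Complex.I).mul (MB.ofReal b2)) v1
    (hmul Complex.I _ v2)
  have e : g = fun x => ((g x).re : ℂ) + Complex.I * ((g x).im : ℂ) := funext fun x => by
    rw [mul_comm, Complex.re_add_im]
  rw [← e] at v3
  exact v3

theorem nee (t : ℝ) : ‖ee t‖ = 1 := Complex.norm_exp_ofReal_mul_I _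

theorem cee : Continuous ee := by
  unfold ee
  fun_prop

theorem mass {a : ℕ → ℝ} (ha : ∀ n, 0 ≤ a n) (h : Fl a) :
    ∀ᶠ N : ℕ in atTop, ∑ d ∈ range N, |a d - 1| ≤ 3 * N := by
  filter_upwards [h 1 one_pos] with N hN
  have h1 := hN 0
  have e0 : ee 0 = 1 := by simp [ee]
  simp only [mul_zero, e0, mul_one, one_mul] at h1
  rw [← Complex.ofReal_sum, Complex.norm_real, Real.norm_eq_abs] at h1
  have h2 : ∑ d ∈ range N, |a d - 1| ≤ ∑ d ∈ range N, ((a d - 1) + 2) :=
    sum_le_sum fun d _ => abs_le.2 ⟨by linarith [ha d], by linarith⟩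
  rw [sum_add_distrib, sum_const, card_range, nsmul_eq_mul] at h2
  linarith [(abs_le.1 h1).2]

/-- the twisted sum in the form of row Good -/
def O (a : ℕ → ℝ) (Y : Sys) (b : ℕ → Y.X → ℝ) (g : Y.X → ℂ) (N : ℕ) : Y.X → ℂ :=
  op Y.T (fun _ d => a d - 1) 1 (fun d x => ee ((d : ℝ) * b N x)) g N

theorem sav_eq (a : ℕ → ℝ) (Y : Sys) (b : ℕ → Y.X → ℝ) (g : Y.X → ℂ) (N : ℕ) (y : Y.X) :
    sav a Y g N (b N y) y = O a Y b g N y := by
  simp only [sav, O, op, one_mul]
  rfl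

def PV (a : ℕ → ℝ) (Y : Sys) (b : ℕ → Y.X → ℝ) (g : Y.X → ℂ) : Prop :=
  Tendsto (fun N : ℕ => (N : ℝ)⁻¹ * ∫ y, ‖O a Y b g N y‖ ∂Y.μ) atTop (𝓝 0)

variable {a : ℕ → ℝ} {Y : Sys} {b : ℕ → Y.X → ℝ}

theorem mR (hb : ∀ N, Measurable (b N)) (N d : ℕ) : Measurable fun x => ee ((d : ℝ) * b N x) :=
  cee.measurable.comp ((hb N).const_mul _)

theorem nn (g : Y.X → ℂ) (N : ℕ) : 0 ≤ (N : ℝ)⁻¹ * ∫ y, ‖O a Y b g N y‖ ∂Y.μ :=
  mul_nonneg (by positivity) (integral_nonneg fun _ => norm_nonneg _)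

theorem iadd (hb : ∀ N, Measurable (b N)) {g g' : Y.X → ℂ} (hg : MB g) (hg' : MB g') (N : ℕ) :
    (N : ℝ)⁻¹ * ∫ y, ‖O a Y b (fun x => g x + g' x) N y‖ ∂Y.μ ≤
      (N : ℝ)⁻¹ * ∫ y, ‖O a Y b g N y‖ ∂Y.μ + (N : ℝ)⁻¹ * ∫ y, ‖O a Y b g' N y‖ ∂Y.μ := by
  rw [← mul_add]
  exact mul_le_mul_of_nonneg_left
    (int_add zero_le_one (mR hb N) (fun d x => (nee _).le) hg hg' N) (by positivity)

theorem padd (hb : ∀ N, Measurable (b N)) (g g' : Y.X → ℂ) (hg : MB g) (hg' : MB g')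
    (h : PV a Y b g) (h' : PV a Y b g') : PV a Y b fun x => g x + g' x := by
  have h3 := h.add h'
  rw [add_zero] at h3
  exact squeeze_zero (nn _) (iadd hb hg hg') h3

theorem pmul (c : ℂ) (g : Y.X → ℂ) (h : PV a Y b g) : PV a Y b fun x => c * g x := by
  have h3 := h.const_mul ‖c‖
  rw [mul_zero] at h3
  refine h3.congr fun M => ?_
  simp only [O, op_mul, norm_mul, integral_const_mul]
  ring

theorem papx (ha : ∀ n, 0 ≤ a n) (hF : Fl a) (hb : ∀ N, Measurable (b N)) (g : Y.X → ℂ)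
    (hg : MB g)
    (h : ∀ ε : ℝ, 0 < ε → ∃ g', MB g' ∧ PV a Y b g' ∧ ∫ x, ‖g x - g' x‖ ∂Y.μ ≤ ε) :
    PV a Y b g := by
  refine tendsto_order.2 ⟨fun c hc => Eventually.of_forall fun M => hc.trans_le (nn _ _),
    fun c hc => ?_⟩
  obtain ⟨g', hg', hV, hε⟩ := h (c / 6) (by positivity)
  filter_upwards [mass ha hF, (tendsto_order.1 hV).2 (c / 2) (by positivity),
    eventually_ge_atTop 1] with M h1 h2 hM
  have e : g = fun x => g' x + (g x - g' x) := funext fun x => by ring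
  have h3 := iadd (a := a) hb hg' (hg.sub hg') M
  rw [← e] at h3
  have h4 : ∫ y, ‖O a Y b (fun x => g x - g' x) M y‖ ∂Y.μ ≤ _ :=
    op_int Y.mp zero_le_one (fun d x => (nee _).le) (hg.sub hg') M
  have m0 : (0 : ℝ) < M := by exact_mod_cast hM
  have h5 : (∑ d ∈ range M, |a d - 1|) * (1 * ∫ x, ‖g x - g' x‖ ∂Y.μ) ≤ 3 * M * (c / 6) := by
    rw [one_mul]
    exact mul_le_mul h1 hε (integral_nonneg fun x => norm_nonneg _) (by positivity)
  have h6 : (M : ℝ)⁻¹ * ∫ y, ‖O a Y b (fun x => g x - g' x) M y‖ ∂Y.μ ≤ c / 2 := by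
    rw [inv_mul_le_iff₀ m0]
    linarith
  linarith

theorem pbase (h : ProdT) (ha : ∀ n, 0 ≤ a n) (hF : Fl a) (hs : TStr a)
    (hb : ∀ N, Measurable (b N)) {φ : Y.X → ℝ} (hφ : Shape Y.μ Y.T 2 φ) :
    PV a Y b fun x => (φ x : ℂ) := by
  obtain ⟨a1, a2, ph, κ, _, D, a3, a4, a5, a6⟩ := hφ
  have h1 := h a ha hF hs Y κ D a5 b hb
  simp only [sav_eq] at h1
  have hD : MB fun y => ∏ t, D t y := by
    choose b' _ hb' using a5
    exact ⟨Finset.measurable_prod _ fun t _ => (hb' t).1.1, 1, zero_le_one,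
      fun y => T3S.norm_prod_le_one _ fun t _ => (hb' t).1.2 y⟩
  refine squeeze_zero (nn _) (fun M => ?_) h1
  refine mul_le_mul_of_nonneg_left ?_ (by positivity)
  refine integral_mono_of_nonneg (Eventually.of_forall fun x => norm_nonneg _)
    ((op_MB zero_le_one (mR hb M) (fun d x => (nee _).le) hD M).intn Y.μ) ?_
  filter_upwards [ae_all_iff.2 a4] with x hx
  have e : O a Y b (fun x => (φ x : ℂ)) M x = ph x * O a Y b (fun y => ∏ t, D t y) M x := by
    simp only [O, op, Finset.mul_sum, a6, hx]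
    exact Finset.sum_congr rfl fun d _ => by ring
  rw [e, norm_mul]
  refine mul_le_of_le_one_left (norm_nonneg _) ?_
  rw [Complex.norm_real, Real.norm_eq_abs]
  exact a3 x

end UGood

open UGood T3S.GoodR in
theorem goodT : GoodTR := by
  intro h a ha hF hs Y g hg b hb
  have hB : T3S.B0 Y.μ Y.T 2 ≤ Y.ms := iSup₂_le fun φ hφ =>
    (shape Y.mp 2 (Submonoid.subset_closure hφ)).1.comap_le
  obtain ⟨g', h1, h2, h3⟩ := rep _ hB (f := g) ⟨hg.1, hg.2⟩
  have hV : PV a Y b g' :=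
    slotA (μ := Y.μ) (PV a Y b) (padd hb) pmul (papx ha hF hb)
      (Submonoid.closure (T3S.Gen Y.μ Y.T 2) : Set (Y.X → ℝ)) (one_mem _)
      (fun φ hφ φ' hφ' => mul_mem hφ hφ')
      (fun φ hφ => ⟨(shape Y.mp 2 hφ).1, 1, (shape Y.mp 2 hφ).2.1⟩)
      (fun φ hφ => pbase h ha hF hs hb (shape Y.mp 2 hφ)) h1
      (h2.mono (iSup₂_le fun φ hφ => le_iSup₂_of_le φ (Submonoid.subset_closure hφ) le_rfl))
  have h4 : ∀ᵐ x ∂Y.μ, ∀ v : ℤ, g (T3S.Tz Y.T v x) = g' (T3S.Tz Y.T v x) :=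
    ae_all_iff.2 fun v => (T3S.Tz_mp Y.mp v).quasiMeasurePreserving.ae h3
  refine hV.congr fun N => ?_
  congr 1
  refine integral_congr_ae ?_
  filter_upwards [h4] with x hx
  rw [sav_eq]
  simp only [O, op, hx]

end T5u

end

end PkUGood

section PkUDw

/-! Row UDw: one van der Corput step removes the twist. -/

set_option autoImplicit false
set_option linter.unusedVariables false
set_option warn.classDefReducibility false

open MeasureTheory ProbabilityTheory Filter Topology Function Finset ComplexConjugate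
open scoped BigOperators
open Pool.Agent.MP_154433_an

noncomputable section

namespace T5u

open T3x T5x

namespace UDw

theorem norm_ee (t : ℝ) : ‖ee t‖ = 1 := Complex.norm_exp_ofReal_mul_I _

theorem wt_one (M : ℕ) : T3S.Wt (fun _ => 1) M = M := by simp [T3S.Wt]

theorem pw : T3S.PW (T3S.nb fun _ => 1) := by
  refine ⟨fun M d => ?_, ?_⟩
  · rw [T3S.nb, wt_one]
    positivity
  · filter_upwards [eventually_ge_atTop 1] with M hM
    have : (M : ℝ) ≠ 0 := by exact_mod_cast (by omega : M ≠ 0)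
    simp only [T3S.nb, wt_one, sum_const, card_range, nsmul_eq_mul]
    field_simp

theorem tav_un (X : Sys) (G : X.X → ℂ) {M : ℕ} (hM : 1 ≤ M) (t : ℝ) (x : X.X) :
    tav un X G M t x = ∑ d ∈ range M, ((T3S.nb (fun _ => 1) M d : ℝ) : ℂ) *
      (G (T3S.Tz X.T (d : ℤ) x) * ee ((d : ℝ) * t)) := by
  have h : ¬ (∑ n ∈ range M, (1 : ℝ)) = 0 := by
    simp only [sum_const, card_range, nsmul_eq_mul, mul_one, Nat.cast_eq_zero]
    omega
  simp only [tav, Wt.av, un, wtOf, if_neg h]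
  rw [sum_image fun a _ b _ e => Nat.cast_injective e]
  refine sum_congr rfl fun d _ => ?_
  rw [Complex.real_smul, Int.cast_natCast]
  rfl

theorem ee_pair (a a' : ℝ) (d t : ℝ) :
    ee ((d + a') * t) * conj (ee ((d + a) * t)) = ee ((a' - a) * t) := by
  rw [ee, ee, ee, ← Complex.exp_conj, ← Complex.exp_add, map_mul, Complex.conj_ofReal,
    Complex.conj_I]
  congr 1
  push_cast
  ring

theorem integral_expR {X : Type} [MeasurableSpace X] {μ : Measure X} {ι : Type} (s : Finset ι)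
    {f : ι → X → ℝ} (h : ∀ i ∈ s, Integrable (f i) μ) :
    Integrable (fun x => 𝔼 i ∈ s, f i x) μ ∧
      ∫ x, 𝔼 i ∈ s, f i x ∂μ = 𝔼 i ∈ s, ∫ x, f i x ∂μ := by
  simp only [Finset.expect_eq_sum_div_card]
  exact ⟨(integrable_finsetSum s h).div_const _, by rw [integral_div, integral_finsetSum s h]⟩

end UDw

open UDw in
theorem dw : DwR := by
  intro hN hV hG X G hG1 H hH s η hs hη
  have : Nonempty (Fin H) := ⟨⟨0, hH⟩⟩
  set w := T3S.nb fun _ => (1 : ℝ) with hw
  have hA : T3S.AsInv w := by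
    refine hN.2.2.2 _ (fun _ => zero_le_one) antitone_const ?_
    rw [show T3S.Wt (fun _ => 1) = fun M : ℕ => (M : ℝ) from funext wt_one]
    exact tendsto_natCast_atTop_atTop
  let D : Fin H → Fin H → X.X → ℂ := fun h h' =>
    T3S.ddX X.T (1 * (((h' : ℕ) : ℤ) - ((h : ℕ) : ℤ))) G
  let K : Fin H → Fin H → X.X → ℂ := fun h h' y => D h h' (T3S.Tz X.T ((h : ℕ) : ℤ) y)
  have hD : ∀ h h', T3S.MB1 (D h h') := fun h h' => hG1.ddX _ _
  have hK : ∀ h h', T3S.MB1 (K h h') := fun h h' => (hD h h').tz _ _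
  let A : ℕ → Fin H → Fin H → X.X → ℂ := fun M h h' =>
    T3S.wavg X.T w (fun _ : Fin 1 => (1 : ℤ)) (fun _ => K h h') M
  have h2 : ∀ᶠ M in atTop, ∀ h h', ∫ x, ‖A M h h' x‖ ^ 2 ∂X.μ ≤
      T3S.QX X.μ X.T H 1 (Fin.tail fun _ : Fin 2 => (1 : ℤ)) (D h h') + s * η / 2 := by
    refine eventually_all.2 fun h => eventually_all.2 fun h' => ?_
    filter_upwards [hG w pw hA X.X X.μ X.T X.mp H hH 0 (fun _ => 1) (fun _ => K h h')
      (fun _ => hK h h') (s * η / 2) (by positivity)] with M hM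
    rw [pow_zero, pow_one, T3S.QX_tz X.mp H _ _ _ (hD h h')] at hM
    have e : (Fin.cons (1 : ℤ) (fun j : Fin 0 => (1 : ℤ) - 1) : Fin 1 → ℤ) =
        Fin.tail fun _ : Fin 2 => (1 : ℤ) := by
      funext i
      rw [Fin.eq_zero i]
      rfl
    exact hM.trans_eq (by rw [← e])
  filter_upwards [h2, hV w pw hA H hH (η / 2) (by positivity), eventually_ge_atTop 1]
    with M h2 h1 hM b hb
  have hI : ∀ h h', Integrable (fun x => ‖A M h h' x‖ ^ 2) X.μ := fun h h' => by
    refine Integrable.of_bound ((T3S.wavg_meas X.T w _ (fun _ => (hK h h').1) M).norm.pow_const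
      2).aestronglyMeasurable ((∑ d ∈ range M, |w M d|) ^ 2) (Eventually.of_forall fun x => ?_)
    rw [Real.norm_of_nonneg (sq_nonneg _)]
    exact pow_le_pow_left₀ (norm_nonneg _) (T3S.wavg_norm_le X.T w _ (fun _ => (hK h h').2) M x) 2
  have hI1 := fun h => integral_expR (μ := X.μ) univ fun h' _ => hI h h'
  have hI2 := integral_expR (μ := X.μ) univ fun h _ => (hI1 h).1
  have hp : ∀ x, ‖tav un X G M (b x) x‖ ^ 2 ≤
      s + (𝔼 h : Fin H, 𝔼 h' : Fin H, ‖A M h h' x‖ ^ 2) / s + η / 2 := fun x => by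
    rw [tav_un X G hM]
    refine (h1 (fun d => G (T3S.Tz X.T (d : ℤ) x) * ee ((d : ℝ) * b x)) fun d => ?_).trans ?_
    · rw [norm_mul, norm_ee, mul_one]
      exact hG1.2 _
    refine add_le_add_left ?_ _
    have e : s + (𝔼 h : Fin H, 𝔼 h' : Fin H, ‖A M h h' x‖ ^ 2) / s =
        𝔼 h : Fin H, 𝔼 h' : Fin H, (s + ‖A M h h' x‖ ^ 2 / s) := by
      simp only [expect_add_distrib, expect_const univ_nonempty, expect_div]
    rw [e, T3S.re_exp]
    refine expect_le_expect fun h _ => ?_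
    rw [T3S.re_exp]
    refine expect_le_expect fun h' _ => ?_
    have e2 : ∑ d ∈ range M, (w M d : ℂ) *
        (G (T3S.Tz X.T ((d + h' : ℕ) : ℤ) x) * ee (((d + h' : ℕ) : ℝ) * b x) *
          conj (G (T3S.Tz X.T ((d + h : ℕ) : ℤ) x) * ee (((d + h : ℕ) : ℝ) * b x))) =
        A M h h' x * ee ((((h' : ℕ) : ℝ) - ((h : ℕ) : ℝ)) * b x) := by
      simp only [A, T3S.wavg, sum_mul]
      refine sum_congr rfl fun d _ => ?_
      rw [← ee_pair (h : ℕ) (h' : ℕ) d (b x)]
      simp only [Fin.prod_univ_one, K, D, T3S.ddX, ← T3S.Tz_add, map_mul]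
      rw [show (1 : ℤ) * (((h' : ℕ) : ℤ) - ((h : ℕ) : ℤ)) + ((h : ℕ) : ℤ) + 1 * (d : ℤ) =
        ((d + h' : ℕ) : ℤ) by push_cast; ring,
        show ((h : ℕ) : ℤ) + 1 * (d : ℤ) = ((d + h : ℕ) : ℤ) by push_cast; ring]
      rw [Nat.cast_add (R := ℝ), Nat.cast_add (R := ℝ)]
      ring
    rw [e2]
    refine (Complex.re_le_norm _).trans ?_
    rw [norm_mul, norm_ee, mul_one, ← sub_le_iff_le_add', le_div_iff₀ hs]
    nlinarith [sq_nonneg (‖A M h h' x‖ - s), norm_nonneg (A M h h' x)]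
  have hc : Integrable (fun x => s + (𝔼 h : Fin H, 𝔼 h' : Fin H, ‖A M h h' x‖ ^ 2) / s) X.μ :=
    (integrable_const s).add (hI2.1.div_const s)
  refine (integral_mono_of_nonneg (Eventually.of_forall fun x => sq_nonneg _)
    (hc.add (integrable_const (η / 2))) (Eventually.of_forall hp)).trans ?_
  have e3 : ∫ x, s + (𝔼 h : Fin H, 𝔼 h' : Fin H, ‖A M h h' x‖ ^ 2) / s + η / 2 ∂X.μ =
      s + (𝔼 h : Fin H, 𝔼 h' : Fin H, ∫ x, ‖A M h h' x‖ ^ 2 ∂X.μ) / s + η / 2 := by
    rw [integral_add hc (integrable_const _),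
      integral_add (integrable_const s) (hI2.1.div_const s), integral_div, hI2.2]
    simp only [integral_const, probReal_univ, one_smul, fun h => (hI1 h).2]
  refine (le_of_eq e3).trans ?_
  have h4 : (𝔼 h : Fin H, 𝔼 h' : Fin H, ∫ x, ‖A M h h' x‖ ^ 2 ∂X.μ) ≤
      T3S.QX X.μ X.T H 2 (fun _ => 1) G + s * η / 2 := by
    have e : T3S.QX X.μ X.T H 2 (fun _ => 1) G + s * η / 2 = 𝔼 h : Fin H, 𝔼 h' : Fin H,
        (T3S.QX X.μ X.T H 1 (Fin.tail fun _ : Fin 2 => (1 : ℤ)) (D h h') + s * η / 2) := by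
      simp only [expect_add_distrib, expect_const univ_nonempty]
      rfl
    rw [e]
    exact expect_le_expect fun h _ => expect_le_expect fun h' _ => h2 h h'
  have h5 := div_le_div_of_nonneg_right h4 hs.le
  rw [add_div, show s * η / 2 / s = η / 2 by field_simp] at h5
  linarith

end T5u

end

end PkUDw

section PkUNetP

/-! Row UNetP: a small family of sequences approximates all products of blocks. -/

set_option autoImplicit false
set_option linter.unusedVariables false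

open Filter Topology Function
open scoped BigOperators
open Pool.Agent.MP_154433_an Pool.Agent.MP_154433_an.T3S

noncomputable section

namespace T5u

theorem netP : NetPR := by
  classical
  intro h1 h2 J b hb ε hε
  obtain ⟨C0, hC, hC0⟩ : ∃ C0 : ℕ, 1 ≤ C0 ∧ ∀ t i, 2 * (((2 : ℕ) : ℤ) + |b t i|) ≤ C0 := by
    refine ⟨2 * (2 + ∑ p : Fin J × Fin 3, (b p.1 p.2).natAbs) + 1, by omega, fun t i => ?_⟩
    have := Finset.single_le_sum (f := fun p : Fin J × Fin 3 => (b p.1 p.2).natAbs)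
      (fun _ _ => Nat.zero_le _) (Finset.mem_univ (t, i))
    rw [Int.abs_eq_natAbs]
    simp only at this
    omega
  have hCr : (0 : ℝ) < C0 := by exact_mod_cast hC
  obtain ⟨C1, hC1, hV⟩ := h2 2 (((C0 : ℝ) ^ (2 + 1)) ^ 2 ^ (2 + 1)) (ε / (2 * (J + 1) * C0))
    (by positivity) (by positivity)
  have key : ∀ M : ℕ, ∃ S : Finset (ℕ → ℂ), (∀ c ∈ S, B1 c) ∧
      (1 ≤ M → (S.card : ℝ) ≤
        Real.exp ((1 + J * C1 * (Real.log C0 + 1) ^ 1) * (Real.log M + 1))) ∧
      (1 ≤ M → 24 * (J + 1) / ε ≤ (M : ℝ) →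
        ∀ u : Fin J → ℤ → ℂ, (∀ t, u t ∈ CZ (b t) (M ^ 2)) →
          ∃ c : ℕ → ℕ → ℂ, (∀ n < M, c n ∈ S) ∧ ∀ d < M,
            ∑ n ∈ Finset.range M, ‖∏ t, u t ((n : ℤ) + (d : ℤ)) - c n d‖ ≤ ε * M) := by
    intro M
    rcases Nat.eq_zero_or_pos M with rfl | hM
    · exact ⟨∅, by simp, fun h => absurd h (by omega), fun h => absurd h (by omega)⟩
    have : NeZero (C0 * M) := ⟨(Nat.mul_pos hC hM).ne'⟩
    obtain ⟨V, hV1, hV2, hV3⟩ := hV (C0 * M)
    have hMr : (0 : ℝ) < M := by exact_mod_cast hM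
    refine ⟨((Finset.range M) ×ˢ Fintype.piFinset fun _ : Fin J => V).image
      fun p d => ∏ t, p.2 t (((p.1 : ℤ) + (d : ℤ) : ℤ) : ZMod (C0 * M)), fun c hc => ?_,
      fun _ => ?_, fun _ hM1 u hu => ?_⟩
    · obtain ⟨p, hp, rfl⟩ := Finset.mem_image.1 hc
      exact fun d => norm_prod_le_one _ fun t _ =>
        hV1 _ (Fintype.mem_piFinset.1 (Finset.mem_product.1 hp).2 t) _
    · rw [LG, ZMod.card, ← pow_one (Real.log _ + 1)] at hV2
      have h3 := Net.card_le (J := J) hM hC le_rfl hC1 hV2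
      rw [pow_one (Real.log M + 1)] at h3
      refine le_trans ?_ h3
      have := Finset.card_image_le (s := (Finset.range M) ×ˢ Fintype.piFinset fun _ : Fin J => V)
        (f := fun p (d : ℕ) => ∏ t, p.2 t (((p.1 : ℤ) + (d : ℤ) : ℤ) : ZMod (C0 * M)))
      rw [Finset.card_product, Finset.card_range, Fintype.card_piFinset_const] at this
      exact_mod_cast this
    · choose w hw1 hw2 using fun t => h1 2 (by norm_num) (b t) 2 C0 M (M ^ 2) (hb t) (hC0 t)
        (Nat.one_le_pow _ _ hM) (u t) (hu t)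
      choose v hv1 hv2 using fun t => hV3 (w t) (hw1 t)
      have hδ : (4 * (((2 : ℕ) : ℝ) + 1) * M / (M ^ 2 : ℕ) : ℝ) ≤ ε / (2 * (J + 1)) := by
        rw [div_le_iff₀ hε] at hM1
        push_cast
        rw [div_le_div_iff₀ (by positivity) (by positivity)]
        nlinarith
      refine ⟨fun n d => ∏ t, v t (((n : ℤ) + (d : ℤ) : ℤ) : ZMod (C0 * M)), fun n hn => ?_,
        fun d hd => ?_⟩
      · exact Finset.mem_image_of_mem _ (Finset.mem_product.2
          (⟨Finset.mem_range.2 hn, Fintype.mem_piFinset.2 hv1⟩ : (n, v).1 ∈ _ ∧ (n, v).2 ∈ _))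
      have step : ∀ n ∈ Finset.range M,
          ‖∏ t, u t ((n : ℤ) + (d : ℤ)) - ∏ t, v t (((n : ℤ) + (d : ℤ) : ℤ) : ZMod (C0 * M))‖ ≤
          ∑ t, (ε / (2 * (J + 1)) + ‖w t (((n : ℤ) + (d : ℤ) : ℤ) : ZMod (C0 * M)) -
              v t (((n : ℤ) + (d : ℤ) : ℤ) : ZMod (C0 * M))‖) := by
        intro n hn
        refine (norm_prod_sub_le _ (fun t => CZ_B1 (hu t) _)
          fun t => hV1 _ (hv1 t) _).trans (Finset.sum_le_sum fun t _ => ?_)
        have e2 : |(n : ℤ) + (d : ℤ)| ≤ ((2 : ℕ) : ℤ) * M := by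
          have a1 : (n : ℤ) ≤ M := by exact_mod_cast (Finset.mem_range.1 hn).le
          have a2 : (d : ℤ) ≤ M := by exact_mod_cast hd.le
          rw [abs_of_nonneg (by positivity)]
          push_cast
          linarith
        exact (norm_sub_le_norm_sub_add_norm_sub _ _ _).trans
          (add_le_add ((hw2 t _ e2).trans hδ) le_rfl)
      refine (Finset.sum_le_sum step).trans ?_
      rw [Finset.sum_comm]
      have e3 : ∀ t ∈ (Finset.univ : Finset (Fin J)), ∑ n ∈ Finset.range M, (ε / (2 * (J + 1)) +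
          ‖w t (((n : ℤ) + (d : ℤ) : ℤ) : ZMod (C0 * M)) -
            v t (((n : ℤ) + (d : ℤ) : ℤ) : ZMod (C0 * M))‖) ≤ ε / (J + 1) * M := fun t _ => by
        rw [Finset.sum_add_distrib, Finset.sum_const, Finset.card_range, nsmul_eq_mul]
        have a1 := Net.sum_le (N := C0 * M) (M := M) (Nat.le_mul_of_pos_left M hC) (d : ℤ)
          (F := fun x => ‖w t x - v t x‖) fun x => norm_nonneg _
        have a2 := mul_le_mul_of_nonneg_left (hv2 t) (Nat.cast_nonneg (α := ℝ) (C0 * M))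
        have a3 : ((C0 * M : ℕ) : ℝ) * (ε / (2 * (J + 1) * C0)) = M * (ε / (2 * (J + 1))) := by
          push_cast
          field_simp
        have a4 : ε / (J + 1) * M = M * (ε / (2 * (J + 1))) + M * (ε / (2 * (J + 1))) := by
          field_simp
          ring
        rw [a4]
        exact add_le_add le_rfl (a1.trans (a2.trans a3.le))
      refine (Finset.sum_le_sum e3).trans ?_
      rw [Finset.sum_const, Finset.card_univ, Fintype.card_fin, nsmul_eq_mul, ← mul_assoc]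
      refine mul_le_mul_of_nonneg_right ?_ hMr.le
      rw [← mul_div_assoc, div_le_iff₀ (by positivity)]
      nlinarith
  choose S hS1 hS2 hS3 using key
  refine ⟨_, S, hS1, hS2, ?_⟩
  filter_upwards [eventually_ge_atTop 1,
    tendsto_natCast_atTop_atTop.eventually_ge_atTop (24 * ((J : ℝ) + 1) / ε)] with M a1 a2
  exact hS3 M a1 a2

end T5u

end

end PkUNetP

section PkUNetT

/-! Nets with a frequency for each base point. -/

set_option autoImplicit false
set_option linter.unusedVariables false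
set_option warn.classDefReducibility false

open MeasureTheory ProbabilityTheory Filter Topology Function Finset ComplexConjugate
open scoped BigOperators
open Pool.Agent.MP_154433_an

noncomputable section

namespace T5u

open T3x T5x

namespace UNetT

theorem ee_add (s t : ℝ) : ee (s + t) = ee s * ee t := by
  rw [ee, ee, ee, ← Complex.exp_add]
  congr 1
  push_cast
  ring

theorem ee_int (k : ℤ) : ee (k : ℝ) = 1 := by
  rw [ee, ← Complex.exp_int_mul_two_pi_mul_I k]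
  congr 1
  push_cast
  ring

theorem ee_lip (s t : ℝ) : ‖ee s - ee t‖ ≤ 7 * |s - t| := by
  have h : ee s - ee t = (ee (s - t) - 1) * ee t := by
    rw [sub_mul, ← ee_add, sub_add_cancel, one_mul]
  rw [h, norm_mul, UConv.norm_ee, mul_one, ee, mul_comm _ Complex.I]
  refine Real.norm_exp_I_mul_ofReal_sub_one_le.trans ?_
  rw [Real.norm_eq_abs, abs_mul, abs_of_pos Real.two_pi_pos]
  exact mul_le_mul_of_nonneg_right (by linarith [Real.pi_le_four, Real.pi_lt_d2]) (abs_nonneg _)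

theorem grid (M : ℕ) (hM : 1 ≤ M) (θ : ℝ) : ∃ j ∈ range (M ^ 2), ∀ d < M,
    ‖ee ((d : ℝ) * θ) - ee ((d : ℝ) * ((j : ℝ) / (M : ℝ) ^ 2))‖ ≤ 7 / M := by
  have hM0 : (0 : ℝ) < M := by exact_mod_cast hM
  have hM2 : (0 : ℝ) < (M : ℝ) ^ 2 := by positivity
  have h0 : 0 ≤ Int.fract θ * (M : ℝ) ^ 2 := mul_nonneg (Int.fract_nonneg θ) hM2.le
  refine ⟨⌊Int.fract θ * (M : ℝ) ^ 2⌋₊, mem_range.2 ((Nat.floor_lt h0).2 ?_), fun d hd => ?_⟩
  · push_cast
    exact mul_lt_of_lt_one_left hM2 (Int.fract_lt_one θ)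
  · have e : (d : ℝ) * θ = (d : ℝ) * Int.fract θ + (((d : ℤ) * ⌊θ⌋ : ℤ) : ℝ) := by
      rw [Int.fract]; push_cast; ring
    rw [e, ee_add, ee_int, mul_one]
    refine (ee_lip _ _).trans ?_
    have a1 := Nat.floor_le h0
    have a2 := Nat.lt_floor_add_one (Int.fract θ * (M : ℝ) ^ 2)
    have a3 : |Int.fract θ - (⌊Int.fract θ * (M : ℝ) ^ 2⌋₊ : ℝ) / (M : ℝ) ^ 2| ≤ 1 / (M : ℝ) ^ 2 := by
      rw [show Int.fract θ - (⌊Int.fract θ * (M : ℝ) ^ 2⌋₊ : ℝ) / (M : ℝ) ^ 2 =
        (Int.fract θ * (M : ℝ) ^ 2 - (⌊Int.fract θ * (M : ℝ) ^ 2⌋₊ : ℝ)) / (M : ℝ) ^ 2 by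
          field_simp, abs_div, abs_of_pos hM2]
      exact div_le_div_of_nonneg_right (abs_le.2 ⟨by linarith, by linarith⟩) hM2.le
    have a4 : (d : ℝ) ≤ M := by exact_mod_cast hd.le
    rw [← mul_sub, abs_mul, abs_of_nonneg (Nat.cast_nonneg d)]
    calc 7 * ((d : ℝ) * _) ≤ 7 * ((M : ℝ) * (1 / (M : ℝ) ^ 2)) := by gcongr
      _ = 7 / M := by field_simp

end UNetT

open UNetT in
theorem netT : NetTR := by
  classical
  intro hP J b hb ε hε
  obtain ⟨C, S, h1, h2, h3⟩ := hP J b hb (ε / 2) (half_pos hε)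
  refine ⟨C + 2, fun M => (S M ×ˢ range (M ^ 2)).image fun q d =>
    q.1 d * ee ((d : ℝ) * ((q.2 : ℝ) / (M : ℝ) ^ 2)), ?_, ?_, ?_⟩
  · intro M c hc
    obtain ⟨q, hq, rfl⟩ := mem_image.1 hc
    intro d
    rw [norm_mul, UConv.norm_ee, mul_one]
    exact h1 M _ (mem_product.1 hq).1 d
  · intro M hM
    have hM0 : (0 : ℝ) < M := by exact_mod_cast hM
    have a1 : (((S M ×ˢ range (M ^ 2)).image fun (q : (ℕ → ℂ) × ℕ) (d : ℕ) =>
        q.1 d * ee ((d : ℝ) * ((q.2 : ℝ) / (M : ℝ) ^ 2))).card : ℝ) ≤ (S M).card * (M : ℝ) ^ 2 := by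
      have := card_image_le (s := S M ×ˢ range (M ^ 2)) (f := fun (q : (ℕ → ℂ) × ℕ) (d : ℕ) =>
        q.1 d * ee ((d : ℝ) * ((q.2 : ℝ) / (M : ℝ) ^ 2)))
      rw [card_product, card_range] at this
      exact_mod_cast this
    have a2 : (M : ℝ) ^ 2 ≤ Real.exp (2 * (Real.log M + 1)) := by
      calc (M : ℝ) ^ 2 = Real.exp (2 * Real.log M) := by
            rw [show 2 * Real.log M = ((2 : ℕ) : ℝ) * Real.log M by norm_num, Real.exp_nat_mul,
              Real.exp_log hM0]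
        _ ≤ _ := Real.exp_le_exp.2 (by linarith)
    refine a1.trans ?_
    rw [add_mul, Real.exp_add]
    exact mul_le_mul (h2 M hM) a2 (by positivity) (Real.exp_pos _).le
  · filter_upwards [h3, eventually_ge_atTop 1,
      (tendsto_natCast_atTop_atTop (R := ℝ)).eventually_ge_atTop (14 / ε)] with M hM hM1 hM2 u θ hu
    obtain ⟨c, hc, hs⟩ := hM u hu
    choose j hj hg using fun n : ℕ => grid M hM1 (θ n)
    have hM0 : (0 : ℝ) < M := by exact_mod_cast hM1
    refine ⟨fun n d => c n d * ee ((d : ℝ) * ((j n : ℝ) / (M : ℝ) ^ 2)), fun n hn =>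
      mem_image.2 ⟨(c n, j n), mem_product.2 ⟨hc n hn, hj n⟩, rfl⟩, fun d hd => ?_⟩
    calc _ ≤ ∑ n ∈ range M, (‖∏ t, u t ((n : ℤ) + (d : ℤ)) - c n d‖ + 7 / M) := by
          refine sum_le_sum fun n hn => ?_
          rw [show (∏ t, u t ((n : ℤ) + (d : ℤ))) * ee ((d : ℝ) * θ n) -
              c n d * ee ((d : ℝ) * ((j n : ℝ) / (M : ℝ) ^ 2)) =
              (∏ t, u t ((n : ℤ) + (d : ℤ)) - c n d) * ee ((d : ℝ) * θ n) +
              c n d * (ee ((d : ℝ) * θ n) - ee ((d : ℝ) * ((j n : ℝ) / (M : ℝ) ^ 2))) by ring]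
          refine (norm_add_le _ _).trans (add_le_add ?_ ?_)
          · rw [norm_mul, UConv.norm_ee, mul_one]
          · rw [norm_mul]
            exact (mul_le_of_le_one_left (norm_nonneg _)
              (h1 M _ (hc n (mem_range.1 hn)) d)).trans (hg n d hd)
      _ ≤ ε / 2 * M + 7 := by
          rw [sum_add_distrib, sum_const, card_range, nsmul_eq_mul, mul_div_cancel₀ _ hM0.ne']
          exact add_le_add (hs d hd) le_rfl
      _ ≤ ε * M := by
          rw [div_le_iff₀ hε] at hM2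
          linarith

end T5u

end

end PkUNetT
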