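import Pool.Agent.MP_154433_an.t8.Spec
import Pool.Agent.MP_154433_an.p9.U1
import Pool.Agent.MP_154433_an.p5.U1
import Pool.Agent.MP_154433_an.t3s.Asm

/-! One map, fixed frequency (packed). -/

section PkAt

/-! Row At: the weights along the set and the mean weights have small atoms. -/

set_option autoImplicit false

open Filter Topology
open scoped BigOperators

namespace T8

open Pool.Agent.MP_154433_an
open T3S (Gr yw nu nb Wt ind)

namespace AtL

theorem key {x W V L L' ε : ℝ} (hε : 0 < ε) (hx : x ≤ 1) (hL : 0 < L) (hL0 : 0 ≤ L')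
    (hL' : L' ≤ 2 * L) (hW : 4 / ε ≤ W / L) (hV : W ≤ 2 * V) : x / V * L' ≤ ε := by
  rw [div_le_div_iff₀ hε hL] at hW
  have hW0 : 0 < W := by
    by_contra h
    nlinarith [mul_nonneg (neg_nonneg.2 (not_lt.1 h)) hε.le]
  have hV0 : 0 < V := by linarith
  rw [div_mul_eq_mul_div, div_le_iff₀ hV0]
  nlinarith [mul_le_mul_of_nonneg_right hx hL0, mul_le_mul_of_nonneg_right hV hε.le]

theorem lg {M : ℕ} (h : 2 ≤ M) : 0 < Real.log M ∧ 0 ≤ Real.log ((M : ℝ) + 1) ∧
    Real.log ((M : ℝ) + 1) ≤ 2 * Real.log M := by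
  have h2 : (2 : ℝ) ≤ M := by exact_mod_cast h
  refine ⟨Real.log_pos (by linarith), Real.log_nonneg (by linarith), ?_⟩
  have := Real.log_pow (M : ℝ) 2
  push_cast at this
  rw [← this]
  exact Real.log_le_log (by linarith) (by nlinarith)

end AtL

theorem atm : AtR := by
  intro σ p hσ hG hy
  have hG' : ∀ ε : ℝ, ∀ᶠ M : ℕ in atTop, 4 / ε ≤ Wt σ M / Real.log M := fun ε => by
    simpa only [pow_one] using hG.eventually_ge_atTop (4 / ε)
  have pos : ∀ {ε : ℝ} {M : ℕ}, 0 < ε → 2 ≤ M → 4 / ε ≤ Wt σ M / Real.log M → 0 < Wt σ M :=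
    fun hε hM h => (div_pos_iff_of_pos_right (AtL.lg hM).1).1 ((div_pos four_pos hε).trans_le h)
  refine ⟨fun ε hε => ?_, fun ε hε => ?_⟩
  · filter_upwards [hG' ε, eventually_ge_atTop 2,
      hy.eventually_const_le (show (-1 / 2 : ℝ) < 0 by norm_num)] with M h hM hs d _
    obtain ⟨a, b, c⟩ := AtL.lg hM
    refine AtL.key hε ?_ a b c h ?_
    · unfold ind
      split_ifs <;> norm_num
    · have e : ∑ d ∈ Finset.range M, yw σ p M d = (Wt (ind p) M - Wt σ M) / Wt σ M := by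
        simp only [yw, ← Finset.sum_div, Finset.sum_sub_distrib]
        rfl
      rw [e, le_div_iff₀ (pos hε hM h)] at hs
      linarith
  · filter_upwards [hG' ε, eventually_ge_atTop 2] with M h hM d _
    obtain ⟨a, b, c⟩ := AtL.lg hM
    exact AtL.key hε (hσ d).2 a b c h (by linarith [pos hε hM h])

end T8

end PkAt

section PkTw0

/-! Ergodic weights with small atoms satisfy the hypotheses of the core theorem. -/

set_option autoImplicit false
set_option linter.unusedVariables false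

open MeasureTheory ProbabilityTheory Filter Topology Function Finset
open scoped BigOperators
open Fib27 (BM)
open Pool.Agent.MP_154433_an

noncomputable section

namespace T5y

open T3x

namespace Tw0

open T5u.UConv (norm_ee cont_ee av_le)

theorem ee_ne (t : ℝ) : ee t ≠ 0 := Complex.exp_ne_zero _

theorem ee_zpow (t : ℝ) (d : ℤ) : ee ((d : ℝ) * t) = ee t ^ d := by
  rw [T5x.ee, T5x.ee, ← Complex.exp_int_mul]
  congr 1
  push_cast
  ring

/-- multiplication by a number of modulus one -/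
def rot (t : ℝ) : ℂ ≃ₗᵢ[ℂ] ℂ where
  toFun z := ee t * z
  invFun z := (ee t)⁻¹ * z
  map_add' := mul_add _
  map_smul' c z := by simp only [smul_eq_mul, RingHom.id_apply]; ring
  left_inv z := inv_mul_cancel_left₀ (ee_ne t) z
  right_inv z := mul_inv_cancel_left₀ (ee_ne t) z
  norm_map' z := by
    show ‖ee t * z‖ = ‖z‖
    rw [norm_mul, norm_ee, one_mul]

theorem rot_zpow (t : ℝ) (d : ℤ) : ∀ v, (rot t ^ d) v = ee t ^ d * v := by
  induction d using Int.induction_on with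
  | zero => intro v; simp
  | succ d ih =>
    intro v
    rw [zpow_add_one, zpow_add_one₀ (ee_ne t), mul_assoc]
    exact ih _
  | pred d ih =>
    intro v
    rw [zpow_sub_one, zpow_sub_one₀ (ee_ne t), mul_assoc]
    exact ih _

theorem scal {ν : Wt} (erg : ERG ν) {t : ℝ} (h : ee t ≠ 1) :
    Tendsto (fun M => ν.av M fun d => ee ((d : ℝ) * t)) atTop (𝓝 0) := by
  have l := erg ℂ (rot t) 1 fun u hu => by
    have h1 : ee t * u = u := hu
    have h2 : (ee t - 1) * u = 0 := by rw [sub_mul, h1, one_mul, sub_self]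
    rw [(mul_eq_zero.1 h2).resolve_left (sub_ne_zero.2 h), inner_zero_left]
  simpa only [rot_zpow, mul_one, ee_zpow] using l

theorem meas_av {Ω : Type} [MeasurableSpace Ω] (ν : Wt) (M : ℕ) {Δ : Ω → ℝ} (h : Measurable Δ) :
    Measurable fun z => ν.av M fun d => ee ((d : ℝ) * Δ z) :=
  Finset.measurable_sum _ fun d _ => (cont_ee.measurable.comp (h.const_mul _)).const_smul (ν.w M d)

open Classical in
theorem off {ν : Wt} (erg : ERG ν) (Z : Sys) {Δ : Z.X → ℝ} (h : Measurable Δ) :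
    Tendsto (fun M => ∫ z, (if ee (Δ z) = 1 then 0 else ‖ν.av M fun d => ee ((d : ℝ) * Δ z)‖)
      ∂Z.μ) atTop (𝓝 0) := by
  have m : MeasurableSet {z | ee (Δ z) = 1} :=
    measurableSet_eq_fun (cont_ee.measurable.comp h) measurable_const
  have l := tendsto_integral_of_dominated_convergence (μ := Z.μ)
    (F := fun M z => if ee (Δ z) = 1 then 0 else ‖ν.av M fun d => ee ((d : ℝ) * Δ z)‖)
    (f := fun _ => (0 : ℝ)) (fun _ => 1)
    (fun M => (Measurable.ite m measurable_const (meas_av ν M h).norm).aestronglyMeasurable)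
    (integrable_const _) (fun M => Eventually.of_forall fun z => by
      split_ifs
      · simp
      · rw [norm_norm]
        exact av_le ν M fun d => (norm_ee _).le)
    (Eventually.of_forall fun z => by
      by_cases hz : ee (Δ z) = 1
      · simp only [if_pos hz]
        exact tendsto_const_nhds
      · simp only [if_neg hz]
        exact tendsto_zero_iff_norm_tendsto_zero.1 (scal erg hz))
  simpa only [integral_zero] using l

open Classical in
theorem tw0 (bas : Bas) {ν : Wt} (erg : ERG ν) (Z : Sys) (F : Z.X → ℂ) (Δ : Z.X → ℝ)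
    (hF : BM Z.μ Z.ms F) (h0 : Z.μ[F | T3x.Inv Z] =ᵐ[Z.μ] 0) (hΔ : Measurable Δ) :
    Tendsto (fun M => ∫ z, ‖ν.av M fun d => F (Z.Tz d z) * ee ((d : ℝ) * Δ z)‖ *
      ‖ν.av M fun d => ee ((d : ℝ) * Δ z)‖ ∂Z.μ) atTop (𝓝 0) := by
  obtain ⟨K0, hK0⟩ := hF.2
  have hK : ∀ᵐ z ∂Z.μ, ∀ d : ℤ, ‖F (Z.Tz d z)‖ ≤ |K0| := ae_all_iff.2 fun d =>
    (bas.t.mp Z d).quasiMeasurePreserving.ae (hK0.mono fun z hz => hz.trans (le_abs_self _))
  have hd : ∀ d : ℤ, Integrable (fun z => F (Z.Tz d z)) Z.μ := fun d =>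
    (bas.t.mp Z d).integrable_comp_of_integrable hF.integrable
  have m : MeasurableSet {z | ee (Δ z) = 1} :=
    measurableSet_eq_fun (cont_ee.measurable.comp hΔ) measurable_const
  have l := (T5u.ergL bas ν erg Z F hF h0).add ((off erg Z hΔ).const_mul |K0|)
  rw [mul_zero, add_zero] at l
  refine squeeze_zero (fun M => integral_nonneg fun z => by positivity) (fun M => ?_) l
  have i1 : Integrable (fun z => ‖ν.av M fun d => F (Z.Tz d z)‖) Z.μ := by
    have h : Integrable (fun z => ν.av M fun d => F (Z.Tz d z)) Z.μ :=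
      integrable_finsetSum _ fun d _ => (hd d).smul (ν.w M d)
    exact h.norm
  have i2 : Integrable
      (fun z => if ee (Δ z) = 1 then 0 else ‖ν.av M fun d => ee ((d : ℝ) * Δ z)‖) Z.μ := by
    refine Integrable.of_bound
      (Measurable.ite m measurable_const (meas_av ν M hΔ).norm).aestronglyMeasurable 1
      (Eventually.of_forall fun z => ?_)
    split_ifs
    · simp
    · rw [norm_norm]
      exact av_le ν M fun d => (norm_ee _).le
  rw [← integral_const_mul, ← integral_add i1 (i2.const_mul _)]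
  refine integral_mono_of_nonneg (Eventually.of_forall fun z => by positivity)
    (i1.add (i2.const_mul _)) (hK.mono fun z hz => ?_)
  have b1 : ‖ν.av M fun d => ee ((d : ℝ) * Δ z)‖ ≤ 1 := av_le ν M fun d => (norm_ee _).le
  by_cases e : ee (Δ z) = 1
  · simp only [if_pos e, mul_zero, add_zero]
    refine (mul_le_of_le_one_right (norm_nonneg _) b1).trans (le_of_eq ?_)
    simp only [ee_zpow, e, one_zpow, mul_one]
  · simp only [if_neg e]
    refine le_add_of_nonneg_of_le (norm_nonneg _) (mul_le_mul_of_nonneg_right ?_ (norm_nonneg _))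
    exact av_le ν M fun d => by rw [norm_mul, norm_ee, mul_one]; exact hz d

end Tw0

theorem uw_of (bas : Bas) {ν : Wt} (erg : ERG ν)
    (atom : ∃ (a : ℕ → ℤ) (n : ℕ → ℕ), (∀ M, ∀ d ∈ ν.sp M, a M ≤ d ∧ d < a M + n M) ∧
      ∀ ε : ℝ, 0 < ε → ∀ᶠ M in atTop, ∀ d ∈ ν.sp M, ν.w M d * Real.log ((n M : ℝ) + 1) ≤ ε) :
    UW ν :=
  ⟨erg, Tw0.tw0 bas erg, atom⟩

theorem uw_to (bas : Bas) {w : ℕ → ℕ → ℝ} (h : T3S.PW w) (he : T3S.Erg w)
    (ha : ∀ ε : ℝ, 0 < ε → ∀ᶠ M : ℕ in atTop, ∀ d < M, w M d * Real.log ((M : ℝ) + 1) ≤ ε) :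
    UW (T3S.Bridge.toWt w h) := by
  classical
  refine uw_of bas (T3S.Bridge.erg_to h he) ⟨fun _ => 0,
    fun M => if ∑ d ∈ range M, w M d = 1 then M else 1, fun M d hd => ?_, fun ε hε => ?_⟩
  · by_cases e : ∑ d ∈ range M, w M d = 1
    · simp only [T3S.Bridge.toWt, if_pos e, mem_image, mem_range] at hd ⊢
      obtain ⟨k, hk, rfl⟩ := hd
      omega
    · simp only [T3S.Bridge.toWt, if_neg e, mem_singleton] at hd ⊢
      omega
  · filter_upwards [h.2, ha ε hε] with M e hM d hd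
    simp only [T3S.Bridge.toWt, if_pos e, mem_image, mem_range] at hd ⊢
    obtain ⟨k, hk, rfl⟩ := hd
    rw [Int.toNat_natCast]
    exact hM k hk

end T5y

end

end PkTw0

section PkUw

/-! Row Uw. -/

set_option autoImplicit false

namespace T8

theorem uw : UwR := fun b _ _ h e a => T5y.uw_to b h e a

end T8

end PkUw

section PkTsAe

/-! Row TsAe: almost surely the centred weights do not see twisted structured sequences. -/

set_option autoImplicit false

open MeasureTheory ProbabilityTheory Filter Topology Function Finset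
open scoped BigOperators

noncomputable section

namespace T8

open Pool.Agent.MP_154433_an hiding BM

namespace TsAeL

lemma step (a : ℕ → ℝ) (N : ℕ) (U c : ℕ → ℕ → ℂ) (ε : ℝ) (hε : 0 ≤ ε)
    (h1 : ∀ n < N, ‖∑ d ∈ range N, (a d : ℂ) * c n d‖ ≤ ε)
    (h2 : ∀ d < N, ∑ n ∈ range N, ‖U n d - c n d‖ ≤ ε * N)
    (h3 : ∑ d ∈ range N, |a d| ≤ 3) :
    ∑ n ∈ range N, ‖∑ d ∈ range N, (a d : ℂ) * U n d‖ ≤ 4 * ε * N := by
  have h4 : ∀ n ∈ range N, ‖∑ d ∈ range N, (a d : ℂ) * U n d‖ ≤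
      ε + ∑ d ∈ range N, |a d| * ‖U n d - c n d‖ := fun n hn => by
    have e : ∑ d ∈ range N, (a d : ℂ) * U n d =
        ∑ d ∈ range N, (a d : ℂ) * c n d + ∑ d ∈ range N, (a d : ℂ) * (U n d - c n d) := by
      rw [← sum_add_distrib]
      exact sum_congr rfl fun d _ => by ring
    rw [e]
    refine (norm_add_le _ _).trans (add_le_add (h1 n (mem_range.1 hn)) ?_)
    refine (norm_sum_le _ _).trans (sum_le_sum fun d _ => ?_)
    rw [norm_mul, Complex.norm_real, Real.norm_eq_abs]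
  refine (sum_le_sum h4).trans ?_
  rw [sum_add_distrib, sum_const, card_range, nsmul_eq_mul, sum_comm]
  have h5 : ∑ d ∈ range N, ∑ n ∈ range N, |a d| * ‖U n d - c n d‖ ≤
      ∑ d ∈ range N, |a d| * (ε * N) := sum_le_sum fun d hd => by
    rw [← mul_sum]
    exact mul_le_mul_of_nonneg_left (h2 d (mem_range.1 hd)) (abs_nonneg _)
  rw [← sum_mul] at h5
  have h6 := mul_le_mul_of_nonneg_right h3 (mul_nonneg hε (Nat.cast_nonneg (α := ℝ) N))
  linarith

end TsAeL

theorem tsAe : TsAeR := by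
  intro h1 h2 h3 h4 σ hσ hg Ω _ P _ E hE hind hP
  have h0 : ∀ n, 0 ≤ σ n := fun n => (hσ n).1
  have hm : ∀ᵐ ω ∂P, T3S.Bd (T3S.yw σ fun m => ω ∈ E m) := by
    filter_upwards [h3 σ hσ Ω P E hE hind hP hg] with ω hω
    exact (h4.1 σ _ h0 (T3S.Asm.wt_tendsto h0 hg) hω.1).2.2.1
  have hs : ∀ᵐ ω ∂P, ∀ (J : ℕ) (b : Fin J → Fin 3 → ℤ) (j : ℕ), (∀ t i, b t i ≠ 0) →
      ∀ᶠ N : ℕ in atTop, ∀ (u : Fin J → ℤ → ℂ) (θ : ℕ → ℝ), (∀ t, u t ∈ T3S.CZ (b t) (N ^ 2)) →
        ∑ n ∈ range N, ‖∑ d ∈ range N, (T3S.yw σ (fun m => ω ∈ E m) N d : ℂ) *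
          ((∏ t, u t ((n : ℤ) + (d : ℤ))) * T5x.ee ((d : ℝ) * θ n))‖ ≤
          4 * (1 / ((j : ℝ) + 1)) * N := by
    simp only [ae_all_iff]
    intro J b j hb
    obtain ⟨C, S, s1, s2, s3⟩ := h1 J b hb (1 / ((j : ℝ) + 1)) (by positivity)
    have := h2 σ hσ Ω P E hE hind hP 1 le_rfl hg C S s1 (by simpa only [pow_one] using s2)
      (1 / ((j : ℝ) + 1)) (by positivity)
    filter_upwards [this, hm] with ω k1 k2
    filter_upwards [k1, k2, s3] with N m1 m2 m3 u θ hu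
    obtain ⟨c, c1, c2⟩ := m3 u θ hu
    exact TsAeL.step _ N _ c _ (by positivity) (fun n hn => m1 _ (c1 n hn)) c2 m2
  filter_upwards [hs] with ω hω J b hb ε hε
  obtain ⟨j, hj⟩ := exists_nat_one_div_lt (by positivity : 0 < ε / 4)
  filter_upwards [hω J b j hb] with N hN u θ hu
  refine (hN u θ hu).trans ?_
  gcongr
  linarith

end T8

end

end PkTsAe

section PkTsN

/-! Twisted structured sums under a change of the weights that is small in total variation. -/

set_option autoImplicit false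

open Filter Topology
open scoped BigOperators

namespace T8

open Pool.Agent.MP_154433_an hiding BM

theorem tsN : TsNR := by
  intro w w' hn h J b hb ε hε
  filter_upwards [h J b hb (ε / 2) (half_pos hε), hn.eventually (gt_mem_nhds (half_pos hε))]
    with N h1 h2 u θ hu
  have k : ∀ (n : ℕ) (c : ℕ → ℂ), (∀ d, ‖c d‖ ≤ 1) → ‖∑ d ∈ Finset.range N, (w N d : ℂ) * c d‖ ≤
      ‖∑ d ∈ Finset.range N, (w' N d : ℂ) * c d‖ + ε / 2 := fun n c hc => by
    refine (norm_le_insert' _ _).trans (add_le_add le_rfl (le_trans ?_ h2.le))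
    rw [← Finset.sum_sub_distrib]
    refine norm_sum_le_of_le _ fun d _ => ?_
    rw [← sub_mul, norm_mul, ← Complex.ofReal_sub, Complex.norm_real, Real.norm_eq_abs]
    exact mul_le_of_le_one_right (abs_nonneg _) (hc d)
  refine (Finset.sum_le_sum fun n _ => k n _ fun d => ?_).trans ?_
  · rw [norm_mul, norm_prod]
    exact mul_le_one₀ (Finset.prod_le_one (fun _ _ => norm_nonneg _) fun t _ =>
      T3S.CZ_B1 (hu t) _) (norm_nonneg _) (Complex.norm_exp_ofReal_mul_I _).le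
  · rw [Finset.sum_add_distrib, Finset.sum_const, Finset.card_range, nsmul_eq_mul]
    linarith [h1 u θ hu]

end T8

end PkTsN

section PkProd

/-! Row Prod: twisted sums vanish on products of asymptotic dual functions. -/

set_option autoImplicit false
set_option linter.unusedVariables false
set_option warn.classDefReducibility false

open MeasureTheory ProbabilityTheory Filter Topology Function Finset
open scoped BigOperators ComplexConjugate

noncomputable section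

namespace T8

open Pool.Agent.MP_154433_an hiding BM
open T3S (MB1)

namespace ProdL

theorem norm_ee (t : ℝ) : ‖T5x.ee t‖ = 1 := Complex.norm_exp_ofReal_mul_I _

theorem cont_ee : Continuous T5x.ee := by
  unfold T5x.ee
  fun_prop

variable {a : ℕ → ℕ → ℝ} {Y : T3x.Sys} {g g' : Y.X → ℂ} {N : ℕ} {b : Y.X → ℝ}

theorem meas (hg : MB1 g) (hb : Measurable b) : Measurable fun y => ‖sw a Y g N (b y) y‖ := by
  refine Measurable.norm (Finset.measurable_sum (range N) (f := fun (d : ℕ) y =>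
    (a N d : ℂ) * (g (Y.Tz d y) * T5x.ee ((d : ℝ) * b y))) fun d _ => ?_)
  exact ((hg.tz Y.T d).1.mul (cont_ee.measurable.comp (hb.const_mul (d : ℝ)))).const_mul _

theorem sub_le (t : ℝ) (y : Y.X) : ‖sw a Y g N t y‖ ≤ ‖sw a Y g' N t y‖ +
    ∑ d ∈ range N, |a N d| * ‖g (Y.Tz d y) - g' (Y.Tz d y)‖ := by
  have e : sw a Y g N t y = sw a Y g' N t y + ∑ d ∈ range N, (a N d : ℂ) *
      ((g (Y.Tz d y) - g' (Y.Tz d y)) * T5x.ee ((d : ℝ) * t)) := by
    simp only [sw, ← sum_add_distrib]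
    exact sum_congr rfl fun d _ => by ring
  rw [e]
  refine (norm_add_le _ _).trans (add_le_add le_rfl ((norm_sum_le _ _).trans
    (sum_le_sum fun d _ => ?_)))
  rw [norm_mul, norm_mul, norm_ee, mul_one, Complex.norm_real, Real.norm_eq_abs]

theorem intg (hg : MB1 g) (hb : Measurable b) (v : ℤ) :
    Integrable (fun y => ‖sw a Y g N (b (T3S.Tz Y.T v y)) (T3S.Tz Y.T v y)‖) Y.μ := by
  refine Integrable.of_bound ((meas hg hb).comp (T3S.Tz_meas Y.T v)).aestronglyMeasurable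
    (∑ d ∈ range N, |a N d|) (Eventually.of_forall fun y => ?_)
  rw [norm_norm]
  refine (norm_sum_le _ _).trans (sum_le_sum fun d _ => ?_)
  rw [norm_mul, norm_mul, norm_ee, mul_one, Complex.norm_real, Real.norm_eq_abs]
  exact mul_le_of_le_one_right (abs_nonneg _) (hg.2 _)

theorem small (hg : MB1 g) (hb : Measurable b) (hN : 1 ≤ N) {c : ℝ}
    (h : ∀ y, ∑ n ∈ range N, ‖sw a Y g N (b (T3S.Tz Y.T n y)) (T3S.Tz Y.T n y)‖ ≤ c * N) :
    ∫ y, ‖sw a Y g N (b y) y‖ ∂Y.μ ≤ c := by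
  have h1 := integral_mono (μ := Y.μ)
    (integrable_finsetSum (range N) fun (n : ℕ) _ => intg (a := a) (N := N) hg hb n)
    (integrable_const (c * N)) h
  rw [integral_finsetSum _ fun (n : ℕ) _ => intg (a := a) (N := N) hg hb n, integral_const,
    probReal_univ, one_smul, sum_congr rfl fun (n : ℕ) _ => T3S.integral_Tz Y.mp n
      (f := fun y => ‖sw a Y g N (b y) y‖) (meas hg hb).aestronglyMeasurable,
    sum_const, card_range, nsmul_eq_mul, mul_comm] at h1
  exact le_of_mul_le_mul_right h1 (by exact_mod_cast hN)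

theorem close (hg : MB1 g) (hg' : MB1 g') (hb : Measurable b) :
    ∫ y, ‖sw a Y g N (b y) y‖ ∂Y.μ ≤ ∫ y, ‖sw a Y g' N (b y) y‖ ∂Y.μ +
      (∑ d ∈ range N, |a N d|) * ∫ y, ‖g y - g' y‖ ∂Y.μ := by
  have i0 : ∀ f : Y.X → ℂ, MB1 f → Integrable (fun y => ‖sw a Y f N (b y) y‖) Y.μ :=
    fun f hf => by simpa only [T3S.Tz_zero] using intg (a := a) (N := N) hf hb 0
  have i2 : ∀ d : ℕ, Integrable (fun y => |a N d| * ‖g (Y.Tz d y) - g' (Y.Tz d y)‖) Y.μ :=
    fun d => (((hg.tz Y.T d).integrable Y.μ).sub ((hg'.tz Y.T d).integrable Y.μ)).norm.const_mul _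
  refine (integral_mono (i0 g hg) ((i0 g' hg').add (integrable_finsetSum (range N) fun d _ => i2 d))
    fun y => sub_le (b y) y).trans ?_
  rw [integral_add' (i0 g' hg') (integrable_finsetSum (range N) fun d _ => i2 d),
    integral_finsetSum _ fun d _ => i2 d, sum_mul]
  refine add_le_add le_rfl (sum_le_sum fun d _ => ?_)
  rw [integral_const_mul]
  exact mul_le_mul_of_nonneg_left (T3S.integral_Tz Y.mp d (f := fun y => ‖g y - g' y‖)
    (hg.1.sub hg'.1).norm.aestronglyMeasurable).le (abs_nonneg _)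

end ProdL

theorem prod : ProdR := by
  intro a h0 hS Y ι _ D hD β hβ
  choose b hb hD using hD
  let e := Fintype.equivFin ι
  refine tendsto_order.2 ⟨fun c hc => Eventually.of_forall fun M =>
    hc.trans_le (integral_nonneg fun x => norm_nonneg _),
    fun c hc => ?_⟩
  have hε : 0 < c / 5 := by positivity
  filter_upwards [hS _ (b ∘ e.symm) (fun t => hb _) _ hε, h0, eventually_ge_atTop 1]
    with M h1 h2 h3
  have hJ : (0 : ℝ) < Fintype.card ι + 1 := by positivity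
  choose u hu1 hu2 using fun t => (hD t).2 (M ^ 2) (c / 5 / (Fintype.card ι + 1)) (div_pos hε hJ)
  have hu : ∀ i, T3S.MB1 (u i) := fun i => T3S.CX_MB1 (hu1 i)
  have pu := T3S.MB1.prod univ fun i _ => hu i
  have pD := T3S.MB1.prod univ fun i _ => (hD i).1
  have h4 := ProdL.small (a := a) pu (hβ M) h3 (c := c / 5) fun x => by
    refine le_trans (le_of_eq (sum_congr rfl fun n _ => ?_))
      (h1 (fun t n => u (e.symm t) (T3S.Tz Y.T n x)) (fun n => β M (T3S.Tz Y.T n x))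
        fun t => T3S.Prodr.orbit (hu1 _) x)
    refine congrArg _ (sum_congr rfl fun d _ => congrArg _ (congrArg (· * _) ?_))
    simp only [add_comm (n : ℤ), T3S.Tz_add]
    exact (e.symm.prod_comp fun i => u i (T3S.Tz Y.T d (T3S.Tz Y.T n x))).symm
  have h5 := ProdL.close (a := a) (N := M) pD pu (hβ M)
  have i1 : ∀ i, Integrable (fun x => ‖D i x - u i x‖) Y.μ :=
    fun i => (((hD i).1.integrable Y.μ).sub ((hu i).integrable Y.μ)).norm
  have h6 : ∫ y, ‖∏ i, D i y - ∏ i, u i y‖ ∂Y.μ ≤ c / 5 := by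
    refine (integral_mono ((pD.integrable Y.μ).sub (pu.integrable Y.μ)).norm
      (integrable_finsetSum univ fun i _ => i1 i) fun y =>
        T3S.norm_prod_sub_le _ (fun i => (hD i).1.2 y) fun i => (hu i).2 y).trans ?_
    rw [integral_finsetSum _ fun i _ => i1 i]
    refine (sum_le_sum fun i _ => hu2 i).trans ?_
    rw [sum_const, card_univ, nsmul_eq_mul, ← mul_div_assoc, div_le_iff₀ hJ]
    nlinarith
  have h7 := mul_le_mul h2 h6 (integral_nonneg fun y => norm_nonneg _) (by positivity)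
  linarith

end T8

end

end PkProd

section PkGood

/-! Row Good: twisted sums vanish on the structured factor. -/

set_option autoImplicit false
set_option linter.unusedVariables false
set_option warn.classDefReducibility false

open MeasureTheory ProbabilityTheory Filter Topology Function
open scoped BigOperators ComplexConjugate

noncomputable section

namespace T8

open Pool.Agent.MP_154433_an hiding BM
open T3S (Bd)
open T3S.GoodR T5u.UGood

namespace GoodL

variable {w : ℕ → ℕ → ℝ} {Y : T3x.Sys} {b : ℕ → Y.X → ℝ}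

theorem sw_eq (w : ℕ → ℕ → ℝ) (Y : T3x.Sys) (b : ℕ → Y.X → ℝ) (g : Y.X → ℂ) (N : ℕ) (y : Y.X) :
    sw w Y g N (b N y) y = op Y.T w 1 (fun d x => T5x.ee ((d : ℝ) * b N x)) g N y := by
  simp only [sw, op, one_mul]
  rfl

theorem nn (g : Y.X → ℂ) (N : ℕ) : 0 ≤ ∫ y, ‖sw w Y g N (b N y) y‖ ∂Y.μ :=
  integral_nonneg fun _ => norm_nonneg _

theorem iadd (hb : ∀ N, Measurable (b N)) {g g' : Y.X → ℂ} (hg : MB g) (hg' : MB g') (N : ℕ) :
    ∫ y, ‖sw w Y (fun x => g x + g' x) N (b N y) y‖ ∂Y.μ ≤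
      ∫ y, ‖sw w Y g N (b N y) y‖ ∂Y.μ + ∫ y, ‖sw w Y g' N (b N y) y‖ ∂Y.μ := by
  simp only [sw_eq]
  exact int_add zero_le_one (mR hb N) (fun d x => (nee _).le) hg hg' N

theorem padd (hb : ∀ N, Measurable (b N)) (g g' : Y.X → ℂ) (hg : MB g) (hg' : MB g')
    (h : SW w Y g b) (h' : SW w Y g' b) : SW w Y (fun x => g x + g' x) b := by
  have h3 := h.add h'
  rw [add_zero] at h3
  exact squeeze_zero (nn _) (iadd hb hg hg') h3

theorem pmul (c : ℂ) (g : Y.X → ℂ) (h : SW w Y g b) : SW w Y (fun x => c * g x) b := by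
  have h3 := h.const_mul ‖c‖
  rw [mul_zero] at h3
  refine h3.congr fun M => ?_
  simp only [sw_eq, op_mul, norm_mul, integral_const_mul]

theorem papx (hw : Bd w) (hb : ∀ N, Measurable (b N)) (g : Y.X → ℂ) (hg : MB g)
    (h : ∀ ε : ℝ, 0 < ε → ∃ g', MB g' ∧ SW w Y g' b ∧ ∫ x, ‖g x - g' x‖ ∂Y.μ ≤ ε) :
    SW w Y g b := by
  refine tendsto_order.2 ⟨fun c hc => Eventually.of_forall fun M => hc.trans_le (nn _ _),
    fun c hc => ?_⟩
  obtain ⟨g', hg', hV, hε⟩ := h (c / 6) (by positivity)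
  filter_upwards [hw, (tendsto_order.1 hV).2 (c / 2) (by positivity)] with M h1 h2
  have e : g = fun x => g' x + (g x - g' x) := funext fun x => by ring
  have h3 := iadd (w := w) hb hg' (hg.sub hg') M
  rw [← e] at h3
  have h4 : ∫ y, ‖sw w Y (fun x => g x - g' x) M (b M y) y‖ ∂Y.μ ≤ 3 * (c / 6) := by
    simp only [sw_eq]
    refine (op_int Y.mp zero_le_one (fun d x => (nee _).le) (hg.sub hg') M).trans ?_
    rw [one_mul]
    exact mul_le_mul h1 hε (integral_nonneg fun x => norm_nonneg _) (by positivity)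
  linarith

theorem pbase (h : ProdS) (hw : Bd w) (hs : TS w) (hb : ∀ N, Measurable (b N)) {φ : Y.X → ℝ}
    (hφ : Shape Y.μ Y.T 2 φ) : SW w Y (fun x => (φ x : ℂ)) b := by
  obtain ⟨a1, a2, ph, κ, _, D, a3, a4, a5, a6⟩ := hφ
  have h1 := h w hw hs Y κ D a5 b hb
  have hD : MB fun y => ∏ t, D t y := by
    choose b' _ hb' using a5
    exact ⟨Finset.measurable_prod _ fun t _ => (hb' t).1.1, 1, zero_le_one,
      fun y => T3S.norm_prod_le_one _ fun t _ => (hb' t).1.2 y⟩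
  refine squeeze_zero (nn _) (fun M => ?_) h1
  simp only [sw_eq]
  refine integral_mono_of_nonneg (Eventually.of_forall fun x => norm_nonneg _)
    ((op_MB zero_le_one (mR hb M) (fun d x => (nee _).le) hD M).intn Y.μ) ?_
  filter_upwards [ae_all_iff.2 a4] with x hx
  refine le_of_eq_of_le (b := ‖(ph x : ℂ) * op Y.T w 1 (fun d x => T5x.ee ((d : ℝ) * b M x))
    (fun y => ∏ t, D t y) M x‖) (congrArg _ ?_) ?_
  · simp only [op, Finset.mul_sum, a6, hx]
    exact Finset.sum_congr rfl fun d _ => by ring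
  rw [norm_mul]
  refine mul_le_of_le_one_left (norm_nonneg _) ?_
  rw [Complex.norm_real, Real.norm_eq_abs]
  exact a3 x

end GoodL

theorem good : GoodR := by
  intro h w hw hs Y g hg b hb
  have hB : T3S.B0 Y.μ Y.T 2 ≤ Y.ms := iSup₂_le fun φ hφ =>
    (shape Y.mp 2 (Submonoid.subset_closure hφ)).1.comap_le
  obtain ⟨g', h1, h2, h3⟩ := rep _ hB (f := g) ⟨hg.1, hg.2⟩
  have hV : SW w Y g' b :=
    slotA (μ := Y.μ) (fun g => SW w Y g b) (GoodL.padd hb) GoodL.pmul (GoodL.papx hw hb)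
      (Submonoid.closure (T3S.Gen Y.μ Y.T 2) : Set (Y.X → ℝ)) (one_mem _)
      (fun φ hφ φ' hφ' => mul_mem hφ hφ')
      (fun φ hφ => ⟨(shape Y.mp 2 hφ).1, 1, (shape Y.mp 2 hφ).2.1⟩)
      (fun φ hφ => GoodL.pbase h hw hs hb (shape Y.mp 2 hφ)) h1
      (h2.mono (iSup₂_le fun φ hφ => le_iSup₂_of_le φ (Submonoid.subset_closure hφ) le_rfl))
  have h4 : ∀ᵐ x ∂Y.μ, ∀ v : ℤ, g (T3S.Tz Y.T v x) = g' (T3S.Tz Y.T v x) :=
    ae_all_iff.2 fun v => (T3S.Tz_mp Y.mp v).quasiMeasurePreserving.ae h3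
  refine hV.congr fun N => integral_congr_ae ?_
  filter_upwards [h4] with x hx
  simp only [GoodL.sw_eq, op, hx]

end T8

end

end PkGood

section PkConv

/-! Row Conv: signed twisted sums against differences of twisted averages. -/

set_option autoImplicit false
set_option linter.unusedVariables false
set_option warn.classDefReducibility false

open MeasureTheory ProbabilityTheory Filter Topology Function
open scoped BigOperators ComplexConjugate

noncomputable section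

namespace T8

open Pool.Agent.MP_154433_an hiding BM
open T3S.Bridge (toWt av_eq)
open T5u (tav)
open T5u.UConv (norm_ee cont_ee av_le l12)
open T5x (ee)

theorem conv : ConvR := by
  intro _ ν ν' h h' Y g b ⟨hg, C, hC⟩ hb
  have mp : ∀ d : ℤ, MeasurePreserving (Y.Tz d) Y.μ Y.μ := fun d => T3S.Tz_mp Y.mp d
  have bd : ∀ᵐ y ∂Y.μ, ∀ (d : ℤ) (t : ℝ), ‖g (Y.Tz d y) * ee t‖ ≤ C :=
    (ae_all_iff.2 fun d : ℤ => (mp d).quasiMeasurePreserving.ae hC).mono fun y hy d t => by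
      rw [norm_mul, norm_ee, mul_one]; exact hy d
  have ms : ∀ (M : ℕ) (d : ℤ) (c : ℝ),
      AEStronglyMeasurable (fun y => g (Y.Tz d y) * ee (c * b M y)) Y.μ := fun M d c =>
    (hg.comp_measurePreserving (mp d)).mul
      (cont_ee.measurable.comp ((hb M).const_mul c)).aestronglyMeasurable
  have mt : ∀ (w : T3x.Wt) (M : ℕ),
      AEStronglyMeasurable (fun y => tav w Y g M (b M y) y) Y.μ :=
    fun w M => Finset.aestronglyMeasurable_fun_sum _ fun d _ => (ms M d d).const_smul (w.w M d)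
  have hu := fun M => (mt (toWt ν h) M).sub (mt (toWt ν' h') M)
  have hK : ∀ M, ∀ᵐ y ∂Y.μ,
      ‖tav (toWt ν h) Y g M (b M y) y - tav (toWt ν' h') Y g M (b M y) y‖ ≤ C + C :=
    fun M => bd.mono fun y hy => (norm_sub_le _ _).trans
      (add_le_add (av_le _ M fun d => hy d _) (av_le _ M fun d => hy d _))
  rw [UVb, ← l12 (u := fun M y =>
    tav (toWt ν h) Y g M (b M y) y - tav (toWt ν' h') Y g M (b M y) y) hu hK]
  refine tendsto_congr' ?_
  filter_upwards [h.2, h'.2] with M e e'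
  refine integral_congr_ae (Eventually.of_forall fun y => ?_)
  beta_reduce
  rw [tav, tav, av_eq h e, av_eq h' e', ← Finset.sum_sub_distrib, sw]
  refine congrArg _ (Finset.sum_congr rfl fun d _ => ?_)
  simp only [T6.df, Complex.real_smul, Int.cast_natCast, Complex.ofReal_sub, sub_mul]

end T8

end

end PkConv

section PkDw

/-! One van der Corput step removes the twist, for general weights. -/

set_option autoImplicit false
set_option linter.unusedVariables false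
set_option warn.classDefReducibility false

open MeasureTheory ProbabilityTheory Filter Topology Function Finset ComplexConjugate
open scoped BigOperators

noncomputable section

namespace T8

open Pool.Agent.MP_154433_an hiding BM
open T5x (ee)
open T5u (tav)

open T5u.UDw in
theorem dw : DwR := by
  intro hV hG w pw hA X G hG1 H hH s η hs hη
  have : Nonempty (Fin H) := ⟨⟨0, hH⟩⟩
  let D : Fin H → Fin H → X.X → ℂ := fun h h' =>
    T3S.ddX X.T (1 * (((h' : ℕ) : ℤ) - ((h : ℕ) : ℤ))) G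
  let K : Fin H → Fin H → X.X → ℂ := fun h h' y => D h h' (T3S.Tz X.T ((h : ℕ) : ℤ) y)
  have hD : ∀ h h', T3S.MB1 (D h h') := fun h h' => hG1.ddX _ _
  have hK : ∀ h h', T3S.MB1 (K h h') := fun h h' => (hD h h').tz _ _
  let A : ℕ → Fin H → Fin H → X.X → ℂ := fun M h h' =>
    T3S.wavg X.T w (fun _ : Fin 1 => (1 : ℤ)) (fun _ => K h h') M
  have h2 : ∀ᶠ M in atTop, ∀ h h', ∫ x, ‖A M h h' x‖ ^ 2 ∂X.μ ≤
      T3S.QX X.μ X.T H 1 (Fin.tail fun _ : Fin 2 => (1 : ℤ)) (D h h') + s * η / 2 := by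
    refine eventually_all.2 fun h => eventually_all.2 fun h' => ?_
    filter_upwards [hG w pw hA X.X X.μ X.T X.mp H hH 0 (fun _ => 1) (fun _ => K h h')
      (fun _ => hK h h') (s * η / 2) (by positivity)] with M hM
    rw [pow_zero, pow_one, T3S.QX_tz X.mp H _ _ _ (hD h h')] at hM
    have e : (Fin.cons (1 : ℤ) (fun j : Fin 0 => (1 : ℤ) - 1) : Fin 1 → ℤ) =
        Fin.tail fun _ : Fin 2 => (1 : ℤ) := by
      funext i
      rw [Fin.eq_zero i]
      rfl
    exact hM.trans_eq (by rw [← e])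
  filter_upwards [h2, hV w pw hA H hH (η / 2) (by positivity), pw.2] with M h2 h1 hM b hb
  have hI : ∀ h h', Integrable (fun x => ‖A M h h' x‖ ^ 2) X.μ := fun h h' => by
    refine Integrable.of_bound ((T3S.wavg_meas X.T w _ (fun _ => (hK h h').1) M).norm.pow_const
      2).aestronglyMeasurable ((∑ d ∈ range M, |w M d|) ^ 2) (Eventually.of_forall fun x => ?_)
    rw [Real.norm_of_nonneg (sq_nonneg _)]
    exact pow_le_pow_left₀ (norm_nonneg _) (T3S.wavg_norm_le X.T w _ (fun _ => (hK h h').2) M x) 2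
  have hI1 := fun h => integral_expR (μ := X.μ) univ fun h' _ => hI h h'
  have hI2 := integral_expR (μ := X.μ) univ fun h _ => (hI1 h).1
  have hp : ∀ x, ‖tav (T3S.Bridge.toWt w pw) X G M (b x) x‖ ^ 2 ≤
      s + (𝔼 h : Fin H, 𝔼 h' : Fin H, ‖A M h h' x‖ ^ 2) / s + η / 2 := fun x => by
    rw [show tav (T3S.Bridge.toWt w pw) X G M (b x) x = ∑ d ∈ range M, (w M d : ℂ) *
      (G (T3S.Tz X.T (d : ℤ) x) * ee ((d : ℝ) * b x)) from (T3S.Bridge.av_eq pw hM _).trans
        (sum_congr rfl fun d _ => by rw [Complex.real_smul, Int.cast_natCast]; rfl)]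
    refine (h1 (fun d => G (T3S.Tz X.T (d : ℤ) x) * ee ((d : ℝ) * b x)) fun d => ?_).trans ?_
    · rw [norm_mul, norm_ee, mul_one]
      exact hG1.2 _
    refine add_le_add_left ?_ _
    have e : s + (𝔼 h : Fin H, 𝔼 h' : Fin H, ‖A M h h' x‖ ^ 2) / s =
        𝔼 h : Fin H, 𝔼 h' : Fin H, (s + ‖A M h h' x‖ ^ 2 / s) := by
      simp only [expect_add_distrib, expect_const univ_nonempty, expect_div]
    rw [e, T3S.re_exp]
    refine expect_le_expect fun h _ => ?_
    rw [T3S.re_exp]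
    refine expect_le_expect fun h' _ => ?_
    have e2 : ∑ d ∈ range M, (w M d : ℂ) *
        (G (T3S.Tz X.T ((d + h' : ℕ) : ℤ) x) * ee (((d + h' : ℕ) : ℝ) * b x) *
          conj (G (T3S.Tz X.T ((d + h : ℕ) : ℤ) x) * ee (((d + h : ℕ) : ℝ) * b x))) =
        A M h h' x * ee ((((h' : ℕ) : ℝ) - ((h : ℕ) : ℝ)) * b x) := by
      simp only [A, T3S.wavg, sum_mul]
      refine sum_congr rfl fun d _ => ?_
      rw [← ee_pair (h : ℕ) (h' : ℕ) d (b x)]
      simp only [Fin.prod_univ_one, K, D, T3S.ddX, ← T3S.Tz_add, map_mul]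
      rw [show (1 : ℤ) * (((h' : ℕ) : ℤ) - ((h : ℕ) : ℤ)) + ((h : ℕ) : ℤ) + 1 * (d : ℤ) =
        ((d + h' : ℕ) : ℤ) by push_cast; ring,
        show ((h : ℕ) : ℤ) + 1 * (d : ℤ) = ((d + h : ℕ) : ℤ) by push_cast; ring]
      rw [Nat.cast_add (R := ℝ), Nat.cast_add (R := ℝ)]
      ring
    rw [e2]
    refine (Complex.re_le_norm _).trans ?_
    rw [norm_mul, norm_ee, mul_one, ← sub_le_iff_le_add', le_div_iff₀ hs]
    nlinarith [sq_nonneg (‖A M h h' x‖ - s), norm_nonneg (A M h h' x)]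
  have hc : Integrable (fun x => s + (𝔼 h : Fin H, 𝔼 h' : Fin H, ‖A M h h' x‖ ^ 2) / s) X.μ :=
    (integrable_const s).add (hI2.1.div_const s)
  refine (integral_mono_of_nonneg (Eventually.of_forall fun x => sq_nonneg _)
    (hc.add (integrable_const (η / 2))) (Eventually.of_forall hp)).trans ?_
  have e3 : ∫ x, s + (𝔼 h : Fin H, 𝔼 h' : Fin H, ‖A M h h' x‖ ^ 2) / s + η / 2 ∂X.μ =
      s + (𝔼 h : Fin H, 𝔼 h' : Fin H, ∫ x, ‖A M h h' x‖ ^ 2 ∂X.μ) / s + η / 2 := by
    rw [integral_add hc (integrable_const _),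
      integral_add (integrable_const s) (hI2.1.div_const s), integral_div, hI2.2]
    simp only [integral_const, probReal_univ, one_smul, fun h => (hI1 h).2]
  refine (le_of_eq e3).trans ?_
  have h4 : (𝔼 h : Fin H, 𝔼 h' : Fin H, ∫ x, ‖A M h h' x‖ ^ 2 ∂X.μ) ≤
      T3S.QX X.μ X.T H 2 (fun _ => 1) G + s * η / 2 := by
    have e : T3S.QX X.μ X.T H 2 (fun _ => 1) G + s * η / 2 = 𝔼 h : Fin H, 𝔼 h' : Fin H,
        (T3S.QX X.μ X.T H 1 (Fin.tail fun _ : Fin 2 => (1 : ℤ)) (D h h') + s * η / 2) := by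
      simp only [expect_add_distrib, expect_const univ_nonempty]
      rfl
    rw [e]
    exact expect_le_expect fun h _ => expect_le_expect fun h' _ => h2 h h'
  have h5 := div_le_div_of_nonneg_right h4 hs.le
  rw [add_div, show s * η / 2 / s = η / 2 by field_simp] at h5
  linarith

end T8

end

end PkDw

section PkUnif

/-! Row Unif: the factor generated by dual functions controls the twisted averages. -/

set_option autoImplicit false
set_option linter.unusedVariables false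
set_option warn.classDefReducibility false

open MeasureTheory ProbabilityTheory Filter Topology Function Finset ComplexConjugate
open scoped BigOperators

noncomputable section

namespace T8

open Pool.Agent.MP_154433_an hiding BM
open T3S (MB1 QX ddX)
open T3S.UnifAux (int_zero sum_eq)
open T3S.Bridge (exists_MB1 tz_congr)

theorem unif : UnifR := by
  intro h1 h2 h3 w hw ha X g0 hg0 hb0 h00 ε hε
  obtain ⟨g, hg, e⟩ := exists_MB1 hg0.1 hb0
  have h0 := (condExp_congr_ae e).symm.trans h00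
  obtain ⟨hF, hD⟩ := h1 2 X.X X.μ X.T X.mp
  have hs : 0 < ε / 2 := by positivity
  obtain ⟨H, hH, hQ⟩ := h2 X.X X.μ X.T X.mp 3 (fun _ => 1) g hg
    (fun D hD' => int_zero hF.1 hg hD'.1 (hD _ (fun _ => one_ne_zero) D hD') h0)
    (ε / 2 * (ε / 2)) (by positivity)
  let q : ℕ → ℕ → ℝ := fun n n' => QX X.μ X.T H 2 (fun _ => 1) (ddX X.T ((n : ℤ) - (n' : ℤ)) g)
  have hq : QX X.μ X.T H 3 (fun _ => 1) g = 𝔼 h : Fin H, 𝔼 h' : Fin H, q h' h := by
    rw [QX]
    simp only [q, one_mul]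
    rfl
  refine ⟨H, fun n n' => ε / 2 + q n n' / (ε / 2), hH, ?_, fun n n' η hη => ?_⟩
  · simp only [sum_add_distrib, sum_const, card_range, nsmul_eq_mul, ← sum_div]
    rw [sum_eq H hH q, ← hq]
    have h4 : QX X.μ X.T H 3 (fun _ => 1) g * H ^ 2 / (ε / 2) ≤ ε / 2 * H ^ 2 := by
      rw [div_le_iff₀ hs]
      have := mul_le_mul_of_nonneg_right hQ (sq_nonneg (H : ℝ))
      linarith
    linarith
  · let F : X.X → ℂ := fun y => g (T3S.Tz X.T n y) * conj (g (T3S.Tz X.T n' y))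
    have hFm : MB1 F := (hg.tz X.T n).mul (hg.tz X.T n').cj
    have hFe : F = fun y => ddX X.T ((n : ℤ) - (n' : ℤ)) g (T3S.Tz X.T n' y) := by
      funext y
      simp only [F, ddX, ← T3S.Tz_add, sub_add_cancel]
    have h5 : QX X.μ X.T H 2 (fun _ => 1) F = q n n' := by
      rw [hFe]
      exact T3S.QX_tz X.mp H 2 _ n' (hg.ddX X.T _)
    have h6 : (fun y => g0 (X.Tz n y) * conj (g0 (X.Tz n' y))) =ᵐ[X.μ] F := by
      filter_upwards [tz_congr X e n, tz_congr X e n'] with y a b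
      exact congrArg₂ (fun a b => a * conj b) a b
    filter_upwards [h3 w hw ha X F hFm H hH (ε / 2) η hs hη] with M hM b hb
    refine le_of_eq_of_le (integral_congr_ae ?_) (h5 ▸ hM b hb)
    filter_upwards [ae_all_iff.2 fun d => tz_congr X h6 d] with x hx
    simp only [T5u.tav, hx]

end T8

end

end PkUnif

section PkDetU

/-! Row DetU: twisted averages with a fixed frequency, from the core theorem. -/

set_option autoImplicit false
set_option linter.unusedVariables false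
set_option warn.classDefReducibility false

open MeasureTheory ProbabilityTheory Filter Topology Function Finset ComplexConjugate
open scoped BigOperators
open Fib27 (BM)
open Pool.Agent.MP_154433_an

noncomputable section

namespace T8

namespace DetUL

open T3x T5x T5u

def U0f (ν : Wt) (Y : Sys) (g : Y.X → ℂ) : Prop :=
  ∀ b : Y.X → ℝ, Measurable b →
    Tendsto (fun M => ∫ y, ‖tav ν Y g M (b y) y‖ ^ 2 ∂Y.μ) atTop (𝓝 0)

def UVf (ν ν' : Wt) (Y : Sys) (g : Y.X → ℂ) : Prop :=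
  ∀ b : Y.X → ℝ, Measurable b →
    Tendsto (fun M => ∫ y, ‖tav ν Y g M (b y) y - tav ν' Y g M (b y) y‖ ^ 2 ∂Y.μ) atTop (𝓝 0)

def UGx (ν ν' : Wt) (Y : Sys) (C : MeasurableSpace Y.X) : Prop :=
  ∀ g : Y.X → ℂ, BM Y.μ C g → UVf ν ν' Y g

structure Gx : Prop where
  dense : ∀ (ν ν' : Wt) (X : Sys) (C : MeasurableSpace X.X) (T : Set (X.X → ℂ)), C ≤ X.ms →
    (∀ φ ∈ T, BM X.μ X.ms φ) →
    (∀ g, BM X.μ C g → ∀ ε : ℝ, 0 < ε → ∃ (n : ℕ) (a : Fin n → X.X → ℂ), (∀ i, a i ∈ T) ∧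
      ∫ x, ‖g x - ∑ i, a i x‖ ^ 2 ∂X.μ ≤ ε) →
    (∀ f ∈ T, UVf ν ν' X f) → UGx ν ν' X C
  chain : ∀ (ν ν' : Wt) (X : Sys) (𝒞 : Set (MeasurableSpace X.X)), 𝒞.Nonempty →
    IsChain (· ≤ ·) 𝒞 → (∀ C ∈ 𝒞, Fac X C ∧ UGx ν ν' X C) → UGx ν ν' X (sSup 𝒞)
  down : ∀ (ν ν' : Wt) (X X' : Sys) (e : X.X → X'.X), Emb X X' e →
    (∀ f ∈ Bdd X.X, ∃ f' ∈ Bdd X'.X, ∀ x, f' (e x) = f x) → UGx ν ν' X' X'.ms → UGx ν ν' X X.ms
  zero : ∀ (ν ν' : Wt) (X : Sys) (f : X.X → ℂ), BM X.μ X.ms f → U0f ν X f → U0f ν' X f →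
    UVf ν ν' X f
  add : ∀ (ν ν' : Wt) (X : Sys) (f f1 f2 : X.X → ℂ), BM X.μ X.ms f1 → BM X.μ X.ms f2 →
    (f =ᵐ[X.μ] fun x => f1 x + f2 x) → UVf ν ν' X f1 → UVf ν ν' X f2 → UVf ν ν' X f

def CptAf : Prop := ∀ (ν' ν'' : Wt) (X : Sys) B0 C Z p, Nice X → Fac X B0 → Fac X C → B0 ≤ C →
  Pair X C Z p → UGx ν'' ν' X C → TG0 ν' X B0 → ∀ (H : Z.X → ℂ) (g k : X.X → ℂ),
  BM Z.μ (T3x.Inv Z) H → BM X.μ X.ms g → BM X.μ X.ms k → Star p H g k →
  X.μ[g | C] =ᵐ[X.μ] 0 → U0f ν'' X k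

def Cptf : Prop := ∀ (ν ν' : Wt) (X : Sys) B0 C, Nice X → Fac X B0 → Fac X C → B0 ≤ C →
  T3x.Inv X ≤ C → UGx ν ν' X C → TG0 ν' X B0 → UGx ν ν' X (KK X C)

section G

open T3x.GfL UGfL

variable {X : Sys} {ν ν' : Wt}

lemma dense (t : BasT) {C : MeasurableSpace X.X} {T : Set (X.X → ℂ)} (hC : C ≤ X.ms)
    (hT : ∀ φ ∈ T, BM X.μ X.ms φ)
    (h1 : ∀ g, BM X.μ C g → ∀ ε : ℝ, 0 < ε → ∃ (n : ℕ) (a : Fin n → X.X → ℂ), (∀ i, a i ∈ T) ∧
      ∫ x, ‖g x - ∑ i, a i x‖ ^ 2 ∂X.μ ≤ ε)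
    (h2 : ∀ f ∈ T, UVf ν ν' X f) : UGx ν ν' X C := by
  intro g hg b hb
  have hg' := hg.mono hC
  refine sm_apx (m0 := X.ms) (μ := X.μ)
    (φ := fun M y => tav ν X g M (b y) y - tav ν' X g M (b y) y) fun ε hε => ?_
  obtain ⟨n, a, ha, hd'⟩ := h1 g hg (ε / 4) (by positivity)
  have hd := hg'.sub (bm_sum univ fun j _ => hT _ (ha j))
  have bm : ∀ j M, BM X.μ X.ms fun x => tav ν X (a j) M (b x) x - tav ν' X (a j) M (b x) x :=
    fun j M => (bm_tav t (hT _ (ha j)) M hb).sub (bm_tav t (hT _ (ha j)) M hb)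
  refine ⟨_, fun M x => tav ν X (fun y => g y - ∑ j, a j y) M (b x) x -
    tav ν' X (fun y => g y - ∑ j, a j y) M (b x) x,
    sm_sum univ bm fun j => h2 _ (ha j) b hb, fun M => ⟨bm_sum _ fun j _ => bm j M,
      (bm_tav t hd M hb).sub (bm_tav t hd M hb), ?_⟩, fun M x => ?_⟩
  · linarith [n2_sub (bm_tav (ν := ν) t hd M hb) (bm_tav (ν := ν') t hd M hb),
      contr (ν := ν) t hd M hb, contr (ν := ν') t hd M hb]
  · rw [tav_split (ν := ν) g a, tav_split (ν := ν') g a, sum_sub_distrib]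
    ring

lemma ee_fract (d : ℤ) (s : ℝ) : ee ((d : ℝ) * Int.fract s) = ee ((d : ℝ) * s) := by
  have e : (d : ℝ) * s = (d : ℝ) * Int.fract s + ((d * ⌊s⌋ : ℤ) : ℝ) := by
    rw [Int.fract]
    push_cast
    ring
  have e1 : ee ((d * ⌊s⌋ : ℤ) : ℝ) = 1 := by
    rw [ee, ← Complex.exp_int_mul_two_pi_mul_I (d * ⌊s⌋)]
    congr 1
    push_cast
    ring
  rw [e, UCptAx.ee_add, e1, mul_one]

lemma down (A : BasA) (t : BasT) {X' : Sys} {e : X.X → X'.X} (he : Emb X X' e)
    (h : ∀ f ∈ Bdd X.X, ∃ f' ∈ Bdd X'.X, ∀ x, f' (e x) = f x) (hg : UGx ν ν' X' X'.ms) :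
    UGx ν ν' X X.ms := by
  rintro f ⟨k1, C, hC⟩ b hb
  have hf : BM X.μ X.ms f := ⟨k1, C, hC⟩
  obtain ⟨f0, a1, a2, a3⟩ := A.rep X.ms X.μ f (max C 0) (le_max_right _ _) k1
    (hC.mono fun _ h => h.trans (le_max_left _ _))
  obtain ⟨f', ⟨b1, C', b2⟩, b3⟩ := h f0 ⟨a1, _, a2⟩
  obtain ⟨β, ⟨m1, -⟩, m3⟩ := h (fun x => ((Int.fract (b x) : ℝ) : ℂ))
    ⟨Complex.measurable_ofReal.comp hb.fract, 1, fun x => by
      rw [Complex.norm_real, Real.norm_of_nonneg (Int.fract_nonneg _)]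
      exact (Int.fract_lt_one _).le⟩
  have p1 : Measurable fun y => (β y).re := Complex.measurable_re.comp m1
  have c1 : BM X'.μ X'.ms f' := ⟨b1.aestronglyMeasurable, C', Eventually.of_forall b2⟩
  have c2 : f =ᵐ[X.μ] fun x => f' (e x) := by simpa only [b3]
  have e1 : ∀ᵐ x ∂X.μ, ∀ (ν : Wt) M, tav ν X f M (b x) x = tav ν X' f' M (β (e x)).re (e x) := by
    filter_upwards [tav_congr t c2, ae_all_iff.2 fun n : ℤ => A.keq_fun X'.ms X.μ X'.μ _ _ f'
      (he.mp.comp (t.mp X n)) ((t.mp X' n).comp he.mp) (t.emb_z X X' e n he) c1.1] with x h1 h2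
    intro ν M
    rw [h1, tav_eq, tav_eq, m3, Complex.ofReal_re]
    exact sum_congr rfl fun d _ => congrArg _ (congrArg₂ (· * ·) (h2 d) (ee_fract d _).symm)
  refine (hg f' c1 _ p1).congr fun M => ?_
  rw [← int_comp he.mp (isq ((bm_tav (ν := ν) t c1 M p1).sub (bm_tav (ν := ν') t c1 M p1))).1]
  refine integral_congr_ae ?_
  filter_upwards [e1] with x hx
  rw [hx, hx]

theorem gx (F : Fd) : Gx := by
  obtain ⟨A, t, D, -⟩ := F
  refine ⟨fun ν ν' X C T hC hT h1 h2 => dense t hC hT h1 h2,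
    fun ν ν' X 𝒞 hne hch h => ?_, fun ν ν' X X' e he h hg => down A t he h hg,
    fun ν ν' X f hf h1 h2 b hb => ?_, fun ν ν' X f f1 f2 k1 k2 e h1 h2 b hb => ?_⟩
  · have hle := (t.fsSup X 𝒞 hne fun C hC => (h C hC).1).le
    refine dense t (T := {φ | ∃ C ∈ 𝒞, BM X.μ C φ}) hle
      (fun φ ⟨C, hC, hφ⟩ => hφ.mono (h C hC).1.le) (fun g hg ε hε => ?_)
      fun f ⟨C, hC, hφ⟩ => (h C hC).2 f hφ
    obtain ⟨C, hC, k⟩ := D.chain 𝒞 X.μ hne hch.directedOn (fun C hC => (h C hC).1.le) g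
      ((hg.mono hle).memLp 2) ε hε
    refine ⟨1, fun _ => X.μ[g | C], fun _ => ⟨C, hC, hg.ce C⟩, le_trans (le_of_eq ?_)
      (k C hC le_rfl)⟩
    refine integral_congr_ae ?_
    filter_upwards [BM.ce_self hle hg] with x hx
    rw [hx, Fin.sum_univ_one]
  · exact sm_of (μ := X.μ) (φ := fun M y => tav ν X f M (b y) y - tav ν' X f M (b y) y)
      (h1 b hb) (h2 b hb) fun M => n2_sub (bm_tav t hf M hb) (bm_tav t hf M hb)
  · refine sm_of (μ := X.μ) (φ := fun M y => tav ν X f M (b y) y - tav ν' X f M (b y) y)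
      (h1 b hb) (h2 b hb) fun M => le_trans (le_of_eq (integral_congr_ae ?_))
        (n2_add ((bm_tav t k1 M hb).sub (bm_tav t k1 M hb))
          ((bm_tav t k2 M hb).sub (bm_tav t k2 M hb)))
    filter_upwards [tav_congr t e] with x hx
    rw [hx, hx, tav_add, tav_add]
    congr 2
    ring

end G

section A

open CptA UCptAx

theorem core (F : Fd) (hk : KeyT) (hd : Drop) {ν' ν'' : Wt} {X Z : Sys}
    {B0 C : MeasurableSpace X.X} {p : Bool → Z.X → X.X} (hB : B0 ≤ C) (hC : Fac X C)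
    (hP : Pair X C Z p) (hGood : UGx ν'' ν' X C) (hG0 : TG0 ν' X B0) (H : Z.X → ℂ)
    (g k : X.X → ℂ) (a1 : BM Z.μ (T3x.Inv Z) H) (a2 : BM X.μ X.ms g) (a3 : BM X.μ X.ms k)
    (a4 : Star p H g k) (hg1 : ∀ᵐ x ∂X.μ, ‖g x‖ ≤ 1) (h0 : X.μ[g | C] =ᵐ[X.μ] 0) :
    U0f ν'' X k := by
  intro b hb
  obtain ⟨K, hK, hkey⟩ := hk X Z C p hC hP H g k a1 a2 a3 a4
  let G : ℕ → ℕ → X.X → ℂ := fun n n' y => g (X.Tz n y) * conj (g (X.Tz n' y))
  have hG : ∀ n n', BM X.μ X.ms (G n n') := fun n n' => (bmT F a2 n).mul (bmT F a2 n').conj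
  have hc : ∀ n n', BM X.μ C (X.μ[G n n' | C]) := fun n n' => (hG n n').ce C
  have hc' : ∀ n n', BM X.μ X.ms (X.μ[G n n' | C]) := fun n n' => (hc n n').mono hC.le
  let β : ℕ → ℕ → X.X → ℝ := fun n n' x => b (X.Tz n x) - b (X.Tz n' x)
  have hβ : ∀ n n', Measurable[X.ms] (β n n') := fun n n' =>
    (msh F.t hb n n')
  have main : ∀ N M, 1 ≤ N → (∫ x, ‖tav ν'' X k M (b x) x‖ ^ 2 ∂X.μ) ^ 2 ≤
      K * ∑ n ∈ range N, ∑ n' ∈ range N, (N : ℝ)⁻¹ * (N : ℝ)⁻¹ *
        ∫ x, ‖tav ν'' X (X.μ[G n n' | C]) M (β n n' x) x‖ ^ 2 ∂X.μ := by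
    intro N M hN
    rw [sq_tav F ν'' M a3 hb]
    refine (jensen _ _ (ν''.nn M) (ν''.one M) _ _ fun d d' => le_trans
      ((sq_abs _).symm.trans_le (pow_le_pow_left₀ (abs_nonneg _) (Complex.abs_re_le_norm _) 2))
      (hkey N hN d d' (fun x => ee (d * b x) * conj (ee (d' * b x)))
        ((bm_ee hb d).mul (bm_ee hb d').conj))).trans (le_of_eq ?_)
    simp only [sq_tav F ν'' M (hc' _ _) (hβ _ _), Finset.mul_sum]
    simp only [Finset.sum_comm (s := ν''.sp M) (t := range N)]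
    refine Finset.sum_congr rfl fun n _ => Finset.sum_congr rfl fun n' _ =>
      Finset.sum_congr rfl fun d _ => Finset.sum_congr rfl fun d' _ => ?_
    have e : (fun x => ee (d * b (X.Tz n x)) * conj (ee (d' * b (X.Tz n x))) *
        conj (ee (d * b (X.Tz n' x)) * conj (ee (d' * b (X.Tz n' x)))) *
        ((X.μ[G n n' | C]) (X.Tz d x) * conj ((X.μ[G n n' | C]) (X.Tz d' x)))) =
        fun x => ee (d * β n n' x) * conj (ee (d' * β n n' x)) *
          ((X.μ[G n n' | C]) (X.Tz d x) * conj ((X.μ[G n n' | C]) (X.Tz d' x))) := by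
      funext x
      simp only [β, ee_sub, map_mul]
      ring
    rw [e]
    ring
  have hB0 : X.μ[g | B0] =ᵐ[X.μ] 0 := by
    refine (condExp_condExp_of_le hB hC.le).symm.trans ((condExp_congr_ae h0).trans ?_)
    rw [condExp_zero]
  refine tendsto_order.2 ⟨fun a ha => Eventually.of_forall fun M =>
    ha.trans_le (integral_nonneg fun x => by positivity), fun ε hε => ?_⟩
  have hδ : 0 < ε ^ 2 / (8 * K + 1) := by positivity
  obtain ⟨N, a, hN, ha, hs⟩ := hG0 g a2 hg1 hB0 _ hδ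
  have hev : ∀ n ∈ range N, ∀ n' ∈ range N, ∀ᶠ M in atTop,
      ∫ x, ‖tav ν'' X (X.μ[G n n' | C]) M (β n n' x) x‖ ^ 2 ∂X.μ ≤
        6 * (ε ^ 2 / (8 * K + 1)) + 2 * a n n' := by
    intro n _ n' _
    filter_upwards [(tendsto_order.1 (hGood _ (hc n n') (β n n') (hβ n n'))).2 _ hδ,
      hs n n' _ hδ] with M h1 h2
    have h3 := sq_le_two (bmt F.t (hc' n n') (hβ n n') ν'' M) (bmt F.t (hc' n n') (hβ n n') ν' M)
    obtain ⟨b', h4, h5⟩ := hd ν' X C (G n n') M (β n n') _ hC (hG n n') (hβ n n') hδ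
    have h6 := h2 b' h4
    linarith
  filter_upwards [(Finset.eventually_all _).2 fun n hn => (Finset.eventually_all _).2 (hev n hn)]
    with M hM
  have hN' : (0 : ℝ) < N := by exact_mod_cast hN
  have h5 : ∑ n ∈ range N, ∑ n' ∈ range N, (N : ℝ)⁻¹ * (N : ℝ)⁻¹ *
      ∫ x, ‖tav ν'' X (X.μ[G n n' | C]) M (β n n' x) x‖ ^ 2 ∂X.μ ≤
      8 * (ε ^ 2 / (8 * K + 1)) := by
    refine (Finset.sum_le_sum fun n hn => Finset.sum_le_sum fun n' hn' =>
      mul_le_mul_of_nonneg_left (hM n hn n' hn') (by positivity)).trans ?_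
    simp only [← Finset.mul_sum, Finset.sum_add_distrib, Finset.sum_const, Finset.card_range,
      nsmul_eq_mul]
    calc _ = (N : ℝ)⁻¹ * (N : ℝ)⁻¹ * (N * (N * (6 * (ε ^ 2 / (8 * K + 1)))) +
          2 * ∑ n ∈ range N, ∑ n' ∈ range N, a n n') := by ring
      _ ≤ (N : ℝ)⁻¹ * (N : ℝ)⁻¹ * (N * (N * (6 * (ε ^ 2 / (8 * K + 1)))) +
          2 * (ε ^ 2 / (8 * K + 1) * N ^ 2)) := by gcongr
      _ = _ := by
        field_simp
        ring
  have h6 := (main N M hN).trans (mul_le_mul_of_nonneg_left h5 hK)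
  have h7 : K * (8 * (ε ^ 2 / (8 * K + 1))) < ε ^ 2 := by
    have : ε ^ 2 = (8 * K + 1) * (ε ^ 2 / (8 * K + 1)) := by field_simp
    linarith
  exact lt_of_pow_lt_pow_left₀ 2 hε.le (h6.trans_lt h7)

end A

theorem cptA (F : Fd) (hk : KeyT) (hd : Drop) : CptAf := by
  intro ν' ν'' X B0 C Z p hX hB0 hC hB hP hGood hG0 H g k a1 a2 a3 a4 h0
  obtain ⟨L, hL, hLg⟩ : ∃ L : ℝ, 0 < L ∧ ∀ᵐ x ∂X.μ, ‖g x‖ ≤ L := by
    obtain ⟨L, hL⟩ := a2.2
    exact ⟨max L 1, lt_max_of_lt_right one_pos, hL.mono fun x hx => hx.trans (le_max_left _ _)⟩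
  have hL' : (L : ℂ) ≠ 0 := by exact_mod_cast hL.ne'
  refine core F hk hd hB hC hP hGood hG0 (fun z => (L : ℂ) * H z)
    (fun x => (L : ℂ)⁻¹ * g x) k (a1.cmul _) (a2.cmul _) a3 ?_ ?_ ?_
  · have e : (fun z => (L : ℂ) * H z * ((L : ℂ)⁻¹ * g (p true z))) =
        fun z => H z * g (p true z) := by
      funext z
      field_simp
    unfold T3x.Star
    rw [e]
    exact a4
  · filter_upwards [hLg] with x hx
    rw [norm_mul, norm_inv, Complex.norm_real, Real.norm_of_nonneg hL.le,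
      inv_mul_le_iff₀ hL, mul_one]
    exact hx
  · refine (Fib27.ce_cmul hC.le _ a2).trans ?_
    filter_upwards [h0] with x hx
    simp [hx]

open T3x.GfL in
theorem cpt (F : Fd) (G : Gx) (hA : CptAf) : Cptf := by
  intro ν ν' X B0 C hX hB hC hBC hI hg h0
  obtain ⟨Z, p, hp⟩ : ∃ Z p, Pair X C Z p := F.rp Bool (fun _ => X) X C (fun _ => id) false
    (fun _ => hX) hC (fun _ => (F.t.emb_id X).mp) fun _ _ _ => EventuallyEq.rfl
  have mp : ∀ b, @MeasurePreserving _ _ Z.ms X.ms (p b) Z.μ X.μ := fun b => (hp.emb b).mp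
  have hP := F.t.fpull Z X (p false) X.ms (hp.emb false) (F.t.top X)
  have b0 : ∀ c, BM X.μ X.ms c → BM Z.μ (pull Z.μ (p false) X.ms) fun z => c (p false z) :=
    fun c hc => F.a.bm_comp X.ms Z.μ X.μ _ c (mp false) hc
  have sw : ∀ c, BM X.μ C c → (fun z => c (p true z)) =ᵐ[Z.μ] fun z => c (p false z) :=
    fun c hc => F.a.keq_fun C Z.μ X.μ _ _ c (mp true) (mp false) (hp.com true) hc.1
  refine G.dense ν ν' X _ {k | BM X.μ X.ms k ∧ (BM X.μ C k ∨ ∃ H g, BM Z.μ (T3x.Inv Z) H ∧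
    BM X.μ X.ms g ∧ Star p H g k ∧ X.μ[g | C] =ᵐ[X.μ] 0)} (F.kb.fac X C hX hC).le
    (fun _ h => h.1) (fun k hk ε hε => ?_) fun f hf => ?_
  · obtain ⟨n, H, g, k', h1, h2⟩ := F.kb.span X C Z p hX hC hp k hk ε hε
    have key : ∀ i, ∃ k1 k2 : X.X → ℂ, BM X.μ C k1 ∧ (BM X.μ X.ms k2 ∧ ∃ g', BM X.μ X.ms g' ∧
        Star p (H i) g' k2 ∧ X.μ[g' | C] =ᵐ[X.μ] 0) ∧ k' i =ᵐ[X.μ] fun x => k1 x + k2 x := by
      intro i
      obtain ⟨a1, a2, a3, a4⟩ := h1 i
      have aH := a1.mono (F.t.finv Z).le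
      have hc := a2.ce C
      have hc' := hc.mono hC.le
      obtain ⟨k0, c1, c2⟩ := F.ka.star X C Z p hC hp _ _ aH (BM.const 1)
      obtain ⟨k2, d1, d2⟩ := F.ka.star X C Z p hC hp _ _ aH (a2.sub hc')
      simp only [T3x.Star, mul_one] at c2
      have hk0 : BM X.μ C k0 := by
        refine (c1.of_aesm ((F.t.inv_iff X k0 c1.1).2 (desc (mp false) (bm_comp X.mp c1) c1
          ?_))).mono hI
        have e1 := F.a.keq_fun X.ms Z.μ X.μ _ _ k0 (mpc (mp false) Z.mp) (mpc X.mp (mp false))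
          (hp.emb false).eqv c1.1
        have e2 := F.t.ce Z _ 1 (H i) hP aH.integrable
        simp only [F.t.one] at e2
        filter_upwards [e1, Z.mp.quasiMeasurePreserving.ae c2, e2, c2, condExp_congr_ae
          (m := pull Z.μ (p false) X.ms) ((F.t.inv_iff Z _ aH.1).1 a1.1)] with z z1 z2 z3 z4 z5
        exact z1.symm.trans (z2.trans (z3.symm.trans (z5.trans z4.symm)))
      refine ⟨fun x => (X.μ[g i | C]) x * k0 x, k2, hc.mul hk0, ⟨d1, _, a2.sub hc', d2, ?_⟩,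
        desc (mp false) a3 ((hc'.mul c1).add d1) ?_⟩
      · filter_upwards [condExp_sub a2.integrable hc'.integrable C, BM.ce_self hC.le hc]
          with x x1 x2
        exact x1.trans (by rw [Pi.sub_apply, x2, sub_self]; rfl)
      · have e1 : (fun z => H i z * g i (p true z)) =ᵐ[Z.μ]
            (fun z => (X.μ[g i | C]) (p false z) * H i z) +
              fun z => H i z * (g i (p true z) - (X.μ[g i | C]) (p true z)) := by
          filter_upwards [sw _ hc] with z hz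
          rw [Pi.add_apply, hz]
          ring
        filter_upwards [a4, condExp_congr_ae (m := pull Z.μ (p false) X.ms) e1, condExp_add
          ((bm_comp (mp false) hc').mul aH).integrable
          (aH.mul (bm_comp (mp true) (a2.sub hc'))).integrable (pull Z.μ (p false) X.ms),
          Fib27.ce_mul hP.le (b0 _ hc') aH, c2, d2] with z z1 z2 z3 z4 z5 z6
        rw [z1, z2, z3, Pi.add_apply, z4, z5, z6]
    choose k1 k2 a1 a2 a3 using key
    refine ⟨n + n, Fin.append k1 k2, fun i => ?_, le_trans (le_of_eq (integral_congr_ae ?_)) h2⟩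
    · refine Fin.addCases (fun j => ?_) (fun j => ?_) i
      · rw [Fin.append_left]; exact ⟨(a1 j).mono hC.le, Or.inl (a1 j)⟩
      · rw [Fin.append_right]; exact ⟨(a2 j).1, Or.inr ⟨H j, (a2 j).2.imp fun _ h =>
          ⟨(h1 j).1, h⟩⟩⟩
    · filter_upwards [ae_all_iff.2 a3] with x hx
      simp only [Fin.sum_univ_add, Fin.append_left, Fin.append_right, hx, sum_add_distrib]
  · rcases hf.2 with h | ⟨H, g, a1, a2, a3, a4⟩
    · exact hg f h
    · exact G.zero ν ν' X f hf.1 (hA ν' ν X B0 C Z p hX hB hC hBC hp hg h0 H g f a1 a2 hf.1 a3 a4)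
        (hA ν' ν' X B0 C Z p hX hB hC hBC hp (fun _ _ _ _ => by simp) h0 H g f a1 a2 hf.1 a3 a4)

theorem coreX (ν : Wt) (h : T5y.CoreF ν) (X : Sys) (B : MeasurableSpace X.X) (f : X.X → ℂ)
    (hX : Nice X) (hB : KC X B) (hf : BM X.μ X.ms f) (h0 : X.μ[f | B] =ᵐ[X.μ] 0) : U0f ν X f := by
  intro b hb
  have := h X B f (fun _ _ _ => 1) b hX hB hf h0 (fun _ _ => measurable_const)
    (fun _ _ _ => by simp) hb
  simpa only [one_mul, tav] using this

theorem det (F : Fd) (G : Gx) (hC : Cptf) (ν ν' : Wt) (c1 : T5y.CoreF ν) (c2 : T5y.CoreF ν')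
    (hB : THas ν ν') (X : Sys) : UGx ν ν' X X.ms := by
  obtain ⟨X', e, hX, he, hf⟩ := F.nice0 X
  refine G.down ν ν' X X' e he hf fun g hg => ?_
  obtain ⟨B0, b1, b2, b3, b4⟩ := hB X'
  have hK := F.h.kc X' B0 hX b1
  have hU : UGx ν ν' X' (hull X' B0) := F.h.ind X' B0 _ hX b1
    (fun g hg b hb => b3 g hg (fun _ => b) fun _ => hb)
    (fun C k1 k2 k3 => hC ν ν' X' B0 C hX b1 k1 k2 (b2.trans k2) k3 b4)
    fun 𝒞 k1 k2 k3 => G.chain ν ν' X' 𝒞 k1 k2 fun C h => ⟨(k3 C h).1, (k3 C h).2.2⟩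
  have hle : hull X' B0 ≤ X'.ms := hK.1.le
  have hc := hg.ce (hull X' B0)
  have hc' := hc.mono hle
  have h0 : X'.μ[fun x => g x - (X'.μ[g | hull X' B0]) x | hull X' B0] =ᵐ[X'.μ] 0 := by
    filter_upwards [condExp_sub hg.integrable hc'.integrable (hull X' B0), BM.ce_self hle hc]
      with x x1 x2
    exact x1.trans (by rw [Pi.sub_apply, x2, sub_self]; rfl)
  exact G.add ν ν' X' g _ _ hc' (hg.sub hc') (Eventually.of_forall fun x => by ring) (hU _ hc)
    (G.zero ν ν' X' _ (hg.sub hc') (coreX ν c1 X' _ _ hX hK (hg.sub hc') h0)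
      (coreX ν' c2 X' _ _ hX hK (hg.sub hc') h0))

end DetUL

open DetUL in
theorem detU : DetUR := fun F hC ν ν' u1 u2 hB Y g b hg hb =>
  det F (gx F) (cpt F (gx F) (cptA F (T5u.key F) (T5u.drop F T5u.pick))) ν ν' (hC ν u1) (hC ν' u2)
    hB Y g hg b hb

end T8

end

end PkDetU
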