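import Pool.Agent.MP_154433_an.t8.Spec

/-! Eigenfunctions with an invariant frequency (packed). -/

section PkEB

/-! Calculus of eigenfunctions with an invariant frequency. -/

set_option autoImplicit false
set_option linter.unusedVariables false
set_option warn.classDefReducibility false

open MeasureTheory ProbabilityTheory Filter Topology Function
open scoped BigOperators ComplexConjugate

noncomputable section

namespace T8

open Pool.Agent.MP_154433_an hiding BM
open T3S (B1 MB1 PW AsInv Erg Bd Near Gr yw nu nb CZ)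
open T4S (Gm ddX Spr)
open Fib27 (BM)
open T3x (nul pull gen)
open T4x (Fac Emb Inv Nice Pair Star KK Fd)
open T6 (Sy MB rr ee NN Vn IvF Ver VB QB Nul QE EL NulInv Cl EE LF LfP LiftA LbS Pj Tw2 d2 G0 G0S
  df AS)

namespace EBL

lemma ee_zero : ee 0 = 1 := by simp [ee]

lemma ee_add (s t : ℝ) : ee (s + t) = ee s * ee t := by
  simp only [ee, ← Complex.exp_add]
  congr 1
  push_cast
  ring

lemma ee_neg (t : ℝ) : ee (-t) = conj (ee t) := by
  simp only [ee, ← Complex.exp_conj, map_mul, Complex.conj_ofReal, Complex.conj_I]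
  congr 1
  push_cast
  ring

lemma norm_ee (t : ℝ) : ‖ee t‖ = 1 := Complex.norm_exp_ofReal_mul_I _

lemma meas_ee : Measurable ee := by
  unfold ee
  fun_prop

lemma comm (X : Sy) (u v : Gm 2) (x : X.X) : X.A u (X.A v x) = X.A v (X.A u x) :=
  (X.add u v x).symm.trans ((congrArg (fun n => X.Tz n x) (add_comm u v)).trans (X.add v u x))

lemma sh (X : Sy) (v : Gm 2) {p : X.X → Prop} (h : ∀ᵐ x ∂X.μ, p x) : ∀ᵐ x ∂X.μ, p (X.A v x) :=
  (X.mp v).quasiMeasurePreserving.ae h

lemma bm {X : Sy} {f : X.X → ℂ} (h : MB X f) : BM X.μ X.ms f :=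
  ⟨h.1.aestronglyMeasurable, 1, ae_of_all _ h.2⟩

end EBL

open EBL

theorem eb : EBR := by
  intro F V
  refine ⟨fun X u c h => ⟨fun _ => 0, h.1, measurable_const, EventuallyEq.rfl,
    h.2.mono fun x hx => by simpa [ee_zero] using hx⟩, ?_, ?_, ?_, ?_, ?_, ?_⟩
  · rintro X u φ ψ ⟨ξ, a1, a2, a3, a4⟩ ⟨η, b1, b2, b3, b4⟩
    refine ⟨fun x => ξ x + η x, ⟨a1.1.mul b1.1, fun x => ?_⟩, a2.add b2, a3.add b3, ?_⟩
    · rw [norm_mul]
      exact mul_le_one₀ (a1.2 x) (norm_nonneg _) (b1.2 x)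
    · filter_upwards [a4, b4] with x h1 h2
      rw [h1, h2, ee_add]
      ring
  · rintro X u ψ ⟨ξ, a1, a2, a3, a4⟩
    refine ⟨fun x => -ξ x, ⟨Complex.continuous_conj.measurable.comp a1.1, fun x => ?_⟩, a2.neg,
      a3.neg, ?_⟩
    · rw [Complex.norm_conj]
      exact a1.2 x
    · filter_upwards [a4] with x h1
      rw [h1, ee_neg, map_mul]
  · rintro X u ψ v ⟨ξ, a1, a2, a3, a4⟩
    refine ⟨fun x => ξ (X.A v x), ⟨a1.1.comp (X.mp v).measurable, fun x => a1.2 _⟩,
      a2.comp (X.mp v).measurable, ?_, ?_⟩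
    · filter_upwards [sh X v a3] with x h1
      rw [comm, h1]
    · filter_upwards [sh X v a4] with x h1
      rw [comm, h1]
  · rintro X' X p u ψ hp ⟨ξ, a1, a2, a3, a4⟩
    have k : ∀ f : X.X → ℂ, Measurable f →
        (fun x => f (p (X'.A u x))) =ᵐ[X'.μ] fun x => f (X.A u (p x)) := fun f hf =>
      F.a.keq_fun X.ms X'.μ X.μ (p ∘ X'.Tz u) (X.Tz u ∘ p) f (hp.mp.comp (X'.mp u))
        ((X.mp u).comp hp.mp) (hp.eqv u) hf.aestronglyMeasurable
    refine ⟨fun x => ξ (p x), ⟨a1.1.comp hp.mp.measurable, fun x => a1.2 _⟩,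
      a2.comp hp.mp.measurable, ?_, ?_⟩
    · filter_upwards [hp.mp.quasiMeasurePreserving.ae a3,
        k (fun x => (ξ x : ℂ)) (Complex.measurable_ofReal.comp a2)] with x h1 h2
      exact (Complex.ofReal_injective h2).trans h1
    · filter_upwards [hp.mp.quasiMeasurePreserving.ae a4, k ψ a1.1] with x h1 h2
      exact h2.trans h1
  · rintro X Y u ψ ψ' hY hI ⟨ξ, a1, a2, a3, a4⟩ hv
    have e1 : MB X fun x => ee (ξ x) := ⟨meas_ee.comp a2, fun x => (norm_ee _).le⟩
    have e2 : BM X.μ Y fun x => ee (ξ x) :=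
      ((V.ivf X u _ e1).1 ⟨e1, a3.mono fun x hx => congrArg ee hx⟩).mono hI
    refine ⟨ξ, (V.half X Y ψ ψ' hY a1 hv).1, a2, a3, ?_⟩
    filter_upwards [a4, hv.2, sh X u hv.2,
      F.t.ce X Y u ψ hY (bm a1).integrable, condExp_congr_ae (m := Y) a4,
      Fib27.ce_mul hY.le e2 (bm a1)] with x h1 h2 h3 h4 h5 h6
    have h7 : ψ' (X.A u x) = ee (ξ x) * ψ' x := by
      rw [h2]
      exact h3.trans (h4.symm.trans (h5.trans h6))
    rw [h1, h7]
    ring
  · rintro X u ξ ψ ⟨a1, a2, a3, a4⟩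
    refine ae_all_iff.2 fun d => ?_
    induction d with
    | zero =>
      refine ae_of_all _ fun x => ?_
      simp [X.zero, ee_zero]
    | succ d ih =>
      filter_upwards [ih, sh X ((d : ℤ) • u) a3,
        sh X ((d : ℤ) • u) a4] with x h1 h2 h3
      have e : X.A (((d + 1 : ℕ) : ℤ) • u) x = X.A u (X.A ((d : ℤ) • u) x) := by
        rw [Nat.cast_succ, add_smul, one_smul, add_comm]
        exact X.add _ _ x
      rw [e]
      refine ⟨h2.trans h1.1, h3.trans ?_⟩
      rw [h1.1, h1.2, Nat.cast_succ, add_mul, one_mul, ee_add]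
      ring

end T8

end

end PkEB

section PkSel

/-! Measurable choice of a common near maximum. -/

set_option autoImplicit false

open MeasureTheory Filter Topology Function Set

noncomputable section

namespace T8

namespace SelL

def c (r u : ℝ) : ℝ := max 0 (min r u)

def M (f : ℝ → ℝ) (r : ℝ) : ℝ := ⨆ q : ℚ, f (c r q)

theorem c_mem {r : ℝ} (hr : 0 ≤ r) (u : ℝ) : c r u ∈ Icc 0 r :=
  ⟨le_max_left _ _, max_le hr (min_le_left _ _)⟩

theorem c_eq {r u : ℝ} (h : u ∈ Icc 0 r) : c r u = u := by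
  rw [c, min_eq_right h.2, max_eq_right h.1]

theorem le_M {f : ℝ → ℝ} (hf : Continuous f) (hb : ∀ t, |f t| ≤ 1) {r t : ℝ}
    (h : t ∈ Icc 0 r) : f t ≤ M f r := by
  have hc : Continuous fun u => f (c r u) := hf.comp (by unfold c; fun_prop)
  have : f (c r t) ≤ M f r :=
    (Rat.denseRange_cast (𝕜 := ℝ)).induction_on (p := fun u => f (c r u) ≤ M f r) t
      (isClosed_le hc continuous_const) fun q =>
        le_ciSup (f := fun q : ℚ => f (c r q))
          ⟨1, by rintro _ ⟨q, rfl⟩; exact (abs_le.1 (hb _)).2⟩ q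
  rwa [c_eq h] at this

theorem ex_M {f : ℝ → ℝ} (hf : Continuous f) {r : ℝ} (hr : 0 ≤ r) :
    ∃ t ∈ Icc 0 r, M f r ≤ f t := by
  obtain ⟨t, ht, h⟩ := isCompact_Icc.exists_isMaxOn (nonempty_Icc.2 hr) hf.continuousOn
  exact ⟨t, ht, ciSup_le fun q => h (c_mem hr _)⟩

theorem abs_M {f : ℝ → ℝ} (hf : Continuous f) (hb : ∀ t, |f t| ≤ 1) : |M f 1| ≤ 1 := by
  obtain ⟨t, -, h⟩ := ex_M hf zero_le_one
  exact abs_le.2 ⟨(abs_le.1 (hb 0)).1.trans (le_M hf hb ⟨le_rfl, zero_le_one⟩),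
    h.trans (abs_le.1 (hb t)).2⟩

theorem ex_all {b : ℕ → ℝ → ℝ} (hf : ∀ k, Continuous (b k)) (hm : ∀ k t, b (k + 1) t ≤ b k t)
    {r a : ℝ} (hr : 0 ≤ r) (h : ∀ k, a ≤ M (b k) r) : ∃ t ∈ Icc 0 r, ∀ k, a ≤ b k t := by
  have hcl : ∀ k, IsClosed (Icc 0 r ∩ {t | a ≤ b k t}) := fun k =>
    isClosed_Icc.inter (isClosed_le continuous_const (hf k))
  obtain ⟨t, ht⟩ := IsCompact.nonempty_iInter_of_sequence_nonempty_isCompact_isClosed
    (fun k => Icc 0 r ∩ {t | a ≤ b k t})
    (fun k t ht => ⟨ht.1, le_trans ht.2 (hm k t)⟩)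
    (fun k => by
      obtain ⟨t, ht, h'⟩ := ex_M (hf k) hr
      exact ⟨t, ht, (h k).trans h'⟩)
    (isCompact_Icc.of_isClosed_subset (hcl 0) inter_subset_left) hcl
  rw [mem_iInter] at ht
  exact ⟨t, (ht 0).1, fun k => (ht k).2⟩

open Classical in
def xi (b : ℕ → ℝ → ℝ) (a : ℝ) : ℝ := ⨅ q : ℚ, if ∀ k, a ≤ M (b k) (c 1 q) then c 1 q else 1

theorem xi_good {b : ℕ → ℝ → ℝ} (hf : ∀ k, Continuous (b k)) (hb : ∀ k t, |b k t| ≤ 1)
    (hm : ∀ k t, b (k + 1) t ≤ b k t) {a : ℝ} (h : ∀ k, a ≤ M (b k) 1) (k : ℕ) :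
    a ≤ b k (xi b a) := by
  classical
  have hcl : IsClosed (Icc (0 : ℝ) 1 ∩ ⋂ k, {t | a ≤ b k t}) :=
    isClosed_Icc.inter (isClosed_iInter fun k => isClosed_le continuous_const (hf k))
  obtain ⟨t1, h1, h1'⟩ := ex_all hf hm zero_le_one h
  obtain ⟨t, ⟨ht, ht'⟩, hl⟩ := (isCompact_Icc.of_isClosed_subset hcl
    inter_subset_left).exists_isLeast ⟨t1, h1, mem_iInter.2 h1'⟩
  have ht2 : ∀ k, a ≤ b k t := mem_iInter.1 ht'
  have hlow : ∀ q : ℚ, t ≤ if ∀ k, a ≤ M (b k) (c 1 q) then c 1 q else 1 := fun q => by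
    split_ifs with hq
    · have hq1 := c_mem zero_le_one (q : ℝ)
      obtain ⟨u, hu, hu'⟩ := ex_all hf hm hq1.1 hq
      exact (hl ⟨⟨hu.1, hu.2.trans hq1.2⟩, mem_iInter.2 hu'⟩).trans hu.2
    · exact ht.2
  have hle : ∀ q : ℚ, xi b a ≤ if ∀ k, a ≤ M (b k) (c 1 q) then c 1 q else 1 := fun q =>
    ciInf_le ⟨t, by rintro _ ⟨q, rfl⟩; exact hlow q⟩ q
  have hone : xi b a ≤ 1 := (hle 0).trans (by
    split_ifs
    · exact (c_mem zero_le_one _).2
    · exact le_rfl)
  have : xi b a = t := by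
    refine le_antisymm (not_lt.1 fun hlt => ?_) (le_ciInf hlow)
    obtain ⟨q, hq, hq'⟩ := exists_rat_btwn hlt
    have hc : c 1 q = q := c_eq ⟨ht.1.trans hq.le, hq'.le.trans hone⟩
    have := hle q
    rw [hc, if_pos fun k => (ht2 k).trans (le_M (hf k) (hb k) ⟨ht.1, hq.le⟩)] at this
    exact absurd hq' (not_lt.2 this)
  rw [this]
  exact ht2 k

end SelL

open SelL in
theorem sel : SelR := by
  classical
  intro Ω m b hme hc hb
  have hM : ∀ k r, Measurable fun x => M (b k x) r := fun k r =>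
    Measurable.iSup fun q => hme k _
  have h0 : Measurable fun x => ⨅ k, M (b k x) 1 := Measurable.iInf fun k => hM k 1
  have hbd : ∀ x, BddBelow (range fun k => M (b k x) 1) := fun x =>
    ⟨-1, by rintro _ ⟨k, rfl⟩; exact (abs_le.1 (abs_M (hc k x) (hb k x))).1⟩
  refine ⟨fun x => xi (fun k => b k x) (⨅ k, M (b k x) 1), fun k x => M (b k x) 1,
    fun x => ⨅ k, M (b k x) 1, Measurable.iInf fun q => Measurable.ite ?_ measurable_const
      measurable_const, fun k => hM k 1, h0, fun k x => abs_M (hc k x) (hb k x), fun x => ?_,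
    fun k x t ht => le_M (hc k x) (hb k x) ht, fun x hm => ⟨?_, fun k => ?_⟩⟩
  · rw [ofPred_forall]
    exact MeasurableSet.iInter fun k => measurableSet_le h0 (hM k _)
  · exact abs_le.2 ⟨le_ciInf fun k => (abs_le.1 (abs_M (hc k x) (hb k x))).1,
      (ciInf_le (hbd x) 0).trans (abs_le.1 (abs_M (hc 0 x) (hb 0 x))).2⟩
  · refine tendsto_atTop_ciInf (antitone_nat_of_succ_le fun k => ?_) (hbd x)
    obtain ⟨t, ht, h⟩ := ex_M (hc (k + 1) x) zero_le_one
    exact h.trans ((hm k t).trans (le_M (hc k x) (hb k x) ht))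
  · exact xi_good (fun k => hc k x) (fun k => hb k x) hm (fun k => ciInf_le (hbd x) k) k

end T8

end

end PkSel

section PkPdA

/-! The smoothed spectral density at a fixed frequency is a conditional expectation. -/

set_option autoImplicit false
set_option linter.unusedVariables false

open MeasureTheory ProbabilityTheory Filter Topology Function
open scoped BigOperators ComplexConjugate

noncomputable section

namespace T8

open Pool.Agent.MP_154433_an hiding BM
open T3S (B1 MB1)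
open T4S (Gm ddX)
open T4x (Fac Inv Fd)
open T6 (Sy MB ee IvF Ver VB)

namespace PdAL

theorem le (X : Sy) (u : Gm 2) : Inv X {u} ≤ X.ms := fun A hA => hA.1

theorem int (X : Sy) {f : X.X → ℂ} (h : MB X f) : Integrable f X.μ :=
  Integrable.of_bound h.1.aestronglyMeasurable 1 (Eventually.of_forall h.2)

theorem step (X : Sy) (u : Gm 2) {F : X.X → ℂ} (h : MB X F) :
    X.μ[F | Inv X {u}] =ᵐ[X.μ] X.μ[fun x => F (X.A u x) | Inv X {u}] := by
  refine ae_eq_condExp_of_forall_setIntegral_eq (le X u)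
    (int X ⟨h.1.comp (X.mp u).measurable, fun x => h.2 _⟩)
    (fun s _ _ => integrable_condExp.integrableOn) (fun s hs _ => ?_)
    stronglyMeasurable_condExp.aestronglyMeasurable
  rw [setIntegral_condExp (le X u) (int X h) hs]
  exact ((X.mp u).setIntegral_preimage_emb (X.eq u).measurableEmbedding F s).symm.trans
    (setIntegral_congr_set (hs.2 u rfl))

theorem shift (X : Sy) (u : Gm 2) (n : ℕ) {F : X.X → ℂ} (h : MB X F) :
    X.μ[F | Inv X {u}] =ᵐ[X.μ] X.μ[fun x => F (X.A ((n : ℤ) • u) x) | Inv X {u}] := by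
  induction n with
  | zero => simp [X.zero]
  | succ n ih =>
    refine ih.trans ((step X u (F := fun x => F (X.A ((n : ℤ) • u) x))
      ⟨h.1.comp (X.mp _).measurable, fun x => h.2 _⟩).trans (EventuallyEq.of_eq ?_))
    congr 1
    funext x
    rw [Nat.cast_succ, add_smul, one_smul]
    exact congrArg F (X.add _ _ x).symm

theorem ce_expect {Ω ι : Type} [Fintype ι] (m : MeasurableSpace Ω) {m0 : MeasurableSpace Ω}
    (μ : Measure Ω) (f g : ι → Ω → ℂ) (hf : ∀ i, Integrable (f i) μ)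
    (h : ∀ i, g i =ᵐ[μ] μ[f i | m]) :
    Integrable (fun x => 𝔼 i, f i x) μ ∧
      (fun x => 𝔼 i, g i x) =ᵐ[μ] μ[fun x => 𝔼 i, f i x | m] := by
  have e : ∀ k : ι → Ω → ℂ,
      (fun x => 𝔼 i, k i x) = ((Fintype.card ι : ℂ)⁻¹) • ∑ i, k i := fun k => by
    funext x
    rw [Fintype.expect_eq_sum_div_card]
    simp [div_eq_inv_mul]
  rw [e f, e g]
  refine ⟨(integrable_finsetSum' _ fun i _ => hf i).smul _, ?_⟩
  filter_upwards [condExp_smul ((Fintype.card ι : ℂ)⁻¹) (∑ i, f i) m (μ := μ),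
    condExp_finsetSum (s := Finset.univ) (fun i _ => hf i) m, ae_all_iff.2 h] with x h1 h2 h3
  rw [h1, Pi.smul_apply, Pi.smul_apply, h2, Finset.sum_apply, Finset.sum_apply]
  exact congrArg _ (Finset.sum_congr rfl fun i _ => h3 i)

theorem norm_ee (t : ℝ) : ‖ee t‖ = 1 := Complex.norm_exp_ofReal_mul_I _

theorem ee_mul (a b t : ℝ) : ee (-(b * t)) * conj (ee (-(a * t))) = ee (-((b - a) * t)) := by
  unfold ee
  rw [← Complex.exp_conj, ← Complex.exp_add, map_mul, Complex.conj_ofReal, Complex.conj_I]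
  congr 1
  push_cast
  ring

theorem meas_ee : Measurable ee := by
  unfold ee
  fun_prop

end PdAL

open PdAL in
theorem pdA : PdAR := by
  intro _ _ X u g γ hg hγ ξ N hξ
  set D : Fin N → Fin N → X.X → ℂ := fun n n' =>
    ddX X.A ((((n' : ℕ) : ℤ) - ((n : ℕ) : ℤ)) • u) g with hD
  set e : Fin N → Fin N → X.X → ℂ := fun n n' x =>
    ee (-((((n' : ℕ) : ℝ) - ((n : ℕ) : ℝ)) * ξ x)) with he
  have hDm : ∀ n n', MB X (D n n') := fun n n' =>
    ⟨(hg.1.comp (X.mp _).measurable).mul (Complex.continuous_conj.measurable.comp hg.1),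
      fun x => by
        simp only [hD, ddX, norm_mul, Complex.norm_conj]
        exact mul_le_one₀ (hg.2 _) (norm_nonneg _) (hg.2 _)⟩
  have hem : ∀ n n', Measurable[Inv X {u}] (e n n') := fun n n' =>
    meas_ee.comp (hξ.const_mul _).neg
  have hT : ∀ n n' : Fin N, MB X fun x => D n n' (X.A (((n : ℕ) : ℤ) • u) x) := fun n n' =>
    ⟨(hDm n n').1.comp (X.mp _).measurable, fun x => (hDm n n').2 _⟩
  have hI : ∀ n n' : Fin N,
      Integrable (fun x => D n n' (X.A (((n : ℕ) : ℤ) • u) x) * e n n' x) X.μ := fun n n' =>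
    int X ⟨(hT n n').1.mul ((hem n n').mono (le X u) le_rfl), fun x => by
      rw [norm_mul, he, norm_ee, mul_one]; exact (hT n n').2 x⟩
  have h1 : ∀ n n' : Fin N, (fun x => γ (((n' : ℕ) : ℤ) - ((n : ℕ) : ℤ)) x * e n n' x) =ᵐ[X.μ]
      X.μ[fun x => D n n' (X.A (((n : ℕ) : ℤ) • u) x) * e n n' x | Inv X {u}] := fun n n' => by
    filter_upwards [condExp_bilin_of_aestronglyMeasurable_right (ContinuousLinearMap.mul ℝ ℂ)
      (hem n n').aestronglyMeasurable (hI n n') (int X (hT n n')), shift X u n (hDm n n'),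
      (hγ (((n' : ℕ) : ℤ) - ((n : ℕ) : ℤ))).1.2] with x a1 a2 a3
    refine Eq.trans ?_ a1.symm
    rw [a3, ContinuousLinearMap.mul_apply', ← a2]
  have h2 := fun n : Fin N => ce_expect (Inv X {u}) X.μ _ _ (hI n) (h1 n)
  have h3 := ce_expect (Inv X {u}) X.μ _ _ (fun n => (h2 n).1) fun n => (h2 n).2
  have h4 : (fun x => ((‖tw X u ξ g N x‖ ^ 2 : ℝ) : ℂ)) = fun x => 𝔼 n : Fin N, 𝔼 n' : Fin N,
      D n n' (X.A (((n : ℕ) : ℤ) • u) x) * e n n' x := by
    funext x
    rw [Complex.ofReal_pow, ← Complex.conj_mul', tw, map_expect, Finset.expect_mul_expect]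
    refine Finset.expect_congr rfl fun n _ => Finset.expect_congr rfl fun n' _ => ?_
    simp only [hD, he, ddX, map_mul]
    have e1 : X.A ((((n' : ℕ) : ℤ) - ((n : ℕ) : ℤ)) • u) (X.A (((n : ℕ) : ℤ) • u) x) =
        X.A (((n' : ℕ) : ℤ) • u) x :=
      (X.add _ _ x).symm.trans (by rw [← add_smul, sub_add_cancel])
    rw [← ee_mul, e1]
    ring
  have h5 : Integrable (fun x => ‖tw X u ξ g N x‖ ^ 2) X.μ := by
    have := h3.1
    rw [← h4] at this
    simpa [← Complex.ofReal_pow] using this.re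
  have h6 := Complex.ofRealCLM.comp_condExp_comm (m := Inv X {u}) h5
  have h7 := h3.2
  rw [← h4] at h7
  filter_upwards [h6, h7] with x a1 a2
  have a3 : (X.μ[fun x => ((‖tw X u ξ g N x‖ ^ 2 : ℝ) : ℂ) | Inv X {u}]) x =
      (((X.μ[fun x => ‖tw X u ξ g N x‖ ^ 2 | Inv X {u}]) x : ℝ) : ℂ) := a1.symm
  rw [a3] at a2 ⊢
  congr 1
  exact (congrArg Complex.re a2).trans (Complex.ofReal_re _)

end T8

end

end PkPdA

section PkPd

/-! The smoothed spectral densities are nonnegative and decrease along doubling. -/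

set_option autoImplicit false
set_option linter.unusedVariables false
set_option warn.classDefReducibility false

open MeasureTheory ProbabilityTheory Filter Topology Function
open scoped BigOperators ComplexConjugate

noncomputable section

namespace T8

open Pool.Agent.MP_154433_an hiding BM
open T3S (B1 MB1 PW AsInv Erg Bd Near Gr yw nu nb CZ)
open T4S (Gm ddX Spr)
open Fib27 (BM)
open T3x (nul pull gen)
open T4x (Fac Emb Inv Nice Pair Star KK Fd)
open T6 (Sy MB rr ee NN Vn IvF Ver VB QB Nul QE EL NulInv Cl EE LF LfP LiftA LbS Pj Tw2 d2 G0 G0S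
  df AS)

namespace PdL

theorem ee_add (s t : ℝ) : ee (s + t) = ee s * ee t := by
  simp only [ee, ← Complex.exp_add]
  congr 1
  push_cast
  ring

theorem ee_norm (t : ℝ) : ‖ee t‖ = 1 := Complex.norm_exp_ofReal_mul_I _

theorem ee_cont : Continuous ee := by unfold ee; fun_prop

theorem bb_cont (γ : ℤ → ℂ) (N : ℕ) : Continuous (bb γ N) := by
  have := ee_cont
  unfold bb
  simp only [Fintype.expect_eq_sum_div_card]
  fun_prop

theorem integ {X : Sy} {E : Type} [NormedAddCommGroup E] [MeasurableSpace E] [BorelSpace E]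
    [SecondCountableTopology E] {f : X.X → E} (h : Measurable f) (h1 : ∀ x, ‖f x‖ ≤ 1) :
    Integrable f X.μ := Integrable.of_bound h.aestronglyMeasurable 1 (ae_of_all _ h1)

theorem aa (X : Sy) (v w : Gm 2) (x : X.X) : X.A v (X.A w x) = X.A (v + w) x := (X.add v w x).symm

theorem invz (F : Fd) (X : Sy) (u : Gm 2) (n : ℤ) {φ : X.X → ℂ} (h0 : AEStronglyMeasurable φ X.μ)
    (h : AEStronglyMeasurable[Inv X {u}] φ X.μ) : (fun x => φ (X.A (n • u) x)) =ᵐ[X.μ] φ := by
  have h1 := F.t.inv_iff X (AddSubgroup.closure ({u} : Set T4x.Γ) : Set T4x.Γ) φ h0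
  rw [F.t.inv_cl] at h1
  have h2 : n • u ∈ AddSubgroup.closure ({u} : Set (Gm 2)) :=
    AddSubgroup.mem_closure_singleton.2 ⟨n, rfl⟩
  exact h1.1 h (n • u) h2

theorem sh (F : Fd) (X : Sy) (u : Gm 2) (n : ℤ) {f : X.X → ℂ} (hf : Integrable f X.μ) :
    X.μ[fun x => f (X.A (n • u) x) | Inv X {u}] =ᵐ[X.μ] X.μ[f | Inv X {u}] :=
  (F.t.ce X _ (n • u) f (F.t.finv X {u}) hf).trans (invz F X u n
    integrable_condExp.aestronglyMeasurable stronglyMeasurable_condExp.aestronglyMeasurable)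

theorem ce_re {X : Sy} (B : MeasurableSpace X.X) {r : X.X → ℝ} (hr : Integrable r X.μ) :
    X.μ[fun x => (r x : ℂ) | B] =ᵐ[X.μ] fun x => (((X.μ[r | B]) x : ℝ) : ℂ) :=
  (Complex.ofRealCLM.comp_condExp_comm hr).symm

theorem shr (F : Fd) (X : Sy) (u : Gm 2) (n : ℤ) {r : X.X → ℝ} (hr : Integrable r X.μ) :
    X.μ[fun x => r (X.A (n • u) x) | Inv X {u}] =ᵐ[X.μ] X.μ[r | Inv X {u}] := by
  have h1 := sh F X u n hr.ofReal
  have h2 := ce_re (Inv X {u}) hr
  have h3 := ce_re (Inv X {u}) (((X.mp (n • u)).integrable_comp hr.1).2 hr)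
  filter_upwards [h1, h2, h3] with x a1 a2 a3
  exact Complex.ofReal_injective (a3.symm.trans (a1.trans a2))

theorem tw_mb {X : Sy} (u : Gm 2) {ξ : X.X → ℝ} {g : X.X → ℂ} (hg : MB X g) (hξ : Measurable ξ)
    (N : ℕ) : MB X (tw X u ξ g N) := by
  refine ⟨?_, fun x => ?_⟩
  · unfold tw
    simp only [Fintype.expect_eq_sum_div_card]
    refine (Finset.measurable_sum _ fun n _ => ?_).div_const _
    exact (ee_cont.measurable.comp (hξ.const_mul _).neg).mul (hg.1.comp (X.mp _).measurable)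
  · rw [tw, Fintype.expect_eq_sum_div_card, norm_div, Complex.norm_natCast]
    refine div_le_one_of_le₀ ((norm_sum_le _ _).trans ?_) (Nat.cast_nonneg _)
    refine (Finset.sum_le_card_nsmul _ _ 1 fun n _ => ?_).trans (by simp)
    rw [norm_mul, ee_norm, one_mul]
    exact hg.2 _

theorem tw_int {X : Sy} (u : Gm 2) {ξ : X.X → ℝ} {g : X.X → ℂ} (hg : MB X g) (hξ : Measurable ξ)
    (N : ℕ) : Integrable (fun x => ‖tw X u ξ g N x‖ ^ 2) X.μ :=
  integ ((tw_mb u hg hξ N).1.norm.pow_const 2) fun x => by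
    rw [norm_pow, norm_norm]
    exact pow_le_one₀ (norm_nonneg _) ((tw_mb u hg hξ N).2 x)

theorem tw_two (X : Sy) (u : Gm 2) (t : ℝ) (g : X.X → ℂ) (N : ℕ) (x : X.X) :
    tw X u (fun _ => t) g (2 * N) x = (tw X u (fun _ => t) g N x +
      ee (-((N : ℝ) * t)) * tw X u (fun _ => t) g N (X.A ((N : ℤ) • u) x)) / 2 := by
  have e : ∀ (M : ℕ) (y : X.X), tw X u (fun _ => t) g M y =
      (∑ n ∈ Finset.range M, ee (-((n : ℝ) * t)) * g (X.A ((n : ℤ) • u) y)) / M := fun M y => by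
    rw [tw, Fintype.expect_eq_sum_div_card, Fintype.card_fin,
      Fin.sum_univ_eq_sum_range (fun n => ee (-((n : ℝ) * t)) * g (X.A ((n : ℤ) • u) y))]
  have e2 : ∀ n : ℕ, ee (-(((N + n : ℕ) : ℝ) * t)) * g (X.A (((N + n : ℕ) : ℤ) • u) x) =
      ee (-((N : ℝ) * t)) * (ee (-((n : ℝ) * t)) * g (X.A ((n : ℤ) • u) (X.A ((N : ℤ) • u) x))) :=
    fun n => by
      rw [← mul_assoc, ← ee_add, aa, ← add_smul]
      push_cast
      rw [add_comm (n : ℤ)]
      congr 2
      ring
  rw [e, e, e, two_mul, Finset.sum_range_add]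
  simp only [e2, ← Finset.mul_sum]
  push_cast
  rw [← two_mul]
  ring

theorem par (a b c : ℂ) (hc : ‖c‖ = 1) : ‖(a + c * b) / 2‖ ^ 2 ≤ 2⁻¹ * (‖a‖ ^ 2 + ‖b‖ ^ 2) := by
  have h : ‖(a + c * b) / 2‖ ≤ (‖a‖ + ‖b‖) / 2 := by
    rw [norm_div, Complex.norm_two]
    gcongr
    refine (norm_add_le _ _).trans ?_
    rw [norm_mul, hc, one_mul]
  refine (pow_le_pow_left₀ (norm_nonneg _) h 2).trans ?_
  nlinarith [sq_nonneg (‖a‖ - ‖b‖)]

end PdL

open PdL in
theorem pd : PdR := by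
  intro F V hA X u g γ hg hγ
  have hB := F.t.finv X {u}
  have key : ∀ (ξ : X.X → ℝ) (N : ℕ), Measurable[Inv X {u}] ξ →
      (fun x => bb (fun n => γ n x) N (ξ x)) =ᵐ[X.μ]
        X.μ[fun x => ‖tw X u ξ g N x‖ ^ 2 | Inv X {u}] := fun ξ N hξ => by
    filter_upwards [hA X u g γ hg hγ ξ N hξ,
      ce_re (Inv X {u}) (tw_int u hg (hξ.mono hB.le le_rfl) N)] with x a1 a2
    exact Complex.ofReal_injective (a1.trans a2)
  refine ⟨?_, fun ξ N hξ => (integral_congr_ae (key ξ N hξ)).trans (integral_condExp hB.le)⟩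
  have h1 : ∀ n : ℤ, ∀ᵐ x ∂X.μ, γ (-n) x = conj (γ n x) := fun n => by
    have hi : Integrable (ddX X.A (n • u) g) X.μ := integ
      ((hg.1.comp (X.mp _).measurable).mul (Complex.continuous_conj.measurable.comp hg.1))
      fun x => by
        rw [ddX, norm_mul, RCLike.norm_conj]
        exact mul_le_one₀ (hg.2 _) (norm_nonneg _) (hg.2 _)
    have e : ddX X.A (-n • u) g =
        fun x => (Complex.conjCLE.toContinuousLinearMap ∘ ddX X.A (n • u) g) (X.A (-n • u) x) := by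
      funext x
      have : X.A (n • u) (X.A (-n • u) x) = x := by
        rw [aa, ← add_smul, add_neg_cancel, zero_smul]
        exact X.zero x
      change _ = conj (ddX X.A (n • u) g _)
      rw [ddX, ddX, this, map_mul, Complex.conj_conj, mul_comm]
    have a1 := sh F X u (-n) (Complex.conjCLE.toContinuousLinearMap.integrable_comp hi)
    have a2 := Complex.conjCLE.toContinuousLinearMap.comp_condExp_comm (m := Inv X {u}) hi
    have a3 := (hγ (-n)).1.2
    rw [e] at a3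
    filter_upwards [a1, a2, a3, (hγ n).1.2] with x b1 b2 b3 b4
    rw [b3, b4]
    exact b1.trans b2.symm
  have h2 : ∀ (N : ℕ) (q : ℚ), ∀ᵐ x ∂X.μ, 0 ≤ bb (fun n => γ n x) N q ∧
      bb (fun n => γ n x) (2 * N) q ≤ bb (fun n => γ n x) N q := fun N q => by
    have i1 := tw_int u hg (ξ := fun _ => (q : ℝ)) measurable_const N
    have i2 := ((X.mp ((N : ℤ) • u)).integrable_comp i1.1).2 i1
    have a1 := condExp_mono (m := Inv X {u}) (tw_int u hg (ξ := fun _ => (q : ℝ)) measurable_const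
      (2 * N)) ((i1.add i2).smul (2⁻¹ : ℝ)) (ae_of_all _ fun x => by
        beta_reduce
        rw [tw_two]
        exact par _ _ _ (ee_norm _))
    have a2 := condExp_nonneg (m := Inv X {u}) (μ := X.μ)
      (f := fun x => ‖tw X u (fun _ => (q : ℝ)) g N x‖ ^ 2) (ae_of_all _ fun x => sq_nonneg _)
    filter_upwards [a1, a2, key (fun _ => (q : ℝ)) N measurable_const,
      key (fun _ => (q : ℝ)) (2 * N) measurable_const, condExp_smul (μ := X.μ) (2⁻¹ : ℝ)
        ((fun x => ‖tw X u (fun _ => (q : ℝ)) g N x‖ ^ 2) +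
          (fun x => ‖tw X u (fun _ => (q : ℝ)) g N x‖ ^ 2) ∘ X.A ((N : ℤ) • u)) (Inv X {u}),
      condExp_add i1 i2 (Inv X {u}), shr F X u N i1] with x b1 b2 b3 b4 b5 b6 b7
    rw [b5, Pi.smul_apply, b6, Pi.add_apply] at b1
    refine ⟨b3 ▸ b2, ?_⟩
    rw [b3, b4]
    refine b1.trans (le_of_eq ?_)
    erw [b7]
    rw [smul_eq_mul]
    ring
  filter_upwards [ae_all_iff.2 h1, ae_all_iff.2 fun N => ae_all_iff.2 (h2 N)] with x a1 a2
  refine ⟨a1, fun N t _ => ?_⟩
  exact Rat.denseRange_cast.induction_on t ((isClosed_le continuous_const (bb_cont _ N)).inter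
    (isClosed_le (bb_cont _ (2 * N)) (bb_cont _ N))) (a2 N)

end T8

end

end PkPd

section PkMet

/-! The mean ergodic theorem with an invariant frequency. -/

set_option autoImplicit false
set_option linter.unusedVariables false

open MeasureTheory Filter Topology Function
open scoped BigOperators ComplexConjugate InnerProductSpace

noncomputable section

namespace T8

open Pool.Agent.MP_154433_an hiding BM
open T3S (MB1)
open T6 (ee act)

namespace MetL

lemma ee_add (s t : ℝ) : ee (s + t) = ee s * ee t := by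
  rw [ee, ee, ee, ← Complex.exp_add]
  congr 1
  push_cast
  ring

lemma norm_ee (t : ℝ) : ‖ee t‖ = 1 := Complex.norm_exp_ofReal_mul_I _

lemma ee_zero : ee 0 = 1 := by simp [ee]

lemma cont_ee : Continuous ee := by
  unfold ee
  fun_prop

lemma clip {X : Type} [MeasurableSpace X] {μ : Measure X} {g : X → ℂ}
    (hm : AEStronglyMeasurable g μ) (hb : ∀ᵐ x ∂μ, ‖g x‖ ≤ 1) : ∃ g', MB1 g' ∧ g =ᵐ[μ] g' := by
  classical
  have h1 := hm.stronglyMeasurable_mk.measurable
  refine ⟨fun x => if ‖hm.mk g x‖ ≤ 1 then hm.mk g x else 0,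
    ⟨Measurable.ite (measurableSet_le h1.norm measurable_const) h1 measurable_const,
      fun x => ?_⟩, ?_⟩
  · beta_reduce
    split_ifs with e
    · exact e
    · simp
  · filter_upwards [hb, hm.ae_eq_mk] with x h2 h3
    rw [← h3, if_pos h2]

lemma nsq {Ω : Type} [MeasurableSpace Ω] {μ : Measure Ω} (v : Lp ℂ 2 μ) :
    ∫ x, ‖v x‖ ^ 2 ∂μ = ‖v‖ ^ 2 := by
  have h := L2.inner_def (𝕜 := ℂ) v v
  simp_rw [inner_self_eq_norm_sq_to_K] at h
  have h2 : ((∫ x, ‖v x‖ ^ 2 ∂μ : ℝ) : ℂ) = ((‖v‖ ^ 2 : ℝ) : ℂ) := by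
    rw [← integral_complex_ofReal]; push_cast; exact h.symm
  exact_mod_cast h2

lemma main {Ω : Type} [MeasurableSpace Ω] (μ : Measure Ω) [IsProbabilityMeasure μ] (T : Ω → Ω)
    (hT : MeasurePreserving T μ μ) (ξ : Ω → ℝ) (mξ : Measurable ξ)
    (hξ : (fun x => ξ (T x)) =ᵐ[μ] ξ) (g : Ω → ℂ) (hg : MB1 g) :
    ∃ ψ, MB1 ψ ∧ ((fun x => ψ (T x)) =ᵐ[μ] fun x => ee (ξ x) * ψ x) ∧
    Tendsto (fun N : ℕ => ∫ x, ‖(N : ℂ)⁻¹ * ∑ n ∈ Finset.range N,
      ee (-((n : ℝ) * ξ x)) * g (T^[n] x)‖ ^ 2 ∂μ) atTop (𝓝 (∫ x, g x * conj (ψ x) ∂μ).re) := by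
  have mφ : MemLp (fun x => ee (-ξ x)) ⊤ μ := MemLp.of_bound
    (cont_ee.measurable.comp mξ.neg).aestronglyMeasurable 1 (ae_of_all _ fun x => (norm_ee _).le)
  obtain ⟨V, hV⟩ : ∃ V : Lp ℂ 2 μ →L[ℂ] Lp ℂ 2 μ, ∀ f : Lp ℂ 2 μ,
      (V f : Ω → ℂ) =ᵐ[μ] fun x => ee (-ξ x) * f (T x) := by
    refine ⟨((ContinuousLinearMap.mul ℂ ℂ).holderL μ ⊤ 2 2 (mφ.toLp _)).comp
      (Lp.compMeasurePreservingₗᵢ ℂ T hT).toContinuousLinearMap, fun f => ?_⟩
    filter_upwards [(ContinuousLinearMap.mul ℂ ℂ).coeFn_holder (r := 2) (mφ.toLp _)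
      (Lp.compMeasurePreserving T hT f), mφ.coeFn_toLp, Lp.coeFn_compMeasurePreserving f hT]
      with x h1 h2 h3
    exact h1.trans (by rw [h2, h3]; rfl)
  have nV : ‖V‖ ≤ 1 := V.opNorm_le_bound zero_le_one fun f => by
    rw [one_mul, ← Lp.norm_compMeasurePreserving f hT]
    refine Lp.norm_le_norm_of_ae_le ?_
    filter_upwards [hV f, Lp.coeFn_compMeasurePreserving f hT] with x h1 h2
    rw [h1, h2, norm_mul, norm_ee, one_mul]
    rfl
  have hm : MemLp g 2 μ := MemLp.of_bound hg.1.aestronglyMeasurable 1 (ae_of_all _ hg.2)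
  obtain ⟨G, hG⟩ : ∃ G : Lp ℂ 2 μ, (G : Ω → ℂ) =ᵐ[μ] g := ⟨hm.toLp g, hm.coeFn_toLp⟩
  have it : ∀ n : ℕ, (V^[n] G : Ω → ℂ) =ᵐ[μ] fun x => ee (-((n : ℝ) * ξ x)) * g (T^[n] x) := by
    intro n
    induction n with
    | zero => simpa [ee_zero] using hG
    | succ n ih =>
      rw [iterate_succ_apply']
      filter_upwards [hV (V^[n] G), hT.quasiMeasurePreserving.ae_eq_comp ih, hξ] with x h1 h2 h3
      simp only [Function.comp_apply] at h2
      rw [h1, h2, h3, ← mul_assoc, ← ee_add, iterate_succ_apply]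
      congr 2
      push_cast
      ring
  have av : ∀ N : ℕ, ((birkhoffAverage ℂ V _root_.id N G : Lp ℂ 2 μ) : Ω → ℂ) =ᵐ[μ] fun x =>
      (N : ℂ)⁻¹ * ∑ n ∈ Finset.range N, ee (-((n : ℝ) * ξ x)) * g (T^[n] x) := fun N => by
    simp only [birkhoffAverage, birkhoffSum, _root_.id]
    filter_upwards [Lp.coeFn_smul (N : ℂ)⁻¹ (∑ n ∈ Finset.range N, V^[n] G),
      Lp.coeFn_finsetSum (Finset.range N) fun n => V^[n] G, ae_all_iff.2 it] with x h1 h2 h3
    rw [h1, Pi.smul_apply, h2, Finset.sum_apply, smul_eq_mul]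
    simp only [h3]
  obtain ⟨P, ht, hfix, hin⟩ : ∃ P : Lp ℂ 2 μ,
      Tendsto (fun N => birkhoffAverage ℂ V _root_.id N G) atTop (𝓝 P) ∧ V P = P ∧
        ⟪P, G⟫_ℂ = ⟪P, P⟫_ℂ := by
    refine ⟨_, V.tendsto_birkhoffAverage_orthogonalProjection nV G,
      ((V.eqLocus (1 : Lp ℂ 2 μ →L[ℂ] Lp ℂ 2 μ)).orthogonalProjectionOnto G).2, ?_⟩
    rw [← Submodule.inner_orthogonalProjectionOnto_eq_of_mem_left _ G]
    rfl
  have bd : ∀ᵐ x ∂μ, ‖P x‖ ≤ 1 := by
    obtain ⟨ns, -, hs⟩ := (tendstoInMeasure_of_tendsto_Lp ht).exists_seq_tendsto_ae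
    filter_upwards [hs, ae_all_iff.2 av] with x h1 h2
    refine le_of_tendsto' h1.norm fun i => ?_
    rw [h2, norm_mul, norm_inv, Complex.norm_natCast]
    refine inv_mul_le_one_of_le₀ ((norm_sum_le _ _).trans ?_) (Nat.cast_nonneg _)
    refine (Finset.sum_le_card_nsmul _ _ 1 fun n _ => ?_).trans (by simp)
    rw [norm_mul, norm_ee, one_mul]
    exact hg.2 _
  obtain ⟨ψ, mψ, eψ⟩ := clip (Lp.aestronglyMeasurable P) bd
  refine ⟨ψ, mψ, ?_, ?_⟩
  · have e1 := hV P
    rw [hfix] at e1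
    filter_upwards [e1, eψ, hT.quasiMeasurePreserving.ae_eq_comp eψ] with x h1 h2 h3
    simp only [Function.comp_apply] at h3
    rw [← h3, ← h2, h1, ← mul_assoc, ← ee_add, add_neg_cancel, ee_zero, one_mul]
  have z : (∫ x, g x * conj (ψ x) ∂μ).re = ‖P‖ ^ 2 := by
    rw [← @inner_self_eq_norm_sq ℂ, ← hin, L2.inner_def, RCLike.re_to_complex]
    refine congrArg _ (integral_congr_ae ?_)
    filter_upwards [eψ, hG] with x h1 h2
    rw [← h1, h2]
    simp
  rw [z]
  refine (ht.norm.pow 2).congr fun N => ?_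
  rw [← nsq]
  exact integral_congr_ae ((av N).mono fun x hx => by simp only [hx])

end MetL

theorem met : MetR := by
  intro _ X u g ξ hg mξ iξ
  have hA := act X
  have it : ∀ (n : ℕ) x, (X.A u)^[n] x = X.A ((n : ℤ) • u) x := fun n => by
    induction n with
    | zero => intro x; simp [hA.zero]
    | succ n ih => intro x; rw [iterate_succ_apply, ih, ← hA.add, Nat.cast_succ, add_smul, one_smul]
  obtain ⟨ψ, p1, p2, p3⟩ := MetL.main X.μ (X.A u) (hA.mp u) ξ mξ iξ g hg
  refine ⟨ψ, ⟨p1, mξ, iξ, p2⟩, p3.congr fun N => integral_congr_ae (ae_of_all _ fun x => ?_)⟩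
  simp only [it, tw, Fintype.expect_eq_sum_div_card, Fintype.card_fin, Finset.sum_range,
    div_eq_inv_mul]

end T8

end

end PkMet

section PkEig

/-! A function orthogonal to all eigenfunctions of one direction is null for the square box. -/

set_option autoImplicit false
set_option linter.unusedVariables false

open MeasureTheory Filter Topology Function
open scoped BigOperators ComplexConjugate

noncomputable section

namespace T8

open Pool.Agent.MP_154433_an hiding BM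
open T3S (MB1 meas_exp norm_exp_le_of)
open T4S (ddX)
open T4x (Inv)
open T6 (ee act EL)

namespace EigL

lemma norm_ee (t : ℝ) : ‖ee t‖ = 1 := Complex.norm_exp_ofReal_mul_I _

lemma cont_ee : Continuous ee := by
  unfold ee
  fun_prop

lemma cont_bb (γ : ℤ → ℂ) (N : ℕ) : Continuous (bb γ N) := by
  unfold bb
  simp only [Fintype.expect_eq_sum_div_card]
  exact Complex.continuous_re.comp ((continuous_finsetSum _ fun n _ =>
    (continuous_finsetSum _ fun n' _ =>
      continuous_const.mul (cont_ee.comp (by fun_prop))).div_const _).div_const _)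

lemma abs_bb (γ : ℤ → ℂ) (h : ∀ n, ‖γ n‖ ≤ 1) (N : ℕ) (t : ℝ) : |bb γ N t| ≤ 1 :=
  (Complex.abs_re_le_norm _).trans (norm_exp_le_of zero_le_one fun n _ =>
    norm_exp_le_of zero_le_one fun n' _ => by
      rw [norm_mul, norm_ee, mul_one]
      exact h _)

lemma meas_bb {Ω : Type} (m : MeasurableSpace Ω) (γ : ℤ → Ω → ℂ) (h : ∀ n, Measurable (γ n))
    (N : ℕ) (ξ : Ω → ℝ) (hξ : Measurable ξ) : Measurable fun x => bb (fun n => γ n x) N (ξ x) :=
  Complex.measurable_re.comp (meas_exp _ fun n _ => meas_exp _ fun n' _ =>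
    (h _).mul (cont_ee.measurable.comp (hξ.const_mul _).neg))

end EigL

open EigL in
theorem eig : EigR := by
  intro F vb ni eb sel fin pd met X u g hg h
  have hI := F.t.finv X {u}
  have hA := act X
  choose γ hγ using fun n : ℤ => vb.ver X _ (ddX X.A (n • u) g) hI (hA.dd hg _)
  have g1 : ∀ x n, ‖γ n x‖ ≤ 1 := fun x n => (hγ n).1.1.2 x
  obtain ⟨p1, p2⟩ := pd X u g γ hg hγ
  obtain ⟨ξ, s, s0, mξ, ms, ms0, bs, bs0, le, lim⟩ := sel X.X (Inv X {u})
    (fun k x t => bb (fun n => γ n x) (2 ^ k) t)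
    (fun k t => meas_bb _ γ (fun n => (hγ n).2) _ _ measurable_const)
    (fun k x => cont_bb _ _) fun k x t => abs_bb _ (g1 x) _ _
  have mξ0 : Measurable[X.ms] ξ := mξ.mono hI.le le_rfl
  have iξ : (fun x => ξ (X.A u x)) =ᵐ[X.μ] ξ := by
    filter_upwards [(F.t.inv_iff X {u} (fun x => (ξ x : ℂ))
      (Complex.measurable_ofReal.comp mξ0).aestronglyMeasurable).1
      (Complex.measurable_ofReal.comp mξ).stronglyMeasurable.aestronglyMeasurable u rfl] with x hx
    exact Complex.ofReal_injective hx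
  obtain ⟨ψ, e1, e2⟩ := met X u g ξ hg mξ0 iξ
  rw [h _ (eb.cj X u ψ ⟨ξ, e1⟩), Complex.zero_re] at e2
  have ib : ∀ f : X.X → ℝ, Measurable[X.ms] f → (∀ x, |f x| ≤ 1) → Integrable f X.μ :=
    fun f a b => Integrable.of_bound a.aestronglyMeasurable 1 (ae_of_all _ b)
  have q : ∀ᵐ x ∂X.μ, Tendsto (fun k => s k x) atTop (𝓝 (s0 x)) ∧
      ∀ k, s0 x ≤ bb (fun n => γ n x) (2 ^ k) (ξ x) := p1.mono fun x hx => lim x fun k t => by
    rw [pow_succ']
    exact (hx.2 _ t Nat.one_le_two_pow).2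
  have l1 : ∫ x, s0 x ∂X.μ ≤ 0 := by
    refine ge_of_tendsto' (e2.comp (tendsto_pow_atTop_atTop_of_one_lt one_lt_two)) fun k => ?_
    refine le_of_le_of_eq (integral_mono_ae (ib _ (ms0.mono hI.le le_rfl) bs0)
      (ib _ (meas_bb _ γ (fun n => (hγ n).1.1.1) _ _ mξ0) fun x => abs_bb _ (g1 x) _ _)
      (q.mono fun x hx => hx.2 k)) (p2 ξ _ mξ)
  have l2 := tendsto_integral_of_dominated_convergence (μ := X.μ) (F := s) (f := s0) (fun _ => 1)
    (fun k => ((ms k).mono hI.le le_rfl).aestronglyMeasurable) (integrable_const _)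
    (fun k => ae_of_all _ (bs k)) (q.mono fun x hx => hx.1)
  refine ni X u [u] g hg fun ε hε => ?_
  obtain ⟨k, hk⟩ := (((tendsto_add_atTop_iff_nat 1).2 l2).eventually
    (gt_mem_nhds (l1.trans_lt (show (0 : ℝ) < ε / 8 by positivity)))).exists
  have i0 : ∀ n, Integrable (fun x => ‖γ n x‖ ^ 2) X.μ := fun n =>
    ib _ ((hγ n).1.1.1.norm.pow_const 2) fun x => by
      rw [abs_of_nonneg (sq_nonneg _)]
      exact pow_le_one₀ (norm_nonneg _) (g1 x n)
  have i1 : ∀ h : Fin (2 ^ k), Integrable (fun x => ∑ h' : Fin (2 ^ k),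
      ‖γ (((h' : ℕ) : ℤ) - ((h : ℕ) : ℤ)) x‖ ^ 2) X.μ :=
    fun h => integrable_finsetSum _ fun h' _ => i0 _
  have e : EL X (2 ^ k) [u] (fun G _ => ∫ x, ‖(X.μ[G | Inv X {u}]) x‖ ^ 2 ∂X.μ) g g =
      ∫ x, 𝔼 h : Fin (2 ^ k), 𝔼 h' : Fin (2 ^ k),
        ‖γ (((h' : ℕ) : ℤ) - ((h : ℕ) : ℤ)) x‖ ^ 2 ∂X.μ := by
    simp only [EL, Fintype.expect_eq_sum_div_card]
    rw [integral_div, integral_finsetSum _ fun h _ => (i1 h).div_const _]
    refine congrArg (· / _) (Finset.sum_congr rfl fun h _ => ?_)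
    rw [integral_div, integral_finsetSum _ fun h' _ => i0 _]
    refine congrArg (· / _) (Finset.sum_congr rfl fun h' _ => integral_congr_ae ?_)
    exact (hγ _).1.2.mono fun x hx => congrArg (fun z : ℂ => ‖z‖ ^ 2) hx.symm
  refine ⟨2 ^ k, Nat.one_le_two_pow, e.le.trans ((integral_mono_ae ?_
    ((ib _ ((ms (k + 1)).mono hI.le le_rfl) (bs _)).const_mul 8) ?_).trans ?_)⟩
  · simp only [Fintype.expect_eq_sum_div_card]
    exact (integrable_finsetSum _ fun h _ => (i1 h).div_const _).div_const _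
  · filter_upwards [p1] with x hx
    refine fin (fun n => γ n x) (2 ^ k) (s (k + 1) x) Nat.one_le_two_pow hx.1 (g1 x 0)
      fun t ht => ⟨(hx.2 _ t (Nat.succ_le_of_lt (by positivity))).1, ?_⟩
    rw [← pow_succ']
    exact le (k + 1) x t ht
  · rw [integral_const_mul]
    linarith

end T8

end

end PkEig

section PkFin

/-! Row Fin: a bounded nonnegative smoothed density forces small correlations. -/

set_option autoImplicit false
set_option linter.unusedVariables false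

open MeasureTheory Filter Topology Function Finset
open scoped BigOperators ComplexConjugate

noncomputable section

namespace T8

open T6 (ee)

namespace FinL

lemma eadd (a b : ℝ) : ee (a + b) = ee a * ee b := by
  simp only [ee, ← Complex.exp_add]
  congr 1
  push_cast
  ring

lemma econj (a : ℝ) : conj (ee a) = ee (-a) := by
  simp only [ee, ← Complex.exp_conj, map_mul, Complex.conj_ofReal, Complex.conj_I]
  congr 1
  push_cast
  ring

@[fun_prop] lemma econt : Continuous ee := by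
  unfold ee
  fun_prop

lemma orth (k : ℤ) : ∫ t in (0 : ℝ)..1, ee (k * t) = if k = 0 then 1 else 0 := by
  split_ifs with h
  · simp [h, ee]
  have c : (k : ℂ) * (2 * Real.pi * Complex.I) ≠ 0 :=
    mul_ne_zero (Int.cast_ne_zero.2 h) Complex.two_pi_I_ne_zero
  have e : ∀ t : ℝ, ee (k * t) = Complex.exp (k * (2 * Real.pi * Complex.I) * t) := fun t => by
    rw [ee]
    congr 1
    push_cast
    ring
  simp only [e]
  rw [integral_exp_mul_complex c]
  simp [Complex.exp_int_mul_two_pi_mul_I]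

lemma isum {ι : Type} (S : Finset ι) (a : ι → ℂ) (k : ι → ℤ) :
    ∫ t in (0 : ℝ)..1, ∑ i ∈ S, a i * ee (k i * t) = ∑ i ∈ S, if k i = 0 then a i else 0 := by
  rw [intervalIntegral.integral_finsetSum fun i _ => Continuous.intervalIntegrable (by fun_prop) _ _]
  simp only [intervalIntegral.integral_const_mul, orth, mul_ite, mul_one, mul_zero]

/-- the number of representations of `m` as a difference -/
def cnt (N : ℕ) (m : ℤ) : ℝ :=
  ∑ n : Fin N, ∑ n' : Fin N, if ((n' : ℕ) : ℤ) - (n : ℕ) = m then 1 else 0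

lemma cnt_zero (N : ℕ) : cnt N 0 = N := by
  simp [cnt, sub_eq_zero, Fin.val_inj]

lemma cnt_ge {H : ℕ} (h h' : Fin H) : (H : ℝ) ≤ cnt (2 * H) (((h' : ℕ) : ℤ) - (h : ℕ)) := by
  let i : Fin H → Fin H → Fin (2 * H) := fun a j => ⟨j + a, by omega⟩
  have inj : Injective (i h) := fun a b e => Fin.ext (by simpa [i] using e)
  refine le_trans ?_ (sum_le_sum_of_subset_of_nonneg (subset_univ (univ.map ⟨i h, inj⟩))
    fun _ _ _ => by positivity)
  rw [sum_map]
  refine le_trans (by simp) (card_nsmul_le_sum _ _ (1 : ℝ) fun j _ => ?_)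
  refine le_trans (le_of_eq ?_) (single_le_sum (fun _ _ => by positivity) (mem_univ (i h' j)))
  simp [i]

variable {γ : ℤ → ℂ} (hγ : ∀ n, γ (-n) = conj (γ n))

include hγ

lemma bb_eq (N : ℕ) (t : ℝ) : (bb γ N t : ℂ) = ∑ p : Fin N × Fin N,
    ((N : ℂ) ^ 2)⁻¹ * γ (((p.2 : ℕ) : ℤ) - (p.1 : ℕ)) *
      ee ((-(((p.2 : ℕ) : ℤ) - (p.1 : ℕ)) : ℤ) * t) := by
  rw [bb, Complex.conj_eq_iff_re.1]
  · simp only [expect_eq_sum_div_card, card_univ, Fintype.card_fin, Fintype.sum_prod_type, sum_div]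
    refine sum_congr rfl fun n _ => sum_congr rfl fun n' _ => ?_
    push_cast
    rw [neg_mul, div_div, div_eq_inv_mul, sq, mul_assoc]
  · simp only [expect_eq_sum_div_card, map_div₀, map_sum, map_mul, map_natCast, econj, ← hγ,
      ← sum_div]
    rw [sum_comm]
    simp only [neg_sub, ← neg_mul]

lemma coef (N : ℕ) (m : ℤ) : ∫ t in (0 : ℝ)..1, (bb γ N t : ℂ) * ee (m * t) =
    (cnt N m / N ^ 2 : ℝ) * γ m := by
  simp only [bb_eq hγ, sum_mul, mul_assoc, ← eadd, ← add_mul, ← Int.cast_add]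
  simp only [← mul_assoc]
  rw [isum, cnt, Fintype.sum_prod_type]
  push_cast
  simp only [sum_div, sum_mul]
  refine sum_congr rfl fun n _ => sum_congr rfl fun n' _ => ?_
  simp only [neg_add_eq_zero]
  split_ifs with h
  · rw [h]
    simp
  · simp

lemma bb_cont (N : ℕ) : Continuous fun t => (bb γ N t : ℂ) := by
  simp only [bb_eq hγ]
  fun_prop

end FinL

open FinL in
theorem fin : FinR := by
  intro γ H s hH hγ h0 hb
  have : NeZero H := ⟨by omega⟩
  have H0 : (0 : ℝ) < H := by exact_mod_cast hH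
  have s0 : 0 ≤ s := (hb 0 (by simp)).1.trans (hb 0 (by simp)).2
  have cF := bb_cont hγ (2 * H)
  have cR : Continuous (bb γ (2 * H)) :=
    (Complex.continuous_re.comp cF).congr fun t => Complex.ofReal_re _
  have e3 : ∫ t in (0 : ℝ)..1, bb γ (2 * H) t ≤ 1 / (2 * H) := by
    have e := coef hγ (2 * H) 0
    simp only [Int.cast_zero, zero_mul, ee, mul_zero, Complex.ofReal_zero, Complex.exp_zero,
      mul_one, intervalIntegral.integral_ofReal, cnt_zero] at e
    refine (Real.le_norm_self _).trans ?_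
    rw [← Complex.norm_real, e, norm_mul, Complex.norm_of_nonneg (by positivity)]
    refine (mul_le_of_le_one_right (by positivity) h0).trans (le_of_eq ?_)
    push_cast
    field_simp
  refine expect_le univ_nonempty fun h _ => ?_
  set m : Fin H → ℤ := fun h' => ((h' : ℕ) : ℤ) - (h : ℕ) with hm
  set G : ℝ → ℂ := fun t => ∑ h', conj (γ (m h')) * ee (m h' * t) with hG
  have cG : Continuous G := by fun_prop
  have e2 : ∫ t in (0 : ℝ)..1, ‖G t‖ ^ 2 = ∑ h', ‖γ (m h')‖ ^ 2 := by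
    have e : ∀ t, ((‖G t‖ ^ 2 : ℝ) : ℂ) = ∑ p : Fin H × Fin H,
        conj (γ (m p.1)) * γ (m p.2) * ee ((m p.1 - m p.2 : ℤ) * t) := fun t => by
      rw [Complex.ofReal_pow, ← Complex.mul_conj', hG, map_sum, sum_mul_sum, Fintype.sum_prod_type]
      refine sum_congr rfl fun a _ => sum_congr rfl fun b _ => ?_
      rw [map_mul, econj, Complex.conj_conj, Int.cast_sub (m a), sub_mul, sub_eq_add_neg, eadd]
      ring
    refine Complex.ofReal_injective ?_
    rw [← intervalIntegral.integral_ofReal]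
    simp only [e]
    rw [isum, Fintype.sum_prod_type]
    simp [hm, sub_eq_zero, Fin.val_inj, Complex.conj_mul']
  have e1 : ∫ t in (0 : ℝ)..1, (bb γ (2 * H) t : ℂ) * G t =
      (∑ h', cnt (2 * H) (m h') / (2 * H : ℕ) ^ 2 * ‖γ (m h')‖ ^ 2 : ℝ) := by
    simp only [hG, mul_sum, mul_left_comm _ (conj _)]
    rw [intervalIntegral.integral_finsetSum fun i _ =>
      Continuous.intervalIntegrable (by fun_prop) _ _, Complex.ofReal_sum]
    refine sum_congr rfl fun i _ => ?_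
    rw [intervalIntegral.integral_const_mul, coef hγ, mul_left_comm, Complex.conj_mul']
    push_cast
    rfl
  have k1 := intervalIntegral.norm_integral_le_of_norm_le (μ := volume) zero_le_one
    (f := fun t => (bb γ (2 * H) t : ℂ) * G t)
    (g := fun t => 2 * H * s * bb γ (2 * H) t + (8 * H : ℝ)⁻¹ * ‖G t‖ ^ 2)
    (Eventually.of_forall fun t ht => by
      obtain ⟨a, b⟩ := hb t ⟨ht.1.le, ht.2⟩
      rw [norm_mul, Complex.norm_of_nonneg a,
        ← mul_le_mul_iff_right₀ (by positivity : 0 < 8 * (H : ℝ)), mul_add,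
        mul_inv_cancel_left₀ (by positivity)]
      nlinarith [sq_nonneg (4 * H * bb γ (2 * H) t - ‖G t‖),
        mul_le_mul_of_nonneg_left b (by positivity : 0 ≤ (H : ℝ) ^ 2 * bb γ (2 * H) t)])
    (Continuous.intervalIntegrable (by fun_prop) _ _)
  rw [e1, Complex.norm_real, intervalIntegral.integral_add
    (Continuous.intervalIntegrable (by fun_prop) _ _)
    (Continuous.intervalIntegrable (by fun_prop) _ _), intervalIntegral.integral_const_mul,
    intervalIntegral.integral_const_mul, e2] at k1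
  have k2 : (4 * H : ℝ)⁻¹ * ∑ h', ‖γ (m h')‖ ^ 2 ≤
      ∑ h', cnt (2 * H) (m h') / (2 * H : ℕ) ^ 2 * ‖γ (m h')‖ ^ 2 := by
    rw [mul_sum]
    refine sum_le_sum fun i _ => mul_le_mul_of_nonneg_right ?_ (by positivity)
    refine le_trans (le_of_eq ?_) (div_le_div_of_nonneg_right (cnt_ge h i) (by positivity))
    push_cast
    field_simp
    norm_num
  have k3 := mul_le_mul_of_nonneg_left e3 (by positivity : 0 ≤ 2 * H * s)
  have k4 : 2 * H * s * (1 / (2 * H)) = s := by field_simp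
  have k5 : (4 * H : ℝ)⁻¹ = 2 * (8 * H : ℝ)⁻¹ := by
    field_simp
    norm_num
  rw [expect_eq_sum_div_card, card_univ, Fintype.card_fin, div_le_iff₀ H0, mul_right_comm,
    ← inv_mul_le_iff₀ (by positivity)]
  have k6 := k2.trans ((Real.le_norm_self _).trans k1)
  rw [k5] at k6
  linarith

end T8

end

end PkFin
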