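import Pool.Agent.MP_154433_an.t6.Spec
import Pool.Agent.MP_154433_an.p4.A8
import Pool.Agent.MP_154433_an.p4.S3

/-! Lifts and compact steps (packed). -/

section PkLiftA

/-! Row LiftA: the factor generated by the projections of a class on extensions. -/

set_option autoImplicit false
set_option linter.unusedVariables false
set_option warn.classDefReducibility false

open MeasureTheory ProbabilityTheory Filter Topology Function
open scoped BigOperators ComplexConjugate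

noncomputable section

namespace T6

open Pool.Agent.MP_154433_an hiding BM
open T3S (B1 MB1)
open Fib27 (BM)
open T3x (nul pull gen)
open T4x (Fac Emb Nice Fd)

namespace LiftA

variable {𝒞 : ∀ X : Sy, Set (X.X → ℂ)}

lemma bm {X : Sy} {f : X.X → ℂ} (hf : MB X f) : BM X.μ X.ms f :=
  ⟨hf.1.aestronglyMeasurable, 1, Eventually.of_forall hf.2⟩

lemma ple (F : Fd) {X' X : Sy} {p : X'.X → X.X} (hp : Emb X' X p) : pull X'.μ p X.ms ≤ X'.ms :=
  F.a.pull_le _ _ _ _ hp.mp le_rfl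

lemma ex (F : Fd) (hC : Cl 𝒞) {X' X : Sy} {p : X'.X → X.X} {G : X'.X → ℂ} (hX : Nice X')
    (hp : Emb X' X p) (hG : G ∈ 𝒞 X') :
    ∃ e ∈ EE 𝒞 X, (fun x => e (p x)) =ᵐ[X'.μ] X'.μ[G | pull X'.μ p X.ms] := by
  obtain ⟨e, h1, h2, h3⟩ := F.a.fact X.ms X'.μ p (X'.μ[G | pull X'.μ p X.ms]) 1
    hp.mp.measurable.comap_le zero_le_one stronglyMeasurable_condExp.aestronglyMeasurable
    (ae_bdd_norm_condExp_of_ae_bdd_norm (Eventually.of_forall (hC.mb _ _ hG).2))
  exact ⟨e, ⟨⟨h1, h2⟩, X', p, G, hX, hp, hG, h3.symm⟩, h3.symm⟩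

lemma self (F : Fd) (hC : Cl 𝒞) {X : Sy} (hX : Nice X) {G : X.X → ℂ} (hG : G ∈ 𝒞 X) :
    G ∈ EE 𝒞 X :=
  ⟨hC.mb _ _ hG, X, id, G, hX, F.t.emb_id X, hG, (Fib27.BM.ce_self (ple F (F.t.emb_id X))
    (F.a.bm_comp X.ms X.μ X.μ id G (MeasurePreserving.id _) (bm (hC.mb _ _ hG)))).symm⟩

lemma prd (F : Fd) (hC : Cl 𝒞) {X : Sy} (e : Bool → X.X → ℂ) (he : ∀ i, e i ∈ EE 𝒞 X) :
    (fun x => e true x * e false x) ∈ EE 𝒞 X := by
  choose hm Y q G hY hq hG hE using he
  obtain ⟨Z, p, hZ⟩ := F.rp Bool Y X X.ms q false hY (F.t.top X) (fun i => (hq i).mp)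
    fun i n => (hq i).eqv n
  have hP : ∀ i, Emb Z X (q i ∘ p i) := fun i => F.t.emb_comp _ _ _ _ _ (hZ.emb i) (hq i)
  refine ⟨(hm true).mul (hm false), Z, q false ∘ p false, fun z => G true (p true z) *
    G false (p false z), hZ.nice, hP false, hC.mul _ _ (hC.pb _ _ _ (hZ.emb true) _ (hG true)) _
      (hC.pb _ _ _ (hZ.emb false) _ (hG false)), ?_⟩
  have h1 := hZ.ind Finset.univ G fun i _ => bm (hC.mb _ _ (hG i))
  simp only [Fintype.prod_bool] at h1
  have h2 := fun i => (hZ.emb i).mp.quasiMeasurePreserving.ae_eq_comp (hE i)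
  have h3 := F.a.keq_fun X.ms Z.μ X.μ _ _ (e true) (hP true).mp (hP false).mp (hZ.com true)
    (hm true).1.aestronglyMeasurable
  filter_upwards [h1, h2 true, h2 false, h3] with z a1 a2 a3 a4
  simp only [Function.comp_apply] at a2 a3 a4 ⊢
  rw [a1, ← a2, ← a3, a4]

lemma cj (F : Fd) (hC : Cl 𝒞) {X : Sy} {e : X.X → ℂ} (he : e ∈ EE 𝒞 X) :
    (fun x => conj (e x)) ∈ EE 𝒞 X := by
  obtain ⟨hm, Y, q, G, hY, hq, hG, hE⟩ := he
  refine ⟨hm.cj, Y, q, _, hY, hq, hC.cj _ _ hG, ?_⟩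
  filter_upwards [hE, Fib27.ce_conj (ple F hq) (bm (hC.mb _ _ hG))] with z a1 a2
  rw [a2, a1]

lemma tz (F : Fd) (hC : Cl 𝒞) {X : Sy} (v : T4S.Gm 2) {e : X.X → ℂ} (he : e ∈ EE 𝒞 X) :
    (fun x => e (X.A v x)) ∈ EE 𝒞 X := by
  obtain ⟨hm, Y, q, G, hY, hq, hG, hE⟩ := he
  refine ⟨(act X).tz hm v, Y, q, _, hY, hq, hC.tz _ v _ hG, ?_⟩
  have h1 := F.t.ce Y _ v G (F.t.fpull Y X q _ hq (F.t.top X)) (bm (hC.mb _ _ hG)).integrable
  have h2 := (Y.mp v).quasiMeasurePreserving.ae_eq_comp hE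
  have h3 := F.a.keq_fun X.ms Y.μ X.μ _ _ e (hq.mp.comp (Y.mp v)) ((X.mp v).comp hq.mp) (hq.eqv v)
    hm.1.aestronglyMeasurable
  filter_upwards [h1, h2, h3] with z a1 a2 a3
  simp only [Function.comp_apply] at a2 a3
  rw [a1, ← a2, a3]

lemma meas {X : Sy} {e : X.X → ℂ} (he : e ∈ EE 𝒞 X) : Measurable[LF 𝒞 X] e :=
  Measurable.of_comap_le (le_sup_of_le_left (le_iSup₂_of_le (f := fun F (_ : F ∈ EE 𝒞 X) =>
    MeasurableSpace.comap (id F) inferInstance) e he le_rfl))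

lemma bmL {X : Sy} {e : X.X → ℂ} (he : e ∈ EE 𝒞 X) : BM X.μ (LF 𝒞 X) e :=
  ⟨(meas he).stronglyMeasurable.aestronglyMeasurable, 1, Eventually.of_forall he.1.2⟩

lemma fac (F : Fd) (hC : Cl 𝒞) (X : Sy) : Fac X (LF 𝒞 X) := by
  refine ⟨sup_le (iSup₂_le fun e he => he.1.1.comap_le) (F.a.nul_le _), le_sup_right, fun n => ?_⟩
  rw [LF, MeasurableSpace.comap_sup, gen]
  refine sup_le ?_ (((F.t.bot X).inv n).trans le_sup_right)
  simp only [MeasurableSpace.comap_iSup, MeasurableSpace.comap_comp]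
  exact iSup₂_le fun e he => (meas (tz F hC n he)).comap_le

end LiftA

open LiftA in
theorem liftA : LiftAR := by
  intro F 𝒞 hC X hX
  have hf := fac F hC X
  refine ⟨hf, fun G hG => bmL (self F hC hX hG), fun g hg hL ε hε => ?_,
    fun g hg h0 X' p hX' hp G hG => ?_⟩
  · obtain ⟨φ, hφ, h⟩ := F.d.apx X.μ (EE 𝒞 X) (fun φ h => ⟨h.1.1, 1, h.1.2⟩)
      ⟨_, self F hC hX (hC.one X), EventuallyEq.rfl⟩
      (fun φ h φ' h' => ⟨_, prd F hC (fun b => cond b φ φ') (fun b => by cases b <;> assumption),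
        EventuallyEq.rfl⟩)
      (fun φ h => ⟨_, cj F hC h, EventuallyEq.rfl⟩) g ((bm hg).memLp 2) hL.1 (ε ^ 2) (by positivity)
    refine ⟨φ, hφ, ?_⟩
    have h2 : MemLp φ 2 X.μ := by
      refine Submodule.span_induction (p := fun φ _ => MemLp φ 2 X.μ) ?_ ?_ ?_ ?_ hφ
      · exact fun e he => (bm he.1).memLp 2
      · exact MemLp.zero
      · exact fun a b _ _ ha hb => ha.add hb
      · exact fun c a _ ha => ha.const_smul c
    have h3 : MemLp (fun x => ‖g x - φ x‖) 2 X.μ := (((bm hg).memLp 2).sub h2).norm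
    have h4 : Integrable (fun x => ‖g x - φ x‖ ^ 2) X.μ := h3.integrable_sq
    calc ∫ x, ‖g x - φ x‖ ∂X.μ ≤ ∫ x, (ε / 2 + (2 * ε)⁻¹ * ‖g x - φ x‖ ^ 2) ∂X.μ := by
          refine integral_mono (h3.integrable one_le_two)
            ((integrable_const _).add (h4.const_mul _)) fun x => ?_
          have : 0 ≤ (2 * ε)⁻¹ * (‖g x - φ x‖ - ε) ^ 2 := by positivity
          have e : (2 * ε)⁻¹ * (‖g x - φ x‖ - ε) ^ 2 =
            ε / 2 + (2 * ε)⁻¹ * ‖g x - φ x‖ ^ 2 - ‖g x - φ x‖ := by field_simp; ring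
          simp only
          linarith
      _ = ε / 2 + (2 * ε)⁻¹ * ∫ x, ‖g x - φ x‖ ^ 2 ∂X.μ := by
          rw [integral_add (integrable_const _) (h4.const_mul _), integral_const_mul]
          simp
      _ ≤ ε / 2 + (2 * ε)⁻¹ * ε ^ 2 := by gcongr
      _ = ε := by field_simp; ring
  · obtain ⟨e, he, h⟩ := ex F hC hX' hp hG
    rw [← Fib27.int_mul_ce (ple F hp) (F.a.bm_comp X.ms X'.μ X.μ p g hp.mp (bm hg))
      (bm (hC.mb _ _ hG))]
    have h1 : ∫ x, g (p x) * e (p x) ∂X'.μ = ∫ y, g y * e y ∂X.μ := by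
      rw [← hp.mp.map_eq, integral_map hp.mp.measurable.aemeasurable
        (hg.mul he.1).1.aestronglyMeasurable]
    have h2 : ∫ y, g y * e y ∂X.μ = 0 := by
      rw [← Fib27.int_ce_mul hf.le (bm hg) (bmL he)]
      refine integral_eq_zero_of_ae ?_
      filter_upwards [h0] with y hy
      simp [hy]
    rw [← h2, ← h1]
    refine integral_congr_ae ?_
    filter_upwards [h] with x hx
    rw [hx]

end T6

end

end PkLiftA

section PkLiftB

/-! Row LiftB: goodness descends from the extensions to the lifted factor. -/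

set_option autoImplicit false
set_option linter.unusedVariables false
set_option warn.classDefReducibility false

open MeasureTheory ProbabilityTheory Filter Topology Function
open scoped BigOperators ComplexConjugate

noncomputable section

namespace T6

open Pool.Agent.MP_154433_an hiding BM
open T3S (B1 MB1 PW AsInv Erg Bd Near Gr yw dif CZ)
open T4S (Gm Act ddX QX ln Spr Concl)
open Fib27 (BM)
open T3x (nul pull gen)
open T4x (Fac Emb Inv Nice Pair Star KK Fd)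

namespace LiftB

theorem bm {X : Sy} {f : X.X → ℂ} (h : MB X f) : BM X.μ X.ms f :=
  ⟨h.1.stronglyMeasurable.aestronglyMeasurable, 1, Eventually.of_forall h.2⟩

theorem mb_tz {X : Sy} {f : X.X → ℂ} (h : MB X f) (n : Gm 2) : MB X fun x => f (X.A n x) :=
  ⟨h.1.comp (X.mp n).measurable, fun x => h.2 _⟩

theorem emb_fun (fd : Fd) {X' X : Sy} {p : X'.X → X.X} (hp : Emb X' X p) (n : Gm 2)
    {f : X.X → ℂ} (hf : MB X f) :
    (fun y => f (p (X'.A n y))) =ᵐ[X'.μ] fun y => f (X.A n (p y)) :=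
  fd.a.keq_fun X.ms X'.μ X.μ (p ∘ X'.Tz n) (X.Tz n ∘ p) f (hp.mp.comp (X'.mp n))
    ((X.mp n).comp hp.mp) (hp.eqv n) (bm hf).1

theorem term (fd : Fd) {X' X : Sy} {p : X'.X → X.X} (hp : Emb X' X p) {f e : X.X → ℂ}
    {F : X'.X → ℂ} (hf : MB X f) (he : MB X e) (hF : MB X' F)
    (h : (fun x => e (p x)) =ᵐ[X'.μ] X'.μ[F | pull X'.μ p X.ms]) (c : ℂ) (n m : Gm 2) :
    X'.μ[fun y => c * (f (p (X'.A n y)) * F (X'.A m y)) | pull X'.μ p X.ms] =ᵐ[X'.μ]
      fun y => c * (f (X.A n (p y)) * e (X.A m (p y))) := by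
  have hY := fd.t.fpull X' X p X.ms hp (fd.t.top X)
  have b1 : BM X'.μ (pull X'.μ p X.ms) fun y => c * f (X.A n (p y)) :=
    (fd.a.bm_comp X.ms X'.μ X.μ p (fun x => f (X.A n x)) hp.mp (bm (mb_tz hf n))).cmul c
  have e1 : (fun y => c * (f (p (X'.A n y)) * F (X'.A m y))) =ᵐ[X'.μ]
      fun y => c * f (X.A n (p y)) * F (X'.A m y) := by
    filter_upwards [emb_fun fd hp n hf] with y hy
    rw [hy, mul_assoc]
  filter_upwards [condExp_congr_ae (m := pull X'.μ p X.ms) e1,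
    Fib27.ce_mul hY.le b1 (bm (mb_tz hF m)),
    fd.t.ce X' (pull X'.μ p X.ms) m F hY (bm hF).integrable,
    (X'.mp m).quasiMeasurePreserving.ae_eq_comp h, emb_fun fd hp m he] with y h1 h2 h3 h4 h5
  rw [h1, h2, mul_assoc, ← h5]
  congr 2
  exact h3.trans h4.symm

theorem le (fd : Fd) {X' X : Sy} {p : X'.X → X.X} (hp : Emb X' X p) {f e : X.X → ℂ}
    {F : X'.X → ℂ} (hf : MB X f) (he : MB X e) (hF : MB X' F)
    (h : (fun x => e (p x)) =ᵐ[X'.μ] X'.μ[F | pull X'.μ p X.ms]) (a b : Gm 2) (κ : ℕ → ℝ)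
    (M : ℕ) : NN X a b κ M f e ≤ NN X' a b κ M (fun y => f (p y)) F := by
  have hf' : MB X' fun y => f (p y) := ⟨hf.1.comp hp.mp.measurable, fun y => hf.2 _⟩
  have hs := condExp_finsetSum (μ := X'.μ) (s := Finset.range M)
    (f := fun d y => (κ d : ℂ) * (f (p (X'.A ((d : ℤ) • a) y)) * F (X'.A ((d : ℤ) • b) y)))
    (fun d _ => (((bm (mb_tz hf' _)).mul (bm (mb_tz hF _))).cmul _).integrable)
    (pull X'.μ p X.ms)
  have hl := integral_norm_condExp_le (μ := X'.μ) (m := pull X'.μ p X.ms)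
    (∑ d ∈ Finset.range M, fun y =>
      (κ d : ℂ) * (f (p (X'.A ((d : ℤ) • a) y)) * F (X'.A ((d : ℤ) • b) y)))
  simp only [Finset.sum_apply] at hl
  refine le_trans (le_of_eq ?_) hl
  have hm : Measurable fun x => ‖∑ d ∈ Finset.range M,
      (κ d : ℂ) * (f (X.A ((d : ℤ) • a) x) * e (X.A ((d : ℤ) • b) x))‖ :=
    (Finset.measurable_sum _ fun d _ =>
      ((mb_tz hf _).1.mul (mb_tz he _).1).const_mul _).norm
  unfold NN
  rw [← hp.mp.map_eq, integral_map hp.mp.measurable.aemeasurable hm.aestronglyMeasurable]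
  refine integral_congr_ae ?_
  filter_upwards [hs, ae_all_iff.2 fun d : ℕ =>
    term fd hp hf he hF h (κ d) ((d : ℤ) • a) ((d : ℤ) • b)] with y h1 h2
  rw [h1, Finset.sum_apply]
  exact congrArg _ (Finset.sum_congr rfl fun d _ => (h2 d).symm)

end LiftB

theorem liftB : LiftBR := by
  intro fd vb la 𝒞 a b w hC hw hG X hX g hg bg f hf
  refine vb.span X a b w f g (EE 𝒞 X) hw hf (LiftB.bm hg).integrable ?_
    ((la 𝒞 hC X hX).span g hg bg)
  rintro e ⟨he, X', p, F, hX', hp, hF, h⟩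
  refine ⟨(LiftB.bm he).integrable, ?_⟩
  exact squeeze_zero (fun M => vb.nonneg X a b (w M) M f e)
    (fun M => LiftB.le fd hp hf he (hC.mb X' F hF) h a b (w M) M)
    (hG X' hX' F hF _ ⟨hf.1.comp hp.mp.measurable, fun y => hf.2 _⟩)

end T6

end

end PkLiftB

section PkLb

/-! The twisted square over the invariant factor. -/

set_option autoImplicit false
set_option linter.unusedVariables false
set_option warn.classDefReducibility false

open MeasureTheory ProbabilityTheory Filter Topology Function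
open scoped BigOperators ComplexConjugate

noncomputable section

namespace T6

open Pool.Agent.MP_154433_an hiding BM
open T3S (B1 MB1)
open T4S (Gm Act ddX QX ln)
open Fib27 (BM)
open T3x (nul pull KEq)
open T4x (Fac Emb Inv Nice Fd IsRP)

namespace Lb

/-- the same space with the action read through a homomorphism -/
@[reducible] def sys (X : Sy) (φ : Gm 2 →+ Gm 2) (b : Bool) : Sy :=
  { X := X.X, μ := X.μ, Tz := fun v => X.A (cond b φ (AddMonoidHom.id _) v)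
    mp := fun v => X.mp _
    zero := fun x => by rw [map_zero]; exact X.zero x
    add := fun n m x => by rw [map_add]; exact X.add _ _ x }

lemma bm {X : Sy} {g : X.X → ℂ} (hg : MB X g) : BM X.μ X.ms g :=
  ⟨hg.1.aestronglyMeasurable, 1, Eventually.of_forall hg.2⟩

lemma eqv (F : Fd) {Z Y : Sy} {p : Z.X → Y.X} (h : Emb Z Y p) (v : Gm 2) {f : Y.X → ℂ}
    (hf : MB Y f) : (fun z => f (p (Z.A v z))) =ᵐ[Z.μ] fun z => f (Y.A v (p z)) :=
  F.a.keq_fun Y.ms Z.μ Y.μ (p ∘ Z.Tz v) (Y.Tz v ∘ p) f (h.mp.comp (Z.mp v)) ((Y.mp v).comp h.mp)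
    (h.eqv v) hf.1.aestronglyMeasurable

lemma zinv (X : Sy) (u : Gm 2) (A : Set X.X) (h : X.A u ⁻¹' A =ᵐ[X.μ] A) (k : ℤ) :
    X.A (k • u) ⁻¹' A =ᵐ[X.μ] A := by
  have key : ∀ k : ℤ, X.A ((k + 1) • u) ⁻¹' A =ᵐ[X.μ] X.A (k • u) ⁻¹' A := fun k => by
    have e : X.A ((k + 1) • u) ⁻¹' A = X.A (k • u) ⁻¹' (X.A u ⁻¹' A) := by
      ext x
      rw [Set.mem_preimage, Set.mem_preimage, Set.mem_preimage, ← (act X).add, add_smul, one_smul,
        add_comm]
    rw [e]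
    exact ((act X).mp _).quasiMeasurePreserving.preimage_ae_eq h
  induction k using Int.induction_on with
  | zero =>
    have e : X.A ((0 : ℤ) • u) ⁻¹' A = A := by
      ext x
      rw [Set.mem_preimage, zero_smul, (act X).zero]
    rw [e]
  | succ k ih => exact (key k).trans ih
  | pred k ih =>
    have := key (-(k : ℤ) - 1)
    rw [sub_add_cancel] at this
    exact this.symm.trans ih

lemma base (F : Fd) {X Z : Sy} {φ : Gm 2 →+ Gm 2} (u : Gm 2) {p : Bool → Z.X → X.X}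
    (h : IsRP (sys X φ) X (Inv X {u}) (fun _ => id) false Z p) {g : X.X → ℂ} (hg : MB X g) :
    (∫ z, g (p false z) * conj (g (p true z)) ∂Z.μ).re =
      ∫ x, ‖(X.μ[g | Inv X {u}]) x‖ ^ 2 ∂X.μ := by
  have hD := F.t.finv X {u}
  have m0 : MeasurePreserving (p false) Z.μ X.μ := (h.emb false).mp
  have m1 : MeasurePreserving (p true) Z.μ X.μ := (h.emb true).mp
  have hp : pull X.μ id (Inv X {u}) = Inv X {u} := by
    rw [pull, MeasurableSpace.comap_id]
    exact sup_eq_left.2 hD.nl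
  have h1 : Z.μ[fun z => ∏ i : Bool, (cond i (fun x => conj (g x)) g : X.X → ℂ) (p i z) |
      pull Z.μ (p false) (Inv X {u})] =ᵐ[Z.μ] fun z => ∏ i : Bool,
        (X.μ[(cond i (fun x => conj (g x)) g : X.X → ℂ) | pull X.μ id (Inv X {u})]) (p i z) :=
    h.ind Finset.univ (fun i => (cond i (fun x => conj (g x)) g : X.X → ℂ)) fun i _ => by
      cases i
      · exact bm hg
      · exact bm (X := X) hg.cj
  simp only [Fintype.prod_bool, cond_true, cond_false, hp] at h1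
  have h2 : (fun z => (X.μ[fun x => conj (g x) | Inv X {u}]) (p true z)) =ᵐ[Z.μ]
      fun z => (X.μ[fun x => conj (g x) | Inv X {u}]) (p false z) :=
    F.a.keq_fun (Inv X {u}) Z.μ X.μ _ _ _ m1 m0 (h.com true)
      stronglyMeasurable_condExp.aestronglyMeasurable
  have h3 : X.μ[fun x => conj (g x) | Inv X {u}] =ᵐ[X.μ] fun x => conj ((X.μ[g | Inv X {u}]) x) :=
    ((Complex.conjCLE : ℂ →L[ℝ] ℂ).comp_condExp_comm (hg.integrable X.μ) (m := Inv X {u})).symm
  have h4 : ∫ z, g (p false z) * conj (g (p true z)) ∂Z.μ =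
      ∫ z, ((‖(X.μ[g | Inv X {u}]) (p false z)‖ ^ 2 : ℝ) : ℂ) ∂Z.μ := by
    refine Eq.trans (by simp only [mul_comm]) ((integral_condExp
      (F.a.pull_le _ Z.μ X.μ _ m0 hD.le)).symm.trans (integral_congr_ae (h1.trans ?_)))
    filter_upwards [h2, m0.quasiMeasurePreserving.ae h3] with z a1 a2
    rw [a1, a2, Complex.conj_mul', Complex.ofReal_pow]
  have hm : AEStronglyMeasurable (fun x => ‖(X.μ[g | Inv X {u}]) x‖ ^ 2) X.μ :=
    (stronglyMeasurable_condExp.mono hD.le).aestronglyMeasurable.norm.pow 2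
  rw [h4, integral_complex_ofReal, Complex.ofReal_re, ← integral_map m0.measurable.aemeasurable
    (f := fun x => ‖(X.μ[g | Inv X {u}]) x‖ ^ 2) (by rwa [m0.map_eq]), m0.map_eq]

lemma step (F : Fd) (Q : QB) {X Z : Sy} {φ : Gm 2 →+ Gm 2} (u : Gm 2) {p : Bool → Z.X → X.X}
    (h : IsRP (sys X φ) X (Inv X {u}) (fun _ => id) false Z p) (H : ℕ) (L : List (Gm 2))
    (hL : ∀ v ∈ L, φ v = v) {g : X.X → ℂ} (hg : MB X g) :
    QE Z L H (fun z => g (p false z) * conj (g (p true z))) =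
      EL X H L (fun G _ => ∫ x, ‖(X.μ[G | Inv X {u}]) x‖ ^ 2 ∂X.μ) g g := by
  induction L generalizing g with
  | nil => exact base F u h hg
  | cons v L ih =>
    rw [QE, List.map_cons, T4S.QX_ln, EL]
    refine Finset.expect_congr rfl fun a _ => Finset.expect_congr rfl fun a' _ => ?_
    rw [← ih (fun w hw => hL w (List.mem_cons_of_mem _ hw)) ((act X).dd hg _)]
    refine Q.congr Z L H _ _ ?_
    generalize ((a' : ℕ) : ℤ) - ((a : ℕ) : ℤ) = k
    have e : φ (k • v) = k • v := by rw [map_zsmul, hL v List.mem_cons_self]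
    have b0 : (fun z => g (p false (Z.A (k • v) z))) =ᵐ[Z.μ] fun z => g (X.A (k • v) (p false z)) :=
      eqv F (h.emb false) (k • v) hg
    have b1 : (fun z => g (p true (Z.A (k • v) z))) =ᵐ[Z.μ]
        fun z => g (X.A (φ (k • v)) (p true z)) := eqv F (h.emb true) (k • v) hg
    rw [e] at b1
    filter_upwards [b0, b1] with z a0 a1
    simp only [ddX, a0, a1, map_mul, Complex.conj_conj]
    ring

lemma keq (X : Sy) {u : Gm 2} {φ : Gm 2 →+ Gm 2} (hφ : Pj u φ) (n : Gm 2) :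
    KEq X.μ (Inv X {u}) (X.A (φ n)) (X.A n) := by
  intro A hA
  obtain ⟨k, hk⟩ := hφ.2 n
  have h2 : X.A n ⁻¹' A = X.A (φ n) ⁻¹' (X.A (k • u) ⁻¹' A) := by
    ext x
    rw [Set.mem_preimage, Set.mem_preimage, Set.mem_preimage, ← (act X).add, add_comm, ← hk]
  rw [h2]
  exact (((act X).mp (φ n)).quasiMeasurePreserving.preimage_ae_eq
    (zinv X u A (hA.2 u rfl) k)).symm

end Lb

theorem lb : LbR := by
  intro F V Q N X u φ hX hφ
  obtain ⟨Z, p, h⟩ := F.rp Bool (Lb.sys X φ) X (Inv X {u}) (fun _ => id) false (fun _ => hX)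
    (F.t.finv X {u}) (fun _ => MeasurePreserving.id X.μ) (by
      rintro (_ | _) n
      · exact fun A hA => EventuallyEq.rfl
      · exact Lb.keq X hφ n)
  refine ⟨Z, p false, p true, h.nice, ⟨(h.emb false).mp, (h.emb false).eqv⟩, fun g hg => ⟨⟨?_, ?_⟩,
    fun L hL hN => N X u L g hg fun ε hε => ?_⟩⟩
  · exact MB1.cj ⟨hg.1.comp (h.emb true).mp.measurable, fun z => hg.2 _⟩
  · have b1 : (fun z => g (p true (Z.A u z))) =ᵐ[Z.μ] fun z => g (X.A (φ u) (p true z)) :=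
      Lb.eqv F (h.emb true) u hg
    filter_upwards [b1] with z a1
    rw [a1, hφ.1, (act X).zero]
  · obtain ⟨H, h1, h2⟩ := hN ε hε
    exact ⟨H, h1, (Lb.step F Q u h H L hL hg).symm.le.trans h2⟩

end T6

end

end PkLb

section PkFor

/-! Row For: the compact step in a direction of the other slot. -/

set_option autoImplicit false
set_option linter.unusedVariables false
set_option warn.classDefReducibility false

open MeasureTheory ProbabilityTheory Filter Topology Function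
open scoped BigOperators ComplexConjugate

noncomputable section

namespace T6

open Pool.Agent.MP_154433_an hiding BM
open T3S (B1 MB1 PW AsInv Erg Bd Near Gr yw dif CZ)
open T4S (Gm Act ddX QX ln Spr Concl)
open Fib27 (BM)
open T3x (nul pull gen)
open T4x (Fac Emb Inv Nice Pair Star KK Fd)

namespace For

lemma bm_of_mb {X : Sy} {f : X.X → ℂ} (hf : MB X f) : BM X.μ X.ms f :=
  ⟨hf.1.aestronglyMeasurable, 1, .of_forall hf.2⟩

lemma mb_d2 {X : Sy} {g : X.X → ℂ} (hg : MB X g) (u : Gm 2) (n n' : ℕ) : MB X (d2 X u n n' g) :=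
  ((act X).tz hg _).mul ((act X).tz hg _).cj

/-- a bounded function is a multiple of a function bounded by one -/
lemma nrm (F : Fd) (X : Sy) {g : X.X → ℂ} (hg : BM X.μ X.ms g) :
    ∃ (c : ℂ) (g0 : X.X → ℂ), MB X g0 ∧ g =ᵐ[X.μ] fun x => c * g0 x := by
  obtain ⟨h1, C, hC⟩ := hg
  have h0 : (0 : ℝ) < |C| + 1 := by positivity
  obtain ⟨g', m, b, e⟩ := F.a.rep X.ms X.μ g (|C| + 1) h0.le h1
    (hC.mono fun x hx => by linarith [le_abs_self C])
  refine ⟨((|C| + 1 : ℝ) : ℂ), fun x => ((|C| + 1 : ℝ) : ℂ)⁻¹ * g' x,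
    ⟨measurable_const.mul m, fun x => ?_⟩, ?_⟩
  · rw [norm_mul, norm_inv, Complex.norm_real, Real.norm_of_nonneg h0.le]
    exact inv_mul_le_one_of_le₀ (b x) h0.le
  · filter_upwards [e] with x hx
    rw [hx, mul_inv_cancel_left₀ (Complex.ofReal_ne_zero.2 h0.ne')]

lemma bd {ν ν' : ℕ → ℕ → ℝ} (h : PW ν) (h' : PW ν') : Bd (df ν ν') := by
  filter_upwards [h.2, h'.2] with M a b
  calc ∑ d ∈ Finset.range M, |df ν ν' M d| ≤ ∑ d ∈ Finset.range M, (ν M d + ν' M d) :=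
        Finset.sum_le_sum fun d _ => abs_le.2
          ⟨by rw [df]; linarith [h.1 M d], by rw [df]; linarith [h'.1 M d]⟩
    _ ≤ 3 := by rw [Finset.sum_add_distrib, a, b]; norm_num

lemma l1 {X : Sy} {h : X.X → ℂ} (hh : BM X.μ X.ms h) {ε : ℝ} (hε : 0 < ε)
    (h2 : ∫ x, ‖h x‖ ^ 2 ∂X.μ ≤ ε ^ 2) : ∫ x, ‖h x‖ ∂X.μ ≤ ε := by
  have i2 : Integrable (fun x => ‖h x‖ ^ 2) X.μ :=
    (hh.mul hh).integrable.norm.congr (.of_forall fun x => by simp [sq])
  have h3 : ∫ x, ‖h x‖ ∂X.μ ≤ ∫ x, (ε / 2 + (2 * ε)⁻¹ * ‖h x‖ ^ 2) ∂X.μ := by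
    refine integral_mono hh.integrable.norm ((integrable_const _).add (i2.const_mul _)) fun x => ?_
    have : ε / 2 + (2 * ε)⁻¹ * ‖h x‖ ^ 2 - ‖h x‖ = (2 * ε)⁻¹ * (‖h x‖ - ε) ^ 2 := by
      field_simp; ring
    have h4 : 0 ≤ (2 * ε)⁻¹ * (‖h x‖ - ε) ^ 2 := by positivity
    simp only
    linarith
  rw [integral_add (integrable_const _) (i2.const_mul _), integral_const_mul] at h3
  simp only [integral_const, probReal_univ, smul_eq_mul, one_mul] at h3
  have h5 : (2 * ε)⁻¹ * ε ^ 2 = ε / 2 := by field_simp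
  have h6 := mul_le_mul_of_nonneg_left h2 (show 0 ≤ (2 * ε)⁻¹ by positivity)
  linarith

lemma star_mul {X Z : Sy} {p : Bool → Z.X → X.X} (hp : Emb Z X (p true)) {H : Z.X → ℂ}
    {g g0 k : X.X → ℂ} {c : ℂ} (eg : g =ᵐ[X.μ] fun x => c * g0 x) (hS : Star p H g k) :
    Star p (fun z => c * H z) g0 k := by
  refine hS.trans (condExp_congr_ae ?_)
  filter_upwards [hp.mp.quasiMeasurePreserving.ae eg] with z hz
  rw [hz]; ring

/-- one convolution in the second slot -/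
lemma one (F : Fd) (V : VB) (hK : KeyS) {ν ν' : ℕ → ℕ → ℝ} (hν : PW ν) (hν' : PW ν') {X Z : Sy}
    {a b u : Gm 2} {A1 A2 : MeasurableSpace X.X} {p : Bool → Z.X → X.X} (h1 : Fac X A1)
    (h2 : Fac X A2) (hP : Pair X A2 Z p) (hG : GP X a b (df ν ν') A1 A2) {r : X.X → ℂ}
    (hr : MB X r) (hr1 : BM X.μ A1 r) (h0 : G0 X b a u ν' r) {H : Z.X → ℂ} {g k : X.X → ℂ}
    (hH : BM Z.μ (Inv Z {u}) H) (hg : BM X.μ X.ms g) (hk : BM X.μ X.ms k) (hS : Star p H g k) :
    Vn X a b (df ν ν') r k := by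
  obtain ⟨c, g0, hg0, eg⟩ := nrm F X hg
  obtain ⟨c', k0, hk0, ek⟩ := nrm F X hk
  have hS' : Star p (fun z => c * H z) g0 k := star_mul (hP.emb true) eg hS
  obtain ⟨K, hK0, hK⟩ := hK X Z A2 p a b u _ g0 k h2 hP (hH.cmul c) hg0 hk hS'
  choose cc hcc using fun n n' => V.ver X A2 (d2 X u n n' g0) h2 (mb_d2 hg0 u n n')
  have sub : ∀ M, NN X a b (df ν ν' M) M r k ≤ NN X a b (ν M) M r k + NN X a b (ν' M) M r k := by
    intro M
    simp only [fun κ => V.congr X a b κ M r r k _ EventuallyEq.rfl ek, V.smul, ← mul_add]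
    exact mul_le_mul_of_nonneg_left (V.sub X a b _ _ M r k0 hr hk0) (norm_nonneg _)
  refine tendsto_order.2 ⟨fun t ht => .of_forall fun M => ht.trans_le (V.nonneg _ _ _ _ _ _ _),
    fun ε hε => ?_⟩
  set η : ℝ := (ε / 3) ^ 2 / (3 * K + 1) with hη
  have hη0 : 0 < η := by positivity
  have hη1 : K * (η + 2 * η) ≤ (ε / 3) ^ 2 := by
    have : (3 * K + 1) * η = (ε / 3) ^ 2 := by rw [hη]; field_simp
    nlinarith
  obtain ⟨N, α, hN, hα, h0⟩ := h0 η hη0
  have : Nonempty (Fin N) := ⟨⟨0, hN⟩⟩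
  have e1 : ∀ᶠ M in atTop, ∀ n n' : Fin N,
      NN X a b (ν' M) M (d2 X u n n' r) (cc n n') ≤ α n n' + η :=
    eventually_all.2 fun n => eventually_all.2 fun n' =>
      (h0 n n' X.ms (cc n n') (d2 X u n n' r) (F.t.top X) (hcc n n').1.1
        ⟨mb_d2 hr u n n', ((bm_of_mb (mb_d2 hr u n n')).ce_self le_rfl).symm⟩ η hη0).mono
        fun M hM => by rwa [V.swap]
  have e2 : ∀ᶠ M in atTop, ∀ n n' : Fin N,
      NN X a b (df ν ν' M) M (d2 X u n n' r) (cc n n') ≤ η :=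
    eventually_all.2 fun n => eventually_all.2 fun n' =>
      (hG _ _ (mb_d2 hr u n n') (hcc n n').1.1
        ((F.t.bm X A1 _ r h1 hr1).mul (F.t.bm X A1 _ r h1 hr1).conj)
        ((bm_of_mb (hcc n n').1.1).of_aesm (hcc n n').2.aestronglyMeasurable)).eventually
        (ge_mem_nhds hη0)
  filter_upwards [e1, e2, hν.2, hν'.2] with M m1 m2 s1 s2
  have fin : ∀ κ : ℕ → ℝ, (∀ d, 0 ≤ κ d) → ∑ d ∈ Finset.range M, κ d = 1 →
      (∀ n n' : Fin N, NN X a b κ M (d2 X u n n' r) (cc n n') ≤ α n n' + 2 * η) →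
      NN X a b κ M r k ≤ ε / 3 := by
    intro κ k0 k1 hb
    refine (abs_le_of_sq_le_sq' ?_ (by positivity)).2
    refine (hK r N cc κ M hr hN (fun n n' => (hcc n n').1) k0 k1).trans (le_trans ?_ hη1)
    refine mul_le_mul_of_nonneg_left ?_ hK0
    refine (Finset.expect_le_expect fun n _ => Finset.expect_le_expect fun n' _ => hb n n').trans ?_
    simp only [Finset.expect_add_distrib, Fintype.expect_const]
    linarith
  have f1 := fin (ν M) (hν.1 M) s1 fun n n' => by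
    have := V.tri X a b (ν M) (ν' M) M _ _ (mb_d2 hr u n n') (hcc n n').1.1
    have h3 : NN X a b (fun d => ν M d - ν' M d) M (d2 X u n n' r) (cc n n') ≤ η := m2 n n'
    linarith [m1 n n']
  have f2 := fin (ν' M) (hν'.1 M) s2 fun n n' => by linarith [m1 n n']
  linarith [sub M]

end For

open For in
theorem forr : ForR := by
  intro F V hK hG0 ν ν' hν hν' ha X a b u B A1 A2 hX hB h1 h2 hle hu hG f k hf hk hf1 hk2
  obtain ⟨f', hv, hm⟩ := V.ver X B f hB.fac hf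
  obtain ⟨hr, hz⟩ := V.half X B f f' hB.fac hf hv
  have hf' : BM X.μ B f' := (bm_of_mb hv.1).of_aesm hm.aestronglyMeasurable
  have hr1 : BM X.μ A1 fun x => (2⁻¹ : ℂ) * (f x - f' x) := (hf1.sub (hf'.mono hle)).cmul _
  have h0 : G0 X b a u ν' fun x => (2⁻¹ : ℂ) * (f x - f' x) := by
    refine hG0 ν' hν' ha X b a u _ hr ?_
    rcases hu with rfl | rfl
    exacts [(hB.nul _ hr hz).1, (hB.nul _ hr hz).2]
  obtain ⟨Z, p, hP⟩ := F.rp Bool (fun _ => X) X A2 (fun _ => id) false (fun _ => hX) h2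
    (fun _ => (F.t.emb_id X).mp) fun _ _ _ _ => EventuallyEq.rfl
  have hkm : BM X.μ X.ms k := bm_of_mb hk
  have h3 : Vn X a b (df ν ν') (fun x => (2⁻¹ : ℂ) * (f x - f' x)) k := by
    refine V.span X a b _ _ k {k' | ∃ (H : Z.X → ℂ) (g : X.X → ℂ), BM Z.μ (Inv Z {u}) H ∧
      BM X.μ X.ms g ∧ BM X.μ X.ms k' ∧ Star p H g k'} (bd hν hν') hr hkm.integrable ?_ ?_
    · rintro φ ⟨H, g, a1, a2, a3, a4⟩
      exact ⟨a3.integrable, one F V hK hν hν' h1 h2 hP hG hr hr1 h0 a1 a2 a3 a4⟩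
    · intro ε hε
      obtain ⟨n, H, g, k', hh, he⟩ := F.kb.span X u A2 Z p hX h2 hP k hk2 (ε ^ 2) (by positivity)
      refine ⟨∑ i, k' i, Submodule.sum_mem _ fun i _ => Submodule.subset_span ⟨H i, g i, hh i⟩, ?_⟩
      have hs : BM X.μ X.ms (∑ i, k' i) := by
        refine Finset.sum_induction _ (fun φ => BM X.μ X.ms φ) (fun φ ψ hφ hψ => hφ.add hψ)
          (Fib27.BM.const 0) fun i _ => (hh i).2.2.1
      exact l1 (hkm.sub hs) hε (by simpa only [Finset.sum_apply] using he)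
  have sw : ∀ φ ψ, Vn X a b (df ν ν') φ ψ ↔ Vn X b a (df ν ν') ψ φ := fun φ ψ => by
    simp only [Vn, V.swap X a b]
  have h4 := V.split X b a (df ν ν') k f f' (fun _ => 1) hk hf hv.1
    ⟨measurable_const, fun _ => by simp⟩ (by simpa only [mul_one] using hB.gd f' hv.1 hf' k hk)
    (by simpa only [mul_one] using (sw _ _).1 h3)
  exact (sw _ _).2 (by simpa only [mul_one] using h4)

end T6

end

end PkFor

section PkHull

/-! Row Hull: the good pairs of factors pass to the hull. -/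

set_option autoImplicit false
set_option linter.unusedVariables false

open MeasureTheory ProbabilityTheory Filter Topology Function
open scoped BigOperators ComplexConjugate

noncomputable section

namespace T6

open Pool.Agent.MP_154433_an hiding BM
open T3S (B1 MB1 PW AsInv Bd)
open T4S (Gm)
open Fib27 (BM)
open T3x (nul)
open T4x (Fac Nice KK Fd)

namespace Hull

theorem itg {Ω : Type} [MeasurableSpace Ω] (μ : Measure Ω) [IsProbabilityMeasure μ] {g : Ω → ℂ}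
    (hg : MB1 g) : MemLp g 2 μ :=
  MemLp.of_bound hg.1.aestronglyMeasurable 1 (ae_of_all _ hg.2)

theorem l1 {Ω : Type} [MeasurableSpace Ω] (μ : Measure Ω) [IsProbabilityMeasure μ] {h : Ω → ℂ}
    (hh : MemLp h 2 μ) {ε : ℝ} (hε : 0 < ε) (h2 : ∫ x, ‖h x‖ ^ 2 ∂μ ≤ ε ^ 2) :
    ∫ x, ‖h x‖ ∂μ ≤ ε := by
  have i2 : Integrable (fun x => (2 * ε)⁻¹ * ‖h x‖ ^ 2) μ :=
    (hh.integrable_norm_pow two_ne_zero).const_mul _
  have k : ∫ x, ‖h x‖ ∂μ ≤ ∫ x, (ε / 2 + (2 * ε)⁻¹ * ‖h x‖ ^ 2) ∂μ := by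
    refine integral_mono (hh.integrable one_le_two).norm ((integrable_const _).add i2) fun x => ?_
    have e : ε / 2 + (2 * ε)⁻¹ * ‖h x‖ ^ 2 - ‖h x‖ = (2 * ε)⁻¹ * (‖h x‖ - ε) ^ 2 := by
      field_simp
      ring
    have : 0 ≤ (2 * ε)⁻¹ * (‖h x‖ - ε) ^ 2 := by positivity
    simp only
    linarith
  rw [integral_add (integrable_const _) i2, integral_const_mul, integral_const] at k
  have e : ε / 2 + (2 * ε)⁻¹ * ε ^ 2 = ε := by
    field_simp
    ring
  have := mul_le_mul_of_nonneg_left h2 (by positivity : 0 ≤ (2 * ε)⁻¹)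
  simp only [probReal_univ, smul_eq_mul, one_mul] at k
  linarith

theorem bd {ν ν' : ℕ → ℕ → ℝ} (h : PW ν) (h' : PW ν') : Bd (df ν ν') := by
  filter_upwards [h.2, h'.2] with M e e'
  have : ∑ d ∈ Finset.range M, |df ν ν' M d| ≤ ∑ d ∈ Finset.range M, (ν M d + ν' M d) :=
    Finset.sum_le_sum fun d _ => abs_le.2
      ⟨by simp only [df]; linarith [h.1 M d], by simp only [df]; linarith [h'.1 M d]⟩
  rw [Finset.sum_add_distrib, e, e'] at this
  linarith

variable {X : Sy} {a b : Gm 2} {w : ℕ → ℕ → ℝ}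

theorem swap (V : VB) {A1 A2 : MeasurableSpace X.X} (h : GP X a b w A1 A2) : GP X b a w A2 A1 :=
  fun f g hf hg bf bg => (h g f hg hf bg bf).congr fun M => V.swap X a b (w M) M g f

theorem mono {A1 A2 A1' A2' : MeasurableSpace X.X} (h : GP X a b w A1 A2) (h1 : A1' ≤ A1)
    (h2 : A2' ≤ A2) : GP X a b w A1' A2' :=
  fun f g hf hg bf bg => h f g hf hg ⟨bf.1.mono h1, bf.2⟩ ⟨bg.1.mono h2, bg.2⟩

theorem lim (F : Fd) (V : VB) (hw : Bd w) (𝒟 : Set (MeasurableSpace X.X)) (ne : 𝒟.Nonempty)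
    (dir : DirectedOn (· ≤ ·) 𝒟) (fac : ∀ D ∈ 𝒟, Fac X D) {A1 : MeasurableSpace X.X}
    (h : ∀ D ∈ 𝒟, GP X a b w A1 D) : GP X a b w A1 (sSup 𝒟) := by
  intro f g hf hg bf bg
  have mg := @itg X.X X.ms X.μ X.pr g hg
  refine V.span X a b w f g {φ | MB X φ ∧ ∃ D ∈ 𝒟, BM X.μ D φ} hw hf (mg.integrable one_le_two)
    ?_ fun ε hε => ?_
  · rintro φ ⟨h1, D, hD, h2⟩
    exact ⟨(@itg X.X X.ms X.μ X.pr φ h1).integrable one_le_two, h D hD f φ hf h1 bf h2⟩
  · obtain ⟨D, hD, hc⟩ := F.d.chain 𝒟 X.μ ne dir (fun D hD => (fac D hD).le) g mg (ε ^ 2)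
      (by positivity)
    obtain ⟨G, hG, mG⟩ := V.ver X D g (fac D hD) hg
    refine ⟨G, Submodule.subset_span ⟨hG.1, D, hD, mG.aestronglyMeasurable, 1,
      ae_of_all _ hG.1.2⟩, ?_⟩
    refine @l1 X.X X.ms X.μ X.pr (fun x => g x - G x) (mg.sub (@itg X.X X.ms X.μ X.pr G hG.1)) ε hε
      (le_trans (le_of_eq (integral_congr_ae ?_)) (hc D hD le_rfl))
    have e := condExp_of_aestronglyMeasurable' (F.t.fsSup X 𝒟 ne fac).le bg.1
      (mg.integrable one_le_two)
    filter_upwards [e, hG.2] with x e1 e2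
    rw [e1, e2]

theorem step (F : Fd) (V : VB) (hO : OwnS) (hF : ForS) {ν ν' : ℕ → ℕ → ℝ} (p : PW ν) (p' : PW ν')
    (ai : AsInv ν') (n : Nice X) {u : Gm 2} {B A1 A2 : MeasurableSpace X.X}
    (hB : Bs X a b (df ν ν') B) (f1 : Fac X A1) (f2 : Fac X A2) (le : B ≤ A2)
    (hu : u = b ∨ u = b - a) (h : GP X a b (df ν ν') A1 A2) :
    GP X a b (df ν ν') (KK X u A1) (KK X u A2) :=
  swap V (hF ν ν' p p' ai X b a u B _ A1 n hB (F.kb.fac X u A2 n f2) f1
    (le.trans (F.kb.le X u A2 n f2)) hu (swap V (hO ν ν' p p' ai X a b u B A1 A2 n hB f1 f2 le hu h)))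

theorem chain (F : Fd) (V : VB) (hw : Bd w) (𝒞 : Set (MeasurableSpace X.X)) (ne : 𝒞.Nonempty)
    (ch : IsChain (· ≤ ·) 𝒞) (fac : ∀ C ∈ 𝒞, Fac X C) {A B : MeasurableSpace X.X} (fB : Fac X B)
    (h : ∀ C ∈ 𝒞, GP X a b w A (C ⊔ B)) : GP X a b w A (sSup 𝒞 ⊔ B) := by
  refine mono (lim F V hw ((· ⊔ B) '' 𝒞) (ne.image _) ?_ ?_ ?_) le_rfl ?_
  · exact ch.directedOn.mono_comp fun _ _ h => sup_le_sup_right h B
  · rintro _ ⟨C, hC, rfl⟩
    exact F.t.fsup X C B (fac C hC) fB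
  · rintro _ ⟨C, hC, rfl⟩
    exact h C hC
  · obtain ⟨C, hC⟩ := ne
    exact sup_le (sSup_le fun D hD => le_sup_left.trans (le_sSup ⟨D, hD, rfl⟩))
      (le_sup_right.trans (le_sSup ⟨C, hC, rfl⟩))

theorem dirs {u : Gm 2} (hu : u ∈ T4S.UU rr) :
    (u = rr 1 ∨ u = rr 1 - rr 0) ∨ (u = rr 0 ∨ u = rr 0 - rr 1) := by
  rcases hu with ⟨i, rfl⟩ | ⟨i, j, hij, rfl⟩
  · fin_cases i
    · exact Or.inr (Or.inl rfl)
    · exact Or.inl (Or.inl rfl)
  · fin_cases i <;> fin_cases j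
    · exact absurd rfl hij
    · exact Or.inr (Or.inr rfl)
    · exact Or.inl (Or.inr rfl)
    · exact absurd rfl hij

end Hull

open Hull in
theorem hullr : HullR := by
  intro F V hO hF ν ν' p p' ai X B B' n hB hB'
  have f0 := F.t.bot X
  have hw := bd p p'
  refine ⟨T4x.hull X (nul X.μ), F.h.kc X _ n f0, mono (F.h.ind X (nul X.μ)
    (fun C => GP X (rr 0) (rr 1) (df ν ν') (C ⊔ B') (C ⊔ B)) n f0 ?_ ?_ ?_) le_sup_left le_sup_left⟩
  · intro f g hf hg _ bg
    rw [sup_eq_right.2 hB.fac.nl] at bg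
    exact hB.gd g hg bg f hf
  · intro u hu C fC _ h
    have f1 := F.t.fsup X C B' fC hB'.fac
    have f2 := F.t.fsup X C B fC hB.fac
    have k : ∀ D, Fac X D → KK X u C ⊔ D ≤ KK X u (C ⊔ D) := fun D fD =>
      sup_le (F.kb.mono X u C _ n fC (F.t.fsup X C D fC fD) le_sup_left)
        (le_sup_right.trans (F.kb.le X u _ n (F.t.fsup X C D fC fD)))
    refine mono ?_ (k B' hB'.fac) (k B hB.fac)
    rcases dirs hu with hu | hu
    · exact step F V hO hF p p' ai n hB f1 f2 le_sup_right hu h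
    · exact swap V (step F V hO hF p p' ai n hB' f2 f1 le_sup_right hu (swap V h))
  · intro 𝒞 ne ch h
    have fac : ∀ C ∈ 𝒞, Fac X C := fun C hC => (h C hC).1
    refine chain F V hw 𝒞 ne ch fac hB.fac fun C hC => swap V ?_
    refine chain F V hw 𝒞 ne ch fac hB'.fac fun C' hC' => swap V ?_
    rcases ch.total hC hC' with e | e
    · exact mono (h C' hC').2.2 le_rfl (sup_le_sup_right e B)
    · exact mono (h C hC).2.2 (sup_le_sup_right e B') le_rfl

end T6

end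

end PkHull

section PkTop

/-! From a closed good factor to all functions. -/

set_option autoImplicit false
set_option linter.unusedVariables false
set_option warn.classDefReducibility false

open MeasureTheory ProbabilityTheory Filter Topology Function
open scoped BigOperators ComplexConjugate

noncomputable section

namespace T6

open Pool.Agent.MP_154433_an hiding BM
open T3S (B1 MB1 PW AsInv Erg Bd Near Gr yw dif CZ)
open T4S (Gm Act ddX QX ln Spr Concl wavg Van)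
open Fib27 (BM)
open T3x (nul pull gen)
open T4x (Fac Emb Inv Nice Pair Star KK Fd)
open T3S.Bridge (toWt av_eq erg_to exists_MB1)

namespace Top

/-- for bounded functions the first and the second moments vanish together -/
lemma l12 {X : Type} [MeasurableSpace X] (μ : Measure X) [IsProbabilityMeasure μ]
    (S : ℕ → X → ℂ) (hm : ∀ M, Measurable (S M)) (hb : ∀ᶠ M in atTop, ∀ x, ‖S M x‖ ≤ 2) :
    Tendsto (fun M => ∫ x, ‖S M x‖ ∂μ) atTop (𝓝 0) ↔
      Tendsto (fun M => ∫ x, ‖S M x‖ ^ 2 ∂μ) atTop (𝓝 0) := by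
  have key : ∀ᶠ M in atTop, ∫ x, ‖S M x‖ ^ 2 ∂μ ≤ 2 * ∫ x, ‖S M x‖ ∂μ ∧
      (∫ x, ‖S M x‖ ∂μ) ^ 2 ≤ ∫ x, ‖S M x‖ ^ 2 ∂μ := by
    filter_upwards [hb] with M h
    have i1 : Integrable (fun x => ‖S M x‖) μ := Integrable.of_bound
      (hm M).norm.aestronglyMeasurable 2 (Eventually.of_forall fun x => by simpa using h x)
    have i2 : Integrable (fun x => ‖S M x‖ ^ 2) μ := Integrable.of_bound
      ((hm M).norm.pow_const 2).aestronglyMeasurable (2 ^ 2) (Eventually.of_forall fun x => by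
        rw [norm_pow, norm_norm]
        exact pow_le_pow_left₀ (norm_nonneg _) (h x) 2)
    refine ⟨?_, ?_⟩
    · rw [← integral_const_mul]
      exact integral_mono i2 (i1.const_mul 2) fun x => by nlinarith [h x, norm_nonneg (S M x)]
    · have h1 := integral_mono (i1.const_mul (2 * ∫ x, ‖S M x‖ ∂μ))
        (i2.add (integrable_const ((∫ x, ‖S M x‖ ∂μ) ^ 2))) fun x => by
          have := sq_nonneg (‖S M x‖ - ∫ x, ‖S M x‖ ∂μ)
          simp only [Pi.add_apply]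
          linarith
      simp only [Pi.add_apply] at h1
      rw [integral_const_mul, integral_add i2 (integrable_const _), integral_const,
        probReal_univ, one_smul] at h1
      linarith
  constructor
  · intro h
    refine squeeze_zero' (Eventually.of_forall fun M => integral_nonneg fun x => sq_nonneg _)
      (key.mono fun M k => k.1) ?_
    simpa using h.const_mul 2
  · intro h
    refine squeeze_zero' (Eventually.of_forall fun M => integral_nonneg fun x => norm_nonneg _)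
      (key.mono fun M k => Real.le_sqrt_of_sq_le k.2) ?_
    simpa using h.sqrt

lemma vn_iff {ν ν' : ℕ → ℕ → ℝ} (h1 : PW ν) (h2 : PW ν') (X : Sy) (f : Fin 2 → X.X → ℂ)
    (hf : ∀ i, MB X (f i)) :
    Vn X (rr 0) (rr 1) (df ν ν') (f 0) (f 1) ↔ Van X.μ X.A (df ν ν') rr f := by
  refine Iff.trans ?_ (l12 X.μ (wavg X.A (df ν ν') rr f)
    ((act X).wavg_meas _ _ fun i => (hf i).1) ?_)
  · simp only [Vn, NN, wavg, Fin.prod_univ_two]
  · filter_upwards [h1.2, h2.2] with M e e' x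
    refine (T4S.wavg_norm_le X.A _ rr (fun i => (hf i).2) M x).trans ?_
    refine (Finset.sum_le_sum fun d _ => abs_sub _ _).trans ?_
    simp only [abs_of_nonneg (h1.1 _ _), abs_of_nonneg (h2.1 _ _), Finset.sum_add_distrib, e, e']
    norm_num

lemma van_iff {ν ν' : ℕ → ℕ → ℝ} (h1 : PW ν) (h2 : PW ν') (Z : Sy) (g : Fin 2 → Z.X → ℂ) :
    Van Z.μ Z.A (df ν ν') rr g ↔ Tendsto (fun M => ∫ x,
      ‖T4x.avg (toWt ν h1) M Z rr g x - T4x.avg (toWt ν' h2) M Z rr g x‖ ^ 2 ∂Z.μ)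
      atTop (𝓝 0) := by
  have avg_eq : ∀ {w : ℕ → ℕ → ℝ} (hw : PW w) {M : ℕ}, ∑ d ∈ Finset.range M, w M d = 1 →
      ∀ x : Z.X, T4x.avg (toWt w hw) M Z rr g x = wavg Z.A w rr g M x := fun hw M e x => by
    rw [T4x.avg, av_eq hw e]
    exact Finset.sum_congr rfl fun d _ => Complex.real_smul
  refine tendsto_congr' ?_
  filter_upwards [h1.2, h2.2] with M e e'
  simp only [avg_eq h1 e, avg_eq h2 e', ← T4S.Bridge.wavg_sub]
  rfl

/-- a bounded function is a multiple of a function bounded by one -/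
lemma scale (X : Sy) (C : MeasurableSpace X.X) (hC : C ≤ X.ms) (f : X.X → ℂ) (hf : BM X.μ C f) :
    ∃ (c : ℂ) (g : X.X → ℂ), MB X g ∧ BM X.μ C g ∧ f =ᵐ[X.μ] fun x => c * g x := by
  obtain ⟨h1, K, h2⟩ := hf
  have p : (0 : ℝ) < |K| + 1 := by positivity
  have c0 : ((|K| + 1 : ℝ) : ℂ) ≠ 0 := Complex.ofReal_ne_zero.2 p.ne'
  have m1 := h1.const_mul ((|K| + 1 : ℝ) : ℂ)⁻¹
  obtain ⟨g, a1, a2⟩ := @exists_MB1 X.X X.ms X.μ _ (m1.mono hC) (h2.mono fun x hx => by
    rw [norm_mul, norm_inv, Complex.norm_real, Real.norm_of_nonneg p.le, inv_mul_le_iff₀ p]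
    linarith [le_abs_self K])
  refine ⟨((|K| + 1 : ℝ) : ℂ), g, a1, ⟨m1.congr a2, 1, Eventually.of_forall a1.2⟩,
    a2.mono fun x hx => ?_⟩
  beta_reduce at hx ⊢
  rw [← hx, mul_inv_cancel_left₀ c0]

lemma van_scale (X : Sy) (w : ℕ → ℕ → ℝ) (c : Fin 2 → ℂ) (f g : Fin 2 → X.X → ℂ)
    (h : ∀ i, f i =ᵐ[X.μ] fun x => c i * g i x) (hg : Van X.μ X.A w rr g) :
    Van X.μ X.A w rr f := by
  have h1 := hg.const_mul (‖∏ i, c i‖ ^ 2)
  rw [mul_zero] at h1
  refine h1.congr fun M => ?_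
  rw [← integral_const_mul]
  refine integral_congr_ae ?_
  filter_upwards [T4S.Bridge.wavg_congr (act X) w rr h M] with x hx
  rw [hx, ← mul_pow, ← norm_mul]
  simp only [wavg, Finset.prod_mul_distrib, Finset.mul_sum, mul_left_comm]

end Top

open T6.Top in
theorem topr : TopR := by
  intro F G hT _ ν ν' h1 h2 e1 e2 s1 s2 hC X f g hf hg
  have hm : ∀ i : Fin 2, MB X (![f, g] i) := Fin.forall_fin_two.2 ⟨hf, hg⟩
  refine (vn_iff h1 h2 X ![f, g] hm).2 ((van_iff h1 h2 X _).2 ?_)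
  obtain ⟨X', e, hX, he, hl⟩ := F.nice0 X
  refine G.down _ _ X X' e (Fin 2) rr he hl ?_ _ fun i =>
    ⟨(hm i).1.aestronglyMeasurable, 1, Eventually.of_forall (hm i).2⟩
  obtain ⟨C, c1, c2⟩ := hC X' hX
  refine hT _ _ X' (Fin 2) rr C (erg_to h1 e1) (erg_to h2 e2) (T4S.Bridge.spr_to h1 s1)
    (T4S.Bridge.spr_to h2 s2)
    ⟨fun i => Or.inl ⟨i, rfl⟩, fun i j hij => Or.inr ⟨i, j, hij, rfl⟩⟩ hX c1 fun φ hφ => ?_
  choose c ψ a1 a2 a3 using fun i => scale X' C c1.1.le (φ i) (hφ i)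
  exact (van_iff h1 h2 X' φ).1 (van_scale X' _ c φ ψ a3
    ((vn_iff h1 h2 X' ψ a1).1 (c2 _ _ (a1 0) (a1 1) (a2 0) (a2 1))))

end T6

end

end PkTop

section PkG0

/-! Functions with a small box have small averages after one derivative. -/

set_option autoImplicit false
set_option linter.unusedVariables false
set_option warn.classDefReducibility false

open MeasureTheory ProbabilityTheory Filter Topology Function
open scoped BigOperators ComplexConjugate

noncomputable section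

namespace T6

open Pool.Agent.MP_154433_an hiding BM
open T3S (B1 MB1 PW AsInv Erg Bd Near Gr yw dif CZ)
open T4S (Gm Act ddX QX ln Spr Concl)
open Fib27 (BM)
open T3x (nul pull gen)
open T4x (Fac Emb Inv Nice Pair Star KK Fd)

namespace G0

theorem sq_le {Ω : Type} {m : MeasurableSpace Ω} (μ : Measure Ω) [IsProbabilityMeasure μ]
    {F : Ω → ℂ} (hF : Measurable F) {C : ℝ} (hC : ∀ x, ‖F x‖ ≤ C) :
    (∫ x, ‖F x‖ ∂μ) ^ 2 ≤ ∫ x, ‖F x‖ ^ 2 ∂μ := by
  have h2 : MemLp (fun x => ‖F x‖) 2 μ :=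
    MemLp.of_bound hF.norm.aestronglyMeasurable C (Eventually.of_forall fun x => by
      simpa using hC x)
  have h := variance_nonneg (fun x => ‖F x‖) μ
  rw [variance_eq_sub h2] at h
  simpa using h

theorem gvn (hg : T4S.GvnS) {w : ℕ → ℕ → ℝ} (h1 : PW w) (h2 : AsInv w) (X : Sy) (a b : Gm 2)
    {H : ℕ} (hH : 1 ≤ H) {f c : X.X → ℂ} (hf : MB X f) (hc : MB X c) {η : ℝ} (hη : 0 < η) :
    ∀ᶠ M in atTop, NN X a b (w M) M f c ^ 2 ^ 2 ≤ QE X [b, b - a] H c + η := by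
  have hm : ∀ i : Fin 2, MB X (![c, f] i) := by
    intro i
    fin_cases i
    · exact hc
    · exact hf
  filter_upwards [hg w h1 h2 2 X.X X.μ X.A (act X) 1 (fun _ => H) (fun _ => hH) ![b, a] ![c, f]
    hm η hη] with M hM
  refine le_trans ?_ hM
  have e : NN X a b (w M) M f c = ∫ x, ‖T4S.wavg X.A w ![b, a] ![c, f] M x‖ ∂X.μ := by
    simp only [NN, T4S.wavg, Fin.prod_univ_two, Matrix.cons_val_zero, Matrix.cons_val_one,
      mul_comm]
  have h3 := sq_le X.μ ((act X).wavg_meas w ![b, a] (fun i => (hm i).1) M)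
    (T4S.wavg_norm_le X.A w ![b, a] (fun i => (hm i).2) M)
  rw [e, show (2 : ℕ) ^ 2 = 2 * 2 ^ 1 by norm_num, pow_mul]
  exact pow_le_pow_left₀ (sq_nonneg _) h3 _

theorem d2_mb (X : Sy) (u : Gm 2) (n n' : ℕ) {g : X.X → ℂ} (hg : MB X g) :
    MB X (d2 X u n n' g) := ((act X).tz hg _).mul ((act X).tz hg _).cj

theorem mean (qb : QB) (X : Sy) (u : Gm 2) (L : List (Gm 2)) (H : ℕ) {g : X.X → ℂ}
    (hg : MB X g) : 𝔼 n : Fin H, 𝔼 n' : Fin H, QE X L H (d2 X u n n' g) = QE X (u :: L) H g := by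
  rw [Finset.expect_comm, QE, List.map_cons, T4S.QX_ln]
  refine Finset.expect_congr rfl fun h _ => Finset.expect_congr rfl fun h' _ => ?_
  refine Eq.trans ?_ (qb.tz X L H _ (((h : ℕ) : ℤ) • u)
    ((act X).dd hg ((((h' : ℕ) : ℤ) - ((h : ℕ) : ℤ)) • u)))
  congr 1
  funext x
  simp only [d2, ddX]
  rw [← (act X).add, ← add_smul, sub_add_cancel]

end G0

theorem g0 : G0R := by
  intro hg vb qb mo w h1 h2 X a b u g bg hn ε hε
  obtain ⟨K1, k1, p1⟩ := qb.pw 2 (ε / 4) (by positivity)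
  obtain ⟨K2, k2, p2⟩ := qb.pw 2 (ε / (4 * (K1 + 1))) (by positivity)
  obtain ⟨H, hH, hq⟩ := hn (ε / (2 * (K1 * K2 + 1))) (by positivity)
  refine ⟨H, fun n n' => ε / 2 + K1 * K2 * QE X [b, b - a] H (d2 X u n n' g), hH, ?_, ?_⟩
  · have : Nonempty (Fin H) := ⟨⟨0, hH⟩⟩
    simp only [Finset.expect_add_distrib, ← Finset.mul_expect, Finset.expect_const
      Finset.univ_nonempty]
    rw [G0.mean qb X u _ H bg]
    have h3 : K1 * K2 * (ε / (2 * (K1 * K2 + 1))) ≤ ε / 2 := by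
      rw [← mul_div_assoc, div_le_div_iff₀ (by positivity) (by positivity)]
      nlinarith [mul_nonneg k1 k2]
    nlinarith [mul_le_mul_of_nonneg_left hq (mul_nonneg k1 k2)]
  · intro n n' Y f c hY bf hc η hη
    have hd := G0.d2_mb X u n n' bg
    have ne : [b, b - a] ≠ [] := List.cons_ne_nil _ _
    have h4 := p2 _ _ (qb.nonneg X _ H _ ne hd) (mo X Y [b, b - a] H _ c hY ne hH hd hc)
    have hη' : 0 < η / (K1 + 1) := by positivity
    filter_upwards [G0.gvn hg h1 h2 X a b hH bf hc.1 hη'] with M hM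
    have h5 := p1 _ _ (add_nonneg (qb.nonneg X _ H _ ne hc.1) hη'.le) hM
    have h6 : K1 * (η / (K1 + 1)) ≤ η := by
      rw [← mul_div_assoc, div_le_iff₀ (by positivity)]
      nlinarith
    have h7 : K1 * (ε / (4 * (K1 + 1))) ≤ ε / 4 := by
      rw [← mul_div_assoc, div_le_div_iff₀ (by positivity) (by positivity)]
      nlinarith
    nlinarith [mul_le_mul_of_nonneg_left h4 k1]

end T6

end

end PkG0

section PkOwn

/-! Row Own: the compact step in a direction of the slot itself. -/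

set_option autoImplicit false
set_option linter.unusedVariables false

open MeasureTheory ProbabilityTheory Filter Topology Function
open scoped BigOperators ComplexConjugate

noncomputable section

namespace T6

open Pool.Agent.MP_154433_an hiding BM
open T3S (B1 MB1 PW AsInv Bd)
open T4S (Gm)
open Fib27 (BM)
open T3x (pull)
open T4x (Fac Inv Nice Pair Star KK Fd)

namespace Own

section gen

variable {Ω Ω' : Type} {m0 : MeasurableSpace Ω} {m0' : MeasurableSpace Ω'} {μ : Measure[m0] Ω}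
  {μ' : Measure[m0'] Ω'}

lemma bm_comp {p : Ω → Ω'} (hp : @MeasurePreserving _ _ m0 m0' p μ μ') {f : Ω' → ℂ}
    (h : BM μ' m0' f) : BM μ m0 fun x => f (p x) :=
  ⟨h.1.comp_measurePreserving hp, h.2.imp fun _ hC => hp.quasiMeasurePreserving.ae hC⟩

lemma mpc {Ω'' : Type} {m0'' : MeasurableSpace Ω''} {μ'' : Measure[m0''] Ω''} {p : Ω → Ω'}
    {q : Ω' → Ω''} (hq : @MeasurePreserving _ _ m0' m0'' q μ' μ'')
    (hp : @MeasurePreserving _ _ m0 m0' p μ μ') : @MeasurePreserving _ _ m0 m0'' (q ∘ p) μ μ'' :=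
  hq.comp hp

lemma desc {p : Ω → Ω'} (hp : @MeasurePreserving _ _ m0 m0' p μ μ') {a b : Ω' → ℂ}
    (ha : BM μ' m0' a) (hb : BM μ' m0' b) (h : (fun x => a (p x)) =ᵐ[μ] fun x => b (p x)) :
    a =ᵐ[μ'] b :=
  (hp.measure_preimage (ha.1.nullMeasurableSet_eq_fun hb.1).compl).symm.trans h

lemma aec {p : Ω → Ω'} (hp : @MeasurePreserving _ _ m0 m0' p μ μ') {a b : Ω' → ℂ}
    (h : a =ᵐ[μ'] b) : ∀ᵐ x ∂μ, a (p x) = b (p x) := hp.quasiMeasurePreserving.ae h

lemma tow [IsProbabilityMeasure μ] {m1 m2 : MeasurableSpace Ω} (h1 : m1 ≤ m2) (h2 : m2 ≤ m0)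
    {g : Ω → ℂ} (h : μ[g | m2] =ᵐ[μ] 0) : μ[g | m1] =ᵐ[μ] 0 := by
  have e := condExp_congr_ae (m := m1) h
  rw [condExp_zero] at e
  exact (condExp_condExp_of_le h1 h2).symm.trans e

lemma l1 [IsProbabilityMeasure μ] {a : Ω → ℂ} (h : BM μ m0 a) {ε : ℝ} (hε : 0 < ε)
    (h2 : ∫ x, ‖a x‖ ^ 2 ∂μ ≤ ε ^ 2) : ∫ x, ‖a x‖ ∂μ ≤ ε := by
  have i : Integrable (fun x => ‖a x‖ ^ 2) μ :=
    (h.memLp ((2 : ℕ) : ENNReal)).integrable_norm_pow two_ne_zero
  have e := integral_mono (h.integrable.norm.const_mul (2 * ε)) (i.add (integrable_const (ε ^ 2)))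
    fun x => show 2 * ε * ‖a x‖ ≤ ‖a x‖ ^ 2 + ε ^ 2 by nlinarith [sq_nonneg (‖a x‖ - ε)]
  rw [integral_const_mul, integral_add' i (integrable_const _)] at e
  simp only [integral_const, probReal_univ, one_smul] at e
  nlinarith

end gen

variable {X : Sy}

lemma bm {f : X.X → ℂ} (h : MB X f) : BM X.μ X.ms f :=
  ⟨h.1.aestronglyMeasurable, 1, Eventually.of_forall h.2⟩

lemma nrm (F : Fd) {Y : MeasurableSpace X.X} (hY : Y ≤ X.ms) {k : X.X → ℂ} (h : BM X.μ Y k) :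
    ∃ (c : ℂ) (k' : X.X → ℂ), MB X k' ∧ BM X.μ Y k' ∧ k =ᵐ[X.μ] fun x => c * k' x := by
  obtain ⟨C, hC⟩ := h.2
  have c0 : (0 : ℝ) < max C 1 := lt_max_of_lt_right one_pos
  have c1 : ((max C 1 : ℝ) : ℂ) ≠ 0 := by exact_mod_cast c0.ne'
  have hb := h.cmul (((max C 1 : ℝ) : ℂ)⁻¹)
  obtain ⟨k', a1, a2, a3⟩ := F.a.rep Y X.μ _ 1 zero_le_one hb.1 (hC.mono fun x hx => by
    rw [norm_mul, norm_inv, Complex.norm_real, Real.norm_of_nonneg c0.le, inv_mul_le_one₀ c0]
    exact hx.trans (le_max_left _ _))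
  refine ⟨((max C 1 : ℝ) : ℂ), k', ⟨a1.mono hY le_rfl, a2⟩, hb.congr a3, a3.mono fun x hx => ?_⟩
  simp only at hx ⊢
  rw [← hx, mul_inv_cancel_left₀ c1]

lemma d2_mb {f : X.X → ℂ} (h : MB X f) (u : Gm 2) (n n' : ℕ) : MB X (d2 X u n n' f) :=
  ((act X).tz h _).mul ((act X).tz h _).cj

/-- a convolution with a function orthogonal to the base is not seen by either weight -/
lemma rest (F : Fd) (V : VB) (hK : KeyS) {ν ν' : ℕ → ℕ → ℝ} (hν : PW ν) {Z : Sy} {a b u : Gm 2}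
    {A1 A2 : MeasurableSpace X.X} (h1 : Fac X A1) (h2 : Fac X A2) {p : Bool → Z.X → X.X}
    (hp : Pair X A2 Z p) (hg : GP X a b (df ν ν') A1 A2) {H : Z.X → ℂ} {f g k : X.X → ℂ}
    (hH : BM Z.μ (Inv Z {u}) H) (mg : MB X g) (mk : BM X.μ X.ms k) (hs : Star p H g k)
    (h0 : G0 X a b u ν' g) (mf : MB X f) (bf : BM X.μ A1 f) : Vn X a b ν f k := by
  obtain ⟨K, K0, hk⟩ := hK X Z A2 p a b u H g k h2 hp hH mg mk hs
  choose c hc hc' using fun n n' => V.ver X A2 _ h2 (d2_mb mg u n n')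
  refine tendsto_order.2 ⟨fun t ht => Eventually.of_forall fun M =>
    ht.trans_le (V.nonneg _ _ _ _ _ _ _), fun t ht => ?_⟩
  have e0 : 0 < t ^ 2 / (3 * (K + 1)) := by positivity
  obtain ⟨N, α, N1, hα, hN⟩ := h0 _ e0
  have ev : ∀ n n' : Fin N, ∀ᶠ M in atTop, NN X a b (ν M) M (d2 X u n n' f) (c n n') ≤
      α n n' + 2 * (t ^ 2 / (3 * (K + 1))) := fun n n' => by
    filter_upwards [hN n n' A2 _ _ h2 (d2_mb mf u n n') (hc n n') _ e0,
      (tendsto_order.1 (hg _ _ (d2_mb mf u n n') (hc n n').1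
        ((F.t.bm X A1 _ f h1 bf).mul (F.t.bm X A1 _ f h1 bf).conj)
        ((bm (hc n n').1).of_aesm (hc' n n').aestronglyMeasurable))).2 _ e0] with M m1 m2
    have := V.tri X a b (ν M) (ν' M) M _ _ (d2_mb mf u n n') (hc n n').1
    change NN X a b (fun d => ν M d - ν' M d) M _ _ < _ at m2
    linarith
  filter_upwards [eventually_all.2 fun n => eventually_all.2 (ev n), hν.2] with M m1 m2
  have : Nonempty (Fin N) := ⟨⟨0, N1⟩⟩
  have s1 : 𝔼 n : Fin N, 𝔼 n' : Fin N, NN X a b (ν M) M (d2 X u n n' f) (c n n') ≤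
      3 * (t ^ 2 / (3 * (K + 1))) := by
    refine (Finset.expect_le_expect fun n _ => Finset.expect_le_expect fun n' _ => m1 n n').trans ?_
    simp only [Finset.expect_add_distrib, Finset.expect_const Finset.univ_nonempty]
    linarith
  have s2 := (hk f N c (ν M) M mf N1 hc (hν.1 M) m2).trans (mul_le_mul_of_nonneg_left s1 K0)
  have s3 : K * (3 * (t ^ 2 / (3 * (K + 1)))) < t ^ 2 := by
    rw [show K * (3 * (t ^ 2 / (3 * (K + 1)))) = K * t ^ 2 / (K + 1) by field_simp,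
      div_lt_iff₀ (by positivity)]
    nlinarith [sq_pos_of_pos ht]
  exact lt_of_pow_lt_pow_left₀ 2 ht.le (s2.trans_lt s3)

end Own

open Own in
theorem own : OwnR := by
  intro F V hK hG ν ν' hν hν' hi X a b u B A1 A2 hX hB h1 hC hBC hu hg f k mf mk bf bk
  obtain ⟨Z, p, hp⟩ : ∃ Z p, Pair X A2 Z p := F.rp Bool (fun _ => X) X A2 (fun _ => id) false
    (fun _ => hX) hC (fun _ => (F.t.emb_id X).mp) fun _ _ _ _ => EventuallyEq.rfl
  have mp : ∀ b, @MeasurePreserving _ _ Z.ms X.ms (p b) Z.μ X.μ := fun b => (hp.emb b).mp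
  have hP := F.t.fpull Z X (p false) X.ms (hp.emb false) (F.t.top X)
  have hI : Inv X {u} ≤ A2 := (hu.elim (fun e => e ▸ hB.i1) fun e => e ▸ hB.i2).trans hBC
  have bd : Bd (df ν ν') := by
    filter_upwards [hν.2, hν'.2] with M m1 m2
    refine (Finset.sum_le_sum fun d _ => (abs_sub _ _).trans_eq
      (by rw [abs_of_nonneg (hν.1 M d), abs_of_nonneg (hν'.1 M d)])).trans ?_
    rw [Finset.sum_add_distrib, m1, m2]
    norm_num
  have key : ∀ (H : Z.X → ℂ) (g k : X.X → ℂ), BM Z.μ (Inv Z {u}) H → BM X.μ X.ms g →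
      BM X.μ X.ms k → Star p H g k → Vn X a b (df ν ν') f k := by
    intro H g k a1 a2 a3 a4
    have aH := a1.mono (F.t.finv Z {u}).le
    obtain ⟨c, g0, m0, -, e0⟩ := nrm F le_rfl a2
    obtain ⟨g', v1, v2⟩ := V.ver X A2 g0 hC m0
    obtain ⟨w1, w2⟩ := V.half X A2 g0 g' hC m0 v1
    have hc : BM X.μ A2 fun x => c * g' x := ((bm v1.1).of_aesm v2.aestronglyMeasurable).cmul c
    have hc' := hc.mono hC.le
    obtain ⟨k0, c1, c2⟩ := F.ka.star X A2 Z p hC hp _ _ aH (BM.const 1)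
    obtain ⟨k2, d1, d2⟩ := F.ka.star X A2 Z p hC hp _ _ (aH.cmul (2 * c)) (bm w1)
    simp only [T4x.Star, mul_one] at c2
    have hk0 : BM X.μ A2 k0 := by
      refine (c1.of_aesm ((F.t.inv_iff X {u} k0 c1.1).2 fun h hh => desc (mp false)
        (bm_comp (X.mp h) c1) c1 ?_)).mono hI
      have e1 := F.a.keq_fun X.ms Z.μ X.μ _ _ k0 (mpc (mp false) (Z.mp h))
        (mpc (X.mp h) (mp false)) ((hp.emb false).eqv h) c1.1
      have e2 := F.t.ce Z _ h H hP aH.integrable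
      filter_upwards [e1, (Z.mp h).quasiMeasurePreserving.ae c2, e2, c2, condExp_congr_ae
        (m := pull Z.μ (p false) X.ms) ((F.t.inv_iff Z {u} _ aH.1).1 a1.1 h hh)]
        with z z1 z2 z3 z4 z5
      exact z1.symm.trans (z2.trans (z3.symm.trans (z5.trans z4.symm)))
    have ek : k =ᵐ[X.μ] fun x => c * g' x * k0 x + k2 x := by
      refine desc (mp false) a3 ((hc'.mul c1).add d1) ?_
      have e1 : (fun z => H z * g (p true z)) =ᵐ[Z.μ] (fun z => c * g' (p false z) * H z) +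
          fun z => 2 * c * H z * (2⁻¹ * (g0 (p true z) - g' (p true z))) := by
        filter_upwards [F.a.keq_fun A2 Z.μ X.μ _ _ _ (mp true) (mp false) (hp.com true) hc.1,
          aec (mp true) e0] with z z1 z2
        rw [Pi.add_apply, z2, ← show c * g' (p true z) = c * g' (p false z) from z1]
        ring
      filter_upwards [a4, condExp_congr_ae (m := pull Z.μ (p false) X.ms) e1, condExp_add
        ((bm_comp (mp false) hc').mul aH).integrable
        ((aH.cmul (2 * c)).mul (bm_comp (mp true) (bm w1))).integrable (pull Z.μ (p false) X.ms),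
        Fib27.ce_mul hP.le (F.a.bm_comp X.ms Z.μ X.μ _ _ (mp false) hc') aH, c2, d2]
        with z z1 z2 z3 z4 z5 z6
      rw [z1, z2, z3, Pi.add_apply, z4, z5, z6]
    have n0 := hB.nul _ w1 (tow hBC hC.le w2)
    have h0 := hG ν' hν' hi X a b u _ w1 (by
      rcases hu with e | e <;> rw [e]
      exacts [n0.1, n0.2])
    have r1 := rest F V hK hν h1 hC hp hg (a1.cmul _) w1 d1 d2 h0 mf bf
    have r2 := rest F V hK hν' h1 hC hp (ν' := ν') (fun f g _ _ _ _ => by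
      simp [Vn, NN, df]) (a1.cmul _) w1 d1 d2 h0 mf bf
    obtain ⟨c1', k1, x1, x2, x3⟩ := nrm F hC.le (hc.mul hk0)
    obtain ⟨c2', k3, y1, -, y3⟩ := nrm F le_rfl d1
    refine squeeze_zero (fun M => V.nonneg _ _ _ _ _ _ _) (fun M => ?_)
      (by simpa using ((hg f k1 mf x1 bf x2).const_mul ‖c1'‖).add (r1.add r2))
    rw [V.congr X a b _ M f f k _ EventuallyEq.rfl ek]
    refine (V.add X a b _ M f _ _ mf (hc'.mul c1).integrable d1.integrable).trans (add_le_add ?_ ?_)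
    · rw [V.congr X a b _ M f f _ _ EventuallyEq.rfl x3, V.smul]
    · simp only [V.congr X a b _ M f f _ _ EventuallyEq.rfl y3, V.smul, ← mul_add]
      exact mul_le_mul_of_nonneg_left (V.sub X a b (ν M) (ν' M) M f k3 mf y1) (norm_nonneg _)
  refine V.span X a b _ f k {φ | BM X.μ X.ms φ ∧ Vn X a b (df ν ν') f φ} bd mf (bm mk).integrable
    (fun φ h => ⟨h.1.integrable, h.2⟩) fun ε hε => ?_
  obtain ⟨n, H, g, k', a1, a2⟩ := F.kb.span X u A2 Z p hX hC hp k bk (ε ^ 2) (by positivity)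
  refine ⟨∑ i, k' i, Submodule.sum_mem _ fun i _ => Submodule.subset_span
    ⟨(a1 i).2.2.1, key _ _ _ (a1 i).1 (a1 i).2.1 (a1 i).2.2.1 (a1 i).2.2.2⟩, l1 ((bm mk).sub ?_) hε
      (by simpa only [Finset.sum_apply] using a2)⟩
  exact Finset.sum_induction _ (BM X.μ X.ms) (fun _ _ => BM.add) (BM.const 0) fun i _ => (a1 i).2.2.1

end T6

end

end PkOwn

section PkKey

/-! The Cauchy-Schwarz step for a convolution in the second slot. -/

set_option autoImplicit false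
set_option linter.unusedVariables false

open MeasureTheory ProbabilityTheory Filter Topology Function
open scoped BigOperators ComplexConjugate

noncomputable section

namespace T6

open Pool.Agent.MP_154433_an hiding BM
open T4S (Gm)
open Fib27 (BM)
open T3x (pull)
open T4x (Fac Pair Star Fd)
open T4x.CptA

namespace Key

variable {X Z : Sy} {C : MeasurableSpace X.X} {p : Bool → Z.X → X.X}

lemma tst (F : Fd) (hP : Pair X C Z p) {G : Z.X → ℂ} {k a : X.X → ℂ} (hG : BM Z.μ Z.ms G)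
    (hk : BM X.μ X.ms k) (ha : BM X.μ X.ms a)
    (h : (fun z => k (p false z)) =ᵐ[Z.μ] Z.μ[G | pull Z.μ (p false) X.ms]) :
    ∫ z, a (p false z) * G z ∂Z.μ = ∫ x, a x * k x ∂X.μ := by
  rw [← intc (hP.emb false).mp (ha.mul hk),
    ← Fib27.int_mul_ce (F.a.pull_le X.ms Z.μ X.μ _ (hP.emb false).mp le_rfl)
      (F.a.bm_comp X.ms Z.μ X.μ _ _ (hP.emb false).mp ha) hG]
  refine integral_congr_ae ?_
  filter_upwards [h] with z hz
  rw [hz]

lemma sgn {S : X.X → ℂ} (hS : BM X.μ X.ms S) :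
    ∃ s : X.X → ℂ, BM X.μ X.ms s ∧ (∀ x, ‖s x‖ ≤ 1) ∧ ∀ x, S x * s x = (‖S x‖ : ℂ) := by
  have h1 : ∀ x, ‖conj (S x) / (‖S x‖ : ℂ)‖ ≤ 1 := fun x => by
    rw [norm_div, Complex.norm_conj, Complex.norm_real, norm_norm]
    exact div_self_le_one _
  refine ⟨fun x => conj (S x) / (‖S x‖ : ℂ), ⟨(hS.conj.1.aemeasurable.div
    (Complex.measurable_ofReal.comp_aemeasurable hS.1.norm.aemeasurable)).aestronglyMeasurable,
    1, Eventually.of_forall h1⟩, h1, fun x => ?_⟩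
  rcases eq_or_ne (S x) 0 with h | h
  · simp [h]
  · have : (‖S x‖ : ℂ) ≠ 0 := by simpa using h
    rw [← mul_div_assoc, Complex.mul_conj, Complex.normSq_eq_norm_sq, div_eq_iff this]
    push_cast
    ring

lemma bm2 (F : Fd) {f : X.X → ℂ} (hf : BM X.μ X.ms f) (u : Gm 2) (n n' : ℕ) :
    BM X.μ X.ms (d2 X u n n' f) := (bmT F hf _).mul (bmT F hf _).conj

lemma nn_int (F : Fd) (a b : Gm 2) (κ : ℕ → ℝ) (M : ℕ) {f g t : X.X → ℂ} (hf : BM X.μ X.ms f)
    (hg : BM X.μ X.ms g) (ht : BM X.μ X.ms t) :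
    ∫ x, (∑ d ∈ Finset.range M,
      (κ d : ℂ) * (f (X.A ((d : ℤ) • a) x) * g (X.A ((d : ℤ) • b) x))) * t x ∂X.μ =
    ∑ d ∈ Finset.range M,
      (κ d : ℂ) * ∫ x, f (X.A ((d : ℤ) • a) x) * t x * g (X.A ((d : ℤ) • b) x) ∂X.μ := by
  have := int_wsum (μ := X.μ) (Finset.range M) κ
    (fun d _ => (bmT F hf ((d : ℤ) • a)).mul (bmT F hg ((d : ℤ) • b))) ht
  simp only [Complex.real_smul] at this
  refine this.trans (Finset.sum_congr rfl fun d _ => ?_)
  simp only [mul_right_comm]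

lemma nn_bm (F : Fd) (a b : Gm 2) (κ : ℕ → ℝ) (M : ℕ) {f g : X.X → ℂ} (hf : BM X.μ X.ms f)
    (hg : BM X.μ X.ms g) : BM X.μ X.ms fun x => ∑ d ∈ Finset.range M,
      (κ d : ℂ) * (f (X.A ((d : ℤ) • a) x) * g (X.A ((d : ℤ) • b) x)) :=
  bm_sum _ fun d _ => ((bmT F hf _).mul (bmT F hg _)).cmul _

/-- one term -/
lemma one (F : Fd) (hC : Fac X C) (hP : Pair X C Z p) {u : Gm 2} {H : Z.X → ℂ} {g k : X.X → ℂ}
    (hH : BM Z.μ (T4x.Inv Z {u}) H) (hg : BM X.μ X.ms g) (hk : BM X.μ X.ms k) (hS : Star p H g k)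
    {K : ℝ} (K0 : 0 ≤ K) (hK : ∀ᵐ z ∂Z.μ, ‖H z‖ ≤ K) {N : ℕ} (hN : 1 ≤ N)
    {c : ℕ → ℕ → X.X → ℂ} (hc : ∀ n n', Ver X C (d2 X u n n' g) (c n n')) (v : Gm 2)
    {w : X.X → ℂ} (hw : BM X.μ X.ms w) :
    ‖∫ x, w x * k (X.A v x) ∂X.μ‖ ^ 2 ≤ K ^ 2 * ∑ n : Fin N, ∑ n' : Fin N,
      (N : ℝ)⁻¹ * (N : ℝ)⁻¹ * (∫ x, d2 X u n n' w x * c n n' (X.A v x) ∂X.μ).re := by
  have hH' : BM Z.μ Z.ms H := hH.mono (F.t.finv Z _).le
  have hgz : ∀ n : Gm 2, BM Z.μ Z.ms fun z => g (X.A n (X.A v (p true z))) := fun n =>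
    bmc F (hP.emb true).mp (bmT F (bmT F hg n) v)
  let Ψ : Fin N → Z.X → ℂ := fun n z =>
    w (X.A (((n : ℕ) : ℤ) • u) (p false z)) * g (X.A (((n : ℕ) : ℤ) • u) (X.A v (p true z)))
  have hΨ : ∀ n, BM Z.μ Z.ms (Ψ n) := fun n =>
    (bmc F (hP.emb false).mp (bmT F hw _)).mul (hgz _)
  have e1 : ∀ n, ∫ z, Ψ n z * H (Z.A v z) ∂Z.μ = ∫ x, w x * k (X.A v x) ∂X.μ := fun n => by
    have h1 := tst F hP ((bmT F hH' v).mul (hgz _)) (bmT F (bmT F hk _) v)
      (bmT F hw (((n : ℕ) : ℤ) • u))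
      (starT F hP hH' (bmT F hg _) (bmT F hk _) (starI F hP hH hg hk hS (n : ℕ)) v)
    rw [← intc (F.t.mp X (((n : ℕ) : ℤ) • u)) (hw.mul (bmT F hk v))]
    refine Eq.trans ?_ (h1.trans ?_)
    · simp only [Ψ, mul_assoc, mul_comm (H _)]
    · simp only [← F.t.add, add_comm]
  have e2 : ∀ n n', ∫ z, Ψ n z * conj (Ψ n' z) ∂Z.μ =
      ∫ x, d2 X u n n' w x * c n n' (X.A v x) ∂X.μ := fun n n' => by
    have hb := bm2 F hg u n n'
    rw [← tst F hP (bmc F (hP.emb true).mp (bmT F hb v))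
      (bmT F (bm_of (hc n n').1.1 (hc n n').1.2) v) (bm2 F hw u n n')
      ((aec (hP.emb false).mp ((aeT F (hc n n').2 v).trans
        (F.t.ce X C v _ hC hb.integrable).symm)).trans (pairCE F hC hP (bmT F hb v)))]
    simp only [Ψ, d2, map_mul, mul_mul_mul_comm]
  have hN' : (N : ℂ) ≠ 0 := by exact_mod_cast (by omega : N ≠ 0)
  have e3 : ∫ x, w x * k (X.A v x) ∂X.μ =
      ∫ z, (∑ n, (N : ℝ)⁻¹ • Ψ n z) * H (Z.A v z) ∂Z.μ := by
    rw [int_wsum Finset.univ (fun _ => (N : ℝ)⁻¹) (fun n _ => hΨ n) (bmT F hH' v)]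
    simp only [e1, Finset.sum_const, Finset.card_univ, Fintype.card_fin, nsmul_eq_mul]
    push_cast
    rw [← mul_assoc, mul_inv_cancel₀ hN', one_mul]
  rw [e3]
  refine (cs K0 (aeP F hK v)
    (bm_wsum Finset.univ (fun _ => (N : ℝ)⁻¹) fun n _ => hΨ n)).trans (le_of_eq ?_)
  rw [sq_wsum Finset.univ (fun _ => (N : ℝ)⁻¹) fun n _ => hΨ n]
  simp only [e2]

end Key

open Key

theorem key : KeyR := by
  intro F _ X Z C p a b u H g k hC hP hH hg hk hS
  obtain ⟨K, hK⟩ := hH.2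
  refine ⟨max K 0 ^ 2, sq_nonneg _, fun f N c κ M hf hN hc κ0 κ1 => ?_⟩
  have hf' : BM X.μ X.ms f := bm_of hf.1 hf.2
  obtain ⟨s, hs, s1, hsS⟩ := sgn (nn_bm F a b κ M hf' hk)
  have hw : ∀ d : ℕ, BM X.μ X.ms fun x => f (X.A ((d : ℤ) • a) x) * s x := fun d =>
    (bmT F hf' _).mul hs
  have h1 : NN X a b κ M f k ≤ ∑ d ∈ Finset.range M,
      κ d * ‖∫ x, f (X.A ((d : ℤ) • a) x) * s x * k (X.A ((d : ℤ) • b) x) ∂X.μ‖ := by
    have e := nn_int F a b κ M hf' hk hs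
    simp only [hsS] at e
    rw [@integral_complex_ofReal _ X.ms] at e
    refine (le_abs_self _).trans ((Complex.norm_real _).symm.trans_le ?_)
    rw [NN, e]
    refine (norm_sum_le _ _).trans (le_of_eq (Finset.sum_congr rfl fun d _ => ?_))
    rw [norm_mul, Complex.norm_real, Real.norm_of_nonneg (κ0 d)]
  have h2 : ∀ n n' : ℕ, ∑ d ∈ Finset.range M, κ d *
      (∫ x, d2 X u n n' (fun x => f (X.A ((d : ℤ) • a) x) * s x) x *
        c n n' (X.A ((d : ℤ) • b) x) ∂X.μ).re ≤ NN X a b κ M (d2 X u n n' f) (c n n') := by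
    intro n n'
    have hc' : BM X.μ X.ms (c n n') := bm_of (hc n n').1.1 (hc n n').1.2
    have e := congrArg Complex.re (nn_int F a b κ M (bm2 F hf' u n n') hc' (bm2 F hs u n n'))
    simp only [Complex.re_sum, Complex.re_ofReal_mul] at e
    refine le_trans (le_of_eq (Eq.trans ?_ e.symm)) ((Complex.re_le_norm _).trans
      (norm_integral_le_of_norm_le (nn_bm F a b κ M (bm2 F hf' u n n') hc').integrable.norm
        (Eventually.of_forall fun x => ?_)))
    · simp only [d2, map_mul, ← F.t.add, add_comm, mul_mul_mul_comm]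
    · rw [norm_mul]
      refine mul_le_of_le_one_right (norm_nonneg _) ?_
      rw [d2, norm_mul, Complex.norm_conj]
      exact mul_le_one₀ (s1 _) (norm_nonneg _) (s1 _)
  refine (pow_le_pow_left₀ (integral_nonneg fun x => norm_nonneg _) h1 2).trans
    ((Real.pow_arith_mean_le_arith_mean_pow _ _ _ (fun d _ => κ0 d) κ1
      (fun d _ => norm_nonneg _) 2).trans ((Finset.sum_le_sum fun (d : ℕ) _ => mul_le_mul_of_nonneg_left
        (one F hC hP hH (bm_of hg.1 hg.2) hk hS (le_max_right K 0)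
          (hK.mono fun z hz => hz.trans (le_max_left _ _)) hN hc ((d : ℤ) • b) (hw d))
        (κ0 d)).trans ?_))
  simp only [mul_left_comm (κ _), ← Finset.mul_sum]
  refine mul_le_mul_of_nonneg_left ?_ (sq_nonneg _)
  simp only [Finset.mul_sum, Fintype.expect_eq_sum_div_card, Fintype.card_fin, div_eq_inv_mul,
    Finset.sum_comm (s := Finset.range M), mul_assoc]
  refine Finset.sum_le_sum fun n _ => Finset.sum_le_sum fun n' _ => ?_
  simp only [← Finset.mul_sum]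
  gcongr
  exact h2 n n'

end T6

end

end PkKey

section PkNear

/-! Changes of the weights that are small in total variation. -/

set_option autoImplicit false
set_option linter.unusedVariables false

open MeasureTheory ProbabilityTheory Filter Topology Function
open scoped BigOperators ComplexConjugate

noncomputable section

namespace T6

open Pool.Agent.MP_154433_an hiding BM
open T3S (B1 MB1 PW AsInv Erg Bd Near Gr yw dif CZ)
open T4S (Gm Act)

namespace Near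

lemma tv (w w' : ℕ → ℝ) (M : ℕ) (c : ℕ → ℂ) (hc : ∀ d, ‖c d‖ ≤ 1) :
    ‖∑ d ∈ Finset.range M, (w d : ℂ) * c d‖ ≤
      ‖∑ d ∈ Finset.range M, (w' d : ℂ) * c d‖ + ∑ d ∈ Finset.range M, |w d - w' d| := by
  refine (norm_le_insert' _ (∑ d ∈ Finset.range M, (w' d : ℂ) * c d)).trans (add_le_add le_rfl ?_)
  rw [← Finset.sum_sub_distrib]
  refine (norm_sum_le _ _).trans (Finset.sum_le_sum fun d _ => ?_)
  rw [← sub_mul, norm_mul, ← Complex.ofReal_sub, Complex.norm_real, Real.norm_eq_abs]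
  exact mul_le_of_le_one_right (abs_nonneg _) (hc d)

lemma tvr (w w' : ℕ → ℝ) (M : ℕ) (c : ℕ → ℝ) (hc : ∀ d, |c d| ≤ 1) :
    |∑ d ∈ Finset.range M, w d * c d| ≤
      |∑ d ∈ Finset.range M, w' d * c d| + ∑ d ∈ Finset.range M, |w d - w' d| := by
  have := tv w w' M (fun d => (c d : ℂ)) fun d => by
    rw [Complex.norm_real, Real.norm_eq_abs]
    exact hc d
  simpa only [← Complex.ofReal_mul, ← Complex.ofReal_sum, Complex.norm_real,
    Real.norm_eq_abs] using this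

lemma mx_le {κ : ℕ → ℝ} {M : ℕ} {G : ℕ → ℂ} (h0 : ∀ d, 0 ≤ κ d)
    (h1 : ∑ d ∈ Finset.range M, κ d = 1) (hG : ∀ d, ‖G d‖ ≤ 1) : |mx κ M G| ≤ 1 := by
  rw [mx, abs_of_nonneg (Real.iSup_nonneg fun _ => norm_nonneg _)]
  refine Real.iSup_le (fun χ => ?_) zero_le_one
  refine (norm_sum_le _ _).trans (le_trans (Finset.sum_le_sum fun d _ => ?_) h1.le)
  rw [norm_mul, norm_mul, Complex.norm_real, Real.norm_of_nonneg (h0 d), AddChar.norm_apply, one_mul]
  exact mul_le_of_le_one_right (h0 d) (hG d)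

lemma ex_le {M : ℕ} (hM : 1 ≤ M) {f g : Fin M → ℝ} {c : ℝ} (h : ∀ j, f j ≤ g j + c) :
    𝔼 j, f j ≤ (𝔼 j, g j) + c := by
  have : Nonempty (Fin M) := ⟨⟨0, hM⟩⟩
  refine (Finset.expect_le_expect fun j _ => h j).trans (le_of_eq ?_)
  rw [Finset.expect_add_distrib, Finset.expect_const Finset.univ_nonempty]

lemma ee_norm (t : ℝ) : ‖ee t‖ = 1 := Complex.norm_exp_ofReal_mul_I _

def hom (i j : ℤ) (v : Gm 2) : Gm 2 →+ Gm 2 :=
  AddMonoidHom.mk' (fun n => (i * n 0 + j * n 1) • v) fun n n' => by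
    rw [← add_smul]
    congr 1
    simp only [Pi.add_apply]
    ring

lemma hom_apply (i j : ℤ) (v n : Gm 2) : hom i j v n = (i * n 0 + j * n 1) • v := rfl

end Near

theorem near : NearR where
  sq w w' hn h ε ε0 := by
    filter_upwards [h (ε / 2) (half_pos ε0), hn.eventually_le_const (half_pos ε0),
      eventually_ge_atTop 1] with M h1 h2 hM κ W v k0 k1 hW hv
    have h3 := h1 κ W v k0 k1 hW hv
    refine (Near.ex_le hM fun j => Near.tvr (w M) (w' M) M _ fun e =>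
      Near.mx_le k0 k1 fun d => ?_).trans (by linarith)
    rw [norm_mul]
    exact mul_le_one₀ (hW _ _) (norm_nonneg _) (T3S.CZ_B1 (hv d) _)
  st w w' hn h k hk ε ε0 := by
    filter_upwards [h k hk (ε / 2) (half_pos ε0), hn.eventually_le_const (half_pos ε0),
      eventually_ge_atTop 1] with M h1 h2 hM u v hu hv
    have h3 := h1 u v hu hv
    refine (Near.ex_le hM fun n => Near.ex_le hM fun m =>
      Near.tv (w M) (w' M) M _ fun d => ?_).trans (by linarith)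
    rw [norm_mul]
    exact mul_le_one₀ (T3S.CZ_B1 (hu _) _) (norm_nonneg _) (T3S.CZ_B1 (hv _) _)
  uw w w' hn h X u g b hg hb := by
    have h1 := (h X u g b hg hb).add hn
    rw [add_zero] at h1
    refine squeeze_zero (fun M => integral_nonneg fun x => norm_nonneg _) (fun M => ?_) h1
    have hc : ∀ x (d : ℕ), ‖g (X.A ((d : ℤ) • u) x) * ee ((d : ℝ) * b M x)‖ ≤ 1 := fun x d => by
      rw [norm_mul, Near.ee_norm, mul_one]
      exact hg.2 _
    have hi : Integrable (fun x => ‖∑ d ∈ Finset.range M,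
        (w' M d : ℂ) * (g (X.A ((d : ℤ) • u) x) * ee ((d : ℝ) * b M x))‖) X.μ := by
      refine (integrable_finsetSum _ fun d _ => Integrable.const_mul ?_ _).norm
      refine Integrable.of_bound (Measurable.aestronglyMeasurable ?_) 1 (ae_of_all _ fun x => hc x d)
      refine (hg.1.comp ((act X).meas _)).mul ?_
      have := hb M
      unfold ee
      fun_prop
    refine (integral_mono_of_nonneg (ae_of_all _ fun x => norm_nonneg _)
      (hi.add (integrable_const _))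
      (ae_of_all _ fun x => Near.tv (w M) (w' M) M _ (hc x))).trans (le_of_eq ?_)
    rw [integral_add' hi (integrable_const _), integral_const, probReal_univ, one_smul]
  sq0 ν ε ε0 := Eventually.of_forall fun M κ W v _ _ _ _ => by simpa [df] using ε0.le
  gr σ h0 h := by
    refine tendsto_atTop_mono' _ ?_ h
    have hlog : Tendsto (fun M : ℕ => Real.log M) atTop atTop :=
      Real.tendsto_log_atTop.comp tendsto_natCast_atTop_atTop
    filter_upwards [hlog.eventually_ge_atTop 1] with M hM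
    exact div_le_div_of_nonneg_left (Finset.sum_nonneg fun k _ => h0 k) (by positivity)
      (pow_le_pow_right₀ hM one_le_two)
  tw := by
    refine ⟨⟨⟨Near.hom 1 1 (rr 1), ⟨?_, fun n => ⟨-n 0, ?_⟩⟩, ?_⟩,
      Near.hom (-1) 0 (rr 1 - rr 0), ⟨?_, fun n => ⟨n 0 + n 1, ?_⟩⟩, ?_⟩,
      ⟨Near.hom 1 1 (rr 0), ⟨?_, fun n => ⟨-n 1, ?_⟩⟩, ?_⟩,
      Near.hom 0 (-1) (rr 0 - rr 1), ⟨?_, fun n => ⟨n 0 + n 1, ?_⟩⟩, ?_⟩ <;>
    · ext i
      fin_cases i <;> simp [Near.hom_apply, rr]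

end T6

end

end PkNear
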