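import Pool.Agent.MP_154433_an.t8.Spec
import Pool.Agent.MP_154433_an.p9.S2
import Pool.Agent.MP_154433_an.t3s.Asm

/-! The base (packed). -/

section PkWB

/-! Row WB: calculus of the tested weighted double averages. -/

set_option autoImplicit false
set_option linter.unusedVariables false

open MeasureTheory ProbabilityTheory Filter Topology Function
open scoped BigOperators ComplexConjugate

noncomputable section

namespace T8

open Pool.Agent.MP_154433_an hiding BM
open T3S (B1 MB1 PW AsInv Erg Bd Near)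
open T4S (Gm)
open T6 (Sy MB NN act)

namespace WBL

variable {X : Sy} {a b : Gm 2} {κ κ' : ℕ → ℝ} {M : ℕ} {h f f' g g' : X.X → ℂ}

lemma tz_ae (v : Gm 2) (h : f =ᵐ[X.μ] f') :
    (fun x => f (X.A v x)) =ᵐ[X.μ] fun x => f' (X.A v x) :=
  (X.mp v).quasiMeasurePreserving.ae_eq_comp h

lemma tz_int (v : Gm 2) (h : Integrable g X.μ) : Integrable (fun x => g (X.A v x)) X.μ :=
  (X.mp v).integrable_comp_of_integrable h

lemma i1 (u v : Gm 2) (hf : MB X f) (hg : Integrable g X.μ) :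
    Integrable (fun x => f (X.A u x) * g (X.A v x)) X.μ :=
  (tz_int _ hg).bdd_mul (c := 1) ((act X).tz hf _).1.aestronglyMeasurable
    (Eventually.of_forall fun x => hf.2 _)

lemma i2 (hh : MB X h) (hg : Integrable g X.μ) : Integrable (fun x => h x * g x) X.μ :=
  hg.bdd_mul (c := 1) hh.1.aestronglyMeasurable (Eventually.of_forall hh.2)

lemma nn0 : 0 ≤ NW X a b κ M h f g := norm_nonneg _

lemma le' (hh : MB X h) (hf : MB X f) (hg : MB X g) :
    NW X a b κ M h f g ≤ NN X a b κ M f g := by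
  have i := fun d : ℕ => (i2 hh (i1 ((d : ℤ) • a) ((d : ℤ) • b) hf (hg.integrable _))).const_mul
    (κ d : ℂ)
  simp only [NW, NN, ← integral_const_mul]
  rw [← integral_finsetSum _ fun d _ => i d]
  refine norm_integral_le_of_norm_le (integrable_finsetSum _ fun d _ =>
    (i1 _ _ hf (hg.integrable _)).const_mul _).norm (Eventually.of_forall fun x => ?_)
  simp only [mul_left_comm _ (h x), ← Finset.mul_sum, norm_mul]
  exact mul_le_of_le_one_left (norm_nonneg _) (hh.2 x)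

lemma add' (hh : MB X h) (hf : MB X f) (hg : Integrable g X.μ) (hg' : Integrable g' X.μ) :
    NW X a b κ M h f (fun x => g x + g' x) ≤ NW X a b κ M h f g + NW X a b κ M h f g' := by
  refine le_of_eq_of_le (congrArg norm ?_) (norm_add_le _ _)
  rw [← Finset.sum_add_distrib]
  refine Finset.sum_congr rfl fun d _ => ?_
  rw [← mul_add, ← integral_add (i2 hh (i1 _ _ hf hg)) (i2 hh (i1 _ _ hf hg'))]
  simp only [mul_add]

lemma smul' (c : ℂ) : NW X a b κ M h f (fun x => c * g x) = ‖c‖ * NW X a b κ M h f g := by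
  simp only [NW, mul_left_comm _ c, integral_const_mul, ← Finset.mul_sum, norm_mul]

lemma bound (hh : MB X h) (hf : MB X f) (hg : Integrable g X.μ) :
    NW X a b κ M h f g ≤ (∑ d ∈ Finset.range M, |κ d|) * ∫ x, ‖g x‖ ∂X.μ := by
  rw [Finset.sum_mul]
  refine (norm_sum_le _ _).trans (Finset.sum_le_sum fun d _ => ?_)
  rw [norm_mul, Complex.norm_real, Real.norm_eq_abs,
    ← (act X).integral ((d : ℤ) • b) (f := fun x => ‖g x‖) hg.norm.1]
  refine mul_le_mul_of_nonneg_left (norm_integral_le_of_norm_le (tz_int _ hg).norm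
    (Eventually.of_forall fun x => ?_)) (abs_nonneg _)
  rw [norm_mul, norm_mul]
  exact (mul_le_of_le_one_left (by positivity) (hh.2 _)).trans
    (mul_le_of_le_one_left (norm_nonneg _) (hf.2 _))

lemma lip' (hh : MB X h) (hf : MB X f) (hg : Integrable g X.μ) (hg' : Integrable g' X.μ) :
    NW X a b κ M h f g ≤ NW X a b κ M h f g' +
      (∑ d ∈ Finset.range M, |κ d|) * ∫ x, ‖g x - g' x‖ ∂X.μ := by
  have k := add' (a := a) (b := b) (κ := κ) (M := M) hh hf hg' (hg.sub hg')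
  simp only [Pi.sub_apply, add_sub_cancel] at k
  exact k.trans (add_le_add le_rfl (bound hh hf (hg.sub hg')))

lemma tri' : NW X a b κ M h f g ≤
    NW X a b κ' M h f g + NW X a b (fun d => κ d - κ' d) M h f g := by
  refine le_of_eq_of_le (congrArg norm ?_) (norm_add_le _ _)
  rw [← Finset.sum_add_distrib]
  exact Finset.sum_congr rfl fun d _ => by push_cast; ring

lemma sub' : NW X a b (fun d => κ d - κ' d) M h f g ≤
    NW X a b κ M h f g + NW X a b κ' M h f g := by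
  refine le_of_eq_of_le (congrArg norm ?_) (norm_sub_le _ _)
  rw [← Finset.sum_sub_distrib]
  exact Finset.sum_congr rfl fun d _ => by push_cast; ring

variable {w w' : ℕ → ℕ → ℝ}

lemma vadd (hf : MB X f) (hg : Integrable g X.μ) (hg' : Integrable g' X.μ)
    (k : VW X a b w f g) (k' : VW X a b w f g') : VW X a b w f fun x => g x + g' x := fun h hh =>
  squeeze_zero (fun _ => nn0) (fun _ => add' hh hf hg hg') (by simpa using (k h hh).add (k' h hh))

lemma vsmul (c : ℂ) (k : VW X a b w f g) : VW X a b w f fun x => c * g x := fun h hh => by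
  simpa only [smul', mul_zero] using (k h hh).const_mul ‖c‖

lemma span' {T : Set (X.X → ℂ)} (hw : Bd w) (hf : MB X f) (hg : Integrable g X.μ)
    (hT : ∀ φ ∈ T, Integrable φ X.μ ∧ VW X a b w f φ)
    (k : ∀ ε : ℝ, 0 < ε → ∃ φ ∈ Submodule.span ℂ T, ∫ x, ‖g x - φ x‖ ∂X.μ ≤ ε) :
    VW X a b w f g := by
  have key : ∀ φ ∈ Submodule.span ℂ T, Integrable φ X.μ ∧ VW X a b w f φ := fun φ hφ => by
    induction hφ using Submodule.span_induction with
    | mem φ h => exact hT φ h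
    | zero => exact ⟨integrable_zero _ _ _, fun h _ => by simp [NW]⟩
    | add φ ψ _ _ h1 h2 => exact ⟨h1.1.add h2.1, vadd hf h1.1 h2.1 h1.2 h2.2⟩
    | smul c φ _ h1 => exact ⟨h1.1.smul c, vsmul c h1.2⟩
  refine fun h hh => Metric.tendsto_nhds.2 fun ε hε => ?_
  obtain ⟨φ, hφ, e⟩ := k (ε / 6) (by positivity)
  filter_upwards [hw, ((key φ hφ).2 h hh).eventually (gt_mem_nhds (half_pos hε))] with M h1 h2
  rw [Real.dist_0_eq_abs, abs_of_nonneg nn0]
  have h3 := lip' (a := a) (b := b) (κ := w M) (M := M) hh hf hg (key φ hφ).1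
  have h4 := mul_le_mul h1 e (integral_nonneg fun _ => norm_nonneg _) (by norm_num)
  linarith

lemma near' (hw : Near w w') (hf : MB X f) (hg : MB X g) (k : VW X a b w' f g) :
    VW X a b w f g := fun h hh => by
  have i : ∫ x, ‖g x‖ ∂X.μ ≤ 1 := by
    simpa using integral_mono (hg.integrable X.μ).norm (integrable_const (1 : ℝ)) hg.2
  refine squeeze_zero (fun _ => nn0) (fun M => (tri' (κ' := w' M)).trans
    (add_le_add le_rfl ((bound hh hf (hg.integrable _)).trans (mul_le_of_le_one_right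
      (Finset.sum_nonneg fun _ _ => abs_nonneg _) i)))) (by simpa using (k h hh).add hw)

lemma split' {β : X.X → ℂ} (hf : MB X f) (hg : MB X g) (hg' : MB X g') (hβ : MB X β)
    (h1 : VW X a b w f fun x => g' x * β x)
    (h2 : VW X a b w f fun x => (2⁻¹ : ℂ) * (g x - g' x) * β x) :
    VW X a b w f fun x => g x * β x := by
  have i : Integrable (fun x => (2⁻¹ : ℂ) * (g x - g' x) * β x) X.μ := by
    simpa only [mul_comm (β _), Pi.sub_apply] using
      i2 hβ (((hg.integrable X.μ).sub (hg'.integrable _)).const_mul (2⁻¹ : ℂ))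
  have k := vadd hf ((hg'.mul hβ).integrable _) (i.const_mul 2) h1 (vsmul 2 h2)
  exact (congrArg _ (funext fun x => by ring)).mp k

end WBL

open WBL in
theorem wb : WBR := fun _ =>
  { le := fun _ _ _ _ _ _ _ _ => le'
    swap := fun X a b κ M h f g => by simp only [NW, mul_comm (f _)]
    nonneg := fun _ _ _ _ _ _ _ _ => nn0
    congr := fun X a b κ M h f f' g g' k k' => by
      refine congrArg norm (Finset.sum_congr rfl fun d _ => ?_)
      refine congrArg (fun z : ℂ => (κ d : ℂ) * z) (integral_congr_ae ?_)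
      filter_upwards [tz_ae ((d : ℤ) • a) k, tz_ae ((d : ℤ) • b) k'] with x h1 h2
      rw [h1, h2]
    sub := fun _ _ _ _ _ _ _ _ _ => sub'
    tri := fun _ _ _ _ _ _ _ _ _ => tri'
    lip := fun _ _ _ _ _ _ _ _ _ => lip'
    smul := fun _ _ _ _ _ _ _ _ => smul'
    add := fun _ _ _ _ _ _ _ _ _ => add'
    span := fun _ _ _ _ _ _ _ => span'
    near := fun _ _ _ _ _ _ _ => near'
    split := fun _ _ _ _ _ _ _ _ => split' }

end T8

end

end PkWB

section PkCl

/-! Row `Cl`: the two classes of products are closed under the operations. -/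

set_option autoImplicit false
set_option linter.unusedVariables false
set_option warn.classDefReducibility false

open MeasureTheory ProbabilityTheory Filter Topology Function
open scoped BigOperators ComplexConjugate

noncomputable section

namespace T8

open Pool.Agent.MP_154433_an hiding BM
open T4S (Gm)
open T4x (Emb Fd)
open T6 (Sy MB IvF act)

namespace ClL

lemma one' (X : Sy) (u : Gm 2) : IvF X u fun _ => 1 :=
  ⟨⟨measurable_const, fun _ => by simp⟩, EventuallyEq.rfl⟩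

lemma tz' {X : Sy} {u : Gm 2} {c : X.X → ℂ} (h : IvF X u c) (v : Gm 2) :
    IvF X u fun x => c (X.A v x) := by
  refine ⟨(act X).tz h.1 v, ?_⟩
  filter_upwards [((act X).mp v).quasiMeasurePreserving.ae_eq_comp h.2] with x hx
  rw [(act X).comm v u x]
  exact hx

lemma pb' (F : Fd) {X' X : Sy} {p : X'.X → X.X} (hp : Emb X' X p) {u : Gm 2} {c : X.X → ℂ}
    (h : IvF X u c) : IvF X' u fun x => c (p x) := by
  refine ⟨⟨h.1.1.comp hp.mp.measurable, h.1.2.comp _⟩, ?_⟩
  have h1 := F.a.keq_fun X.ms X'.μ X.μ _ _ c (hp.mp.comp (X'.mp u)) ((X.mp u).comp hp.mp)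
    (hp.eqv u) h.1.1.aestronglyMeasurable
  exact h1.trans (hp.mp.quasiMeasurePreserving.ae_eq_comp h.2)

lemma mb {X : Sy} {u : Gm 2} {ψ : X.X → ℂ} (h : Eig X u ψ) : MB X ψ := h.elim fun _ k => k.1

end ClL

open ClL in
theorem cl : ClR := by
  intro F V Z a b
  refine ⟨⟨?_, ?_, ?_, ?_, ?_, ?_⟩, ⟨?_, ?_, ?_, ?_, ?_, ?_⟩⟩
  · rintro X _ ⟨β, c, hβ, hc, rfl⟩
    exact (mb hβ).mul hc.1
  · intro X
    exact ⟨_, _, Z.ivf X _ _ (one' X _), one' X _, funext fun x => by simp⟩
  · rintro X _ ⟨β, c, hβ, hc, rfl⟩ _ ⟨β', c', hβ', hc', rfl⟩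
    exact ⟨_, fun x => c x * c' x, Z.mul X _ _ _ hβ hβ', ⟨hc.1.mul hc'.1, hc.2.mul hc'.2⟩,
      funext fun x => by ring⟩
  · rintro X _ ⟨β, c, hβ, hc, rfl⟩
    exact ⟨_, fun x => conj (c x), Z.cj X _ _ hβ, ⟨hc.1.cj, hc.2.fun_comp conj⟩,
      funext fun x => by simp only [map_mul]⟩
  · rintro X v _ ⟨β, c, hβ, hc, rfl⟩
    exact ⟨_, _, Z.tz X _ _ v hβ, tz' hc v, rfl⟩
  · rintro X' X p hp _ ⟨β, c, hβ, hc, rfl⟩
    exact ⟨_, _, Z.pb X' X p _ _ hp hβ, pb' F hp hc, rfl⟩
  · rintro X _ ⟨β, c, hβ, hc, rfl⟩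
    exact (mb hc).mul (mb hβ)
  · intro X
    exact ⟨_, _, Z.ivf X _ _ (one' X _), Z.ivf X _ _ (one' X _), funext fun x => by simp⟩
  · rintro X _ ⟨β, c, hβ, hc, rfl⟩ _ ⟨β', c', hβ', hc', rfl⟩
    exact ⟨_, _, Z.mul X _ _ _ hβ hβ', Z.mul X _ _ _ hc hc', funext fun x => by ring⟩
  · rintro X _ ⟨β, c, hβ, hc, rfl⟩
    exact ⟨_, _, Z.cj X _ _ hβ, Z.cj X _ _ hc, funext fun x => by simp only [map_mul]⟩
  · rintro X v _ ⟨β, c, hβ, hc, rfl⟩
    exact ⟨_, _, Z.tz X _ _ v hβ, Z.tz X _ _ v hc, rfl⟩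
  · rintro X' X p hp _ ⟨β, c, hβ, hc, rfl⟩
    exact ⟨_, _, Z.pb X' X p _ _ hp hβ, Z.pb X' X p _ _ hp hc, rfl⟩

end T8

end

end PkCl

section PkStB

/-! The base: an eigenfunction of the step of the slot times an invariant function. -/

set_option autoImplicit false
set_option linter.unusedVariables false
set_option maxHeartbeats 400000

open MeasureTheory ProbabilityTheory Filter Topology Function
open scoped BigOperators ComplexConjugate

noncomputable section

namespace T8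

open Pool.Agent.MP_154433_an hiding BM
open T3S (MB1)
open T4S (Gm)
open T6 (Sy MB ee NN IvF)

namespace StBL

lemma mul {X : Sy} {f g : X.X → ℂ} (hf : MB X f) (hg : MB X g) : MB X fun x => f x * g x :=
  ⟨hf.1.mul hg.1, fun x => by
    rw [norm_mul]
    exact mul_le_one₀ (hf.2 x) (norm_nonneg _) (hg.2 x)⟩

lemma nn_le (hE : EB) (X : Sy) (a b : Gm 2) (κ : ℕ → ℝ) (M : ℕ) {g ψ : X.X → ℂ} {ξ : X.X → ℝ}
    (hg : MB X g) (hψ : Eg X b ξ ψ) : NN X a b κ M g ψ ≤ ∫ x, ‖∑ d ∈ Finset.range M,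
      (κ d : ℂ) * (g (X.A ((d : ℤ) • a) x) * ee ((d : ℝ) * ξ x))‖ ∂X.μ := by
  refine integral_mono_of_nonneg (Eventually.of_forall fun _ => norm_nonneg _)
    (integrable_finsetSum _ fun d _ => Integrable.const_mul ?_ _).norm ?_
  · have h1 : Measurable fun x => ee ((d : ℝ) * ξ x) := by
      have := hψ.2.1
      unfold ee
      fun_prop
    refine Integrable.of_bound ((hg.1.comp (X.mp _).measurable).mul h1).aestronglyMeasurable 1
      (Eventually.of_forall fun x => ?_)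
    rw [norm_mul, ee, Complex.norm_exp_ofReal_mul_I, mul_one]
    exact hg.2 _
  · filter_upwards [hE.pow X b ξ ψ hψ] with x hx
    simp only [fun d => (hx d).2, ← mul_assoc]
    rw [← Finset.sum_mul, norm_mul]
    exact mul_le_of_le_one_right (norm_nonneg _) (hψ.1.2 x)

end StBL

open StBL in
theorem stB : StBR := by
  rintro - hV hW hE w hw X a b _ ⟨ψ, c, ⟨ξ, hψ⟩, hc, rfl⟩ f hf h hh
  refine squeeze_zero (fun M => hW.nonneg X a b (w M) M h f _) (fun M => ?_)
    (hw X a (fun x => f x * c x) ξ (mul hf hc.1) hψ.2.1)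
  refine (hW.le X a b (w M) M h f _ hh hf (mul hψ.1 hc.1)).trans ?_
  have e : (fun x => ψ x * c x) = fun x => c x * ψ x := funext fun x => mul_comm _ _
  rw [e, hV.move X a b (w M) M f ψ c hc]
  exact nn_le hE X a b (w M) M (mul hf hc.1) hψ

end T8

end

end PkStB

section PkStS

/-! Row StS: an eigenfunction of the difference of the two steps. -/

set_option autoImplicit false
set_option linter.unusedVariables false

open MeasureTheory ProbabilityTheory Filter Topology Function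
open scoped BigOperators ComplexConjugate

noncomputable section

namespace T8

open Pool.Agent.MP_154433_an hiding BM
open T3S (B1 MB1)
open T4S (Gm)
open T6 (Sy MB ee)

namespace StSL

lemma norm_ee (t : ℝ) : ‖ee t‖ = 1 := Complex.norm_exp_ofReal_mul_I _

lemma meas_ee : Measurable ee := by unfold ee; fun_prop

lemma shift (X : Sy) (a b : Gm 2) (ξ : X.X → ℝ) (h f χ : X.X → ℂ) (d : ℕ)
    (hp : ∀ᵐ x ∂X.μ, χ (X.A ((d : ℤ) • (b - a)) x) = ee ((d : ℝ) * ξ x) * χ x) :
    ∫ x, h x * (f (X.A ((d : ℤ) • a) x) * χ (X.A ((d : ℤ) • b) x)) ∂X.μ =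
      ∫ y, f y * χ y * (h (X.A ((d : ℤ) • (-a)) y) * ee ((d : ℝ) * ξ y)) ∂X.μ := by
  have h1 := MeasurePreserving.integral_comp' (f := X.eq ((d : ℤ) • a)) (X.mp _)
    fun y => h (X.A ((d : ℤ) • (-a)) y) * (f y * χ (X.A ((d : ℤ) • (b - a)) y))
  refine Eq.trans (integral_congr_ae (Eventually.of_forall fun x => ?_))
    (h1.trans (integral_congr_ae (hp.mono fun y hy => ?_)))
  · change _ = h (X.Tz _ (X.Tz _ x)) * (f (X.Tz _ x) * χ (X.Tz _ (X.Tz _ x)))
    rw [← X.add, ← X.add, ← smul_add, ← smul_add, neg_add_cancel, sub_add_cancel, smul_zero,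
      X.zero]
  · beta_reduce
    rw [hy]; ring

end StSL

open StSL

theorem stS : StSR := by
  rintro - - - eb w hU X a b χ ⟨ξ, hE⟩ f hf h hh
  have hp := eb.pow X (b - a) ξ χ hE
  refine squeeze_zero (fun M => norm_nonneg _) (fun M => ?_) (hU X (-a) h ξ hh hE.2.1)
  have mT : ∀ d : ℕ, Measurable fun y => h (X.A ((d : ℤ) • (-a)) y) * ee ((d : ℝ) * ξ y) :=
    fun d => (hh.1.comp (X.mp _).measurable).mul (meas_ee.comp (hE.2.1.const_mul _))
  have nT : ∀ (d : ℕ) y, ‖h (X.A ((d : ℤ) • (-a)) y) * ee ((d : ℝ) * ξ y)‖ ≤ 1 := fun d y => by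
    rw [norm_mul, norm_ee, mul_one]; exact hh.2 _
  have nF : ∀ y, ‖f y * χ y‖ ≤ 1 := fun y => by
    rw [norm_mul]; exact mul_le_one₀ (hf.2 y) (norm_nonneg _) (hE.1.2 y)
  have i1 : ∀ d : ℕ, Integrable
      (fun y => f y * χ y * (h (X.A ((d : ℤ) • (-a)) y) * ee ((d : ℝ) * ξ y))) X.μ := fun d =>
    Integrable.of_bound ((hf.1.mul hE.1.1).mul (mT d)).aestronglyMeasurable 1
      (Eventually.of_forall fun y => by
        rw [norm_mul]; exact mul_le_one₀ (nF y) (norm_nonneg _) (nT d y))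
  have i2 : ∀ d : ℕ, Integrable
      (fun y => h (X.A ((d : ℤ) • (-a)) y) * ee ((d : ℝ) * ξ y)) X.μ := fun d =>
    Integrable.of_bound (mT d).aestronglyMeasurable 1 (Eventually.of_forall (nT d))
  unfold NW
  rw [Finset.sum_congr rfl fun d _ => by
    rw [shift X a b ξ h f χ d (hp.mono fun x hx => (hx d).2), ← integral_const_mul],
    ← integral_finsetSum _ fun d _ => (i1 d).const_mul _]
  refine norm_integral_le_of_norm_le (integrable_finsetSum _ fun d _ => (i2 d).const_mul _).norm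
    (Eventually.of_forall fun y => ?_)
  rw [Finset.sum_congr rfl fun d _ => mul_left_comm _ _ _, ← Finset.mul_sum, norm_mul]
  exact mul_le_of_le_one_left (norm_nonneg _) (nF y)

end T8

end

end PkStS

section PkLift

/-! Row Lift: tested goodness descends from the extensions to the lifted factor. -/

set_option autoImplicit false
set_option linter.unusedVariables false
set_option warn.classDefReducibility false

open MeasureTheory ProbabilityTheory Filter Topology Function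
open scoped BigOperators ComplexConjugate

noncomputable section

namespace T8

open Pool.Agent.MP_154433_an hiding BM
open T3S (B1 MB1 PW AsInv Erg Bd Near Gr yw nu nb CZ)
open T4S (Gm ddX Spr)
open Fib27 (BM)
open T3x (nul pull gen)
open T4x (Fac Emb Inv Nice Pair Star KK Fd)
open T6 (Sy MB rr ee NN Vn IvF Ver VB QB Nul QE EL NulInv Cl EE LF LfP LiftA LbS Pj Tw2 d2 G0 G0S
  df AS)
open T6.LiftB (bm mb_tz term)

namespace LiftL

theorem eq (fd : Fd) {X' X : Sy} {p : X'.X → X.X} (hp : Emb X' X p) {k f e : X.X → ℂ}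
    {F : X'.X → ℂ} (hk : MB X k) (hf : MB X f) (he : MB X e) (hF : MB X' F)
    (h : (fun x => e (p x)) =ᵐ[X'.μ] X'.μ[F | pull X'.μ p X.ms]) (n m : Gm 2) :
    ∫ x, k x * (f (X.A n x) * e (X.A m x)) ∂X.μ =
      ∫ y, k (p y) * (f (p (X'.A n y)) * F (X'.A m y)) ∂X'.μ := by
  have hY := fd.t.fpull X' X p X.ms hp (fd.t.top X)
  have hf' : MB X' fun y => f (p y) := ⟨hf.1.comp hp.mp.measurable, fun y => hf.2 _⟩
  have b1 : BM X'.μ (pull X'.μ p X.ms) fun y => k (p y) :=
    fd.a.bm_comp X.ms X'.μ X.μ p k hp.mp (bm hk)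
  have hm : Measurable fun x => k x * (f (X.A n x) * e (X.A m x)) :=
    hk.1.mul ((mb_tz hf _).1.mul (mb_tz he _).1)
  rw [← integral_condExp (μ := X'.μ) hY.le, ← hp.mp.map_eq,
    integral_map hp.mp.measurable.aemeasurable hm.aestronglyMeasurable]
  refine integral_congr_ae ?_
  have ht := term fd hp hf he hF h 1 n m
  simp only [one_mul] at ht
  filter_upwards [Fib27.ce_mul hY.le b1 ((bm (mb_tz hf' n)).mul (bm (mb_tz hF m))), ht]
    with y h1 h2
  rw [h1, h2]

end LiftL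

theorem lift : LiftR := by
  intro fd vb wb la 𝒞 a b w hC hw hG X hX g hg bg f hf
  refine wb.span X a b w f g (EE 𝒞 X) hw hf (bm hg).integrable ?_ ((la 𝒞 hC X hX).span g hg bg)
  rintro e ⟨he, X', p, F, hX', hp, hF, h⟩
  refine ⟨(bm he).integrable, fun k hk => ?_⟩
  refine (hG X' hX' F hF (fun y => f (p y)) ⟨hf.1.comp hp.mp.measurable, fun y => hf.2 _⟩
    (fun y => k (p y)) ⟨hk.1.comp hp.mp.measurable, fun y => hk.2 _⟩).congr fun M => ?_
  unfold NW
  simp only [LiftL.eq fd hp hk hf he (hC.mb X' F hF) h]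

end T8

end

end PkLift

section PkNull

/-! Row Nul: functions orthogonal to the lifted factors have null boxes. -/

set_option autoImplicit false

open MeasureTheory Filter
open scoped ComplexConjugate

noncomputable section

namespace T8

open Pool.Agent.MP_154433_an.T4S (Gm)
open T4x (Nice)
open T6 (Sy MB IvF QB Nul LF LfP LbS Pj)

namespace NulL

lemma perm (qb : QB) {X : Sy} {L L' : List (Gm 2)} {g : X.X → ℂ} (h : L.Perm L')
    (k : Nul X L g) : Nul X L' g := fun ε hε =>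
  (k ε hε).imp fun H t => ⟨t.1, qb.perm X L L' H g h ▸ t.2⟩

lemma nul (lb : LbS) (eg : EigS) {𝒞 : ∀ X : Sy, Set (X.X → ℂ)} {X : Sy} (hX : Nice X)
    (P : LfP 𝒞 X) {u v : Gm 2} (h : ∃ φ, Pj u φ ∧ φ v = v)
    (hC : ∀ (Y : Sy) c D, IvF Y u c → Eig Y v D → (fun x => c x * D x) ∈ 𝒞 Y)
    {g : X.X → ℂ} (hg : MB X g) (h0 : X.μ[g | LF 𝒞 X] =ᵐ[X.μ] 0) : Nul X [u, v, v] g := by
  obtain ⟨φ, h1, h2⟩ := h
  obtain ⟨Y, p, p', hY, hp, H⟩ := lb X u φ hX h1
  obtain ⟨h3, h4⟩ := H g hg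
  have h5 : MB Y fun x => g (p x) * conj (g (p' x)) :=
    ⟨(hg.1.comp hp.mp.measurable).mul h3.1.1, fun x => by
      rw [norm_mul]
      exact mul_le_one₀ (hg.2 _) (norm_nonneg _) (h3.1.2 x)⟩
  refine h4 [v, v] (by simp [h2]) (eg Y v _ h5 fun D hD => ?_)
  simp only [mul_assoc]
  exact P.perp g hg h0 Y p hY hp _ (hC Y _ D h3 hD)

end NulL

theorem nul : NulR := by
  intro F vb qb eb la lb cl eg a b tw X hX g hg
  have pm : [b - a, b, b].Perm [b, b, b - a] := List.perm_append_comm (l₁ := [b - a]) (l₂ := [b, b])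
  refine ⟨fun h0 => ?_, fun h0 => ⟨?_, ?_⟩⟩
  · exact NulL.perm qb pm (NulL.nul lb eg hX (la _ (cl a b).1 X hX) tw.1
      (fun Y c D hc hD => ⟨D, c, hD, hc, funext fun _ => mul_comm _ _⟩) hg h0)
  · exact NulL.perm qb pm (NulL.nul lb eg hX (la _ (cl a b).2 X hX) tw.1
      (fun Y c D hc hD => ⟨D, c, hD, eb.ivf Y _ c hc, rfl⟩) hg h0)
  · exact NulL.perm qb (List.Perm.swap _ _ _) (NulL.nul lb eg hX (la _ (cl a b).2 X hX) tw.2
      (fun Y c D hc hD => ⟨c, D, eb.ivf Y _ c hc, hD, funext fun _ => mul_comm _ _⟩) hg h0)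

end T8

end

end PkNull

section PkDc

/-! Row Dc: the Cauchy-Schwarz step that removes an eigenfunction. -/

set_option autoImplicit false
set_option linter.unusedVariables false

open MeasureTheory ProbabilityTheory Filter Topology Function
open scoped BigOperators ComplexConjugate

noncomputable section

namespace T8

open Pool.Agent.MP_154433_an hiding BM
open T3S (MB1)
open T4S (Gm)
open T6 (Sy MB ee d2 act)

namespace DcL

lemma cs {Ω : Type} [MeasurableSpace Ω] (μ : Measure Ω) [IsProbabilityMeasure μ] {N : ℕ}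
    {Ψ : Fin N → Ω → ℂ} (hΨ : ∀ n, MB1 (Ψ n)) {e : Ω → ℂ} (he : MB1 e) {T : ℂ}
    (h : ∀ n, ∫ x, Ψ n x * e x ∂μ = T) :
    (N : ℝ) ^ 2 * ‖T‖ ^ 2 ≤ ∑ n, ∑ n', (∫ x, Ψ n x * conj (Ψ n' x) ∂μ).re := by
  have e1 : ∫ x, (∑ n, Ψ n x) * e x ∂μ = N * T := by
    simp only [Finset.sum_mul]
    rw [integral_finsetSum _ fun n _ => ((hΨ n).mul he).integrable μ]
    simp [h]
  have i1 : ∀ n n', Integrable (fun x => Ψ n x * conj (Ψ n' x)) μ := fun n n' =>
    ((hΨ n).mul (hΨ n').cj).integrable μ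
  have e2 : ∫ x, ‖∑ n, Ψ n x‖ ^ 2 ∂μ = ∑ n, ∑ n', (∫ x, Ψ n x * conj (Ψ n' x) ∂μ).re := by
    have : ∀ x, ‖∑ n, Ψ n x‖ ^ 2 = ∑ n, ∑ n', (Ψ n x * conj (Ψ n' x)).re := fun x => by
      rw [← Complex.normSq_eq_norm_sq, ← Complex.ofReal_re (Complex.normSq _), ← Complex.mul_conj,
        map_sum, Finset.sum_mul_sum]
      simp only [Complex.re_sum]
    have i2 : ∀ n n', Integrable (fun x => (Ψ n x * conj (Ψ n' x)).re) μ := fun n n' =>
      (i1 n n').re
    simp only [this]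
    rw [integral_finsetSum _ fun n _ => integrable_finsetSum _ fun n' _ => i2 n n']
    refine Finset.sum_congr rfl fun n _ => ?_
    rw [integral_finsetSum _ fun n' _ => i2 n n']
    exact Finset.sum_congr rfl fun n' _ => integral_re (i1 n n')
  have m0 : ∀ n, MemLp (Ψ n) 2 μ := fun n =>
    MemLp.of_bound (hΨ n).1.aestronglyMeasurable 1 (ae_of_all _ (hΨ n).2)
  have m1 : MemLp (fun x => ∑ n, Ψ n x) 2 μ := memLp_finsetSum _ fun n _ => m0 n
  have m : MemLp (fun x => ‖∑ n, Ψ n x‖) 2 μ := m1.norm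
  have e3 : N * ‖T‖ ≤ ∫ x, ‖∑ n, Ψ n x‖ ∂μ := by
    rw [← Complex.norm_natCast, ← norm_mul, ← e1]
    refine norm_integral_le_of_norm_le (m.integrable one_le_two) (ae_of_all _ fun x => ?_)
    rw [norm_mul]
    exact mul_le_of_le_one_right (norm_nonneg _) (he.2 x)
  have e4 := variance_nonneg (fun x => ‖∑ n, Ψ n x‖) μ
  rw [variance_eq_sub m] at e4
  simp only [Pi.pow_apply] at e4
  rw [← e2, ← mul_pow]
  exact (pow_le_pow_left₀ (by positivity) e3 2).trans (by linarith)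

lemma one (X : Sy) (u : Gm 2) {ξ : X.X → ℝ} (mξ : Measurable ξ)
    (hξ : ∀ᵐ x ∂X.μ, ∀ n : ℕ, ξ (X.A ((n : ℤ) • u) x) = ξ x) {w : X.X → ℂ} (hw : MB X w) (t : ℝ)
    (N : ℕ) : (N : ℝ) ^ 2 * ‖∫ x, w x * ee (t * ξ x) ∂X.μ‖ ^ 2 ≤
      ∑ n : Fin N, ∑ n' : Fin N, (∫ x, d2 X u n n' w x ∂X.μ).re := by
  have he : MB X fun x => ee (t * ξ x) :=
    ⟨by unfold ee; fun_prop, fun x => (Complex.norm_exp_ofReal_mul_I _).le⟩
  refine cs X.μ (Ψ := fun n x => w (X.A (((n : ℕ) : ℤ) • u) x)) (fun n => (act X).tz hw _) he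
    fun n => ?_
  rw [← (act X).integral (((n : ℕ) : ℤ) • u) (hw.mul he).1.aestronglyMeasurable]
  refine integral_congr_ae ?_
  filter_upwards [hξ] with x hx
  rw [hx]

end DcL

theorem dc : DcR := by
  rintro _ E X a b φ h f χ ⟨ξ, hξ⟩ hh hf hχ N κ M hN κ0 κ1
  have hp := E.pow X b ξ φ hξ
  let w : ℕ → X.X → ℂ := fun d x =>
    h x * φ x * (f (X.A ((d : ℤ) • a) x) * χ (X.A ((d : ℤ) • b) x))
  have hw : ∀ d, MB X (w d) := fun d =>
    (hh.mul hξ.1).mul (((act X).tz hf _).mul ((act X).tz hχ _))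
  have h1 : NW X a b κ M h f (fun x => χ x * φ x) ≤
      ∑ d ∈ Finset.range M, κ d * ‖∫ x, w d x * ee ((d : ℝ) * ξ x) ∂X.μ‖ := by
    refine (norm_sum_le _ _).trans (le_of_eq (Finset.sum_congr rfl fun d _ => ?_))
    rw [norm_mul, Complex.norm_real, Real.norm_of_nonneg (κ0 d)]
    congr 2
    refine integral_congr_ae ?_
    filter_upwards [hp] with x hx
    rw [(hx d).2]
    simp only [w]
    ring
  have h2 : ∀ n n' : ℕ, ∑ d ∈ Finset.range M, κ d * (∫ x, d2 X b n n' (w d) x ∂X.μ).re ≤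
      NW X a b κ M (d2 X b n n' fun x => h x * φ x) (d2 X b n n' f) (d2 X b n n' χ) := by
    intro n n'
    refine le_trans (le_of_eq ?_) (Complex.re_le_norm _)
    simp only [Complex.re_sum, Complex.re_ofReal_mul]
    refine Finset.sum_congr rfl fun d _ => ?_
    congr 3
    funext x
    simp only [d2, w, map_mul, ← X.add, add_comm]
    ring
  have hN' : (0 : ℝ) < N := by exact_mod_cast hN
  refine (pow_le_pow_left₀ (norm_nonneg _) h1 2).trans
    ((Real.pow_arith_mean_le_arith_mean_pow _ _ _ (fun d _ => κ0 d) κ1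
      (fun d _ => norm_nonneg _) 2).trans ?_)
  simp only [Fintype.expect_eq_sum_div_card, Fintype.card_fin, ← Finset.sum_div]
  rw [div_div, le_div_iff₀ (by positivity), Finset.sum_mul]
  refine le_trans ?_
    (Finset.sum_le_sum fun (n : Fin N) _ => Finset.sum_le_sum fun (n' : Fin N) _ => h2 n n')
  simp only [← Finset.sum_comm (s := Finset.range M), ← Finset.mul_sum]
  refine Finset.sum_le_sum fun d _ => ?_
  rw [mul_assoc, mul_comm _ ((N : ℝ) * N), ← sq]
  exact mul_le_mul_of_nonneg_left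
    (DcL.one X b hξ.2.1 (hp.mono fun x hx n => (hx n).1) (hw d) d N) (κ0 d)

end T8

end

end PkDc

section PkDbl

/-! Row Dbl: products of eigenfunctions of the step and of the difference are good. -/

set_option autoImplicit false

open MeasureTheory ProbabilityTheory Filter Topology Function
open scoped BigOperators ComplexConjugate

noncomputable section

namespace T8

open Pool.Agent.MP_154433_an hiding BM
open T3S (B1 MB1 PW AsInv Bd)
open T4S (Gm)
open Fib27 (BM)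
open T4x (Fac Inv Nice Fd)
open T6 (Sy MB NN IvF Ver VB Nul LF d2 G0 G0S df)

namespace DblL

lemma mb_d2 {X : Sy} {g : X.X → ℂ} (hg : MB X g) (u : Gm 2) (n n' : ℕ) : MB X (d2 X u n n' g) :=
  ((T6.act X).tz hg _).mul ((T6.act X).tz hg _).cj

lemma mb {X : Sy} {u : Gm 2} {ψ : X.X → ℂ} (h : Eig X u ψ) : MB X ψ := h.choose_spec.1

lemma bd {ν ν' : ℕ → ℕ → ℝ} (h : PW ν) (h' : PW ν') : Bd (df ν ν') := by
  filter_upwards [h.2, h'.2] with M a b
  calc ∑ d ∈ Finset.range M, |df ν ν' M d| ≤ ∑ d ∈ Finset.range M, (ν M d + ν' M d) :=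
        Finset.sum_le_sum fun d _ => abs_le.2
          ⟨by rw [df]; linarith [h.1 M d], by rw [df]; linarith [h'.1 M d]⟩
    _ ≤ 3 := by rw [Finset.sum_add_distrib, a, b]; norm_num

/-- the part without projection on the first lift -/
lemma one (F : Fd) (W : WB) (E : EB) (hD : DcS) {ν ν' : ℕ → ℕ → ℝ} (hν : PW ν) (hν' : PW ν')
    {X : Sy} {a b : Gm 2} (hS : ∀ χ, Eig X (b - a) χ → GdW X a b (df ν ν') χ) {φ χ f : X.X → ℂ}
    (hφ : Eig X b φ) (hχ : Eig X (b - a) χ) (hf : MB X f) (h0 : G0 X a b b ν' χ) :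
    VW X a b (df ν ν') f fun x => χ x * φ x := by
  intro h hh
  refine tendsto_order.2 ⟨fun t ht => .of_forall fun M => ht.trans_le (W.nonneg _ _ _ _ _ _ _ _),
    fun ε hε => ?_⟩
  set η : ℝ := (ε / 3) ^ 2 / 3 with hη
  have hη0 : 0 < η := by positivity
  obtain ⟨N, α, hN, hα, h0⟩ := h0 η hη0
  have : Nonempty (Fin N) := ⟨⟨0, hN⟩⟩
  have m0 : ∀ n n', MB X (d2 X b n n' fun x => h x * φ x) := mb_d2 (hh.mul (mb hφ)) b
  have m1 := mb_d2 hf b
  have m2 := mb_d2 (mb hχ) b
  have e1 : ∀ᶠ M in atTop, ∀ n n' : Fin N,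
      NN X a b (ν' M) M (d2 X b n n' f) (d2 X b n n' χ) ≤ α n n' + η :=
    eventually_all.2 fun n => eventually_all.2 fun n' =>
      h0 n n' X.ms _ _ (F.t.top X) (m1 n n') ⟨m2 n n', (Fib27.BM.ce_self le_rfl
        ⟨(m2 n n').1.aestronglyMeasurable, 1, .of_forall (m2 n n').2⟩).symm⟩ η hη0
  have e2 : ∀ᶠ M in atTop, ∀ n n' : Fin N, NW X a b (df ν ν' M) M
      (d2 X b n n' fun x => h x * φ x) (d2 X b n n' f) (d2 X b n n' χ) ≤ η :=
    eventually_all.2 fun n => eventually_all.2 fun n' =>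
      (hS _ (E.mul _ _ _ _ (E.tz _ _ _ _ hχ) (E.cj _ _ _ (E.tz _ _ _ _ hχ))) _ (m1 n n') _
        (m0 n n')).eventually (ge_mem_nhds hη0)
  filter_upwards [e1, e2, hν.2, hν'.2] with M a1 a2 s1 s2
  have fin : ∀ κ : ℕ → ℝ, (∀ d, 0 ≤ κ d) → ∑ d ∈ Finset.range M, κ d = 1 →
      (∀ n n' : Fin N, NW X a b κ M (d2 X b n n' fun x => h x * φ x) (d2 X b n n' f)
        (d2 X b n n' χ) ≤ α n n' + 2 * η) → NW X a b κ M h f (fun x => χ x * φ x) ≤ ε / 3 := by
    intro κ k0 k1 hb
    refine (abs_le_of_sq_le_sq' ?_ (by positivity)).2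
    refine (hD X a b φ h f χ hφ hh hf (mb hχ) N κ M hN k0 k1).trans ?_
    refine (Finset.expect_le_expect fun n _ => Finset.expect_le_expect fun n' _ => hb n n').trans ?_
    simp only [Finset.expect_add_distrib, Fintype.expect_const]
    linarith
  have a3 := fun n n' : Fin N => (W.le X a b (ν' M) M _ _ _ (m0 n n') (m1 n n') (m2 n n')).trans
    (a1 n n')
  have f1 := fin (ν M) (hν.1 M) s1 fun n n' => by
    have h1 := W.tri X a b (ν M) (ν' M) M (d2 X b n n' fun x => h x * φ x) (d2 X b n n' f)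
      (d2 X b n n' χ)
    have h2 : NW X a b (fun d => ν M d - ν' M d) M (d2 X b n n' fun x => h x * φ x)
      (d2 X b n n' f) (d2 X b n n' χ) ≤ η := a2 n n'
    linarith [a3 n n']
  have f2 := fin (ν' M) (hν'.1 M) s2 fun n n' => by linarith [a3 n n']
  have h3 : NW X a b (df ν ν' M) M h f (fun x => χ x * φ x) ≤ _ :=
    W.sub X a b (ν M) (ν' M) M h f fun x => χ x * φ x
  linarith

end DblL

open DblL in
theorem dbl : DblR := by
  rintro F V W E la hG cl hB hS hL hN hD ν ν' hν hν' ha hU a b tw X hX _ ⟨φ, χ, hφ, hχ, rfl⟩ f hf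
  have P := la _ (cl a b).1 X hX
  have m1 : MB X fun _ => (1 : ℂ) := ⟨measurable_const, fun _ => by simp⟩
  have le : Inv X {b - a} ≤ LF (K1 a b) X :=
    V.fle X _ _ (F.t.finv X _) P.fac fun c hc hm => P.mem c ⟨fun _ => 1, c,
      E.ivf _ _ _ ⟨m1, .rfl⟩,
      (V.ivf X _ c hc).2 ⟨hm.stronglyMeasurable.aestronglyMeasurable, 1, .of_forall hc.2⟩, by simp⟩
  obtain ⟨χ', hv, hm⟩ := V.ver X _ χ P.fac (mb hχ)
  obtain ⟨hr, hz⟩ := V.half X _ χ χ' P.fac (mb hχ) hv
  refine W.split X a b _ f χ χ' φ hf (mb hχ) hv.1 (mb hφ) ?_ ?_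
  · refine hL _ a b _ (cl a b).1 (bd hν hν') (fun Y _ G hG => hB _ hU Y a b G hG) X hX _
      (hv.1.mul (mb hφ)) (Fib27.BM.mul ⟨hm.stronglyMeasurable.aestronglyMeasurable, 1,
        .of_forall hv.1.2⟩ (P.mem φ ⟨φ, fun _ => 1, hφ, ⟨m1, .rfl⟩, by simp⟩)) f hf
  · exact one F W E hD hν hν' (hS _ hU X a b) hφ (E.ver X _ _ χ χ' P.fac le hχ hv) hf
      (hG ν' hν' ha X a b b _ hr ((hN a b tw X hX _ hr).1 hz))

end T8

end

end PkDbl

section PkHas

/-! The base of a slot. -/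

set_option autoImplicit false

open MeasureTheory

namespace T8

open Pool.Agent.MP_154433_an hiding BM
open T4x (Inv)
open T6 (IvF LF df)

theorem has : HasR := by
  intro F vb eb la cl lb nu db ν ν' h h' hi hu a b tw X hX
  have P := la _ (cl a b).2 X hX
  have one : ∀ u, Eig X u fun _ => 1 := fun u =>
    eb.ivf X u _ ⟨(cl a b).2.mb X _ ((cl a b).2.one X), .rfl⟩
  have le : ∀ u, (∀ c, Eig X u c → c ∈ K2 a b X) → Inv X {u} ≤ LF (K2 a b) X := fun u h =>
    vb.fle X _ _ (F.t.finv X {u}) P.fac fun c hc hm => P.mem c (h c (eb.ivf X u c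
      ((vb.ivf X u c hc).2 ⟨hm.stronglyMeasurable.aestronglyMeasurable, 1, .of_forall hc.2⟩)))
  exact ⟨_, P.fac, le b fun c hc => ⟨c, _, hc, one _, by simp⟩,
    le _ fun c hc => ⟨_, c, one _, hc, by simp⟩,
    lb _ a b _ (cl a b).2 (T3S.Asm.bd_sub h h') (db ν ν' h h' hi hu a b tw) X hX,
    fun g hg => (nu a b tw X hX g hg).2⟩

end T8

end PkHas
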