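import Pool.Agent.MP_154433_an.t8.Spec
import Pool.Agent.MP_154433_an.p9.S2
import Pool.Agent.MP_154433_an.p4.Top
import Pool.Agent.MP_154433_an.t3s.End

/-! Compact steps and the end (packed). -/

section PkKey

/-! The Cauchy-Schwarz step for a convolution in the second slot, tested form. -/

set_option autoImplicit false
set_option linter.unusedVariables false

open MeasureTheory ProbabilityTheory Filter Topology Function
open scoped BigOperators ComplexConjugate

noncomputable section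

namespace T8

open Pool.Agent.MP_154433_an hiding BM
open T4S (Gm)
open Fib27 (BM)
open T4x (Fac Pair Star Fd)
open T4x.CptA
open T6 (Sy MB d2 Ver)
open T6.Key

theorem key : KeyR := by
  intro F X Z C p a b u H g k hC hP hH hg hk hS
  obtain ⟨K, hK⟩ := hH.2
  refine ⟨max K 0 ^ 2, sq_nonneg _, fun h f N c κ M hh hf hN hc κ0 κ1 => ?_⟩
  have hf' : BM X.μ X.ms f := bm_of hf.1 hf.2
  have hs : BM X.μ X.ms h := bm_of hh.1 hh.2
  have hw : ∀ d : ℕ, BM X.μ X.ms fun x => h x * f (X.A ((d : ℤ) • a) x) := fun d =>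
    hs.mul (bmT F hf' _)
  have h1 : NW X a b κ M h f k ≤ ∑ d ∈ Finset.range M,
      κ d * ‖∫ x, h x * f (X.A ((d : ℤ) • a) x) * k (X.A ((d : ℤ) • b) x) ∂X.μ‖ := by
    refine (norm_sum_le _ _).trans (le_of_eq (Finset.sum_congr rfl fun d _ => ?_))
    rw [norm_mul, Complex.norm_real, Real.norm_of_nonneg (κ0 d)]
    simp only [mul_assoc]
  have h2 : ∀ n n' : ℕ, ∑ d ∈ Finset.range M, κ d *
      (∫ x, d2 X u n n' (fun x => h x * f (X.A ((d : ℤ) • a) x)) x *
        c n n' (X.A ((d : ℤ) • b) x) ∂X.μ).re ≤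
      NW X a b κ M (d2 X u n n' h) (d2 X u n n' f) (c n n') := by
    intro n n'
    refine le_trans (le_of_eq ?_) (Complex.re_le_norm _)
    simp only [Complex.re_sum, Complex.re_ofReal_mul]
    refine Finset.sum_congr rfl fun d _ => ?_
    congr 3
    funext x
    simp only [d2, map_mul, ← F.t.add, add_comm]
    ring
  refine (pow_le_pow_left₀ (norm_nonneg _) h1 2).trans
    ((Real.pow_arith_mean_le_arith_mean_pow _ _ _ (fun d _ => κ0 d) κ1
      (fun d _ => norm_nonneg _) 2).trans ((Finset.sum_le_sum fun (d : ℕ) _ =>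
        mul_le_mul_of_nonneg_left
        (one F hC hP hH (bm_of hg.1 hg.2) hk hS (le_max_right K 0)
          (hK.mono fun z hz => hz.trans (le_max_left _ _)) hN hc ((d : ℤ) • b) (hw d))
        (κ0 d)).trans ?_))
  simp only [mul_left_comm (κ _), ← Finset.mul_sum]
  refine mul_le_mul_of_nonneg_left ?_ (sq_nonneg _)
  simp only [Finset.mul_sum, Fintype.expect_eq_sum_div_card, Fintype.card_fin, div_eq_inv_mul,
    Finset.sum_comm (s := Finset.range M), mul_assoc]
  refine Finset.sum_le_sum fun n _ => Finset.sum_le_sum fun n' _ => ?_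
  simp only [← Finset.mul_sum]
  gcongr
  exact h2 n n'

end T8

end

end PkKey

section PkOwn

/-! The compact step in a direction of the slot itself, tested form. -/

set_option autoImplicit false
set_option linter.unusedVariables false

open MeasureTheory ProbabilityTheory Filter Topology Function
open scoped BigOperators ComplexConjugate

noncomputable section

namespace T8

open Pool.Agent.MP_154433_an hiding BM
open T3S (B1 MB1 PW AsInv Bd)
open T4S (Gm)
open Fib27 (BM)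
open T3x (pull)
open T4x (Fac Inv Nice Pair Star KK Fd)
open T6 (Sy MB d2 Ver VB G0 df)
open T6.Own hiding rest

namespace Own

variable {X : Sy}

/-- a convolution with a function orthogonal to the base is not seen by either weight -/
lemma rest (F : Fd) (V : VB) (W : WB) (hK : KeyS) {ν ν' : ℕ → ℕ → ℝ} (hν : PW ν) {Z : Sy}
    {a b u : Gm 2}
    {A1 A2 : MeasurableSpace X.X} (h1 : Fac X A1) (h2 : Fac X A2) {p : Bool → Z.X → X.X}
    (hp : Pair X A2 Z p) (hg : GP X a b (df ν ν') A1 A2) {H : Z.X → ℂ} {f g k : X.X → ℂ}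
    (hH : BM Z.μ (Inv Z {u}) H) (mg : MB X g) (mk : BM X.μ X.ms k) (hs : Star p H g k)
    (h0 : G0 X a b u ν' g) (mf : MB X f) (bf : BM X.μ A1 f) : VW X a b ν f k := by
  intro h mh
  obtain ⟨K, K0, hk⟩ := hK X Z A2 p a b u H g k h2 hp hH mg mk hs
  choose c hc hc' using fun n n' => V.ver X A2 _ h2 (d2_mb mg u n n')
  refine tendsto_order.2 ⟨fun t ht => Eventually.of_forall fun M =>
    ht.trans_le (W.nonneg _ _ _ _ _ _ _ _), fun t ht => ?_⟩
  have e0 : 0 < t ^ 2 / (3 * (K + 1)) := by positivity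
  obtain ⟨N, α, N1, hα, hN⟩ := h0 _ e0
  have ev : ∀ n n' : Fin N, ∀ᶠ M in atTop,
      NW X a b (ν M) M (d2 X u n n' h) (d2 X u n n' f) (c n n') ≤
      α n n' + 2 * (t ^ 2 / (3 * (K + 1))) := fun n n' => by
    filter_upwards [hN n n' A2 _ _ h2 (d2_mb mf u n n') (hc n n') _ e0,
      (tendsto_order.1 (hg _ _ (d2_mb mf u n n') (hc n n').1
        ((F.t.bm X A1 _ f h1 bf).mul (F.t.bm X A1 _ f h1 bf).conj)
        ((bm (hc n n').1).of_aesm (hc' n n').aestronglyMeasurable) _ (d2_mb mh u n n'))).2 _ e0]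
      with M m1 m2
    have := W.tri X a b (ν M) (ν' M) M (d2 X u n n' h) (d2 X u n n' f) (c n n')
    have := W.le X a b (ν' M) M _ _ _ (d2_mb mh u n n') (d2_mb mf u n n') (hc n n').1
    change NW X a b (fun d => ν M d - ν' M d) M _ _ _ < _ at m2
    linarith
  filter_upwards [eventually_all.2 fun n => eventually_all.2 (ev n), hν.2] with M m1 m2
  have : Nonempty (Fin N) := ⟨⟨0, N1⟩⟩
  have s1 : 𝔼 n : Fin N, 𝔼 n' : Fin N,
      NW X a b (ν M) M (d2 X u n n' h) (d2 X u n n' f) (c n n') ≤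
      3 * (t ^ 2 / (3 * (K + 1))) := by
    refine (Finset.expect_le_expect fun n _ => Finset.expect_le_expect fun n' _ => m1 n n').trans ?_
    simp only [Finset.expect_add_distrib, Finset.expect_const Finset.univ_nonempty]
    linarith
  have s2 := (hk h f N c (ν M) M mh mf N1 hc (hν.1 M) m2).trans (mul_le_mul_of_nonneg_left s1 K0)
  have s3 : K * (3 * (t ^ 2 / (3 * (K + 1)))) < t ^ 2 := by
    rw [show K * (3 * (t ^ 2 / (3 * (K + 1)))) = K * t ^ 2 / (K + 1) by field_simp,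
      div_lt_iff₀ (by positivity)]
    nlinarith [sq_pos_of_pos ht]
  exact lt_of_pow_lt_pow_left₀ 2 ht.le (s2.trans_lt s3)

end Own

open Own in
theorem own : OwnR := by
  intro F V W hK hG ν ν' hν hν' hi X a b u B A1 A2 hX hB h1 hC hBC hu hg f k mf mk bf bk
  obtain ⟨Z, p, hp⟩ : ∃ Z p, Pair X A2 Z p := F.rp Bool (fun _ => X) X A2 (fun _ => id) false
    (fun _ => hX) hC (fun _ => (F.t.emb_id X).mp) fun _ _ _ _ => EventuallyEq.rfl
  have mp : ∀ b, @MeasurePreserving _ _ Z.ms X.ms (p b) Z.μ X.μ := fun b => (hp.emb b).mp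
  have hP := F.t.fpull Z X (p false) X.ms (hp.emb false) (F.t.top X)
  have hI : Inv X {u} ≤ A2 := (hu.elim (fun e => e ▸ hB.i1) fun e => e ▸ hB.i2).trans hBC
  have bd : Bd (df ν ν') := by
    filter_upwards [hν.2, hν'.2] with M m1 m2
    refine (Finset.sum_le_sum fun d _ => (abs_sub _ _).trans_eq
      (by rw [abs_of_nonneg (hν.1 M d), abs_of_nonneg (hν'.1 M d)])).trans ?_
    rw [Finset.sum_add_distrib, m1, m2]
    norm_num
  have key : ∀ (H : Z.X → ℂ) (g k : X.X → ℂ), BM Z.μ (Inv Z {u}) H → BM X.μ X.ms g →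
      BM X.μ X.ms k → Star p H g k → VW X a b (df ν ν') f k := by
    intro H g k a1 a2 a3 a4
    have aH := a1.mono (F.t.finv Z {u}).le
    obtain ⟨c, g0, m0, -, e0⟩ := nrm F le_rfl a2
    obtain ⟨g', v1, v2⟩ := V.ver X A2 g0 hC m0
    obtain ⟨w1, w2⟩ := V.half X A2 g0 g' hC m0 v1
    have hc : BM X.μ A2 fun x => c * g' x := ((bm v1.1).of_aesm v2.aestronglyMeasurable).cmul c
    have hc' := hc.mono hC.le
    obtain ⟨k0, c1, c2⟩ := F.ka.star X A2 Z p hC hp _ _ aH (BM.const 1)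
    obtain ⟨k2, d1, d2⟩ := F.ka.star X A2 Z p hC hp _ _ (aH.cmul (2 * c)) (bm w1)
    simp only [T4x.Star, mul_one] at c2
    have hk0 : BM X.μ A2 k0 := by
      refine (c1.of_aesm ((F.t.inv_iff X {u} k0 c1.1).2 fun h hh => desc (mp false)
        (bm_comp (X.mp h) c1) c1 ?_)).mono hI
      have e1 := F.a.keq_fun X.ms Z.μ X.μ _ _ k0 (mpc (mp false) (Z.mp h))
        (mpc (X.mp h) (mp false)) ((hp.emb false).eqv h) c1.1
      have e2 := F.t.ce Z _ h H hP aH.integrable
      filter_upwards [e1, (Z.mp h).quasiMeasurePreserving.ae c2, e2, c2, condExp_congr_ae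
        (m := pull Z.μ (p false) X.ms) ((F.t.inv_iff Z {u} _ aH.1).1 a1.1 h hh)]
        with z z1 z2 z3 z4 z5
      exact z1.symm.trans (z2.trans (z3.symm.trans (z5.trans z4.symm)))
    have ek : k =ᵐ[X.μ] fun x => c * g' x * k0 x + k2 x := by
      refine desc (mp false) a3 ((hc'.mul c1).add d1) ?_
      have e1 : (fun z => H z * g (p true z)) =ᵐ[Z.μ] (fun z => c * g' (p false z) * H z) +
          fun z => 2 * c * H z * (2⁻¹ * (g0 (p true z) - g' (p true z))) := by
        filter_upwards [F.a.keq_fun A2 Z.μ X.μ _ _ _ (mp true) (mp false) (hp.com true) hc.1,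
          aec (mp true) e0] with z z1 z2
        rw [Pi.add_apply, z2, ← show c * g' (p true z) = c * g' (p false z) from z1]
        ring
      filter_upwards [a4, condExp_congr_ae (m := pull Z.μ (p false) X.ms) e1, condExp_add
        ((bm_comp (mp false) hc').mul aH).integrable
        ((aH.cmul (2 * c)).mul (bm_comp (mp true) (bm w1))).integrable (pull Z.μ (p false) X.ms),
        Fib27.ce_mul hP.le (F.a.bm_comp X.ms Z.μ X.μ _ _ (mp false) hc') aH, c2, d2]
        with z z1 z2 z3 z4 z5 z6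
      rw [z1, z2, z3, Pi.add_apply, z4, z5, z6]
    have n0 := hB.nul _ w1 (tow hBC hC.le w2)
    have h0 := hG ν' hν' hi X a b u _ w1 (by
      rcases hu with e | e <;> rw [e]
      exacts [n0.1, n0.2])
    have r1 := rest F V W hK hν h1 hC hp hg (a1.cmul _) w1 d1 d2 h0 mf bf
    have r2 := rest F V W hK hν' h1 hC hp (ν' := ν') (fun f g _ _ _ _ _ _ => by
      simp [NW, df]) (a1.cmul _) w1 d1 d2 h0 mf bf
    obtain ⟨c1', k1, x1, x2, x3⟩ := nrm F hC.le (hc.mul hk0)
    intro h mh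
    refine squeeze_zero (fun M => W.nonneg _ _ _ _ _ _ _ _) (fun M => ?_)
      (by simpa using ((hg f k1 mf x1 bf x2 h mh).const_mul ‖c1'‖).add ((r1 h mh).add (r2 h mh)))
    rw [W.congr X a b _ M h f f k _ EventuallyEq.rfl ek]
    refine (W.add X a b _ M h f _ _ mh mf (hc'.mul c1).integrable d1.integrable).trans
      (add_le_add ?_ ?_)
    · rw [W.congr X a b _ M h f f _ _ EventuallyEq.rfl x3, W.smul]
    · exact W.sub X a b (ν M) (ν' M) M h f k2
  refine W.span X a b _ f k {φ | BM X.μ X.ms φ ∧ VW X a b (df ν ν') f φ} bd mf (bm mk).integrable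
    (fun φ h => ⟨h.1.integrable, h.2⟩) fun ε hε => ?_
  obtain ⟨n, H, g, k', a1, a2⟩ := F.kb.span X u A2 Z p hX hC hp k bk (ε ^ 2) (by positivity)
  refine ⟨∑ i, k' i, Submodule.sum_mem _ fun i _ => Submodule.subset_span
    ⟨(a1 i).2.2.1, key _ _ _ (a1 i).1 (a1 i).2.1 (a1 i).2.2.1 (a1 i).2.2.2⟩, l1 ((bm mk).sub ?_) hε
      (by simpa only [Finset.sum_apply] using a2)⟩
  exact Finset.sum_induction _ (BM X.μ X.ms) (fun _ _ => BM.add) (BM.const 0) fun i _ => (a1 i).2.2.1

end T8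

end

end PkOwn

section PkFor

/-! Row For: the compact step in a direction of the other slot. -/

set_option autoImplicit false
set_option linter.unusedVariables false
set_option warn.classDefReducibility false

open MeasureTheory ProbabilityTheory Filter Topology Function
open scoped BigOperators ComplexConjugate

noncomputable section

namespace T8

open Pool.Agent.MP_154433_an hiding BM
open T3S (B1 MB1 PW AsInv Erg Bd Near Gr yw nu nb CZ)
open T4S (Gm ddX Spr)
open Fib27 (BM)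
open T3x (nul pull gen)
open T4x (Fac Emb Inv Nice Pair Star KK Fd)
open T6 (Sy MB rr ee NN Vn IvF Ver VB QB Nul QE EL NulInv Cl EE LF LfP LiftA LbS Pj Tw2 d2 G0 G0S
  df AS)

namespace ForL

open T6.For
open T6 (G0)

/-- one convolution in the second slot -/
lemma one (F : Fd) (V : VB) (W : WB) (hK : KeyS) {ν ν' : ℕ → ℕ → ℝ} (hν : PW ν) (hν' : PW ν') {X Z : Sy}
    {a b u : Gm 2} {A1 A2 : MeasurableSpace X.X} {p : Bool → Z.X → X.X} (h1 : Fac X A1)
    (h2 : Fac X A2) (hP : Pair X A2 Z p) (hG : GP X a b (df ν ν') A1 A2) {r : X.X → ℂ}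
    (hr : MB X r) (hr1 : BM X.μ A1 r) (h0 : G0 X b a u ν' r) {H : Z.X → ℂ} {g k : X.X → ℂ}
    (hH : BM Z.μ (Inv Z {u}) H) (hg : BM X.μ X.ms g) (hk : BM X.μ X.ms k) (hS : Star p H g k) :
    VW X a b (df ν ν') r k := by
  intro h hh
  obtain ⟨c, g0, hg0, eg⟩ := nrm F X hg
  have hS' : Star p (fun z => c * H z) g0 k := star_mul (hP.emb true) eg hS
  obtain ⟨K, hK0, hK⟩ := hK X Z A2 p a b u _ g0 k h2 hP (hH.cmul c) hg0 hk hS'
  choose cc hcc using fun n n' => V.ver X A2 (d2 X u n n' g0) h2 (mb_d2 hg0 u n n')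
  have sub : ∀ M, NW X a b (df ν ν' M) M h r k ≤
      NW X a b (ν M) M h r k + NW X a b (ν' M) M h r k := fun M => W.sub X a b _ _ M h r k
  refine tendsto_order.2 ⟨fun t ht => .of_forall fun M => ht.trans_le (W.nonneg _ _ _ _ _ _ _ _),
    fun ε hε => ?_⟩
  set η : ℝ := (ε / 3) ^ 2 / (3 * K + 1) with hη
  have hη0 : 0 < η := by positivity
  have hη1 : K * (η + 2 * η) ≤ (ε / 3) ^ 2 := by
    have : (3 * K + 1) * η = (ε / 3) ^ 2 := by rw [hη]; field_simp
    nlinarith
  obtain ⟨N, α, hN, hα, h0⟩ := h0 η hη0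
  have : Nonempty (Fin N) := ⟨⟨0, hN⟩⟩
  have e1 : ∀ᶠ M in atTop, ∀ n n' : Fin N,
      NW X a b (ν' M) M (d2 X u n n' h) (d2 X u n n' r) (cc n n') ≤ α n n' + η :=
    eventually_all.2 fun n => eventually_all.2 fun n' =>
      (h0 n n' X.ms (cc n n') (d2 X u n n' r) (F.t.top X) (hcc n n').1.1
        ⟨mb_d2 hr u n n', ((bm_of_mb (mb_d2 hr u n n')).ce_self le_rfl).symm⟩ η hη0).mono
        fun M hM => (W.le X a b _ M _ _ _ (mb_d2 hh u n n') (mb_d2 hr u n n') (hcc n n').1.1).trans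
          (by rwa [V.swap])
  have e2 : ∀ᶠ M in atTop, ∀ n n' : Fin N,
      NW X a b (df ν ν' M) M (d2 X u n n' h) (d2 X u n n' r) (cc n n') ≤ η :=
    eventually_all.2 fun n => eventually_all.2 fun n' =>
      (hG _ _ (mb_d2 hr u n n') (hcc n n').1.1
        ((F.t.bm X A1 _ r h1 hr1).mul (F.t.bm X A1 _ r h1 hr1).conj)
        ((bm_of_mb (hcc n n').1.1).of_aesm (hcc n n').2.aestronglyMeasurable) _
        (mb_d2 hh u n n')).eventually (ge_mem_nhds hη0)
  filter_upwards [e1, e2, hν.2, hν'.2] with M m1 m2 s1 s2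
  have fin : ∀ κ : ℕ → ℝ, (∀ d, 0 ≤ κ d) → ∑ d ∈ Finset.range M, κ d = 1 →
      (∀ n n' : Fin N,
        NW X a b κ M (d2 X u n n' h) (d2 X u n n' r) (cc n n') ≤ α n n' + 2 * η) →
      NW X a b κ M h r k ≤ ε / 3 := by
    intro κ k0 k1 hb
    refine (abs_le_of_sq_le_sq' ?_ (by positivity)).2
    refine (hK h r N cc κ M hh hr hN (fun n n' => (hcc n n').1) k0 k1).trans (le_trans ?_ hη1)
    refine mul_le_mul_of_nonneg_left ?_ hK0
    refine (Finset.expect_le_expect fun n _ => Finset.expect_le_expect fun n' _ => hb n n').trans ?_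
    simp only [Finset.expect_add_distrib, Fintype.expect_const]
    linarith
  have f1 := fin (ν M) (hν.1 M) s1 fun n n' => by
    have := W.tri X a b (ν M) (ν' M) M (d2 X u n n' h) (d2 X u n n' r) (cc n n')
    have h3 : NW X a b (fun d => ν M d - ν' M d) M (d2 X u n n' h) (d2 X u n n' r) (cc n n') ≤ η :=
      m2 n n'
    linarith [m1 n n']
  have f2 := fin (ν' M) (hν'.1 M) s2 fun n n' => by linarith [m1 n n']
  linarith [sub M]

end ForL

open T6.For in
theorem forr : ForR := by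
  intro F V W hK hG0 ν ν' hν hν' ha X a b u B A1 A2 hX hB h1 h2 hle hu hG f k hf hk hf1 hk2
  obtain ⟨f', hv, hm⟩ := V.ver X B f hB.fac hf
  obtain ⟨hr, hz⟩ := V.half X B f f' hB.fac hf hv
  have hf' : BM X.μ B f' := (bm_of_mb hv.1).of_aesm hm.aestronglyMeasurable
  have hr1 : BM X.μ A1 fun x => (2⁻¹ : ℂ) * (f x - f' x) := (hf1.sub (hf'.mono hle)).cmul _
  have h0 : T6.G0 X b a u ν' fun x => (2⁻¹ : ℂ) * (f x - f' x) := by
    refine hG0 ν' hν' ha X b a u _ hr ?_
    rcases hu with rfl | rfl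
    exacts [(hB.nul _ hr hz).1, (hB.nul _ hr hz).2]
  obtain ⟨Z, p, hP⟩ := F.rp Bool (fun _ => X) X A2 (fun _ => id) false (fun _ => hX) h2
    (fun _ => (F.t.emb_id X).mp) fun _ _ _ _ => EventuallyEq.rfl
  have hkm : BM X.μ X.ms k := bm_of_mb hk
  have h3 : VW X a b (df ν ν') (fun x => (2⁻¹ : ℂ) * (f x - f' x)) k := by
    refine W.span X a b _ _ k {k' | ∃ (H : Z.X → ℂ) (g : X.X → ℂ), BM Z.μ (Inv Z {u}) H ∧
      BM X.μ X.ms g ∧ BM X.μ X.ms k' ∧ Star p H g k'} (bd hν hν') hr hkm.integrable ?_ ?_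
    · rintro φ ⟨H, g, a1, a2, a3, a4⟩
      exact ⟨a3.integrable, ForL.one F V W hK hν hν' h1 h2 hP hG hr hr1 h0 a1 a2 a3 a4⟩
    · intro ε hε
      obtain ⟨n, H, g, k', hh, he⟩ := F.kb.span X u A2 Z p hX h2 hP k hk2 (ε ^ 2) (by positivity)
      refine ⟨∑ i, k' i, Submodule.sum_mem _ fun i _ => Submodule.subset_span ⟨H i, g i, hh i⟩, ?_⟩
      have hs : BM X.μ X.ms (∑ i, k' i) := by
        refine Finset.sum_induction _ (fun φ => BM X.μ X.ms φ) (fun φ ψ hφ hψ => hφ.add hψ)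
          (Fib27.BM.const 0) fun i _ => (hh i).2.2.1
      exact l1 (hkm.sub hs) hε (by simpa only [Finset.sum_apply] using he)
  have sw : ∀ φ ψ, VW X a b (df ν ν') φ ψ ↔ VW X b a (df ν ν') ψ φ := fun φ ψ => by
    simp only [VW, W.swap X a b]
  have h4 := W.split X b a (df ν ν') k f f' (fun _ => 1) hk hf hv.1
    ⟨measurable_const, fun _ => by simp⟩ (by simpa only [mul_one] using hB.gd f' hv.1 hf' k hk)
    (by simpa only [mul_one] using (sw _ _).1 h3)
  exact (sw _ _).2 (by simpa only [mul_one] using h4)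

end T8

end

end PkFor

section PkHull

/-! Row Hull: the good pairs of factors pass to the hull. -/

set_option autoImplicit false
set_option linter.unusedVariables false
set_option warn.classDefReducibility false

open MeasureTheory ProbabilityTheory Filter Topology Function
open scoped BigOperators ComplexConjugate

noncomputable section

namespace T8

open Pool.Agent.MP_154433_an hiding BM
open T3S (B1 MB1 PW AsInv Erg Bd Near Gr yw nu nb CZ)
open T4S (Gm ddX Spr)
open Fib27 (BM)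
open T3x (nul pull gen)
open T4x (Fac Emb Inv Nice Pair Star KK Fd)
open T6 (Sy MB rr ee NN Vn IvF Ver VB QB Nul QE EL NulInv Cl EE LF LfP LiftA LbS Pj Tw2 d2 G0 G0S
  df AS)

namespace HullL

open T6.Hull (itg l1 bd dirs)

variable {X : Sy} {a b : Gm 2} {w : ℕ → ℕ → ℝ}

theorem swap (W : WB) {A1 A2 : MeasurableSpace X.X} (h : GP X a b w A1 A2) : GP X b a w A2 A1 :=
  fun f g hf hg bf bg k hk =>
    (h g f hg hf bg bf k hk).congr fun M => W.swap X a b (w M) M k g f

theorem mono {A1 A2 A1' A2' : MeasurableSpace X.X} (h : GP X a b w A1 A2) (h1 : A1' ≤ A1)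
    (h2 : A2' ≤ A2) : GP X a b w A1' A2' :=
  fun f g hf hg bf bg => h f g hf hg ⟨bf.1.mono h1, bf.2⟩ ⟨bg.1.mono h2, bg.2⟩

theorem lim (F : Fd) (V : VB) (W : WB) (hw : Bd w) (𝒟 : Set (MeasurableSpace X.X)) (ne : 𝒟.Nonempty)
    (dir : DirectedOn (· ≤ ·) 𝒟) (fac : ∀ D ∈ 𝒟, Fac X D) {A1 : MeasurableSpace X.X}
    (h : ∀ D ∈ 𝒟, GP X a b w A1 D) : GP X a b w A1 (sSup 𝒟) := by
  intro f g hf hg bf bg
  have mg := @itg X.X X.ms X.μ X.pr g hg
  refine W.span X a b w f g {φ | MB X φ ∧ ∃ D ∈ 𝒟, BM X.μ D φ} hw hf (mg.integrable one_le_two)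
    ?_ fun ε hε => ?_
  · rintro φ ⟨h1, D, hD, h2⟩
    exact ⟨(@itg X.X X.ms X.μ X.pr φ h1).integrable one_le_two, h D hD f φ hf h1 bf h2⟩
  · obtain ⟨D, hD, hc⟩ := F.d.chain 𝒟 X.μ ne dir (fun D hD => (fac D hD).le) g mg (ε ^ 2)
      (by positivity)
    obtain ⟨G, hG, mG⟩ := V.ver X D g (fac D hD) hg
    refine ⟨G, Submodule.subset_span ⟨hG.1, D, hD, mG.aestronglyMeasurable, 1,
      ae_of_all _ hG.1.2⟩, ?_⟩
    refine @l1 X.X X.ms X.μ X.pr (fun x => g x - G x) (mg.sub (@itg X.X X.ms X.μ X.pr G hG.1)) ε hε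
      (le_trans (le_of_eq (integral_congr_ae ?_)) (hc D hD le_rfl))
    have e := condExp_of_aestronglyMeasurable' (F.t.fsSup X 𝒟 ne fac).le bg.1
      (mg.integrable one_le_two)
    filter_upwards [e, hG.2] with x e1 e2
    rw [e1, e2]

theorem step (F : Fd) (V : VB) (W : WB) (hO : OwnS) (hF : ForS) {ν ν' : ℕ → ℕ → ℝ} (p : PW ν) (p' : PW ν')
    (ai : AsInv ν') (n : Nice X) {u : Gm 2} {B A1 A2 : MeasurableSpace X.X}
    (hB : Bs X a b (df ν ν') B) (f1 : Fac X A1) (f2 : Fac X A2) (le : B ≤ A2)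
    (hu : u = b ∨ u = b - a) (h : GP X a b (df ν ν') A1 A2) :
    GP X a b (df ν ν') (KK X u A1) (KK X u A2) :=
  swap W (hF ν ν' p p' ai X b a u B _ A1 n hB (F.kb.fac X u A2 n f2) f1
    (le.trans (F.kb.le X u A2 n f2)) hu (swap W (hO ν ν' p p' ai X a b u B A1 A2 n hB f1 f2 le hu h)))

theorem chain (F : Fd) (V : VB) (W : WB) (hw : Bd w) (𝒞 : Set (MeasurableSpace X.X)) (ne : 𝒞.Nonempty)
    (ch : IsChain (· ≤ ·) 𝒞) (fac : ∀ C ∈ 𝒞, Fac X C) {A B : MeasurableSpace X.X} (fB : Fac X B)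
    (h : ∀ C ∈ 𝒞, GP X a b w A (C ⊔ B)) : GP X a b w A (sSup 𝒞 ⊔ B) := by
  refine mono (lim F V W hw ((· ⊔ B) '' 𝒞) (ne.image _) ?_ ?_ ?_) le_rfl ?_
  · exact ch.directedOn.mono_comp fun _ _ h => sup_le_sup_right h B
  · rintro _ ⟨C, hC, rfl⟩
    exact F.t.fsup X C B (fac C hC) fB
  · rintro _ ⟨C, hC, rfl⟩
    exact h C hC
  · obtain ⟨C, hC⟩ := ne
    exact sup_le (sSup_le fun D hD => le_sup_left.trans (le_sSup ⟨D, hD, rfl⟩))
      (le_sup_right.trans (le_sSup ⟨C, hC, rfl⟩))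

end HullL

open HullL T6.Hull in
theorem hull : HullR := by
  intro F V W hO hF ν ν' p p' ai X B B' n hB hB'
  have f0 := F.t.bot X
  have hw := bd p p'
  refine ⟨T4x.hull X (nul X.μ), F.h.kc X _ n f0, mono (F.h.ind X (nul X.μ)
    (fun C => GP X (rr 0) (rr 1) (df ν ν') (C ⊔ B') (C ⊔ B)) n f0 ?_ ?_ ?_) le_sup_left le_sup_left⟩
  · intro f g hf hg _ bg
    rw [sup_eq_right.2 hB.fac.nl] at bg
    exact hB.gd g hg bg f hf
  · intro u hu C fC _ h
    have f1 := F.t.fsup X C B' fC hB'.fac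
    have f2 := F.t.fsup X C B fC hB.fac
    have k : ∀ D, Fac X D → KK X u C ⊔ D ≤ KK X u (C ⊔ D) := fun D fD =>
      sup_le (F.kb.mono X u C _ n fC (F.t.fsup X C D fC fD) le_sup_left)
        (le_sup_right.trans (F.kb.le X u _ n (F.t.fsup X C D fC fD)))
    refine mono ?_ (k B' hB'.fac) (k B hB.fac)
    rcases dirs hu with hu | hu
    · exact step F V W hO hF p p' ai n hB f1 f2 le_sup_right hu h
    · exact swap W (step F V W hO hF p p' ai n hB' f2 f1 le_sup_right hu (swap W h))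
  · intro 𝒞 ne ch h
    have fac : ∀ C ∈ 𝒞, Fac X C := fun C hC => (h C hC).1
    refine chain F V W hw 𝒞 ne ch fac hB.fac fun C hC => swap W ?_
    refine chain F V W hw 𝒞 ne ch fac hB'.fac fun C' hC' => swap W ?_
    rcases ch.total hC hC' with e | e
    · exact mono (h C' hC').2.2 le_rfl (sup_le_sup_right e B)
    · exact mono (h C hC).2.2 (sup_le_sup_right e B') le_rfl

end T8

end

end PkHull

section PkTop

/-! From a closed good factor to all functions, tested form. -/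

set_option autoImplicit false
set_option linter.unusedVariables false
set_option warn.classDefReducibility false

open MeasureTheory ProbabilityTheory Filter Topology Function
open scoped BigOperators ComplexConjugate

noncomputable section

namespace T8

open Pool.Agent.MP_154433_an hiding BM
open T3S (B1 MB1 PW AsInv Erg Bd Near Gr yw nu nb CZ)
open T4S (Gm ddX Spr wavg)
open Fib27 (BM)
open T4x (Fac Emb Inv Nice Pair Star KK Fd)
open T6 (Sy MB rr ee NN Vn IvF Ver VB df act)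
open T3S.Bridge (toWt av_eq erg_to)

namespace TopL

theorem bm {X : Sy} {f : X.X → ℂ} (h : MB X f) : BM X.μ X.ms f :=
  ⟨h.1.aestronglyMeasurable, 1, Eventually.of_forall h.2⟩

theorem mb_one (X : Sy) : MB X fun _ => 1 := ⟨measurable_const, fun _ => by simp⟩

theorem mb_mul {X : Sy} {f g : X.X → ℂ} (hf : MB X f) (hg : MB X g) :
    MB X fun x => f x * g x :=
  ⟨hf.1.mul hg.1, fun x => by
    rw [norm_mul]
    exact mul_le_one₀ (hf.2 x) (norm_nonneg _) (hg.2 x)⟩

theorem van (F : Fd) (ind : T4x.IndS) {ν : ℕ → ℕ → ℝ} (h : PW ν) (e : Erg ν) (s : Spr ν) (X : Sy)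
    (C : MeasurableSpace X.X) (hn : Nice X) (hC : T4x.KC X C) (f : Fin 2 → X.X → ℂ)
    (hf : ∀ i, MB X (f i)) (i0 : Fin 2) (hz : X.μ[f i0 | C] =ᵐ[X.μ] 0) :
    Vn X (rr 0) (rr 1) ν (f 0) (f 1) := by
  have k := T4x.Top.van F ind (toWt ν h) X rr C (erg_to h e) (T4S.Bridge.spr_to h s)
    ⟨fun i => Or.inl ⟨i, rfl⟩, fun i j hij => Or.inr ⟨i, j, hij, rfl⟩⟩ hn hC f
    (fun i => bm (hf i)) i0 hz
  clear hz hC
  clear C
  have k2 := (T6.Top.l12 X.μ (wavg X.A ν rr f) ((act X).wavg_meas _ _ fun i => (hf i).1) (by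
    filter_upwards [h.2] with M e x
    refine (T4S.wavg_norm_le X.A _ rr (fun i => (hf i).2) M x).trans ?_
    simp only [abs_of_nonneg (h.1 _ _), e]
    norm_num)).2 (k.congr' (by
      filter_upwards [h.2] with M e
      refine integral_congr_ae (Eventually.of_forall fun x => ?_)
      beta_reduce
      rw [T4x.avg, av_eq h e]
      exact congrArg (fun z => ‖z‖ ^ 2) (Finset.sum_congr rfl fun d _ => Complex.real_smul)))
  simpa only [Vn, NN, wavg, Fin.prod_univ_two] using k2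

theorem swap (wb : WB) {X : Sy} {a b : Gm 2} {w : ℕ → ℕ → ℝ} {f g : X.X → ℂ}
    (h : VW X a b w f g) : VW X b a w g f := fun k hk =>
  (h k hk).congr fun M => wb.swap X a b _ M k f g

theorem of_vn (wb : WB) {X : Sy} {a b : Gm 2} {ν ν' : ℕ → ℕ → ℝ} {f g : X.X → ℂ} (hf : MB X f)
    (hg : MB X g) (h : Vn X a b ν f g) (h' : Vn X a b ν' f g) : VW X a b (df ν ν') f g := by
  intro k hk
  have l := h.add h'
  rw [add_zero] at l
  exact squeeze_zero (fun M => wb.nonneg _ _ _ _ _ _ _ _) (fun M =>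
    (wb.sub X a b (ν M) (ν' M) M k f g).trans
      (add_le_add (wb.le X a b _ M k f g hk hf hg) (wb.le X a b _ M k f g hk hf hg))) l

open Classical in
theorem lift {X X' : Sy} {e : X.X → X'.X}
    (hl : ∀ f ∈ T3x.Bdd X.X, ∃ f' ∈ T3x.Bdd X'.X, ∀ x, f' (e x) = f x) {f : X.X → ℂ}
    (hf : MB X f) : ∃ f', MB X' f' ∧ f = fun x => f' (e x) := by
  obtain ⟨f', ⟨m, -⟩, h⟩ := hl f ⟨hf.1, 1, hf.2⟩
  refine ⟨fun y => if ‖f' y‖ ≤ 1 then f' y else 0,
    ⟨Measurable.ite (measurableSet_le m.norm measurable_const) m measurable_const, fun y => ?_⟩,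
    funext fun x => ?_⟩
  · beta_reduce
    split_ifs with k
    exacts [k, by simp]
  · beta_reduce
    rw [h, if_pos (hf.2 x)]

theorem down (F : Fd) {X X' : Sy} {e : X.X → X'.X} (he : Emb X X' e) (a b : Gm 2) (κ : ℕ → ℝ)
    (M : ℕ) {h f g : X'.X → ℂ} (hh : MB X' h) (hf : MB X' f) (hg : MB X' g) :
    NW X a b κ M (fun x => h (e x)) (fun x => f (e x)) (fun x => g (e x)) =
      NW X' a b κ M h f g := by
  refine congrArg _ (Finset.sum_congr rfl fun d _ => congrArg _ ?_)
  have q : ∀ (v : Gm 2) {k : X'.X → ℂ}, MB X' k →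
      (fun x => k (e (X.A v x))) =ᵐ[X.μ] fun x => k (X'.A v (e x)) := fun v k hk =>
    F.a.keq_fun X'.ms X.μ X'.μ _ _ k (he.mp.comp (X.mp v)) ((X'.mp v).comp he.mp) (he.eqv v)
      hk.1.aestronglyMeasurable
  have m : Measurable fun y => h y * (f (X'.A ((d : ℤ) • a) y) * g (X'.A ((d : ℤ) • b) y)) :=
    hh.1.mul ((hf.1.comp (X'.mp _).measurable).mul (hg.1.comp (X'.mp _).measurable))
  rw [← he.mp.map_eq, integral_map he.mp.measurable.aemeasurable m.aestronglyMeasurable]
  refine integral_congr_ae ?_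
  filter_upwards [q ((d : ℤ) • a) hf, q ((d : ℤ) • b) hg] with x h1 h2
  rw [h1, h2]

end TopL

open TopL in
theorem top : TopR := by
  intro F ind vb wb ν ν' h1 h2 e1 e2 s1 s2 hC X f0 g0 hf0 hg0 k0 hk0
  obtain ⟨Y, e, hY, he, hl⟩ := F.nice0 X
  obtain ⟨f, hf, rfl⟩ := lift hl hf0
  obtain ⟨g, hg, rfl⟩ := lift hl hg0
  obtain ⟨k, hk, rfl⟩ := lift hl hk0
  simp only [fun κ M => down F he (rr 0) (rr 1) κ M hk hf hg]
  obtain ⟨C, c1, c2⟩ := hC Y hY
  have z : ∀ u v, MB Y u → MB Y v → (Y.μ[u | C] =ᵐ[Y.μ] 0 ∨ Y.μ[v | C] =ᵐ[Y.μ] 0) →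
      VW Y (rr 0) (rr 1) (df ν ν') u v := fun u v hu hv hz => by
    have hm : ∀ i : Fin 2, MB Y (![u, v] i) := Fin.forall_fin_two.2 ⟨hu, hv⟩
    obtain ⟨i, hi⟩ : ∃ i : Fin 2, Y.μ[![u, v] i | C] =ᵐ[Y.μ] 0 := by
      rcases hz with h | h
      · exact ⟨0, by simpa only [Matrix.cons_val_zero] using h⟩
      · exact ⟨1, by simpa only [Matrix.cons_val_one, Matrix.cons_val_zero] using h⟩
    have w1 := van F ind h1 e1 s1 Y C hY c1 ![u, v] hm i hi
    have w2 := van F ind h2 e2 s2 Y C hY c1 ![u, v] hm i hi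
    simp only [Matrix.cons_val_one, Matrix.cons_val_zero] at w1 w2
    exact of_vn wb hu hv w1 w2
  obtain ⟨f', v1, m1⟩ := vb.ver Y C f c1.1 hf
  obtain ⟨g', v2, m2⟩ := vb.ver Y C g c1.1 hg
  obtain ⟨a1, a2⟩ := vb.half Y C f f' c1.1 hf v1
  obtain ⟨b1, b2⟩ := vb.half Y C g g' c1.1 hg v2
  have t1 := wb.split Y (rr 1) (rr 0) (df ν ν') g' f f' _ v2.1 hf v1.1 (mb_one Y)
    (by
      simp only [mul_one]
      exact swap wb (c2 f' g' v1.1 v2.1 ⟨m1.aestronglyMeasurable, 1, Eventually.of_forall v1.1.2⟩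
        ⟨m2.aestronglyMeasurable, 1, Eventually.of_forall v2.1.2⟩))
    (by
      simp only [mul_one]
      exact swap wb (z _ _ a1 v2.1 (Or.inl a2)))
  have t2 := wb.split Y (rr 0) (rr 1) (df ν ν') f g g' _ hf hg v2.1 (mb_one Y)
    (by simpa only [mul_one] using swap wb t1)
    (by simpa only [mul_one] using z _ _ hf b1 (Or.inr b2))
  simpa only [mul_one] using t2 k hk

end T8

end

end PkTop

section PkEndA

/-! From systems over the plane lattice to tested averages for pairs of commuting maps. -/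

set_option autoImplicit false
set_option linter.unusedVariables false

open MeasureTheory ProbabilityTheory Filter Topology Function
open scoped BigOperators ComplexConjugate

noncomputable section

namespace T8

open Pool.Agent.MP_154433_an hiding BM
open T3S (B1 MB1)
open T4S (Gm)
open T6 (Sy MB rr G2)

namespace EndAL

lemma mb {X : Type} [MeasurableSpace X] {f : X → ℝ} (hm : Measurable f) (hb : ∀ x, |f x| ≤ 1) :
    MB1 fun x => (f x : ℂ) :=
  ⟨Complex.measurable_ofReal.comp hm, fun x => by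
    rw [Complex.norm_real, Real.norm_eq_abs]
    exact hb x⟩

end EndAL

theorem endA : EndAR := by
  intro hA w hw X _ μ _ T hT hc h f hm hb fm fb
  obtain ⟨A, act, hd, -⟩ := hA 2 X μ T hT hc
  have h1 := hw (@T4x.Sys.mk G2 X _ μ _ A act.mp act.zero act.add) (fun x => (f 0 x : ℂ))
    (fun x => (f 1 x : ℂ)) (EndAL.mb (fm 0) (fb 0)) (EndAL.mb (fm 1) (fb 1))
    (fun x => (h x : ℂ)) (EndAL.mb hm hb)
  rw [tendsto_zero_iff_norm_tendsto_zero]
  refine h1.congr fun M => ?_
  rw [← Complex.norm_real]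
  simp only [Fin.prod_univ_two, ← hd, Complex.ofReal_sum, Complex.ofReal_mul,
    ← integral_complex_ofReal]
  rfl

end T8

end

end PkEndA

section PkEndB

/-! From the vanishing of the tested weighted averages to weak convergence along the set. -/

set_option autoImplicit false
set_option linter.unusedVariables false

open MeasureTheory ProbabilityTheory Filter Topology Function Asymptotics
open scoped BigOperators ComplexConjugate InnerProductSpace

noncomputable section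

namespace T8

open Pool.Agent.MP_154433_an hiding BM
open T3S (yw)

namespace EndBL

variable {X : Type} [MeasurableSpace X] {μ : Measure X}

theorem inner_eq (A H : Lp ℝ 2 μ) {a h : X → ℝ} (ha : A =ᵐ[μ] a) (hh : H =ᵐ[μ] h) :
    ⟪A, H⟫_ℝ = ∫ x, h x * a x ∂μ := by
  rw [L2.inner_def]
  refine integral_congr_ae ?_
  filter_upwards [ha, hh] with x h1 h2
  rw [h1, h2]
  simp

theorem weak {A : ℕ → Lp ℝ 2 μ} {G : Lp ℝ 2 μ} (hA : ∀ N, ‖A N‖ ≤ 1)
    (h : ∀ (H : Lp ℝ 2 μ) (h : X → ℝ), Measurable h → (∀ x, |h x| ≤ 1) → H =ᵐ[μ] h →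
      Tendsto (fun N => ⟪A N, H⟫_ℝ) atTop (𝓝 ⟪G, H⟫_ℝ)) (H : Lp ℝ 2 μ) :
    Tendsto (fun N => ⟪A N, H⟫_ℝ) atTop (𝓝 ⟪G, H⟫_ℝ) := by
  refine Lp.induction (p := 2) (by simp)
    (fun H : Lp ℝ 2 μ => Tendsto (fun N => ⟪A N, H⟫_ℝ) atTop (𝓝 ⟪G, H⟫_ℝ)) ?_ ?_ ?_ H
  · intro c s hs hμ
    have e : (Lp.simpleFunc.indicatorConst 2 hs hμ.ne c : Lp ℝ 2 μ) =
        c • indicatorConstLp 2 hs hμ.ne (1 : ℝ) := by
      rw [Lp.simpleFunc.coe_indicatorConst]
      refine Lp.ext ?_
      filter_upwards [indicatorConstLp_coeFn (p := 2) (hs := hs) (hμs := hμ.ne) (c := c),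
        indicatorConstLp_coeFn (p := 2) (hs := hs) (hμs := hμ.ne) (c := (1 : ℝ)),
        Lp.coeFn_smul c (indicatorConstLp 2 hs hμ.ne (1 : ℝ))] with x h1 h2 h3
      rw [h1, h3, Pi.smul_apply, h2]
      by_cases hx : x ∈ s <;> simp [hx]
    simp only [e, real_inner_smul_right]
    refine (h _ _ (measurable_const.indicator hs) (fun x => ?_) indicatorConstLp_coeFn).const_mul c
    by_cases hx : x ∈ s <;> simp [hx]
  · intro f g hf hg _ h1 h2
    simp only [inner_add_right]
    exact h1.add h2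
  · refine Equicontinuous.isClosed_setOfPred_tendsto (F := fun N (H : Lp ℝ 2 μ) => ⟪A N, H⟫_ℝ)
      (LipschitzWith.uniformEquicontinuous _ 1 fun N => ?_).equicontinuous (by fun_prop)
    refine LipschitzWith.of_dist_le_mul fun x y => ?_
    rw [Real.dist_eq, ← inner_sub_right, dist_eq_norm]
    exact (abs_real_inner_le_norm _ _).trans
      (mul_le_mul_of_nonneg_right (by simpa using hA N) (norm_nonneg _))

end EndBL

theorem endB : EndBR := by
  intro σ p h0 ha hW H1 X _ μ _ T hT hc hV f hf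
  choose c f' hm hb he using fun i => exists_rep (hf i)
  obtain ⟨F, G, hF, h1, h2⟩ := T3S.End.core (σ := fun _ => 1) (fun _ => zero_le_one)
    antitone_const ((tendsto_natCast_atTop_atTop (R := ℝ)).congr fun M => by simp [T3S.Wt]) (fun _ => True) T
    (by simp [yw, T3S.ind]) hT hc f' hm hb (by simp [yw, T3S.ind])
  simp only [Nat.nth_true] at h1
  have hFn : ∀ k, ‖F k‖ ≤ 1 := fun k => by
    have := Lp.norm_le_of_ae_bound (f := F k) zero_le_one (by
      filter_upwards [hF k] with x hx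
      rw [hx, Real.norm_eq_abs, Finset.abs_prod]
      exact Finset.prod_le_one (fun _ _ => abs_nonneg _) fun j _ => hb j _)
    simpa [measureUnivNNReal] using this
  have hw := EndBL.weak (A := fun N : ℕ => (N : ℝ)⁻¹ • ∑ n ∈ Finset.range N, F (Nat.nth p n))
    (G := G) (fun N => by
      rw [norm_smul, norm_inv, Real.norm_natCast]
      refine (mul_le_mul_of_nonneg_left ((norm_sum_le _ _).trans
        (Finset.sum_le_sum fun n _ => hFn _)) (by positivity)).trans ?_
      simpa using inv_mul_le_one (a := (N : ℝ))) (fun H h hh hh1 hH => by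
      let _ : DecidablePred p := fun a => Classical.propDecidable _
      simp only [real_inner_smul_left, sum_inner]
      refine tendsto_nth (V := ℝ) (F := fun k => ⟪F k, H⟫_ℝ) h0 ha hW p ?_ ?_ ?_
      · refine (isLittleO_iff_tendsto' ?_).2 ?_
        · filter_upwards [hW.eventually_gt_atTop 0] with M hM e
          exact (hM.ne' e).elim
        · refine H1.congr fun M => ?_
          rw [Finset.sum_div]
          rfl
      · refine (isLittleO_iff_tendsto' ?_).2 ?_
        · filter_upwards [hW.eventually_gt_atTop 0] with M hM e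
          exact (hM.ne' e).elim
        · refine (hV h f' hh hh1 hm hb).congr fun M => ?_
          rw [Finset.sum_div]
          refine Finset.sum_congr rfl fun k _ => ?_
          rw [EndBL.inner_eq _ _ (hF k) hH, smul_eq_mul, mul_div_right_comm]
          rfl
      · simpa only [real_inner_smul_left, sum_inner, smul_eq_mul] using
          h1.inner (𝕜 := ℝ) (tendsto_const_nhds (x := H)))
  have hk : ∀ᵐ x ∂μ, ∀ k, ∏ i, f i ((T i)^[k] x) = (∏ i, c i) * ∏ i, f' i ((T i)^[k] x) := by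
    have : ∀ᵐ x ∂μ, ∀ k i, f i ((T i)^[k] x) = c i * f' i ((T i)^[k] x) :=
      ae_all_iff.2 fun k => ae_all_iff.2 fun i =>
        ((hT i).iterate k).quasiMeasurePreserving.ae_eq_comp (he i)
    filter_upwards [this] with x hx k
    simp only [hx, Finset.prod_mul_distrib]
  refine ⟨fun x => (∏ i, c i) * G x, (Lp.memLp G).const_mul _, fun h hh => ?_,
    tendsto_eLpNorm h2 _ fun N => ?_⟩
  · have := (hw (hh.toLp h)).const_mul (∏ i, c i)
    rw [EndBL.inner_eq G _ EventuallyEq.rfl hh.coeFn_toLp, ← integral_const_mul] at this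
    simp only [mul_left_comm (∏ i, c i)] at this
    refine this.congr fun N => ?_
    rw [EndBL.inner_eq _ _ (coe_avg (Finset.range N) (N : ℝ)⁻¹ (Nat.nth p) F _ hF) hh.coeFn_toLp,
      ← integral_const_mul]
    refine integral_congr_ae ?_
    filter_upwards [hk] with x h3
    simp only [h3, ← Finset.mul_sum]
    ring
  · filter_upwards [hk, coe_avg (Finset.Icc 1 N) (N : ℝ)⁻¹ id F _ hF] with x h3 h4
    simp only [id] at h4
    rw [h4]
    simp only [h3, ← Finset.mul_sum]
    ring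

end T8

end

end PkEndB
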