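import Pool.Agent.MP_154433_an.t6.Spec
import Pool.Agent.MP_154433_an.t3s.Vdc
import Pool.Agent.MP_154433_an.t3s.Shift
import Pool.Agent.MP_154433_an.t3s.Asm
import Pool.Agent.MP_154433_an.t3s.Gcs
import Pool.Agent.MP_154433_an.t3s.Zero

/-! Calculus of norms and boxes (packed). -/

section PkVB

/-! Row VB: calculus of the weighted double averages. -/

set_option autoImplicit false
set_option linter.unusedVariables false
set_option warn.classDefReducibility false

open MeasureTheory ProbabilityTheory Filter Topology Function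
open scoped BigOperators ComplexConjugate

noncomputable section

namespace T6

open Pool.Agent.MP_154433_an hiding BM
open T3S (B1 MB1 PW AsInv Erg Bd Near Gr yw dif CZ)
open T4S (Gm Act ddX QX ln Spr Concl)
open Fib27 (BM)
open T3x (nul pull gen)
open T4x (Fac Emb Inv Nice Pair Star KK Fd)

namespace VB

variable {X : Sy} {a b : Gm 2} {κ κ' : ℕ → ℝ} {M : ℕ} {f f' g g' c : X.X → ℂ}

/-- the weighted double average -/
def av (X : Sy) (a b : Gm 2) (κ : ℕ → ℝ) (M : ℕ) (f g : X.X → ℂ) (x : X.X) : ℂ :=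
  ∑ d ∈ Finset.range M, (κ d : ℂ) * (f (X.A ((d : ℤ) • a) x) * g (X.A ((d : ℤ) • b) x))

lemma nn_eq : NN X a b κ M f g = ∫ x, ‖av X a b κ M f g x‖ ∂X.μ := rfl

lemma tz_ae (v : Gm 2) (h : f =ᵐ[X.μ] f') :
    (fun x => f (X.A v x)) =ᵐ[X.μ] fun x => f' (X.A v x) :=
  (X.mp v).quasiMeasurePreserving.ae_eq_comp h

lemma tz_int (v : Gm 2) (h : Integrable g X.μ) : Integrable (fun x => g (X.A v x)) X.μ :=
  (X.mp v).integrable_comp_of_integrable h

lemma av_int (hf : MB X f) (hg : Integrable g X.μ) : Integrable (av X a b κ M f g) X.μ :=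
  integrable_finsetSum _ fun d _ => ((tz_int _ hg).bdd_mul (c := 1)
    ((act X).tz hf _).1.aestronglyMeasurable (Eventually.of_forall fun x => hf.2 _)).const_mul _

lemma mint (hf : MB X f) : Integrable f X.μ := hf.integrable _

lemma le_of {u v w : X.X → ℂ} (hv : Integrable v X.μ) (hw : Integrable w X.μ)
    (h : ∀ x, u x = v x + w x) :
    ∫ x, ‖u x‖ ∂X.μ ≤ ∫ x, ‖v x‖ ∂X.μ + ∫ x, ‖w x‖ ∂X.μ := by
  rw [← integral_add hv.norm hw.norm]
  exact integral_mono_of_nonneg (Eventually.of_forall fun x => norm_nonneg _) (hv.norm.add hw.norm)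
    (Eventually.of_forall fun x => (congrArg norm (h x)).trans_le (norm_add_le _ _))

lemma nn0 : 0 ≤ NN X a b κ M f g := integral_nonneg fun _ => norm_nonneg _

lemma add' (hf : MB X f) (hg : Integrable g X.μ) (hg' : Integrable g' X.μ) :
    NN X a b κ M f (fun x => g x + g' x) ≤ NN X a b κ M f g + NN X a b κ M f g' :=
  le_of (av_int hf hg) (av_int hf hg') fun x => by
    simp only [mul_add, Finset.sum_add_distrib]

lemma smul' (c : ℂ) : NN X a b κ M f (fun x => c * g x) = ‖c‖ * NN X a b κ M f g := by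
  rw [nn_eq, nn_eq, ← integral_const_mul]
  refine integral_congr_ae (Eventually.of_forall fun x => ?_)
  simp only [av]
  rw [← norm_mul, Finset.mul_sum]
  exact congrArg _ (Finset.sum_congr rfl fun d _ => by ring)

lemma bound (hf : MB X f) (hg : Integrable g X.μ) :
    NN X a b κ M f g ≤ (∑ d ∈ Finset.range M, |κ d|) * ∫ x, ‖g x‖ ∂X.μ := by
  have i : ∀ d : ℕ, Integrable (fun x => |κ d| * ‖g (X.A ((d : ℤ) • b) x)‖) X.μ :=
    fun d => (tz_int _ hg).norm.const_mul _
  have e : (∑ d ∈ Finset.range M, |κ d|) * ∫ x, ‖g x‖ ∂X.μ =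
      ∫ x, ∑ d ∈ Finset.range M, |κ d| * ‖g (X.A ((d : ℤ) • b) x)‖ ∂X.μ := by
    rw [integral_finsetSum _ fun d _ => i d, Finset.sum_mul]
    refine Finset.sum_congr rfl fun d _ => ?_
    rw [integral_const_mul, (act X).integral _ (f := fun x => ‖g x‖) hg.norm.1]
  rw [e]
  refine integral_mono_of_nonneg (Eventually.of_forall fun x => norm_nonneg _)
    (integrable_finsetSum _ fun d _ => i d) (Eventually.of_forall fun x => ?_)
  refine (norm_sum_le _ _).trans (Finset.sum_le_sum fun d _ => ?_)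
  rw [norm_mul, norm_mul, Complex.norm_real, Real.norm_eq_abs]
  exact mul_le_mul_of_nonneg_left (mul_le_of_le_one_left (norm_nonneg _) (hf.2 _)) (abs_nonneg _)

lemma lip' (hf : MB X f) (hg : Integrable g X.μ) (hg' : Integrable g' X.μ) :
    NN X a b κ M f g ≤ NN X a b κ M f g' +
      (∑ d ∈ Finset.range M, |κ d|) * ∫ x, ‖g x - g' x‖ ∂X.μ := by
  have h := add' (a := a) (b := b) (κ := κ) (M := M) hf hg' (hg.sub hg')
  simp only [Pi.sub_apply, add_sub_cancel] at h
  exact h.trans (add_le_add le_rfl (bound hf (hg.sub hg')))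

lemma tri' (hf : MB X f) (hg : MB X g) :
    NN X a b κ M f g ≤ NN X a b κ' M f g + NN X a b (fun d => κ d - κ' d) M f g :=
  le_of (av_int hf (hg.integrable _)) (av_int hf (hg.integrable _)) fun x => by
    simp only [← Finset.sum_add_distrib]
    exact Finset.sum_congr rfl fun d _ => by push_cast; ring

lemma sub' (hf : MB X f) (hg : MB X g) :
    NN X a b (fun d => κ d - κ' d) M f g ≤ NN X a b κ M f g + NN X a b κ' M f g := by
  have h := le_of (u := av X a b (fun d => κ d - κ' d) M f g)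
    (av_int (a := a) (b := b) (κ := κ) (M := M) hf (hg.integrable _))
    (av_int (a := a) (b := b) (κ := κ') (M := M) hf (hg.integrable _)).neg fun x => by
      simp only [av, Pi.neg_apply, ← sub_eq_add_neg, ← Finset.sum_sub_distrib]
      exact Finset.sum_congr rfl fun d _ => by push_cast; ring
  simpa only [Pi.neg_apply, norm_neg, nn_eq] using h

/-- the shifts that keep `c` -/
def stab (X : Sy) (c : X.X → ℂ) : AddSubgroup (Gm 2) where
  carrier := {v | (fun x => c (X.A v x)) =ᵐ[X.μ] c}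
  zero_mem' := by
    show (fun x => c (X.A 0 x)) =ᵐ[X.μ] c
    exact EventuallyEq.of_eq (funext fun x => congrArg c ((act X).zero x))
  add_mem' := fun {v w} hv hw => (EventuallyEq.of_eq
    (funext fun x => congrArg c ((act X).add v w x))).trans ((tz_ae w hv).trans hw)
  neg_mem' := fun {v} hv => (tz_ae (-v) hv).symm.trans (Eventually.of_forall fun x => by
    show c (X.A v (X.A (-v) x)) = c x
    rw [← (act X).add, add_neg_cancel, (act X).zero])

lemma ivz' {u : Gm 2} (n : ℤ) (h : IvF X u c) : IvF X (n • u) c :=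
  ⟨h.1, (stab X c).zsmul_mem h.2 n⟩

lemma move' (h : IvF X (b - a) c) :
    NN X a b κ M f (fun x => c x * g x) = NN X a b κ M (fun x => f x * c x) g := by
  have e : ∀ d : ℕ, ∀ᵐ x ∂X.μ, c (X.A ((d : ℤ) • b) x) = c (X.A ((d : ℤ) • a) x) := fun d => by
    filter_upwards [tz_ae ((d : ℤ) • a) (ivz' d h).2] with x hx
    rw [← hx, ← (act X).add, smul_sub, sub_add_cancel]
  refine integral_congr_ae ?_
  filter_upwards [ae_all_iff.2 e] with x hx
  exact congrArg _ (Finset.sum_congr rfl fun d _ => by rw [hx d]; ring)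

variable {w w' : ℕ → ℕ → ℝ}

lemma vadd (hf : MB X f) (hg : Integrable g X.μ) (hg' : Integrable g' X.μ)
    (h : Vn X a b w f g) (h' : Vn X a b w f g') : Vn X a b w f fun x => g x + g' x :=
  squeeze_zero (fun _ => nn0) (fun _ => add' hf hg hg') (by simpa using h.add h')

lemma vsmul (c : ℂ) (h : Vn X a b w f g) : Vn X a b w f fun x => c * g x := by
  simpa only [Vn, smul', mul_zero] using h.const_mul ‖c‖

lemma span' {T : Set (X.X → ℂ)} (hw : Bd w) (hf : MB X f) (hg : Integrable g X.μ)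
    (hT : ∀ φ ∈ T, Integrable φ X.μ ∧ Vn X a b w f φ)
    (h : ∀ ε : ℝ, 0 < ε → ∃ φ ∈ Submodule.span ℂ T, ∫ x, ‖g x - φ x‖ ∂X.μ ≤ ε) :
    Vn X a b w f g := by
  have key : ∀ φ ∈ Submodule.span ℂ T, Integrable φ X.μ ∧ Vn X a b w f φ := fun φ hφ => by
    induction hφ using Submodule.span_induction with
    | mem φ h => exact hT φ h
    | zero => exact ⟨integrable_zero _ _ _, by simp [Vn, NN]⟩
    | add φ ψ _ _ h1 h2 => exact ⟨h1.1.add h2.1, vadd hf h1.1 h2.1 h1.2 h2.2⟩
    | smul c φ _ h1 => exact ⟨h1.1.smul c, vsmul c h1.2⟩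
  refine Metric.tendsto_nhds.2 fun ε hε => ?_
  obtain ⟨φ, hφ, e⟩ := h (ε / 6) (by positivity)
  filter_upwards [hw, (key φ hφ).2.eventually (gt_mem_nhds (half_pos hε))] with M h1 h2
  rw [Real.dist_0_eq_abs, abs_of_nonneg nn0]
  have h3 := lip' (a := a) (b := b) (κ := w M) (M := M) hf hg (key φ hφ).1
  have h4 := mul_le_mul h1 e (integral_nonneg fun _ => norm_nonneg _) (by norm_num)
  linarith

lemma near' (hw : Near w w') (hf : MB X f) (hg : MB X g) (h : Vn X a b w' f g) :
    Vn X a b w f g := by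
  have i : ∫ x, ‖g x‖ ∂X.μ ≤ 1 := by
    simpa using integral_mono (hg.integrable X.μ).norm (integrable_const (1 : ℝ)) hg.2
  refine squeeze_zero (fun _ => nn0) (fun M => (tri' (κ' := w' M) hf hg).trans
    (add_le_add le_rfl ((bound hf (hg.integrable _)).trans (mul_le_of_le_one_right
      (Finset.sum_nonneg fun _ _ => abs_nonneg _) i)))) (by simpa using h.add hw)

lemma mb_half (hg : MB X g) (hg' : MB X g') : MB X fun x => (2⁻¹ : ℂ) * (g x - g' x) := by
  refine ⟨(hg.1.sub hg'.1).const_mul _, fun x => ?_⟩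
  have := norm_sub_le (g x) (g' x)
  have := hg.2 x
  have := hg'.2 x
  rw [norm_mul, norm_inv, Complex.norm_ofNat]
  linarith

lemma split' {β : X.X → ℂ} (hf : MB X f) (hg : MB X g) (hg' : MB X g') (hβ : MB X β)
    (h1 : Vn X a b w f fun x => g' x * β x)
    (h2 : Vn X a b w f fun x => (2⁻¹ : ℂ) * (g x - g' x) * β x) :
    Vn X a b w f fun x => g x * β x := by
  have h := vadd hf ((hg'.mul hβ).integrable _)
    ((((mb_half hg hg').mul hβ).integrable _).const_mul 2) h1 (vsmul 2 h2)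
  exact (congrArg _ (funext fun x => by ring)).mp h

end VB

open VB in
theorem vb : VBR := fun F =>
  { swap := fun X a b κ M f g => by simp only [NN, mul_comm (f _)]
    nonneg := fun _ _ _ _ _ _ _ => nn0
    congr := fun X a b κ M f f' g g' h h' => by
      refine integral_congr_ae ?_
      filter_upwards [ae_all_iff.2 fun d : ℕ => tz_ae ((d : ℤ) • a) h,
        ae_all_iff.2 fun d : ℕ => tz_ae ((d : ℤ) • b) h'] with x h1 h2
      exact congrArg _ (Finset.sum_congr rfl fun d _ => by rw [h1 d, h2 d])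
    sub := fun _ _ _ _ _ _ _ _ => sub'
    tri := fun _ _ _ _ _ _ _ _ => tri'
    lip := fun _ _ _ _ _ _ _ _ => lip'
    smul := fun _ _ _ _ _ _ _ => smul'
    add := fun _ _ _ _ _ _ _ _ => add'
    move := fun _ _ _ _ _ _ _ _ => move'
    span := fun _ _ _ _ _ _ _ => span'
    near := fun _ _ _ _ _ _ _ => near'
    split := fun _ _ _ _ _ _ _ _ => split'
    ver := fun X Y G hY hG => by
      obtain ⟨G', m, b, e⟩ := F.a.rep Y X.μ (X.μ[G | Y]) 1 zero_le_one
        stronglyMeasurable_condExp.aestronglyMeasurable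
        (ae_bdd_norm_condExp_of_ae_bdd_norm (Eventually.of_forall hG.2))
      exact ⟨G', ⟨⟨m.mono hY.le le_rfl, b⟩, e.symm⟩, m⟩
    half := fun X Y G G' hY hG hV => by
      refine ⟨mb_half hG hV.1, ?_⟩
      have e1 := condExp_smul (μ := X.μ) (2⁻¹ : ℂ) (G - G') Y
      have e2 := condExp_sub (mint hG) (mint hV.1) Y
      have e3 := (condExp_congr_ae (m := Y) hV.2).trans
        (condExp_condExp_of_le (μ := X.μ) (f := G) le_rfl hY.le)
      refine EventuallyEq.trans e1 ?_
      filter_upwards [e2, e3] with x h2 h3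
      simp only [Pi.smul_apply, h2, Pi.sub_apply, h3, sub_self, smul_zero, Pi.zero_apply]
    fle := fun X Y Y' hY hY' h A hA => by
      have mA : Measurable[Y] (A.indicator fun _ => (1 : ℂ)) := measurable_const.indicator hA
      obtain ⟨c, hc, e⟩ := (h _ ⟨mA.mono hY.le le_rfl, fun x => by
        by_cases hx : x ∈ A <;> simp [hx]⟩ mA).1
      have k := (F.a.mem Y' X.μ hY'.le A).2 ⟨hY.le A hA, c ⁻¹' {1},
        hc.measurable (measurableSet_singleton _), by
          filter_upwards [e] with x hx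
          by_cases hA : x ∈ A
          · rw [Set.indicator_of_mem hA] at hx
            exact propext ⟨fun _ => hx.symm, fun _ => hA⟩
          · rw [Set.indicator_of_notMem hA] at hx
            exact propext ⟨fun h => (hA h).elim, fun h => (zero_ne_one (hx.trans h)).elim⟩⟩
      rwa [sup_eq_left.2 hY'.nl] at k
    ivf := fun X u c hc => by
      have k := F.t.inv_iff X {u} c hc.1.aestronglyMeasurable
      exact ⟨fun h => ⟨k.2 fun v hv => hv ▸ h.2, 1, Eventually.of_forall hc.2⟩,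
        fun h => ⟨hc, k.1 h.1 u rfl⟩⟩
    ivz := fun _ _ _ => ivz' }

end T6

end

end PkVB

section PkQB

/-! Row QB: calculus of the box functionals. -/

set_option autoImplicit false
set_option linter.unusedVariables false

open MeasureTheory ProbabilityTheory Filter Topology Function
open scoped BigOperators ComplexConjugate

noncomputable section

namespace T6

open Pool.Agent.MP_154433_an hiding BM
open T3S (B1 MB1)
open T4S (Gm Act ddX QX ln)

namespace QB

lemma nil (X : Sy) (H : ℕ) (g : X.X → ℂ) : QE X [] H g = (∫ x, g x ∂X.μ).re := rfl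

lemma cons (X : Sy) (u : Gm 2) (L : List (Gm 2)) (H : ℕ) (g : X.X → ℂ) :
    QE X (u :: L) H g = 𝔼 h : Fin H, 𝔼 h' : Fin H,
      QE X L H (ddX X.A ((((h' : ℕ) : ℤ) - ((h : ℕ) : ℤ)) • u) g) :=
  T4S.QX_ln X.μ X.A u H _ g

lemma av (X : Sy) (u : Gm 2) (H : ℕ) {g : X.X → ℂ} (hg : MB X g) :
    MB X fun x => 𝔼 h : Fin H, g (X.A (((h : ℕ) : ℤ) • u) x) :=
  ⟨T3S.meas_exp _ fun h _ => ((act X).tz hg _).1,
    fun x => T3S.norm_exp_le_of zero_le_one fun h _ => hg.2 _⟩

lemma one (X : Sy) (u : Gm 2) (H : ℕ) {g : X.X → ℂ} (hg : MB X g) :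
    QE X [u] H g = ∫ x, ‖𝔼 h : Fin H, g (X.A (((h : ℕ) : ℤ) • u) x)‖ ^ 2 ∂X.μ := by
  have hi : ∀ h h' : Fin H, MB X fun x =>
      g (X.A (((h' : ℕ) : ℤ) • u) x) * conj (g (X.A (((h : ℕ) : ℤ) • u) x)) := fun h h' =>
    ((act X).tz hg _).mul ((act X).tz hg _).cj
  rw [← Complex.ofReal_re (∫ x, _ ∂X.μ), ← integral_complex_ofReal]
  simp only [T3S.Vdc.sq_exp]
  rw [T3S.integral_exp _ fun h _ => MB1.integrable ⟨T3S.meas_exp _ fun h' _ => (hi h h').1,
    fun x => T3S.norm_exp_le_of zero_le_one fun h' _ => (hi h h').2 x⟩ X.μ, T3S.re_exp, cons]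
  refine Finset.expect_congr rfl fun h _ => ?_
  rw [T3S.integral_exp _ fun h' _ => (hi h h').integrable X.μ, T3S.re_exp]
  refine Finset.expect_congr rfl fun h' _ => ?_
  rw [nil, ← (act X).integral (((h : ℕ) : ℤ) • u) ((act X).dd hg _).1.aestronglyMeasurable]
  simp only [ddX, ← (act X).add, sub_smul, sub_add_cancel]

lemma jen {ι : Type} [Fintype ι] [Nonempty ι] (a : ι → ℝ) : (𝔼 i, a i) ^ 2 ≤ 𝔼 i, a i ^ 2 := by
  simpa using Finset.expect_mul_sq_le_sq_mul_sq Finset.univ a fun _ => 1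

lemma sq_int (X : Sy) {G : X.X → ℂ} (hG : MB X G) :
    (∫ x, G x ∂X.μ).re ^ 2 ≤ ∫ x, ‖G x‖ ^ 2 ∂X.μ := by
  have i1 := (hG.integrable X.μ).norm
  have i2 : Integrable (fun x => ‖G x‖ ^ 2) X.μ := by
    simpa only [norm_mul, RCLike.norm_conj, sq] using ((hG.mul hG.cj).integrable X.μ).norm
  obtain ⟨c, hc⟩ : ∃ c, c = ∫ x, ‖G x‖ ∂X.μ := ⟨_, rfl⟩
  have h1 : |(∫ x, G x ∂X.μ).re| ≤ c :=
    (Complex.abs_re_le_norm _).trans (hc ▸ norm_integral_le_integral_norm _)
  have h2 : ∫ x, (2 * c * ‖G x‖ - c ^ 2) ∂X.μ ≤ ∫ x, ‖G x‖ ^ 2 ∂X.μ :=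
    integral_mono ((i1.const_mul _).sub (integrable_const _)) i2 fun x => by
      nlinarith [sq_nonneg (‖G x‖ - c)]
  rw [integral_sub (i1.const_mul _) (integrable_const _), integral_const_mul, ← hc,
    integral_const, probReal_univ, one_smul] at h2
  have h3 := pow_le_pow_left₀ (abs_nonneg _) h1 2
  rw [sq_abs] at h3
  linarith

lemma mono' (X : Sy) (u : Gm 2) (L : List (Gm 2)) (H : ℕ) (hH : 1 ≤ H) {g : X.X → ℂ}
    (hg : MB X g) : QE X L H g ^ 2 ≤ QE X (L ++ [u]) H g := by
  have : Nonempty (Fin H) := ⟨⟨0, hH⟩⟩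
  induction L generalizing g with
  | nil =>
    rw [List.nil_append, one X u H hg, nil]
    refine le_trans (le_of_eq ?_) (sq_int X (av X u H hg))
    rw [T3S.integral_exp _ fun h _ => ((act X).tz hg _).integrable X.μ]
    simp only [(act X).integral _ hg.1.aestronglyMeasurable, Fintype.expect_const]
  | cons v L ih =>
    rw [List.cons_append, cons, cons]
    refine (jen _).trans (Finset.expect_le_expect fun h _ => ?_)
    exact (jen _).trans (Finset.expect_le_expect fun h' _ => ih ((act X).dd hg _))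

lemma elc' (X : Sy) (Φ : ℕ → (X.X → ℂ) → (X.X → ℂ) → ℝ) (Ψ : (X.X → ℂ) → (X.X → ℂ) → ℝ)
    (F : X.X → ℂ) (ε K : ℝ) (H : ℕ) (hH : 1 ≤ H) (L : List (Gm 2)) (j : ℕ)
    (h : ∀ f g, MB X f → g ∈ Der X F (j + L.length) → ∀ᶠ M in atTop, Φ M f g ≤ ε + K * Ψ f g)
    (f g : X.X → ℂ) (hf : MB X f) (hg : g ∈ Der X F j) :
    ∀ᶠ M in atTop, EL X H L (Φ M) f g ≤ ε + K * EL X H L Ψ f g := by
  have : Nonempty (Fin H) := ⟨⟨0, hH⟩⟩
  induction L generalizing j f g with
  | nil => exact h f g hf hg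
  | cons u L ih =>
    have h' : ∀ f g, MB X f → g ∈ Der X F (j + 1 + L.length) →
        ∀ᶠ M in atTop, Φ M f g ≤ ε + K * Ψ f g := by
      rw [add_assoc, add_comm 1]; exact h
    filter_upwards [eventually_all.2 fun a : Fin H => eventually_all.2 fun a' : Fin H =>
      ih (j + 1) h' _ _ ((act X).dd hf ((((a' : ℕ) : ℤ) - ((a : ℕ) : ℤ)) • u))
        ⟨(((a' : ℕ) : ℤ) - ((a : ℕ) : ℤ)) • u, g, hg, rfl⟩] with M hM
    simp only [EL]
    refine (Finset.expect_le_expect fun a _ => Finset.expect_le_expect fun a' _ =>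
      hM a a').trans (le_of_eq ?_)
    simp only [Finset.expect_add_distrib, Fintype.expect_const, Finset.mul_expect]

end QB

open QB in
theorem qb : QBR := by
  intro hP
  have perm : ∀ X (L L' : List (Gm 2)) H g, L.Perm L' → QE X L H g = QE X L' H g :=
    fun X L L' H g h => hP 2 X.X X.μ X.A (act X) _ _ (h.map _) g
  refine ⟨fun X L H g g' h => ?_, perm, fun X u L H g => ?_, fun X L H g hL hg => ?_,
    fun X L H g hg => ?_, fun X L H g v hg => (act X).QX_tz _ v hg, fun X L H g => ?_,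
    fun X L L' H f g => ?_, fun X L L' H f g => ?_, fun X u L H g hH hg => ?_,
    fun X Φ Ψ F ε K H L hH hF h f hf => ?_, fun X F k G hF hG => ?_, fun n ε hε => ?_⟩
  · induction L generalizing g g' with
    | nil => rw [nil, nil, integral_congr_ae h]
    | cons u L ih =>
      rw [cons, cons]
      refine Finset.expect_congr rfl fun a _ => Finset.expect_congr rfl fun a' _ => ih _ _ ?_
      filter_upwards [h, ((act X).mp ((((a' : ℕ) : ℤ) - ((a : ℕ) : ℤ)) • u)
        ).quasiMeasurePreserving.ae h] with x h1 h2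
      simp only [ddX, h1, h2]
  · rw [cons, cons, Finset.expect_comm]
    refine Finset.expect_congr rfl fun a _ => Finset.expect_congr rfl fun a' _ => ?_
    rw [smul_neg, ← neg_smul, neg_sub]
  · induction L generalizing g with
    | nil => exact absurd rfl hL
    | cons u L ih =>
      rcases eq_or_ne L [] with rfl | h
      · rw [one X u H hg]
        exact integral_nonneg fun _ => by positivity
      · rw [cons]
        exact Finset.expect_nonneg fun a _ => Finset.expect_nonneg fun a' _ =>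
          ih _ h ((act X).dd hg _)
  · induction L generalizing g with
    | nil =>
      rw [nil]
      refine (Complex.re_le_norm _).trans ?_
      simpa using norm_integral_le_of_norm_le_const (μ := X.μ) (Eventually.of_forall hg.2)
    | cons u L ih =>
      rw [cons]
      exact T3S.exp_le_of_le zero_le_one fun a _ => T3S.exp_le_of_le zero_le_one fun a' _ =>
        ih _ ((act X).dd hg _)
  · induction L generalizing g with
    | nil => rw [nil, nil, integral_conj, Complex.conj_re]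
    | cons u L ih =>
      rw [cons, cons]
      refine Finset.expect_congr rfl fun a _ => Finset.expect_congr rfl fun a' _ => ?_
      rw [← ih (ddX _ _ g)]
      congr 1
      funext x
      simp only [ddX, map_mul]
  · induction L generalizing f g with
    | nil => rfl
    | cons u L ih =>
      rw [List.cons_append, cons]
      exact Finset.expect_congr rfl fun a _ => Finset.expect_congr rfl fun a' _ => ih _ _
  · induction L generalizing f g with
    | nil => rfl
    | cons u L ih =>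
      rw [List.cons_append, cons]
      exact Finset.expect_congr rfl fun a _ => Finset.expect_congr rfl fun a' _ => ih _ _
  · rw [← perm X _ _ H g (List.perm_append_singleton u L)]
    exact mono' X u L H hH hg
  · exact elc' X Φ Ψ F ε K H hH L 0 (by rwa [zero_add]) f F hf
      ⟨0, funext fun x => by rw [(act X).zero]⟩
  · induction k generalizing G with
    | zero =>
      obtain ⟨w, rfl⟩ := hG
      exact ⟨(act X).tz hF w, fun v => ⟨w + v, funext fun x => by rw [(act X).add]⟩⟩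
    | succ k ih =>
      obtain ⟨w, G', h1, rfl⟩ := hG
      refine ⟨(act X).dd (ih G' h1).1 w, fun v => ⟨w, _, (ih G' h1).2 v, funext fun x => ?_⟩⟩
      simp only [ddX, (act X).comm v]
  · obtain ⟨m, hm⟩ : ∃ m, 2 ^ n = m + 1 := ⟨2 ^ n - 1, by have := Nat.one_le_two_pow (n := n); omega⟩
    refine ⟨1 / ε ^ m, by positivity, fun x y hy h => ?_⟩
    have h0 : 0 ≤ 1 / ε ^ m * y := by positivity
    rcases le_or_gt x ε with h1 | h1
    · linarith
    · have h2 : x * ε ^ m ≤ y := by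
        rw [hm, pow_succ'] at h
        exact (mul_le_mul_of_nonneg_left (pow_le_pow_left₀ hε.le h1.le m) (hε.trans h1).le).trans h
      have h3 : x ≤ 1 / ε ^ m * y := by
        rwa [one_div, ← div_eq_inv_mul, le_div_iff₀ (by positivity)]
      linarith

end T6

end

end PkQB

section PkScale

/-! Row Scale: long boxes are below boxes of given lengths. -/

set_option autoImplicit false
set_option linter.unusedVariables false
set_option warn.classDefReducibility false

open MeasureTheory ProbabilityTheory Filter Topology Function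
open scoped BigOperators ComplexConjugate InnerProductSpace

noncomputable section

namespace T6

open Pool.Agent.MP_154433_an hiding BM
open T3S (B1 MB1)
open T4S (Gm Act ddX QX ln Fam)

namespace Scale

variable {l : ℕ} {X : Type} [MeasurableSpace X] {μ : Measure X} {A : Gm l → X → X}

/-- composition with one map of the action -/
def V (hA : Act μ A) (v : Gm l) : Lp ℂ 2 μ →ₗᵢ[ℂ] Lp ℂ 2 μ :=
  Lp.compMeasurePreservingₗᵢ ℂ (A v) (hA.mp v)

lemma V_ae (hA : Act μ A) (v : Gm l) (f : Lp ℂ 2 μ) :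
    (V hA v f : X → ℂ) =ᵐ[μ] fun x => f (A v x) :=
  Lp.coeFn_compMeasurePreserving f (hA.mp v)

lemma V_add (hA : Act μ A) (v w : Gm l) (f : Lp ℂ 2 μ) : V hA (v + w) f = V hA w (V hA v f) := by
  refine Lp.ext ?_
  have h1 := (hA.mp w).quasiMeasurePreserving.ae_eq_comp (V_ae hA v f)
  filter_upwards [V_ae hA (v + w) f, V_ae hA w (V hA v f), h1] with x e1 e2 e3
  rw [e1, e2, hA.add]
  exact e3.symm

/-- the average over a family of steps -/
def av (hA : Act μ A) (F : Fam l) (f : Lp ℂ 2 μ) : Lp ℂ 2 μ :=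
  ((Fintype.card F.ι : ℂ))⁻¹ • ∑ h : F.ι, V hA (F.a h) f

lemma inner_V (hA : Act μ A) {g : X → ℂ} (hg : MB1 g) {G : Lp ℂ 2 μ} (hG : (G : X → ℂ) =ᵐ[μ] g)
    (v w : Gm l) : ⟪V hA v G, V hA w G⟫_ℂ = ∫ x, ddX A (w - v) g x ∂μ := by
  rw [← hA.integral v (hA.dd hg (w - v)).1.aestronglyMeasurable, L2.inner_def]
  refine integral_congr_ae ?_
  have h1 := (hA.mp v).quasiMeasurePreserving.ae_eq_comp hG
  have h2 := (hA.mp w).quasiMeasurePreserving.ae_eq_comp hG
  filter_upwards [V_ae hA v G, V_ae hA w G, h1, h2] with x e1 e2 e3 e4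
  simp only [Function.comp_apply] at e3 e4
  rw [e1, e2, e3, e4, ddX, ← hA.add, sub_add_cancel]
  simp

lemma QX_eq (hA : Act μ A) {g : X → ℂ} (hg : MB1 g) {G : Lp ℂ 2 μ} (hG : (G : X → ℂ) =ᵐ[μ] g)
    (F : Fam l) : QX μ A [F] g = ‖av hA F G‖ ^ 2 := by
  rw [← @inner_self_eq_norm_sq ℂ, av, inner_smul_left, inner_smul_right, sum_inner]
  simp only [inner_sum, inner_V hA hg hG, QX, Fintype.expect_eq_sum_div_card]
  rw [← Finset.sum_div, div_div, ← mul_assoc]
  have : conj ((Fintype.card F.ι : ℂ))⁻¹ * ((Fintype.card F.ι : ℂ))⁻¹ =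
      ((((Fintype.card F.ι : ℝ) * (Fintype.card F.ι : ℝ))⁻¹ : ℝ) : ℂ) := by
    rw [map_inv₀, Complex.conj_natCast]
    push_cast
    rw [mul_inv]
  rw [this, RCLike.re_to_complex, Complex.re_ofReal_mul, div_eq_inv_mul]
  simp only [Complex.re_sum]

lemma shift_le {E : Type} [SeminormedAddCommGroup E] {F : ℕ → E} (hF : ∀ n, ‖F n‖ ≤ 1) (H k : ℕ) :
    ‖∑ h ∈ Finset.range H, F h - ∑ h ∈ Finset.range H, F (k + h)‖ ≤ 2 * k := by
  have e1 := Finset.sum_range_add F k H
  have e2 := Finset.sum_range_add F H k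
  rw [add_comm H k, e1] at e2
  have e3 : ∑ h ∈ Finset.range H, F h - ∑ h ∈ Finset.range H, F (k + h) =
      ∑ h ∈ Finset.range k, F h - ∑ h ∈ Finset.range k, F (H + h) := by
    rw [sub_eq_sub_iff_add_eq_add, ← e2]
  have b : ∀ G : ℕ → E, (∀ n, ‖G n‖ ≤ 1) → ‖∑ h ∈ Finset.range k, G h‖ ≤ k := fun G hG =>
    (norm_sum_le _ _).trans ((Finset.sum_le_sum fun n _ => hG n).trans (by simp))
  rw [e3]
  refine (norm_sub_le _ _).trans ?_
  linarith [b F hF, b (fun h => F (H + h)) fun n => hF _]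

lemma norm_av (hA : Act μ A) (u : Gm l) (G : Lp ℂ 2 μ) (H : ℕ) : ‖av hA (ln u H) G‖ =
    ‖∑ h ∈ Finset.range H, V hA (((h : ℕ) : ℤ) • u) G‖ / H := by
  have h2 : av hA (ln u H) G =
      ((Fintype.card (Fin H) : ℂ))⁻¹ • ∑ h : Fin H, V hA (((h : ℕ) : ℤ) • u) G := rfl
  rw [h2, Finset.sum_range, Fintype.card_fin, norm_smul, norm_inv, Complex.norm_natCast,
    div_eq_inv_mul]

lemma one [IsProbabilityMeasure μ] (hA : Act μ A) (u : Gm l) {H K : ℕ} (hH : 1 ≤ H) (hK : 1 ≤ K)
    {g : X → ℂ} (hg : MB1 g) : QX μ A [ln u H] g ≤ QX μ A [ln u K] g + 4 * K / H := by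
  have hm : MemLp g 2 μ := MemLp.of_bound hg.1.aestronglyMeasurable 1 (ae_of_all _ hg.2)
  have hG : ((hm.toLp g : Lp ℂ 2 μ) : X → ℂ) =ᵐ[μ] g := hm.coeFn_toLp
  have hn : ‖hm.toLp g‖ ≤ 1 := by
    have := Lp.norm_le_of_ae_bound (f := hm.toLp g) zero_le_one (by
      filter_upwards [hG] with x hx
      rw [hx]
      exact hg.2 x)
    simpa [measureUnivNNReal] using this
  rw [QX_eq hA hg hG, QX_eq hA hg hG, norm_av, norm_av]
  generalize hm.toLp g = G at hn
  obtain ⟨F, hF⟩ : ∃ F : ℕ → Lp ℂ 2 μ, F = fun h : ℕ => V hA (((h : ℕ) : ℤ) • u) G := ⟨_, rfl⟩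
  have hF' : ∀ h : ℕ, V hA (((h : ℕ) : ℤ) • u) G = F h := fun h => by rw [hF]
  simp only [hF']
  have h1 : ∀ n, ‖F n‖ ≤ 1 := fun n => by rw [← hF', LinearIsometry.norm_map]; exact hn
  have b : ∀ k : ℕ, ‖∑ h ∈ Finset.range k, F h‖ ≤ k := fun k =>
    (norm_sum_le _ _).trans ((Finset.sum_le_sum fun n _ => h1 n).trans (by simp))
  have hH0 : (0 : ℝ) < H := by exact_mod_cast hH
  have hK0 : (0 : ℝ) < K := by exact_mod_cast hK
  have h2 : ‖∑ k ∈ Finset.range K, ∑ h ∈ Finset.range H, F (k + h)‖ ≤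
      H * ‖∑ k ∈ Finset.range K, F k‖ := by
    rw [Finset.sum_comm]
    refine (norm_sum_le _ _).trans ((Finset.sum_le_sum (g := fun _ =>
      ‖∑ k ∈ Finset.range K, F k‖) fun h _ => le_of_eq ?_).trans (by simp))
    rw [← (V hA (((h : ℕ) : ℤ) • u)).norm_map (∑ k ∈ Finset.range K, F k), map_sum]
    congr 1
    refine Finset.sum_congr rfl fun k _ => ?_
    rw [← hF', ← hF', ← V_add, Nat.cast_add, add_smul]
  have h3 : ‖∑ k ∈ Finset.range K, (∑ h ∈ Finset.range H, F h -
      ∑ h ∈ Finset.range H, F (k + h))‖ ≤ K * (2 * K) := by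
    refine (norm_sum_le _ _).trans ((Finset.sum_le_sum (g := fun _ => 2 * (K : ℝ))
      fun k hk => (shift_le h1 H k).trans ?_).trans (by simp))
    have : (k : ℝ) ≤ K := by exact_mod_cast (Finset.mem_range.1 hk).le
    linarith
  have h4 : (K : ℝ) * ‖∑ h ∈ Finset.range H, F h‖ ≤
      H * ‖∑ k ∈ Finset.range K, F k‖ + K * (2 * K) := by
    have e : (K : ℝ) * ‖∑ h ∈ Finset.range H, F h‖ =
        ‖∑ k ∈ Finset.range K, ∑ h ∈ Finset.range H, F (k + h) +
          ∑ k ∈ Finset.range K, (∑ h ∈ Finset.range H, F h -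
            ∑ h ∈ Finset.range H, F (k + h))‖ := by
      rw [← Finset.sum_add_distrib]
      simp only [add_sub_cancel, Finset.sum_const, Finset.card_range]
      rw [← Nat.cast_smul_eq_nsmul ℝ, norm_smul, Real.norm_natCast]
    rw [e]
    exact (norm_add_le _ _).trans (add_le_add h2 h3)
  have h5 : ‖∑ h ∈ Finset.range H, F h‖ / H ≤ ‖∑ k ∈ Finset.range K, F k‖ / K + 2 * K / H := by
    rw [div_add_div _ _ hK0.ne' hH0.ne', div_le_div_iff₀ hH0 (by positivity)]
    nlinarith [mul_le_mul_of_nonneg_right h4 hH0.le]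
  have h6 : ‖∑ h ∈ Finset.range H, F h‖ / H ≤ 1 := (div_le_one hH0).2 (b H)
  have h7 : ‖∑ h ∈ Finset.range K, F h‖ / K ≤ 1 := (div_le_one hK0).2 (b K)
  have h8 : 0 ≤ ‖∑ h ∈ Finset.range H, F h‖ / H := by positivity
  have h9 : 0 ≤ ‖∑ h ∈ Finset.range K, F h‖ / K := by positivity
  have h10 : 0 ≤ 2 * (K : ℝ) / H := by positivity
  have e : 4 * (K : ℝ) / H = 2 * (2 * K / H) := by ring
  rw [e]
  generalize ‖∑ h ∈ Finset.range H, F h‖ / H = a at *
  generalize ‖∑ h ∈ Finset.range K, F h‖ / K = c at *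
  generalize 2 * (K : ℝ) / H = t at *
  nlinarith

lemma exp_le_add {ι : Type} [Fintype ι] {a b : ι → ℝ} {ε : ℝ} (hε : 0 ≤ ε)
    (h : ∀ i, a i ≤ b i + ε) : 𝔼 i, a i ≤ (𝔼 i, b i) + ε := by
  rcases isEmpty_or_nonempty ι with hι | hι
  · simp [hε]
  · calc 𝔼 i, a i ≤ 𝔼 i, (b i + ε) := Finset.expect_le_expect fun i _ => h i
      _ = (𝔼 i, b i) + ε := by
        rw [Finset.expect_add_distrib, Finset.expect_const Finset.univ_nonempty]

lemma last [IsProbabilityMeasure μ] (hA : Act μ A) (u : Gm l) {H K : ℕ} (hH : 1 ≤ H) (hK : 1 ≤ K)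
    (L : List (Fam l)) : ∀ g : X → ℂ, MB1 g →
      QX μ A (L ++ [ln u H]) g ≤ QX μ A (L ++ [ln u K]) g + 4 * K / H := by
  induction L with
  | nil => intro g hg; exact one hA u hH hK hg
  | cons F L ih =>
    intro g hg
    simp only [List.cons_append, QX]
    exact exp_le_add (by positivity) fun h => exp_le_add (by positivity) fun h' =>
      ih _ (hA.dd hg _)

lemma all (hP : T4S.PermS) [IsProbabilityMeasure μ] (hA : Act μ A) {H : ℕ} (hH : 1 ≤ H)
    {g : X → ℂ} (hg : MB1 g) (L : List (Gm l × ℕ)) : (∀ p ∈ L, 1 ≤ p.2) → ∀ L0 : List (Fam l),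
      QX μ A (L0 ++ L.map fun p => ln p.1 H) g ≤
        QX μ A (L0 ++ L.map fun p => ln p.1 p.2) g + 4 * ((L.map Prod.snd).sum : ℕ) / H := by
  induction L with
  | nil => intro _ L0; simp
  | cons p L ih =>
    intro h L0
    have h1 := last hA p.1 hH (h p List.mem_cons_self) (L0 ++ L.map fun p => ln p.1 H) g hg
    have h2 := ih (fun q hq => h q (List.mem_cons_of_mem _ hq)) (L0 ++ [ln p.1 p.2])
    have pm : ∀ F : Fam l, QX μ A ((L0 ++ L.map fun p => ln p.1 H) ++ [F]) g =
        QX μ A (L0 ++ F :: L.map fun p => ln p.1 H) g := fun F =>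
      hP l X μ A hA _ _ (by
        rw [List.append_assoc]
        exact List.Perm.append_left _ (List.perm_append_singleton _ _)) g
    rw [pm, pm] at h1
    simp only [List.append_assoc, List.singleton_append] at h2
    simp only [List.map_cons, List.sum_cons, Nat.cast_add, mul_add, add_div]
    linarith

end Scale

theorem scale : ScaleR := by
  intro hP _ X L g hg hL ε hε
  have ht : Tendsto (fun H : ℕ => 4 * (((L.map Prod.snd).sum : ℕ) : ℝ) / H) atTop (𝓝 0) :=
    tendsto_const_div_atTop_nhds_zero_nat _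
  filter_upwards [ht.eventually (gt_mem_nhds hε), eventually_ge_atTop 1] with H h1 h2
  have h := Scale.all hP (act X) h2 hg L hL []
  simp only [List.nil_append] at h
  simp only [QE, QL, List.map_map]
  exact h.trans (by linarith)

end T6

end

end PkScale

section PkGcsB

/-! Row GcsB: the Cauchy-Schwarz bound for one block. -/

set_option autoImplicit false
set_option linter.unusedVariables false
set_option warn.classDefReducibility false

open MeasureTheory ProbabilityTheory Filter Topology Function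
open scoped BigOperators ComplexConjugate

noncomputable section

namespace T6

open Pool.Agent.MP_154433_an hiding BM
open T3S (B1 MB1 dif norm_exp_le norm_exp_le_of meas_exp integral_exp re_exp conj_exp exp_le_of_le)
open T4S (Gm Act ddX QX ln)
open T3S.Gcs (pow_exp_le exp_cons)

namespace GcsB

variable {l : ℕ} {X : Type} [MeasurableSpace X] {μ : Measure X} [IsProbabilityMeasure μ]
  {A : Gm l → X → X} {H : ℕ}

/-- the total shift -/
def tot {k : ℕ} (u : Fin k → Gm l) (h : Fin k → Fin H) : Gm l := ∑ i, ((h i : ℕ) : ℤ) • u i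

/-- the multilinear form -/
def Lam (μ : Measure X) (A : Gm l → X → X) {k : ℕ} (u : Fin k → Gm l) (Ψ : X → ℂ)
    (B : Fin k → (Fin k → Fin H) → X → ℂ) : ℂ :=
  𝔼 h : Fin k → Fin H, ∫ x, Ψ (A (tot u h) x) * ∏ i, B i h x ∂μ

lemma tot_cons {k : ℕ} (u : Fin (k + 1) → Gm l) (a : Fin H) (t : Fin k → Fin H) :
    tot u (Fin.cons a t) = ((a : ℕ) : ℤ) • u 0 + tot (fun j => u j.succ) t := by
  simp only [tot, Fin.sum_univ_succ, Fin.cons_zero, Fin.cons_succ]

lemma cs {f : X → ℂ} (hf : MB1 f) : (∫ x, ‖f x‖ ∂μ) ^ 2 ≤ (∫ x, f x * conj (f x) ∂μ).re := by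
  have m : AEStronglyMeasurable (fun x => ‖f x‖) μ := hf.1.norm.aestronglyMeasurable
  have h2 : MemLp (fun x => ‖f x‖) 2 μ :=
    MemLp.of_bound m 1 (Eventually.of_forall fun x => by simpa using hf.2 x)
  have h3 := variance_nonneg (fun x => ‖f x‖) μ
  rw [variance_eq_sub h2] at h3
  have h4 : ∫ x, f x * conj (f x) ∂μ = ((∫ x, ‖f x‖ ^ 2 ∂μ : ℝ) : ℂ) := by
    rw [← integral_complex_ofReal]
    exact integral_congr_ae (Eventually.of_forall fun x => by
      simp only [Complex.mul_conj, Complex.normSq_eq_norm_sq])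
  rw [h4, Complex.ofReal_re]
  exact sub_nonneg.1 h3

/-- the new function -/
def nΨ (A : Gm l → X → X) (v : Gm l) (Ψ : X → ℂ) (a a' : Fin H) (y : X) : ℂ :=
  ddX A ((((a' : ℕ) : ℤ) - ((a : ℕ) : ℤ)) • v) Ψ (A (((a : ℕ) : ℤ) • v) y)

/-- the new factors -/
def nB {k : ℕ} (B : Fin (k + 1) → (Fin (k + 1) → Fin H) → X → ℂ) (a a' : Fin H) (j : Fin k)
    (t : Fin k → Fin H) (x : X) : ℂ :=
  B j.succ (Fin.cons a' t) x * conj (B j.succ (Fin.cons a t) x)

lemma step (hA : Act μ A) (hH : 1 ≤ H) {k : ℕ} (u : Fin (k + 1) → Gm l) {Ψ : X → ℂ} (hΨ : MB1 Ψ)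
    {B : Fin (k + 1) → (Fin (k + 1) → Fin H) → X → ℂ} (hB : ∀ i h, MB1 (B i h))
    (hI : ∀ i h a, B i (update h i a) = B i h) :
    ‖Lam μ A u Ψ B‖ ^ 2 ≤ 𝔼 a : Fin H, 𝔼 a' : Fin H,
      (Lam μ A (fun j => u j.succ) (nΨ A (u 0) Ψ a a') (nB B a a')).re := by
  have a0 : Fin H := ⟨0, hH⟩
  have : Nonempty (Fin H) := ⟨a0⟩
  set G : (Fin k → Fin H) → Fin H → X → ℂ := fun t a x =>
    Ψ (A (tot u (Fin.cons a t)) x) * ∏ j : Fin k, B j.succ (Fin.cons a t) x with hG
  have mG : ∀ t a, MB1 (G t a) := fun t a =>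
    (hA.tz hΨ _).mul (T3S.MB1.prod _ fun j _ => hB _ _)
  set F : (Fin k → Fin H) → X → ℂ := fun t x => 𝔼 a, G t a x with hF
  have mF : ∀ t, MB1 (F t) := fun t =>
    ⟨meas_exp _ fun a _ => (mG t a).1, fun x => norm_exp_le_of zero_le_one fun a _ => (mG t a).2 x⟩
  have e1 : Lam μ A u Ψ B = 𝔼 t, ∫ x, B 0 (Fin.cons a0 t) x * F t x ∂μ := by
    rw [Lam, exp_cons, Finset.expect_comm]
    refine Finset.expect_congr rfl fun t _ => ?_
    simp only [hF, Finset.mul_expect]
    rw [integral_exp _ fun a _ => ((hB _ _).mul (mG t a)).integrable μ]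
    refine Finset.expect_congr rfl fun a _ => ?_
    refine integral_congr_ae (Eventually.of_forall fun x => ?_)
    have e : B 0 (Fin.cons a t) = B 0 (Fin.cons a0 t) := by
      rw [← hI 0 (Fin.cons a0 t) a, Fin.update_cons_zero]
    simp only [hG, Fin.prod_univ_succ, e]
    ring
  have h1 : ‖Lam μ A u Ψ B‖ ≤ 𝔼 t, ∫ x, ‖F t x‖ ∂μ := by
    rw [e1]
    refine (norm_exp_le _ _).trans (Finset.expect_le_expect fun t _ => ?_)
    refine (norm_integral_le_integral_norm _).trans (integral_mono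
      (((hB _ _).mul (mF t)).integrable μ).norm ((mF t).integrable μ).norm fun x => ?_)
    simp only [norm_mul]
    exact mul_le_of_le_one_left (norm_nonneg _) ((hB _ _).2 x)
  have h2 : (𝔼 t, ∫ x, ‖F t x‖ ∂μ) ^ 2 ≤ 𝔼 t, (∫ x, F t x * conj (F t x) ∂μ).re :=
    (pow_exp_le _ (fun t => integral_nonneg fun x => norm_nonneg _) 2).trans
      (Finset.expect_le_expect fun t _ => cs (mF t))
  refine (pow_le_pow_left₀ (norm_nonneg _) h1 2).trans (h2.trans (le_of_eq ?_))
  have e2 : ∀ t, ∫ x, F t x * conj (F t x) ∂μ =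
      𝔼 a : Fin H, 𝔼 a' : Fin H, ∫ x, G t a' x * conj (G t a x) ∂μ := fun t => by
    have e : ∀ x, F t x * conj (F t x) = 𝔼 a, 𝔼 a', G t a' x * conj (G t a x) := fun x => by
      simp only [hF]
      rw [conj_exp, Finset.mul_expect]
      exact Finset.expect_congr rfl fun a _ => Finset.expect_mul _ _ _
    have m1 : ∀ a, MB1 fun x => 𝔼 a', G t a' x * conj (G t a x) := fun a =>
      ⟨meas_exp _ fun a' _ => ((mG t a').mul (mG t a).cj).1,
        fun x => norm_exp_le_of zero_le_one fun a' _ => ((mG t a').mul (mG t a).cj).2 x⟩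
    simp only [e]
    rw [integral_exp _ fun a _ => (m1 a).integrable μ]
    exact Finset.expect_congr rfl fun a _ =>
      integral_exp _ fun a' _ => ((mG t a').mul (mG t a).cj).integrable μ
  simp only [e2, Lam, re_exp]
  rw [Finset.expect_comm]
  refine Finset.expect_congr rfl fun a _ => ?_
  rw [Finset.expect_comm]
  refine Finset.expect_congr rfl fun a' _ => Finset.expect_congr rfl fun t _ => ?_
  congr 2
  funext x
  simp only [hG, nΨ, nB, ddX, tot_cons, ← hA.add, map_mul, map_prod, Finset.prod_mul_distrib]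
  rw [sub_smul, ← add_assoc, sub_add_cancel]
  ring

lemma main (hA : Act μ A) (hH : 1 ≤ H) (k : ℕ) (u : Fin (k + 1) → Gm l) {Ψ : X → ℂ} (hΨ : MB1 Ψ)
    {B : Fin (k + 1) → (Fin (k + 1) → Fin H) → X → ℂ} (hB : ∀ i h, MB1 (B i h))
    (hI : ∀ i h a, B i (update h i a) = B i h) :
    ‖Lam μ A u Ψ B‖ ^ 2 ^ (k + 1) ≤ QX μ A ((List.ofFn u).map fun v => ln v H) Ψ := by
  have : Nonempty (Fin H) := ⟨⟨0, hH⟩⟩
  induction k generalizing Ψ with
  | zero =>
    have e : 2 ^ (0 + 1) = 2 := by norm_num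
    rw [e, List.ofFn_succ, List.map_cons, T4S.QX_ln]
    refine (step hA hH u hΨ hB hI).trans (le_of_eq ?_)
    refine Finset.expect_congr rfl fun a _ => Finset.expect_congr rfl fun a' _ => ?_
    rw [← hA.QX_tz _ (((a : ℕ) : ℤ) • u 0) (hA.dd hΨ _)]
    simp [Lam, tot, hA.zero, QX, nΨ]
  | succ k ih =>
    rw [pow_succ' 2 (k + 1), pow_mul, List.ofFn_succ, List.map_cons, T4S.QX_ln]
    have h1 : ‖Lam μ A u Ψ B‖ ^ 2 ≤ 𝔼 a : Fin H, 𝔼 a' : Fin H,
        ‖Lam μ A (fun j => u j.succ) (nΨ A (u 0) Ψ a a') (nB B a a')‖ :=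
      (step hA hH u hΨ hB hI).trans (Finset.expect_le_expect fun a _ =>
        Finset.expect_le_expect fun a' _ => Complex.re_le_norm _)
    refine (pow_le_pow_left₀ (sq_nonneg _) h1 _).trans ?_
    refine (pow_exp_le _ (fun a => Finset.expect_nonneg fun _ _ => norm_nonneg _) _).trans ?_
    refine Finset.expect_le_expect fun a _ => ?_
    refine (pow_exp_le _ (fun _ => norm_nonneg _) _).trans ?_
    refine Finset.expect_le_expect fun a' _ => ?_
    rw [← hA.QX_tz _ (((a : ℕ) : ℤ) • u 0) (hA.dd hΨ _)]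
    refine ih _ (hA.tz (hA.dd hΨ _) _) (fun j t => (hB _ _).mul (hB _ _).cj) fun j t b => ?_
    funext x
    simp only [nB, Fin.cons_update, hI]

lemma blk_le (hA : Act μ A) (hH : 1 ≤ H) (k : ℕ) (u : Fin (k + 1) → Gm l) {Ψ : X → ℂ}
    (hΨ : MB1 Ψ) {β : Fin (k + 1) → (Fin (k + 1) → ℤ) → X → ℂ} (hβ : ∀ i τ, MB1 (β i τ)) :
    ‖∫ x, Ψ x * 𝔼 h : Fin (k + 1) → Fin H, 𝔼 h' : Fin (k + 1) → Fin H,
      ∏ i, β i (update (dif h h') i 0) (A (dif h h' i • u i) x) ∂μ‖ ^ 2 ^ (k + 1) ≤
      QX μ A ((List.ofFn u).map fun v => ln v H) Ψ := by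
  have : Nonempty (Fin H) := ⟨⟨0, hH⟩⟩
  set B : (Fin (k + 1) → Fin H) → Fin (k + 1) → (Fin (k + 1) → Fin H) → X → ℂ := fun h' i h x =>
    β i (update (dif h h') i 0) (A (dif h h' i • u i + tot u h) x) with hB
  have mP : ∀ h h' : Fin (k + 1) → Fin H, MB1 fun x =>
      Ψ x * ∏ i, β i (update (dif h h') i 0) (A (dif h h' i • u i) x) := fun h h' =>
    hΨ.mul (T3S.MB1.prod _ fun i _ => hA.tz (hβ _ _) _)
  have e1 : ∫ x, Ψ x * 𝔼 h : Fin (k + 1) → Fin H, 𝔼 h' : Fin (k + 1) → Fin H,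
      ∏ i, β i (update (dif h h') i 0) (A (dif h h' i • u i) x) ∂μ =
      𝔼 h', Lam μ A u Ψ (B h') := by
    simp only [Finset.mul_expect, Lam]
    have m1 : ∀ h : Fin (k + 1) → Fin H, MB1 fun x => 𝔼 h' : Fin (k + 1) → Fin H,
        Ψ x * ∏ i, β i (update (dif h h') i 0) (A (dif h h' i • u i) x) := fun h =>
      ⟨meas_exp _ fun h' _ => (mP h h').1,
        fun x => norm_exp_le_of zero_le_one fun h' _ => (mP h h').2 x⟩
    rw [integral_exp _ fun h _ => (m1 h).integrable μ, Finset.expect_comm]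
    refine Finset.expect_congr rfl fun h _ => ?_
    rw [integral_exp _ fun h' _ => (mP h h').integrable μ]
    refine Finset.expect_congr rfl fun h' _ => ?_
    rw [← hA.integral (tot u h) (mP h h').1.aestronglyMeasurable]
    simp only [hB, hA.add]
  rw [e1]
  refine (pow_le_pow_left₀ (norm_nonneg _) (norm_exp_le _ _) _).trans ?_
  refine (pow_exp_le _ (fun _ => norm_nonneg _) _).trans ?_
  refine Finset.expect_le Finset.univ_nonempty fun h' _ => ?_
  refine main hA hH k u hΨ (fun i h => hA.tz (hβ _ _) _) fun i h a => ?_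
  have e2 : update (dif (update h i a) h') i 0 = update (dif h h') i 0 := by
    funext j
    by_cases hj : j = i
    · subst hj
      simp
    · simp [hj, dif]
  have e3 : ∀ g : Fin (k + 1) → Fin H, dif g h' i • u i + tot u g =
      ((h' i : ℕ) : ℤ) • u i + ∑ j ∈ Finset.univ.erase i, ((g j : ℕ) : ℤ) • u j := fun g => by
    rw [tot, ← Finset.add_sum_erase _ _ (Finset.mem_univ i), dif, sub_smul, ← add_assoc,
      sub_add_cancel]
  funext x
  simp only [hB, e2, e3]
  congr 3
  exact Finset.sum_congr rfl fun j hj => by rw [update_of_ne (Finset.ne_of_mem_erase hj)]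

end GcsB

theorem gcsB : GcsBR := by
  intro _ X L H Ψ β hL hH hΨ hβ
  cases L with
  | nil => exact absurd rfl hL
  | cons v L =>
    have h := GcsB.blk_le (act X) hH L.length (v :: L).get hΨ hβ
    rw [List.ofFn_get] at h
    exact h

end T6

end

end PkGcsB

section PkNulInv

/-! One direction of a box may be read through its invariant factor. -/

set_option autoImplicit false
set_option linter.unusedVariables false
set_option warn.classDefReducibility false

open MeasureTheory ProbabilityTheory Filter Topology Function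
open scoped BigOperators ComplexConjugate

noncomputable section

namespace T6

open Pool.Agent.MP_154433_an hiding BM
open T3S (B1 MB1 re_exp conj_exp meas_exp norm_exp_le_of)
open T4S (Gm Act ddX QX ln QX_ln Fam)
open T4x (Fac Fd Inv)

namespace NulInv

lemma app (X : Sy) (H : ℕ) (M : List (Fam 2)) (L : List (Gm 2)) (f g : X.X → ℂ) :
    QX X.μ X.A ((L.map fun u => ln u H) ++ M) f =
      EL X H L (fun f' _ => QX X.μ X.A M f') f g := by
  induction L generalizing f g with
  | nil => rfl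
  | cons u L ih =>
    rw [List.map_cons, List.cons_append, QX_ln]
    simp only [EL]
    exact Finset.expect_congr rfl fun h _ => Finset.expect_congr rfl fun h' _ => ih _ _

/-- the average along one line -/
def av (X : Sy) (u : Gm 2) (M : ℕ) (G : X.X → ℂ) (x : X.X) : ℂ :=
  𝔼 h : Fin M, G (X.A (((h : ℕ) : ℤ) • u) x)

lemma av_MB (X : Sy) (u : Gm 2) (M : ℕ) (G : X.X → ℂ) (hG : MB X G) : MB X (av X u M G) :=
  ⟨meas_exp _ fun h _ => ((act X).tz hG _).1,
    fun x => norm_exp_le_of zero_le_one fun h _ => hG.2 _⟩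

lemma av_eq (X : Sy) (u : Gm 2) (M : ℕ) (G : X.X → ℂ) (x : X.X) :
    av X u M G x = (M : ℂ)⁻¹ * ∑ n ∈ Finset.range M, G (X.Tz ((n : ℤ) • u) x) := by
  rw [av, Finset.expect_eq_sum_div_card, Finset.card_univ, Fintype.card_fin,
    ← Fin.sum_univ_eq_sum_range (fun n : ℕ => G (X.Tz ((n : ℤ) • u) x)) M, div_eq_inv_mul]

lemma one (X : Sy) (u : Gm 2) (M : ℕ) (G : X.X → ℂ) (hG : MB X G) :
    QX X.μ X.A [ln u M] G = ∫ x, ‖av X u M G x‖ ^ 2 ∂X.μ := by
  have hA := act X
  have hm : ∀ h h' : Fin M, MB X fun x =>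
      G (X.A (((h' : ℕ) : ℤ) • u) x) * conj (G (X.A (((h : ℕ) : ℤ) • u) x)) :=
    fun h h' => (hA.tz hG _).mul (hA.tz hG _).cj
  have e1 : ∀ h h' : Fin M,
      ∫ x, ddX X.A ((((h' : ℕ) : ℤ) - ((h : ℕ) : ℤ)) • u) G x ∂X.μ =
      ∫ x, G (X.A (((h' : ℕ) : ℤ) • u) x) * conj (G (X.A (((h : ℕ) : ℤ) • u) x)) ∂X.μ := by
    intro h h'
    rw [← hA.integral (((h : ℕ) : ℤ) • u) (hA.dd hG _).1.aestronglyMeasurable]
    refine integral_congr_ae (Eventually.of_forall fun x => ?_)
    simp only [ddX]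
    rw [← hA.add, ← add_smul, sub_add_cancel]
  have e2 : ∀ x, ((‖av X u M G x‖ ^ 2 : ℝ) : ℂ) = 𝔼 h : Fin M, 𝔼 h' : Fin M,
      G (X.A (((h' : ℕ) : ℤ) • u) x) * conj (G (X.A (((h : ℕ) : ℤ) • u) x)) := by
    intro x
    rw [Complex.ofReal_pow, ← Complex.mul_conj', av, conj_exp, Finset.mul_expect]
    exact Finset.expect_congr rfl fun h _ => Finset.expect_mul _ _ _
  rw [QX_ln]
  simp only [QX, e1]
  have e3 : ((∫ x, ‖av X u M G x‖ ^ 2 ∂X.μ : ℝ) : ℂ) = 𝔼 h : Fin M, 𝔼 h' : Fin M,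
      ∫ x, G (X.A (((h' : ℕ) : ℤ) • u) x) * conj (G (X.A (((h : ℕ) : ℤ) • u) x)) ∂X.μ := by
    rw [← integral_complex_ofReal]
    simp only [e2]
    rw [T3S.integral_exp]
    · exact Finset.expect_congr rfl fun h _ =>
        T3S.integral_exp _ fun h' _ => (hm h h').integrable X.μ
    · intro h _
      exact MB1.integrable ⟨meas_exp _ fun h' _ => (hm h h').1,
        fun x => norm_exp_le_of zero_le_one fun h' _ => (hm h h').2 x⟩ X.μ
  rw [← Complex.ofReal_re (∫ x, ‖av X u M G x‖ ^ 2 ∂X.μ), e3, re_exp]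
  exact Finset.expect_congr rfl fun h _ => (re_exp _ _).symm

lemma lim (F : Fd) (X : Sy) (u : Gm 2) (G : X.X → ℂ) (hG : MB X G) (ε : ℝ) (hε : 0 < ε) :
    ∀ᶠ M in atTop, QX X.μ X.A [ln u M] G ≤
      ε + 2 * ∫ x, ‖(X.μ[G | Inv X {u}]) x‖ ^ 2 ∂X.μ := by
  have h2 : MemLp G 2 X.μ :=
    MemLp.of_bound hG.1.aestronglyMeasurable 1 (Eventually.of_forall hG.2)
  have hc : MemLp (X.μ[G | Inv X {u}]) 2 X.μ := h2.condExp one_le_two
  have ht := F.met X u G h2
  filter_upwards [ht.eventually (gt_mem_nhds (half_pos hε))] with M hM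
  rw [one X u M G hG]
  have ha := av_MB X u M G hG
  have ha2 : MemLp (av X u M G) 2 X.μ :=
    MemLp.of_bound ha.1.aestronglyMeasurable 1 (Eventually.of_forall ha.2)
  have i1 : Integrable (fun x => ‖av X u M G x - (X.μ[G | Inv X {u}]) x‖ ^ 2) X.μ :=
    (memLp_two_iff_integrable_sq_norm (ha2.sub hc).1).1 (ha2.sub hc)
  have i2 : Integrable (fun x => ‖(X.μ[G | Inv X {u}]) x‖ ^ 2) X.μ :=
    (memLp_two_iff_integrable_sq_norm hc.1).1 hc
  have i0 : Integrable (fun x => ‖av X u M G x‖ ^ 2) X.μ :=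
    (memLp_two_iff_integrable_sq_norm ha2.1).1 ha2
  have le : ∫ x, ‖av X u M G x‖ ^ 2 ∂X.μ ≤
      ∫ x, (2 * ‖av X u M G x - (X.μ[G | Inv X {u}]) x‖ ^ 2 +
        2 * ‖(X.μ[G | Inv X {u}]) x‖ ^ 2) ∂X.μ := by
    refine integral_mono i0 ((i1.const_mul 2).add (i2.const_mul 2)) fun x => ?_
    have h := norm_le_norm_sub_add (av X u M G x) ((X.μ[G | Inv X {u}]) x)
    have h0 := norm_nonneg (av X u M G x)
    have h3 := pow_le_pow_left₀ h0 h 2
    show ‖av X u M G x‖ ^ 2 ≤ _
    nlinarith [sq_nonneg (‖av X u M G x - (X.μ[G | Inv X {u}]) x‖ - ‖(X.μ[G | Inv X {u}]) x‖)]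
  rw [integral_add (i1.const_mul 2) (i2.const_mul 2), integral_const_mul, integral_const_mul] at le
  simp only [← av_eq] at hM
  linarith

end NulInv

theorem nulInv : NulInvR := by
  intro F hP hQ hS X u L g hg h ε hε
  obtain ⟨H, hH, hE⟩ := h (ε / 8) (by positivity)
  have h1 := hQ.elc X (fun M f _ => QX X.μ X.A [ln u M] f)
    (fun G _ => ∫ x, ‖(X.μ[G | Inv X {u}]) x‖ ^ 2 ∂X.μ) g (ε / 4) 2 H L hH hg
    (fun f g' hf _ => NulInv.lim F X u f hf _ (by positivity)) g hg
  obtain ⟨M, hM, hM1⟩ := (h1.and (eventually_ge_atTop 1)).exists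
  have h2 := hS X ((u, M) :: L.map fun v => (v, H)) g hg (by
    intro p hp
    rcases List.mem_cons.1 hp with rfl | hp
    · exact hM1
    · obtain ⟨v, -, rfl⟩ := List.mem_map.1 hp
      exact hH) (ε / 2) (half_pos hε)
  obtain ⟨H', h3, h4⟩ := (h2.and (eventually_ge_atTop 1)).exists
  refine ⟨H', h4, ?_⟩
  have e1 : ((u, M) :: L.map fun v => (v, H)).map Prod.fst = u :: L := by
    simp [List.map_map, Function.comp_def]
  have e2 : QL X ((u, M) :: L.map fun v => (v, H)) g =
      EL X H L (fun f _ => QX X.μ X.A [ln u M] f) g g := by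
    rw [← NulInv.app X H [ln u M] L g g, QL]
    refine hP 2 X.X X.μ X.A (act X) _ _ ?_ g
    rw [List.map_cons, List.map_map]
    exact (List.perm_append_singleton _ _).symm
  rw [e1, e2] at h3
  linarith

end T6

end

end PkNulInv

section PkLink

/-! The box functional along lines is a correlation with a block measurable in the factor. -/

set_option autoImplicit false
set_option linter.unusedVariables false
set_option warn.classDefReducibility false

open MeasureTheory ProbabilityTheory Filter Topology Function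
open scoped BigOperators ComplexConjugate

noncomputable section

namespace T6

open Pool.Agent.MP_154433_an hiding BM
open T3S (B1 MB1 dif norm_exp_le_of norm_prod_le_one meas_exp conj_exp re_exp)
open T4S (Gm Act ddX QX ln)
open T4x (Fac)

namespace Link

lemma exp_cons {n : ℕ} {α : Type} [Fintype α] (F : (Fin (n + 1) → α) → ℂ) :
    𝔼 h, F h = 𝔼 a, 𝔼 h : Fin n → α, F (Fin.cons a h) := by
  rw [← Finset.expect_product' _ _ fun a (h : Fin n → α) => F (Fin.cons a h),
    Finset.univ_product_univ]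
  exact (Fintype.expect_equiv (Fin.consEquiv fun _ => α) _ _ fun _ => rfl).symm

lemma dif_cons {n H : ℕ} (a a' : Fin H) (h h' : Fin n → Fin H) :
    dif (Fin.cons a h : Fin (n + 1) → Fin H) (Fin.cons a' h') =
      Fin.cons (((a' : ℕ) : ℤ) - ((a : ℕ) : ℤ)) (dif h h') := by
  funext j
  refine Fin.cases rfl (fun j => rfl) j

lemma blk_cons (X : Sy) {n : ℕ} (u : Fin (n + 1) → Gm 2) (H : ℕ) (g : X.X → ℂ)
    (γ : ℤ → Fin n → (Fin n → ℤ) → X.X → ℂ) (x : X.X) :
    blk X u H (Fin.cons (fun _ y => conj (g y))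
      fun j τ y => conj (γ (τ 0) j (Fin.tail τ) y)) x =
    𝔼 a : Fin H, 𝔼 a' : Fin H, conj (g (X.A ((((a' : ℕ) : ℤ) - ((a : ℕ) : ℤ)) • u 0) x) *
      blk X (Fin.tail u) H (γ (((a' : ℕ) : ℤ) - ((a : ℕ) : ℤ))) x) := by
  rw [blk, exp_cons]
  refine Finset.expect_congr rfl fun a _ => ?_
  simp only [exp_cons (α := Fin H)]
  rw [Finset.expect_comm]
  refine Finset.expect_congr rfl fun a' _ => ?_
  simp only [blk, Finset.mul_expect, conj_exp]
  refine Finset.expect_congr rfl fun h _ => Finset.expect_congr rfl fun h' _ => ?_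
  rw [Fin.prod_univ_succ, map_mul, map_prod, dif_cons]
  simp only [Fin.cons_zero, Fin.cons_succ, ← Fin.cons_update, Fin.tail_cons]
  rfl

lemma blk_MB (X : Sy) {k : ℕ} (u : Fin k → Gm 2) (H : ℕ)
    {β : Fin k → (Fin k → ℤ) → X.X → ℂ} (hβ : ∀ i τ, MB X (β i τ)) : MB X (blk X u H β) :=
  ⟨meas_exp _ fun h _ => meas_exp _ fun h' _ =>
    Finset.measurable_prod _ fun i _ => ((act X).tz (hβ _ _) _).1, fun x =>
    norm_exp_le_of zero_le_one fun h _ => norm_exp_le_of zero_le_one fun h' _ =>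
      norm_prod_le_one _ fun i _ => (hβ _ _).2 _⟩

lemma cjY {α : Type} {Y : MeasurableSpace α} {g : α → ℂ} (hg : Measurable[Y] g) :
    Measurable[Y] fun x => conj (g x) :=
  Complex.continuous_conj.measurable.comp hg

lemma ddY (X : Sy) {Y : MeasurableSpace X.X} (hY : Fac X Y) {g : X.X → ℂ}
    (hg : Measurable[Y] g) (v : Gm 2) : Measurable[Y] (ddX X.A v g) := by
  have h : Measurable[Y, Y] (X.A v) := measurable_iff_comap_le.2 (hY.inv v)
  exact (hg.comp h).mul (cjY hg)

lemma main (X : Sy) (H n : ℕ) (P : (X.X → ℂ) → Prop) (P1 : ∀ g, P g → P fun x => conj (g x))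
    (P2 : ∀ g v, P g → P (ddX X.A v g)) : ∀ (u : Fin n → Gm 2) (g : X.X → ℂ), MB X g → P g →
    ∃ β : Fin n → (Fin n → ℤ) → X.X → ℂ, (∀ i τ, MB X (β i τ) ∧ P (β i τ)) ∧
      QX X.μ X.A (List.ofFn fun i => ln (u i) H) g = (∫ x, g x * blk X u H β x ∂X.μ).re := by
  induction n with
  | zero => exact fun u g hg hP => ⟨Fin.elim0, fun i => i.elim0, by simp [QX, blk]⟩
  | succ n ih =>
    intro u g hg hP
    choose γ h1 h2 using fun t : ℤ =>
      ih (Fin.tail u) _ ((act X).dd hg (t • u 0)) (P2 g (t • u 0) hP)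
    refine ⟨Fin.cons (fun _ y => conj (g y)) fun j τ y => conj (γ (τ 0) j (Fin.tail τ) y),
      fun i τ => Fin.cases ⟨hg.cj, P1 _ hP⟩ (fun j => ⟨(h1 _ _ _).1.cj, P1 _ (h1 _ _ _).2⟩) i, ?_⟩
    have m : ∀ t : ℤ, MB X fun x => conj (ddX X.A (t • u 0) g x *
        blk X (Fin.tail u) H (γ t) x) := fun t =>
      (((act X).dd hg _).mul (blk_MB X _ H fun i τ => (h1 t i τ).1)).cj
    have e : ∀ x (t : ℤ), g x * conj (g (X.A (t • u 0) x) * blk X (Fin.tail u) H (γ t) x) =
        conj (ddX X.A (t • u 0) g x * blk X (Fin.tail u) H (γ t) x) := fun x t => by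
      simp only [ddX, map_mul, RCLike.conj_conj]
      ring
    rw [List.ofFn_succ, T4S.QX_ln]
    have h3 : ∀ t : ℤ, QX X.μ X.A (List.ofFn fun i : Fin n => ln (u i.succ) H)
        (ddX X.A (t • u 0) g) =
        (∫ x, ddX X.A (t • u 0) g x * blk X (Fin.tail u) H (γ t) x ∂X.μ).re := h2
    simp only [h3, blk_cons, Finset.mul_expect, e]
    rw [T3S.integral_exp, re_exp]
    · refine Finset.expect_congr rfl fun a _ => ?_
      rw [T3S.integral_exp _ fun a' _ => (m _).integrable X.μ, re_exp]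
      exact Finset.expect_congr rfl fun a' _ => by rw [integral_conj, Complex.conj_re]
    · exact fun a _ => MB1.integrable ⟨meas_exp _ fun a' _ => (m _).1,
        fun x => norm_exp_le_of zero_le_one fun a' _ => (m _).2 x⟩ X.μ

end Link

theorem link : LinkR := by
  intro _ X Y L H g hY hg hgY
  obtain ⟨β, h1, h2⟩ := Link.main X H L.length (fun g => Measurable[Y] g)
    (fun g h => Link.cjY h) (fun g v h => Link.ddY X hY h v) L.get g hg hgY
  refine ⟨β, h1, ?_⟩
  rw [← h2, QE]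
  congr 1
  conv_lhs => rw [← List.ofFn_get L, List.map_ofFn]
  rfl

end T6

end

end PkLink

section PkMono

/-! Row Mono: the box functional of a conditional expectation. -/

set_option autoImplicit false
set_option linter.unusedVariables false
set_option warn.classDefReducibility false

open MeasureTheory ProbabilityTheory Filter Topology Function
open scoped BigOperators ComplexConjugate

noncomputable section

namespace T6

open Pool.Agent.MP_154433_an hiding BM
open T3S (B1 MB1 PW AsInv Erg Bd Near Gr yw dif CZ)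
open T4S (Gm Act ddX QX ln Spr Concl)
open Fib27 (BM)
open T3x (nul pull gen)
open T4x (Fac Emb Inv Nice Pair Star KK Fd)

namespace Mono

theorem exp_meas {Ω ι : Type} [Fintype ι] {m : MeasurableSpace Ω} {f : ι → Ω → ℂ}
    (h : ∀ i, Measurable[m] (f i)) : Measurable[m] fun x => 𝔼 i, f i x := by
  simp only [Finset.expect_eq_sum_div_card]
  exact (Finset.measurable_sum _ fun i _ => h i).div_const _

theorem exp_le {ι : Type} [Fintype ι] {f : ι → ℂ} (h : ∀ i, ‖f i‖ ≤ 1) : ‖𝔼 i, f i‖ ≤ 1 := by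
  rw [Finset.expect_eq_sum_div_card, norm_div, Complex.norm_natCast]
  refine div_le_one_of_le₀ ((norm_sum_le _ _).trans ?_) (Nat.cast_nonneg _)
  simpa using Finset.sum_le_sum (s := Finset.univ) fun i _ => h i

theorem int_ce {Ω : Type} {Y : MeasurableSpace Ω} {m0 : MeasurableSpace Ω} (μ : Measure Ω)
    [IsProbabilityMeasure μ] (hY : Y ≤ m0) {G b : Ω → ℂ} (hG : Integrable G μ)
    (hb : Measurable[Y] b) (h1 : ∀ x, ‖b x‖ ≤ 1) :
    ∫ x, (μ[G | Y]) x * b x ∂μ = ∫ x, G x * b x ∂μ := by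
  have hi : Integrable (G * b) μ :=
    hG.mul_bdd (hb.mono hY le_rfl).aestronglyMeasurable (ae_of_all _ h1)
  have e := condExp_bilin_of_stronglyMeasurable_right (μ := μ) (ContinuousLinearMap.mul ℝ ℂ)
    hb.stronglyMeasurable hi hG
  exact (integral_congr_ae e).symm.trans (integral_condExp hY)

end Mono

theorem mono : MonoR := by
  intro F vb qb link gcs X Y L H G G' hY hL hH hG hG'
  obtain ⟨g, hg, hm⟩ := vb.ver X Y G hY hG
  obtain ⟨β, hβ, e⟩ := link X Y L H g hY hg.1 hm
  have mb : Measurable[Y] (blk X L.get H β) :=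
    Mono.exp_meas fun h => Mono.exp_meas fun h' => Finset.measurable_prod _ fun i _ =>
      (hβ i _).2.comp (Measurable.of_comap_le (hY.inv _))
  have b1 : ∀ x, ‖blk X L.get H β x‖ ≤ 1 := fun x =>
    Mono.exp_le fun h => Mono.exp_le fun h' => by
      rw [norm_prod]
      exact Finset.prod_le_one (fun i _ => norm_nonneg _) fun i _ => (hβ i _).1.2 _
  have hi : Integrable G X.μ := Integrable.of_bound hG.1.aestronglyMeasurable 1 (ae_of_all _ hG.2)
  have e2 : ∫ x, g x * blk X L.get H β x ∂X.μ = ∫ x, G x * blk X L.get H β x ∂X.μ := by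
    rw [← Mono.int_ce X.μ hY.le hi mb b1]
    refine integral_congr_ae ?_
    filter_upwards [hg.2] with x hx
    rw [hx]
  rw [qb.congr X L H G' g (hG'.2.trans hg.2.symm)]
  refine (pow_le_pow_left₀ (qb.nonneg X L H g hL hg.1) ?_ _).trans
    (gcs X L H G β hL hH hG fun i τ => (hβ i τ).1)
  rw [e, e2]
  exact Complex.re_le_norm _

end T6

end

end PkMono
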