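import Pool.Agent.MP_154433_an.p4.All
import Pool.Agent.MP_154433_an.p8.Core
import Pool.Agent.MP_154433_an.p9.S1
import Pool.Agent.MP_154433_an.p9.A
import Pool.Agent.MP_154433_an.p9.B
import Pool.Agent.MP_154433_an.p9.C
import Pool.Agent.MP_154433_an.p9.D

/-! Two commuting maps, weak convergence: assembly. -/

section PkAsm

/-! Assembly of the rows. -/

set_option autoImplicit false
set_option linter.unusedVariables false
set_option warn.classDefReducibility false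

open MeasureTheory ProbabilityTheory Filter Topology Function
open scoped BigOperators ComplexConjugate

noncomputable section

namespace T8

open Pool.Agent.MP_154433_an hiding BM
open T3S (B1 MB1 PW AsInv Erg Bd Near Gr yw nu nb)
open T4S (Gm Spr)
open T4x (Fd Nice)
open T6 (Sy MB rr VB QB NulInv LiftA LbS G0S df AS)

structure Rows : Prop where
  atm : AtR
  uw : UwR
  tsAe : TsAeR
  tsN : TsNR
  prod : ProdR
  good : GoodR
  conv : ConvR
  dw : DwR
  unif : UnifR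
  detU : DetUR
  eb : EBR
  sel : SelR
  fin : FinR
  pdA : PdAR
  pd : PdR
  met : MetR
  eig : EigR
  wb : WBR
  cl : ClR
  stB : StBR
  stS : StSR
  lift : LiftR
  nul : NulR
  dc : DcR
  dbl : DblR
  has : HasR
  key : KeyR
  own : OwnR
  forr : ForR
  hull : HullR
  top : TopR
  endA : EndAR
  endB : EndBR

/-- what is taken from the earlier directories -/
structure Old : Prop where
  fd : Fd
  fd3 : T3x.Fd
  core : ∀ ν, T5y.UW ν → T5y.CoreF ν
  ind : T4x.IndS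
  vb : VB
  qb : QB
  ni : NulInv
  la : LiftA
  lb : LbS
  g0 : G0S
  tw : T6.Tw2 (rr 0) (rr 1) ∧ T6.Tw2 (rr 1) (rr 0)
  ergL : T5u.ErgL
  net : T5u.NetT
  act : T4S.ActS
  cls : T4S.ClsS
  spr : T4S.SprS
  vdc : T3S.VdcS
  gvn : T3S.GvnS
  fac : T3S.FacS
  zero : T3S.ZeroS
  ub : T3S.UbS
  ae : T3S.AeS
  nrm : T3S.NormS
  erg : T3S.ErgS

theorem ufOf (R : Rows) (O : Old) {ν ν' : ℕ → ℕ → ℝ} (h1 : PW ν) (h2 : PW ν') (e1 : Erg ν)
    (e2 : Erg ν') (a1 : At ν) (a2 : At ν') (hi : AsInv ν') (hs : TS (df ν ν')) :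
    UF (df ν ν') := by
  have b : T3x.Bas := ⟨O.fd3.a, O.fd3.t, O.fd3.d, O.fd3.c⟩
  have bd : Bd (df ν ν') := T3S.Asm.bd_sub h1 h2
  intro X u g ξ hg hξ
  have mg : Fib27.BM (X.res u).μ (X.res u).ms g :=
    ⟨hg.1.aestronglyMeasurable, 1, Eventually.of_forall hg.2⟩
  have h := (R.conv b ν ν' h1 h2 (X.res u) g (fun _ => ξ) mg fun _ => hξ).2
    (R.detU O.fd3 O.core _ _ (R.uw b O.ergL ν h1 e1 a1) (R.uw b O.ergL ν' h2 e2 a2) (fun Y => by
      have hB := T3S.Bridge.fac_to Y _ (O.fac 2 Y.X Y.μ Y.T Y.mp).1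
      exact ⟨_, hB.1, hB.2, fun f hf β hβ => (R.conv b ν ν' h1 h2 Y f β (hf.mono hB.1.le) hβ).1
        (R.good R.prod _ bd hs Y f hf β hβ),
        R.unif O.fac O.zero (R.dw O.vdc O.gvn) ν' h2 hi Y⟩) (X.res u) g ξ mg hξ)
  simp only [SW, sw, O.fd.t.res] at h
  exact h

theorem detOf (R : Rows) (O : Old) {ν ν' : ℕ → ℕ → ℝ} (h1 : PW ν) (h2 : PW ν') (e1 : Erg ν)
    (e2 : Erg ν') (s1 : Spr ν) (s2 : Spr ν') (hi : AsInv ν') (hu : UF (df ν ν'))
    (X : Sy) (f g : X.X → ℂ) (hf : MB X f) (hg : MB X g) :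
    VW X (rr 0) (rr 1) (df ν ν') f g := by
  have F := O.fd
  have vb := O.vb
  have wb := R.wb F
  have eb := R.eb F vb
  have eig := R.eig F vb O.ni eb R.sel R.fin (R.pd F vb (R.pdA F vb)) (R.met F)
  have cl := R.cl F vb eb
  have li := R.lift F vb wb O.la
  have nl := R.nul F vb O.qb eb O.la O.lb cl eig
  have hs := R.has F vb eb O.la cl li nl (R.dbl F vb wb eb O.la O.g0 cl (R.stB F vb wb eb)
    (R.stS F vb wb eb) li nl (R.dc F eb))
  have ky := R.key F
  refine R.top F O.ind vb wb ν ν' h1 h2 e1 e2 s1 s2 (fun Y hY => ?_) X f g hf hg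
  obtain ⟨B, hB⟩ := hs ν ν' h1 h2 hi hu _ _ O.tw.1 Y hY
  obtain ⟨B', hB'⟩ := hs ν ν' h1 h2 hi hu _ _ O.tw.2 Y hY
  exact R.hull F vb wb (R.own F vb wb ky O.g0) (R.forr F vb wb ky O.g0) ν ν' h1 h2 hi Y B B' hY
    hB hB'

theorem mainOf (R : Rows) (O : Old) : MainS := by
  intro σ hσ ha hg Ω _ P _ E hE hind hP
  have h0 : ∀ n, 0 ≤ σ n := fun n => (hσ n).1
  have hW := T3S.Asm.wt_tendsto h0 hg
  filter_upwards [R.tsAe O.net O.ub O.ae O.nrm σ hσ hg Ω P E hE hind hP,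
    O.ae σ hσ Ω P E hE hind hP hg, O.cls σ hσ Ω P E hE hind hP hg]
    with ω u1 u4 u5 X _ μ _ T f hT hC hf
  obtain ⟨a1, a2, a3, a4, a5⟩ := O.nrm.1 σ _ h0 hW u4.1
  have hi := O.nrm.2.2.2 σ h0 ha hW
  have e2 : Erg (nb σ) := O.erg.1 _ a2 hi
  have e1 : Erg (nu fun m => ω ∈ E m) := O.erg.2 _ _ e2 (O.nrm.2.1 _ _ a4 u4.1)
  obtain ⟨s1, s2⟩ := O.spr _ _ _ a2 hi a4 u5
  obtain ⟨t1, t2⟩ := R.atm σ _ hσ hg a5
  have a4' : Near (yw σ fun m => ω ∈ E m) (df (nu fun m => ω ∈ E m) (nb σ)) := by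
    refine a4.congr fun M => Finset.sum_congr rfl fun d _ => abs_sub_comm _ _
  refine R.endB σ _ h0 ha hW a5 X μ T hT hC
    (R.endA O.act _ (fun Y f g hf hg => ?_) X μ T hT hC) f hf
  exact (R.wb O.fd).near Y _ _ _ _ f g a4' hf hg
    (detOf R O a1 a2 e1 e2 s1 s2 hi (ufOf R O a1 a2 e1 e2 t1 t2 hi (R.tsN _ _ a4 u1)) Y f g hf hg)

end T8

end

end PkAsm

section PkOldP

/-! The facts of the earlier directories that the rows use. -/

set_option autoImplicit false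

namespace T8

open Pool.Agent.MP_154433_an hiding BM

theorem old : Old :=
  have F := @T4x.fdX T6.G2
  have vb := T6.vb F
  have qb := T6.qb T4S.perm
  have ni := T6.nulInv F T4S.perm qb (T6.scale T4S.perm qb)
  { fd := F
    fd3 := T3x.fdX
    core := T5y.coreAll
    ind := T4x.indX (fun G => @T4A.xAlg G (@T4x.basX G).t (@T4x.fdX G).mix) T6.G2
    vb := vb
    qb := qb
    ni := ni
    la := T6.liftA F
    lb := T6.lb F vb qb ni
    g0 := T6.g0 (T4S.gvn T3S.vdc) vb qb (T6.mono F vb qb (T6.link F) (T6.gcsB qb))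
    tw := T6.near.tw
    ergL := T5u.ergL T3x.basX
    net := T5u.netT (T5u.netP (T3S.apx T3S.shift (T3S.dual T3S.gcs T3S.win)) (T3F.covZ (T3u.cyc T4S.invG)))
    act := T4S.act
    cls := T4S.clsr T3S.ub T4S.cnt
    spr := T4S.spr
    vdc := T3S.vdc
    gvn := T3S.gvn T3S.vdc
    fac := T3S.fac
    zero := T3S.zero T3S.nest T3S.link
    ub := T3S.ub
    ae := T3S.aeAll
    nrm := T3S.nrm
    erg := T3S.erg T3S.vn }

end T8

end PkOldP

section PkFinP

set_option autoImplicit false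

namespace T8

theorem rows : Rows :=
  ⟨atm, uw, tsAe, tsN, prod, good, conv, dw, unif, detU, eb, sel, fin, pdA, pd, met, eig, wb, cl,
    stB, stS, lift, nul, dc, dbl, has, key, own, forr, hull, top, endA, endB⟩

/-- two commuting maps, weak convergence in the full range -/
theorem mainAll : MainS := mainOf rows old

end T8

end PkFinP
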